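import Pool.Agent.Lib.MP_ec9812_ag.Div

-- part Pool.Agent.Lib.MP_ec9812_ag.FShA
section

/-! Mayer-Vietoris, Mittag-Leffler and slicing arguments for sheaves of functions. -/

open Set Filter Topology

noncomputable section

namespace Pool.Agent.QMax

theorem slice_induction {a b : ℝ} (hab : a ≤ b) (P : ℝ → ℝ → Prop)
    (hloc : ∀ t ∈ Icc a b, ∃ ε > 0, ∀ s u, a ≤ s → s ≤ u → u ≤ b → t - ε ≤ s → u ≤ t + ε → P s u)
    (hglue : ∀ s t u, a ≤ s → s ≤ t → t ≤ u → u ≤ b → P s t → P t u → P s u) : P a b := by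
  set T : Set ℝ := {u | u ∈ Icc a b ∧ P a u} with hT
  have haT : a ∈ T := by
    obtain ⟨ε, hε, h⟩ := hloc a ⟨le_rfl, hab⟩
    exact ⟨⟨le_rfl, hab⟩, h a a le_rfl le_rfl hab (by linarith) (by linarith)⟩
  have hbdd : BddAbove T := ⟨b, fun u hu => hu.1.2⟩
  have hc : sSup T ∈ Icc a b := ⟨le_csSup hbdd haT, csSup_le ⟨a, haT⟩ fun u hu => hu.1.2⟩
  obtain ⟨ε, hε, h⟩ := hloc _ hc
  obtain ⟨u, hu, hu'⟩ := exists_lt_of_lt_csSup ⟨a, haT⟩ (show sSup T - ε < sSup T by linarith)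
  have huc : u ≤ sSup T := le_csSup hbdd hu
  have huw : u ≤ min b (sSup T + ε) := le_min hu.1.2 (by linarith)
  have hw : P a (min b (sSup T + ε)) :=
    hglue a u _ le_rfl hu.1.1 huw (min_le_left _ _) hu.2
      (h u _ hu.1.1 huw (min_le_left _ _) hu'.le (min_le_right _ _))
  have hwT : min b (sSup T + ε) ≤ sSup T :=
    le_csSup hbdd ⟨⟨hu.1.1.trans huw, min_le_left _ _⟩, hw⟩
  rcases le_total b (sSup T + ε) with h1 | h1
  · rwa [min_eq_left h1] at hw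
  · rw [min_eq_right h1] at hwT
    linarith

variable {X : Type} [TopologicalSpace X]

theorem thin_slab {K O : Set X} (hK : IsCompact K) {κ : X → ℝ} (hκ : ∀ x ∈ K, ContinuousAt κ x)
    (hO : IsOpen O) {t : ℝ} (h : K ∩ κ ⁻¹' {t} ⊆ O) :
    ∃ ε > 0, K ∩ κ ⁻¹' Icc (t - ε) (t + ε) ⊆ O := by
  have hC : IsCompact (κ '' (K \ O)) :=
    (hK.diff hO).image_of_continuousOn fun x hx => (hκ x hx.1).continuousWithinAt
  have ht : t ∈ (κ '' (K \ O))ᶜ := by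
    rintro ⟨x, hx, hxt⟩
    exact hx.2 (h ⟨hx.1, hxt⟩)
  obtain ⟨ε, hε, hb⟩ := Metric.isOpen_iff.1 hC.isClosed.isOpen_compl t ht
  refine ⟨ε / 2, half_pos hε, fun x hx => ?_⟩
  by_contra hxO
  refine hb (a := κ x) ?_ ⟨x, ⟨hx.1, hxO⟩, rfl⟩
  have h1 := hx.2.1
  have h2 := hx.2.2
  rw [Metric.mem_ball, Real.dist_eq, abs_lt]
  constructor <;> linarith

namespace FShA

/-- Gluing total functions along a level set. -/
theorem glue_ev {E : X → Type} {K : Set X} {κ : X → ℝ} (hκ : ∀ x ∈ K, ContinuousAt κ x) {t : ℝ}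
    {g₁ g₂ : ∀ y, E y} (h₁₂ : ∀ x ∈ K ∩ κ ⁻¹' {t}, ∀ᶠ y in 𝓝 x, g₁ y = g₂ y) :
    ∃ g : ∀ y, E y, (∀ x ∈ K, κ x ≤ t → ∀ᶠ y in 𝓝 x, g y = g₁ y) ∧
      ∀ x ∈ K, t ≤ κ x → ∀ᶠ y in 𝓝 x, g y = g₂ y := by
  classical
  refine ⟨fun y => if κ y ≤ t then g₁ y else g₂ y, fun x hx hxt => ?_, fun x hx hxt => ?_⟩
  · rcases hxt.eq_or_lt with h | h
    · filter_upwards [h₁₂ x ⟨hx, h⟩] with y hy
      split_ifs
      · rfl
      · exact hy.symm
    · filter_upwards [(hκ x hx).eventually (gt_mem_nhds h)] with y hy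
      rw [if_pos hy.le]
  · rcases hxt.eq_or_lt with h | h
    · filter_upwards [h₁₂ x ⟨hx, h.symm⟩] with y hy
      split_ifs
      · exact hy
      · rfl
    · filter_upwards [(hκ x hx).eventually (lt_mem_nhds h)] with y hy
      rw [if_neg (not_le.2 hy)]

/-- Mayer-Vietoris gluing of trivializations. -/
theorem triv_union {G : FSh X} {V B : Set X} (hV : IsOpen V) (hB : IsOpen B)
    (h₃ : G.Van (V ∩ B)) {a : G.next.next.T} (h₁ : G.next.Triv V a) (h₂ : G.next.Triv B a) :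
    G.next.Triv (V ∪ B) a := by
  classical
  obtain ⟨t₁, ht₁⟩ := h₁
  obtain ⟨t₂, ht₂⟩ := h₂
  obtain ⟨w, hw⟩ := h₃ (t₁ - t₂) fun x hx =>
    FSh.d_eq_iff.1 ((ht₁ x hx.1).symm.trans (ht₂ x hx.2))
  refine ⟨fun y => if y ∈ V then t₁ y else (t₂ + G.d w) y, ?_⟩
  rintro x (hx | hx)
  · rw [ht₁ x hx]
    refine FSh.d_congr ?_
    filter_upwards [hV.mem_nhds hx] with y hy
    rw [if_pos hy]
  · rw [ht₂ x hx]
    have h1 : G.next.d t₂ x = G.next.d (t₂ + G.d w) x := by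
      rw [FSh.d_eq_iff, show t₂ - (t₂ + G.d w) = -G.d w by abel]
      exact neg_mem (FSh.d_mem w x)
    rw [h1]
    refine FSh.d_congr ?_
    filter_upwards [hB.mem_nhds hx] with y hy
    split_ifs with hyV
    · have := hw y ⟨hyV, hy⟩
      rw [Pi.add_apply, ← this, Pi.sub_apply]
      abel
    · rfl

end FShA

namespace FSh

variable {G : FSh X}

/-- Gluing along a face. -/
theorem glue_mem {K : Set X} {κ : X → ℝ} (hκ : ∀ x ∈ K, ContinuousAt κ x) {s t u : ℝ}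
    {g₁ g₂ : G.T} (h₁ : G.IsSec (K ∩ κ ⁻¹' Icc s t) g₁) (h₂ : G.IsSec (K ∩ κ ⁻¹' Icc t u) g₂)
    (h₁₂ : ∀ x ∈ K ∩ κ ⁻¹' {t}, ∀ᶠ y in 𝓝 x, g₁ y = g₂ y) :
    ∃ g, G.IsSec (K ∩ κ ⁻¹' Icc s u) g ∧ (∀ x ∈ K ∩ κ ⁻¹' Icc s t, ∀ᶠ y in 𝓝 x, g y = g₁ y) ∧
      ∀ x ∈ K ∩ κ ⁻¹' Icc t u, ∀ᶠ y in 𝓝 x, g y = g₂ y := by
  obtain ⟨g, hg₁, hg₂⟩ := FShA.glue_ev hκ h₁₂
  refine ⟨g, fun x hx => ?_, fun x hx => hg₁ x hx.1 hx.2.2, fun x hx => hg₂ x hx.1 hx.2.1⟩
  rcases le_total (κ x) t with h | h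
  · exact (mem_congr (hg₁ x hx.1 h)).2 (h₁ x ⟨hx.1, hx.2.1, h⟩)
  · exact (mem_congr (hg₂ x hx.1 h)).2 (h₂ x ⟨hx.1, h, hx.2.2⟩)

theorem split_next {K₁ K₂ K₁₂ : Set X} (h : G.Van K₁₂) : G.next.Split K₁ K₂ K₁₂ := by
  intro g hg
  obtain ⟨t, ht⟩ := h g hg
  refine ⟨G.d t, 0, d_isSec t _, isSec_zero _, fun x hx => ?_⟩
  filter_upwards [next_eventually_eq (hg x hx) (d_mem t x) (ht x hx)] with y hy
  rw [hy, Pi.zero_apply, sub_zero]

theorem van_slice {K : Set X} (hK : IsCompact K) {κ : X → ℝ} (hκ : ∀ x ∈ K, ContinuousAt κ x)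
    {a b : ℝ} (hab : ∀ x ∈ K, κ x ∈ Icc a b) (hv : ∀ t ∈ Icc a b, G.Van (K ∩ κ ⁻¹' {t}))
    (hs : ∀ s t u, a ≤ s → s ≤ t → t ≤ u → u ≤ b →
      G.Split (K ∩ κ ⁻¹' Icc s t) (K ∩ κ ⁻¹' Icc t u) (K ∩ κ ⁻¹' {t})) : G.Van K := by
  rcases K.eq_empty_or_nonempty with rfl | ⟨x₀, hx₀⟩
  · exact van_empty
  intro α hα
  have key : G.Triv (K ∩ κ ⁻¹' Icc a b) α := by
    refine slice_induction ((hab x₀ hx₀).1.trans (hab x₀ hx₀).2)
      (fun s u => G.Triv (K ∩ κ ⁻¹' Icc s u) α) ?_ ?_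
    · intro t ht
      obtain ⟨τ, hτ⟩ := hv t ht α (hα.mono inter_subset_left)
      obtain ⟨ε, hε, hsub⟩ := thin_slab hK hκ (O := interior {x | α x = G.d τ x}) isOpen_interior
        (t := t) fun x hx =>
          mem_interior_iff_mem_nhds.2 (next_eventually_eq (hα x hx.1) (d_mem τ x) (hτ x hx))
      refine ⟨ε, hε, fun s u _ _ _ h1 h2 => ⟨τ, fun x hx => ?_⟩⟩
      exact interior_subset (s := {x | α x = G.d τ x})
        (hsub ⟨hx.1, h1.trans hx.2.1, hx.2.2.trans h2⟩)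
    · rintro s t u h1 h2 h3 h4 ⟨t₁, ht₁⟩ ⟨t₂, ht₂⟩
      obtain ⟨g₁, g₂, hg₁, hg₂, hg⟩ := hs s t u h1 h2 h3 h4 (t₁ - t₂) fun x hx => by
        have hx' : κ x = t := hx.2
        exact d_eq_iff.1 ((ht₁ x ⟨hx.1, h2.trans hx'.ge, hx'.le⟩).symm.trans
          (ht₂ x ⟨hx.1, hx'.ge, hx'.le.trans h3⟩))
      obtain ⟨τ, hτ₁, hτ₂⟩ := FShA.glue_ev (g₁ := t₁ - g₁) (g₂ := t₂ - g₂) hκ (t := t)
        fun x hx => by
          filter_upwards [hg x hx] with y hy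
          rw [Pi.sub_apply] at hy ⊢
          rw [Pi.sub_apply, sub_eq_sub_iff_sub_eq_sub, hy]
      refine ⟨τ, fun x hx => ?_⟩
      rcases le_total (κ x) t with h | h
      · have hx' : x ∈ K ∩ κ ⁻¹' Icc s t := ⟨hx.1, hx.2.1, h⟩
        rw [ht₁ x hx', d_congr (hτ₁ x hx.1 h), d_eq_iff, sub_sub_cancel]
        exact hg₁ x hx'
      · have hx' : x ∈ K ∩ κ ⁻¹' Icc t u := ⟨hx.1, h, hx.2.2⟩
        rw [ht₂ x hx', d_congr (hτ₂ x hx.1 h), d_eq_iff, sub_sub_cancel]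
        exact hg₂ x hx'
  exact key.mono fun x hx => ⟨hx, hab x hx⟩

theorem van_next_union {V B : Set X} (hV : IsOpen V) (hB : IsOpen B) (h₁ : G.next.Van V)
    (h₂ : G.next.Van B) (h₃ : G.Van (V ∩ B)) : G.next.Van (V ∪ B) := fun a ha =>
  FShA.triv_union hV hB h₃ (h₁ a (ha.mono subset_union_left)) (h₂ a (ha.mono subset_union_right))

theorem rinj_bump {V B : Set X} (hV : IsOpen V) (hB : IsOpen B) (h₂ : G.next.Van B)
    (h₃ : G.Van (V ∩ B)) : G.next.RInj V (V ∪ B) := fun a ha h₁ =>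
  FShA.triv_union hV hB h₃ h₁ (h₂ a (ha.mono subset_union_right))

theorem rsur_bump {V B : Set X} (hV : IsOpen V) (hB : IsOpen B) (h₃ : G.Van (V ∩ B)) :
    G.RSur V (V ∪ B) := by
  classical
  intro a ha
  obtain ⟨t, ht⟩ := h₃ a (ha.mono inter_subset_left)
  refine ⟨fun y => if y ∈ V then (a - G.d t) y else 0, ?_, t, fun x hx => ?_⟩
  · rintro x (hx | hx)
    · refine G.next.congr (a := a - G.d t) ?_ (sub_mem (ha x hx) (d_mem t x))
      filter_upwards [hV.mem_nhds hx] with y hy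
      rw [if_pos hy]
    · refine mem_of_eventually_zero ?_
      filter_upwards [hB.mem_nhds hx] with y hy
      split_ifs with hyV
      · rw [Pi.sub_apply, ht y ⟨hyV, hy⟩, sub_self]
      · rfl
  · rw [Pi.sub_apply, if_pos hx, Pi.sub_apply, sub_sub_cancel]

theorem rinj_refl (V : Set X) : G.RInj V V := fun _ _ h => h

theorem rsur_refl (V : Set X) : G.RSur V V := fun a ha =>
  ⟨a, ha, by rw [sub_self]; exact triv_zero V⟩

theorem RInj.trans {V W Z : Set X} (h₁ : G.RInj V W) (h₂ : G.RInj W Z) (h : W ⊆ Z) :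
    G.RInj V Z := fun a ha hV => h₂ a ha (h₁ a (ha.mono h) hV)

theorem RSur.trans {V W Z : Set X} (h₁ : G.RSur V W) (h₂ : G.RSur W Z) (h : V ⊆ W) :
    G.RSur V Z := by
  intro a ha
  obtain ⟨a', ha', h'⟩ := h₁ a ha
  obtain ⟨a'', ha'', h''⟩ := h₂ a' ha'
  refine ⟨a'', ha'', ?_⟩
  rw [show a - a'' = (a - a') + (a' - a'') by abel]
  exact h'.add (h''.mono h)

/-- Mittag-Leffler argument in degrees at least two. -/
theorem van_of_exhaustion {U : Set X} {K : ℕ → Set X} (hm : Monotone K) (hKU : ∀ k, K k ⊆ U)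
    (hU : ∀ x ∈ U, ∃ k, K k ∈ 𝓝 x) (h₁ : ∀ k, G.Van (K k)) (h₂ : ∀ k, G.next.Van (K k)) :
    G.next.Van U := by
  classical
  intro a ha
  have step : ∀ k, ∀ s : {s : G.next.T // ∀ x ∈ K k, a x = G.next.d s x},
      ∃ s' : {s : G.next.T // ∀ x ∈ K (k + 1), a x = G.next.d s x}, ∀ x ∈ K k, s'.1 x = s.1 x := by
    intro k s
    obtain ⟨t, ht⟩ := h₂ (k + 1) a (ha.mono (hKU _))
    obtain ⟨w, hw⟩ := h₁ k (t - s.1) fun x hx =>
      d_eq_iff.1 ((ht x (hm (Nat.le_succ k) hx)).symm.trans (s.2 x hx))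
    refine ⟨⟨t - G.d w, fun x hx => ?_⟩, fun x hx => ?_⟩
    · rw [ht x hx, d_eq_iff, sub_sub_cancel]
      exact d_mem w x
    · change (t - G.d w) x = s.1 x
      rw [Pi.sub_apply, ← hw x hx, Pi.sub_apply, sub_sub_cancel]
  choose F hF using step
  obtain ⟨t₀, ht₀⟩ := h₂ 0 a (ha.mono (hKU _))
  let s : ∀ k, {s : G.next.T // ∀ x ∈ K k, a x = G.next.d s x} :=
    fun k => Nat.rec ⟨t₀, ht₀⟩ (fun k s => F k s) k
  have hs : ∀ i k, i ≤ k → ∀ x ∈ K i, (s k).1 x = (s i).1 x := by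
    intro i k hik x hx
    induction k, hik using Nat.le_induction with
    | base => rfl
    | succ k hik ih => exact (hF k (s k) x (hm hik hx)).trans ih
  refine ⟨fun y => if h : ∃ k, y ∈ K k then (s (Nat.find h)).1 y else 0, fun x hx => ?_⟩
  obtain ⟨k, hk⟩ := hU x hx
  rw [(s k).2 x (mem_of_mem_nhds hk)]
  refine d_congr ?_
  filter_upwards [hk] with y hy
  have h : ∃ k, y ∈ K k := ⟨k, hy⟩
  rw [dif_pos h]
  exact hs _ k (Nat.find_min' h hy) y (Nat.find_spec h)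

theorem van_biUnion_list {𝓑 : Set (Set X)} (ho : ∀ B ∈ 𝓑, IsOpen B)
    (hi : ∀ B ∈ 𝓑, ∀ B' ∈ 𝓑, B ∩ B' ∈ 𝓑) (hv : ∀ B ∈ 𝓑, ∀ j, 1 ≤ j → (iter j G).Van B)
    (L : List (Set X)) (hL : ∀ B ∈ L, B ∈ 𝓑) (j : ℕ) (hj : L.length ≤ j) :
    (iter j G).Van (⋃ B ∈ L, B) := by
  induction hn : L.length generalizing L j with
  | zero =>
    rw [List.length_eq_zero_iff.1 hn]
    simpa using van_empty
  | succ n ih =>
    obtain ⟨B, L', rfl⟩ := List.exists_cons_of_length_eq_add_one hn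
    have hn' : L'.length = n := by simpa using hn
    obtain ⟨j', rfl⟩ : ∃ j', j = j' + 1 := ⟨j - 1, by omega⟩
    have hB : B ∈ 𝓑 := hL B (by simp)
    have hL' : ∀ B' ∈ L', B' ∈ 𝓑 := fun B' h => hL B' (by simp [h])
    have e1 : (⋃ B' ∈ B :: L', B') = (⋃ B' ∈ L', B') ∪ B := by
      ext x
      simp [or_comm]
    have e2 : (⋃ B' ∈ L', B') ∩ B = ⋃ B' ∈ L'.map (· ∩ B), B' := by
      ext x
      simp only [mem_inter_iff, mem_iUnion, List.mem_map, exists_prop]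
      constructor
      · rintro ⟨⟨B', h1, h2⟩, h3⟩
        exact ⟨_, ⟨B', h1, rfl⟩, h2, h3⟩
      · rintro ⟨_, ⟨B', h1, rfl⟩, h2, h3⟩
        exact ⟨⟨B', h1, h2⟩, h3⟩
    rw [e1, iter_succ]
    refine van_next_union (isOpen_biUnion fun B' h => ho B' (hL' B' h)) (ho B hB)
      (ih L' hL' (j' + 1) (by omega) hn') (hv B hB (j' + 1) (by omega)) ?_
    rw [e2]
    refine ih _ ?_ j' (by rw [List.length_map]; omega) (by rw [List.length_map, hn'])
    intro B' h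
    obtain ⟨B'', h1, rfl⟩ := List.mem_map.1 h
    exact hi _ (hL' _ h1) _ hB

end FSh

end Pool.Agent.QMax
end
end

-- part Pool.Agent.Lib.MP_ec9812_ag.ThmAB
section

/-! Theorems A and B: the abstract slicing step. -/

open Set Filter Topology

noncomputable section

namespace Pool.Agent.QMax

variable {X : Type} [TopologicalSpace X] {H : HS X}

namespace ThmAB

open MSh

variable {G : MSh H} {ι κ μ : Type} [Fintype ι] [Fintype κ] [Fintype μ]

omit [Fintype ι] in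
theorem holV_sum {f : X → κ → ℂ} {g : κ → X → ι → ℂ} {y : X} (hf : H.HolV f y)
    (hg : ∀ k, H.HolV (g k) y) : H.HolV (fun z => ∑ k, f z k • g k z) y := fun i => by
  simp only [Finset.sum_apply, Pi.smul_apply, smul_eq_mul]
  exact HS.sum_mem' fun k _ => HS.mul_mem' (hf k) (hg k i)

/-- A family whose span contains generators generates. -/
theorem gen_of_lc {σ : κ → G.T} {s : ι → G.T} {y : X} (h : G.Gen σ y) {g : κ → X → ι → ℂ}
    (hg : ∀ k, H.HolV (g k) y) (he : ∀ k, ∀ᶠ z in 𝓝 y, σ k z = G.lc (g k) s z) :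
    G.Gen s y := fun a ha => by
  obtain ⟨f, hf, hfa⟩ := h a ha
  refine ⟨fun z => ∑ k, f z k • g k z, holV_sum hf hg, ?_⟩
  filter_upwards [hfa, hf.nhds, eventually_all.2 fun k => (hg k).nhds, eventually_all.2 he]
    with z h1 h2 h3 h4
  rw [h1, ← lc_lc s h2 h3]
  exact lc_congr_right h4

theorem lc_single [DecidableEq ι] (i : ι) (s : ι → G.T) (y : X) :
    G.lc (fun _ => Pi.single i 1) s y = s i y := by
  unfold MSh.lc
  rw [Finset.sum_eq_single i]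
  · simp [act_one]
  · intro j _ hj
    simp [Pi.single_eq_of_ne hj, act_zero]
  · simp

theorem gen_of_eq {σ : κ → G.T} {s : ι → G.T} {y : X} (h : G.Gen σ y) (φ : κ → ι)
    (he : ∀ k, ∀ᶠ z in 𝓝 y, σ k z = s (φ k) z) : G.Gen s y := by
  classical
  refine gen_of_lc h (g := fun k _ => Pi.single (φ k) 1) (fun k i => HS.const_mem _ _) fun k => ?_
  filter_upwards [he k] with z hz
  rw [lc_single, hz]

theorem lc_one [DecidableEq ι] (i : ι) (s : ι → G.T) (y : X) :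
    G.lc (fun _ => (1 : Matrix ι ι ℂ) i) s y = s i y := by
  rw [← lc_single i s y]
  congr 1
  funext _ j
  rw [Matrix.one_apply, Pi.single_apply]
  simp only [eq_comm]

omit [Fintype μ] in
theorem lc_mul {A : X → Matrix μ κ ℂ} {B : X → Matrix κ ι ℂ} (s : ι → G.T) {y : X}
    (hA : H.HolM A y) (hB : H.HolM B y) (i : μ) :
    G.lc (fun z => (A z * B z) i) s y =
      G.lc (fun z => A z i) (fun k => G.lc (fun z => B z k) s) y := by
  rw [lc_lc (f := fun z => A z i) (g := fun k z => B z k) s (hA i) hB]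
  congr 1
  funext z j
  simp [Matrix.mul_apply, Finset.sum_apply]

omit [Fintype μ] [Fintype ι] in
theorem holM_mul {A : X → Matrix μ κ ℂ} {B : X → Matrix κ ι ℂ} {y : X}
    (hA : H.HolM A y) (hB : H.HolM B y) : H.HolM (fun z => A z * B z) y := fun i j => by
  simp only [Matrix.mul_apply]
  exact HS.sum_mem' fun k _ => HS.mul_mem' (hA i k) (hB k j)

omit [Fintype μ] [Fintype ι] in
theorem holM_nhds [Finite μ] [Finite ι] {A : X → Matrix μ ι ℂ} {y : X} (hA : H.HolM A y) :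
    ∀ᶠ z in 𝓝 y, H.HolM A z :=
  eventually_all.2 fun i => eventually_all.2 fun j => H.nhds (hA i j)

theorem lc_zero_right (f : X → ι → ℂ) {s : ι → G.T} {y : X} (h : ∀ i, s i y = 0) :
    G.lc f s y = 0 := Finset.sum_eq_zero fun i _ => by rw [h i, map_zero]

/-- The algebra behind the attaching step. -/
theorem lc_cartan [DecidableEq ι] {σ : ι → G.T} {τ : κ → G.T} {m R : X → Matrix ι κ ℂ}
    {k : X → Matrix κ ι ℂ} {P S : X → Matrix ι ι ℂ} {y : X} (hm : H.HolM m y) (hk : H.HolM k y)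
    (hR : H.HolM R y) (hS : H.HolM S y) (h1 : ∀ i, σ i y = G.lc (fun z => m z i) τ y)
    (h2 : ∀ j, τ j y = G.lc (fun z => k z j) σ y)
    (hP : ∀ᶠ z in 𝓝 y, P z = S z * (1 - m z * k z) + R z * k z) (i : ι) :
    G.lc (fun z => P z i) σ y = G.lc (fun z => R z i) τ y := by
  have hmk := holM_mul hm hk
  have hone : H.HolM (fun _ => (1 : Matrix ι ι ℂ)) y := fun _ _ => HS.const_mem _ _
  have hD : H.HolM (fun z => 1 - m z * k z) y := fun a b => HS.sub_mem' (hone a b) (hmk a b)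
  have e1 : G.lc (fun z => P z i) σ y =
      G.lc ((fun z => (S z * (1 - m z * k z) : Matrix ι ι ℂ) i) + fun z => (R z * k z) i) σ y :=
    lc_congr (hP.mono fun z hz => by rw [hz]; rfl)
  have e2 : ∀ j, G.lc (fun z => (1 - m z * k z : Matrix ι ι ℂ) j) σ y = 0 := fun j => by
    have : (fun z => (1 - m z * k z : Matrix ι ι ℂ) j) =
        (fun _ => (1 : Matrix ι ι ℂ) j) - fun z => (m z * k z) j := rfl
    rw [this, lc_sub σ (hone j) (hmk j), lc_one, lc_mul σ hm hk, h1 j, sub_eq_zero]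
    exact lc_congr_right h2
  rw [e1, lc_add σ (holM_mul hS hD i) (holM_mul hR hk i), lc_mul σ hS hD, lc_zero_right _ e2,
    zero_add, lc_mul σ hR hk]
  exact (lc_congr_right h2).symm

end ThmAB

namespace MSh

variable {G : MSh H} {ι : Type} [Fintype ι]

theorem CohAt.rel {x : X} (hG : G.CohAt x) (ho : H.OkaAt x) {s : ι → G.T}
    (hs : ∀ i, s i ∈ G.A x) : (G.Rel s).CohAt x :=
  ⟨hG.2 ι s hs, fun ρ _ τ hτ => ho ι ρ τ fun i => (hτ i).1⟩

theorem Gen.nhds {x : X} {s : ι → G.T} (h : G.Gen s x) (hG : G.FinAt x) :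
    ∀ᶠ y in 𝓝 x, G.Gen s y := by
  obtain ⟨ρ, _, σ, hσ⟩ := hG
  choose g hg he using fun k => h (σ k) (hσ.self_of_nhds.1 k)
  filter_upwards [hσ, eventually_all.2 fun k => (hg k).nhds,
    eventually_all.2 fun k => (he k).eventually_nhds] with y h1 h2 h3
  exact ThmAB.gen_of_lc h1.2 h2 h3

theorem exists_lc_of_van {K : Set X} {s : ι → G.T} (hs : G.GenOn s K)
    (hv : (G.Rel s).toFSh.Van K) {a : G.T} (ha : G.IsSec K a) :
    ∃ f : X → ι → ℂ, (∀ x ∈ K, H.HolV f x) ∧ ∀ x ∈ K, ∀ᶠ y in 𝓝 x, a y = G.lc f s y := by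
  have h0 : ∀ x, ∃ f : X → ι → ℂ, (∃ g : X → ι → ℂ, H.HolV g x ∧ ∀ᶠ y in 𝓝 x, a y = G.lc g s y) →
      H.HolV f x ∧ ∀ᶠ y in 𝓝 x, a y = G.lc f s y := fun x => by
    by_cases h : ∃ g : X → ι → ℂ, H.HolV g x ∧ ∀ᶠ y in 𝓝 x, a y = G.lc g s y
    · exact ⟨h.choose, fun _ => h.choose_spec⟩
    · exact ⟨0, fun h' => (h h').elim⟩
  choose F hF using h0
  have hK : ∀ x ∈ K, H.HolV (F x) x ∧ ∀ᶠ y in 𝓝 x, a y = G.lc (F x) s y :=
    fun x hx => hF x ((hs x hx).2 a (ha x hx))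
  obtain ⟨t, ht⟩ := hv (fun y => (G.Rel s).toFSh.d (F y) y) fun x hx => by
    refine FSh.mem_next.2 ⟨F x, ?_⟩
    filter_upwards [(hK x hx).1.nhds, (hK x hx).2.eventually_nhds] with y h1 h2
    obtain ⟨h3, h4⟩ := hF y ⟨F x, h1, h2⟩
    refine FSh.d_eq_iff.2 (mem_Rel.2 ⟨fun i => HS.sub_mem' (h3 i) (h1 i), ?_⟩)
    filter_upwards [h1.nhds, h2, h3.nhds, h4] with z h5 h6 h7 h8
    exact (lc_sub s h7 h5).trans (by rw [← h6, ← h8, sub_self])
  change X → ι → ℂ at t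
  have hr : ∀ x ∈ K, H.HolV (F x - t) x ∧ ∀ᶠ y in 𝓝 x, G.lc (F x - t) s y = 0 :=
    fun x hx => mem_Rel.1 (FSh.d_eq_iff.1 (ht x hx))
  have ht' : ∀ x ∈ K, H.HolV t x := fun x hx i => by
    have := HS.sub_mem' ((hK x hx).1 i) ((hr x hx).1 i)
    simpa using this
  refine ⟨t, ht', fun x hx => ?_⟩
  filter_upwards [(hK x hx).1.nhds, (hK x hx).2, (ht' x hx).nhds, (hr x hx).2] with y h1 h2 h3 h4
  rw [lc_sub s h1 h3, sub_eq_zero] at h4
  rw [h2, h4]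

end MSh

theorem HS.AB.exists_lc {K : Set X} (h : H.AB K) {G : MSh H} (hG : ∀ x ∈ K, G.CohAt x)
    {ι : Type} [Fintype ι] {s : ι → G.T} (hs : G.GenOn s K) {a : G.T} (ha : G.IsSec K a) :
    ∃ f : X → ι → ℂ, (∀ x ∈ K, H.HolV f x) ∧ ∀ x ∈ K, ∀ᶠ y in 𝓝 x, a y = G.lc f s y :=
  MSh.exists_lc_of_van hs
    ((h.2 (G.Rel s) fun x hx => (hG x hx).rel (h.1 x hx) (hs x hx).1).2 0) ha

theorem ab_subsingleton {K : Set X} (hK : K.Subsingleton) (ho : ∀ x ∈ K, H.OkaAt x) :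
    H.AB K := by
  refine ⟨ho, fun G hG => ?_⟩
  rcases hK.eq_empty_or_singleton with rfl | ⟨x, rfl⟩
  · exact ⟨⟨Empty, inferInstance, Empty.elim, fun _ h => h.elim⟩, fun _ => FSh.van_empty⟩
  · obtain ⟨ρ, _, s, hs⟩ := (hG x rfl).1
    exact ⟨⟨ρ, inferInstance, s, by rintro _ rfl; exact hs.self_of_nhds⟩,
      fun _ => FSh.van_singleton x⟩

namespace ThmAB

open MSh

variable {G : MSh H} {ι μ : Type} [Fintype ι] [Fintype μ]

/-- Generators on `K₁` can be changed so that they match sections on `K₂` along the face. -/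
theorem attach {K₁ K₂ K₁₂ : Set X} (h₁ : K₁₂ ⊆ K₁) (h₂ : K₁₂ ⊆ K₂) (hab : H.AB K₁₂)
    (hG : ∀ x ∈ K₁₂, G.CohAt x) (hc : H.CartanP K₁ K₂ K₁₂) {σ : ι → G.T} {τ : μ → G.T}
    (hσ : G.GenOn σ K₁) (hτ : G.GenOn τ K₂) :
    ∃ g₁ g₂ : ι → G.T, (∀ i, G.IsSec K₁ (g₁ i)) ∧ (∀ i, G.IsSec K₂ (g₂ i)) ∧
      (∀ i, ∀ x ∈ K₁₂, ∀ᶠ y in 𝓝 x, g₁ i y = g₂ i y) ∧ ∀ x ∈ K₁, G.Gen g₁ x := by
  classical
  choose m hm hme using fun i => hab.exists_lc hG (fun x hx => hτ x (h₂ hx)) (a := σ i)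
    fun x hx => (hσ x (h₁ hx)).1 i
  choose k hk hke using fun j => hab.exists_lc hG (fun x hx => hσ x (h₁ hx)) (a := τ j)
    fun x hx => (hτ x (h₂ hx)).1 j
  have hm' : ∀ y ∈ K₁₂, H.HolM (fun z => Matrix.of fun i => m i z) y := fun y hy i => hm i y hy
  have hk' : ∀ y ∈ K₁₂, H.HolM (fun z => Matrix.of fun j => k j z) y := fun y hy j => hk j y hy
  obtain ⟨P, Q, S, R, hP, hQ, hR, hS, hQP, hPS⟩ := hc ι μ _ _ hm' hk'
  refine ⟨fun i => G.lc (fun z => P z i) σ, fun i => G.lc (fun z => R z i) τ,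
    fun i x hx => lc_mem (hP x hx i) (hσ x hx).1, fun i x hx => lc_mem (hR x hx i) (hτ x hx).1,
    fun i x hx => ?_, fun x hx => ?_⟩
  · filter_upwards [holM_nhds (hm' x hx), holM_nhds (hk' x hx), holM_nhds (hR x (h₂ hx)),
      holM_nhds (hS x hx), eventually_all.2 fun i => hme i x hx,
      eventually_all.2 fun j => hke j x hx, (hPS x hx).eventually_nhds]
      with y e1 e2 e3 e4 e5 e6 e7
    exact lc_cartan e1 e2 e3 e4 e5 e6 e7 i
  · refine gen_of_lc (hσ x hx).2 (g := fun i z => Q z i) (hQ x hx) fun i => ?_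
    filter_upwards [holM_nhds (hQ x hx), holM_nhds (hP x hx), (hQP x hx).eventually_nhds]
      with y e1 e2 e3
    rw [← lc_mul σ e1 e2, ← lc_one i σ y]
    exact lc_congr (e3.mono fun z hz => by rw [hz])

/-- Theorem A together with the additive Cousin property splits sections. -/
theorem split_of_gen {K₁ K₂ K₁₂ : Set X} (h₁ : K₁₂ ⊆ K₁) (h₂ : K₁₂ ⊆ K₂) (hab : H.AB K₁₂)
    (hG : ∀ x ∈ K₁₂, G.CohAt x) (hc : H.CousinP K₁ K₂ K₁₂) {σ : ι → G.T}
    (hσ₁ : G.GenOn σ K₁) (hσ₂ : G.GenOn σ K₂) : G.toFSh.Split K₁ K₂ K₁₂ := fun g hg => by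
  obtain ⟨f, hf, hfe⟩ := hab.exists_lc hG (fun x hx => hσ₁ x (h₁ hx)) hg
  choose f₁ f₂ hf₁ hf₂ he using fun i => hc (fun z => f z i) fun y hy => hf y hy i
  have e₁ : ∀ x ∈ K₁, H.HolV (fun z i => f₁ i z) x := fun x hx i => hf₁ i x hx
  have e₂ : ∀ x ∈ K₂, H.HolV (fun z i => f₂ i z) x := fun x hx i => hf₂ i x hx
  refine ⟨G.lc (fun z i => f₁ i z) σ, G.lc (fun z i => f₂ i z) σ,
    fun x hx => lc_mem (e₁ x hx) (hσ₁ x hx).1, fun x hx => lc_mem (e₂ x hx) (hσ₂ x hx).1,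
    fun x hx => ?_⟩
  filter_upwards [hfe x hx, (e₁ x (h₁ hx)).nhds, (e₂ x (h₂ hx)).nhds,
    (eventually_all.2 fun i => he i x hx).eventually_nhds] with y h1 h2 h3 h4
  rw [h1, ← lc_sub σ h2 h3]
  exact lc_congr (h4.mono fun z hz => funext hz)

omit [TopologicalSpace X] in
theorem face_left (K : Set X) (κ : X → ℝ) {s t : ℝ} (h : s ≤ t) :
    K ∩ κ ⁻¹' {t} ⊆ K ∩ κ ⁻¹' Icc s t := fun _ hx => ⟨hx.1, h.trans hx.2.ge, hx.2.le⟩

omit [TopologicalSpace X] in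
theorem face_right (K : Set X) (κ : X → ℝ) {t u : ℝ} (h : t ≤ u) :
    K ∩ κ ⁻¹' {t} ⊆ K ∩ κ ⁻¹' Icc t u := fun _ hx => ⟨hx.1, hx.2.ge, hx.2.le.trans h⟩

/-- Theorem A passes from the slices to the whole set. -/
theorem gen_slice {K : Set X} (hK : IsCompact K) {κ : X → ℝ} (hκ : ∀ x ∈ K, ContinuousAt κ x)
    {a b : ℝ} (hab : a ≤ b) (hs : ∀ t ∈ Icc a b, H.AB (K ∩ κ ⁻¹' {t}))
    (hc : ∀ s t u, a ≤ s → s ≤ t → t ≤ u → u ≤ b →
      H.CartanP (K ∩ κ ⁻¹' Icc s t) (K ∩ κ ⁻¹' Icc t u) (K ∩ κ ⁻¹' {t}) ∧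
      H.CartanP (K ∩ κ ⁻¹' Icc t u) (K ∩ κ ⁻¹' Icc s t) (K ∩ κ ⁻¹' {t}))
    (hG : ∀ x ∈ K, G.CohAt x) :
    ∃ (ρ : Type) (_ : Fintype ρ) (σ : ρ → G.T), G.GenOn σ (K ∩ κ ⁻¹' Icc a b) := by
  refine slice_induction hab (fun s u => ∃ (ρ : Type) (_ : Fintype ρ) (σ : ρ → G.T),
    G.GenOn σ (K ∩ κ ⁻¹' Icc s u)) (fun t ht => ?_) ?_
  · obtain ⟨ρ, _, σ, hσ⟩ := ((hs t ht).2 G fun x hx => hG x hx.1).1
    obtain ⟨ε, hε, hsub⟩ := thin_slab hK hκ
      (isOpen_interior (s := {y | (∀ i, σ i ∈ G.A y) ∧ G.Gen σ y})) (t := t) fun x hx =>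
        mem_interior_iff_mem_nhds.2 ((eventually_all.2 fun i => G.nhds ((hσ x hx).1 i)).and
          ((hσ x hx).2.nhds (hG x hx.1).1))
    exact ⟨ε, hε, fun s u _ _ _ h4 h5 => ⟨ρ, inferInstance, σ, fun x hx =>
      interior_subset (s := {y | (∀ i, σ i ∈ G.A y) ∧ G.Gen σ y})
        (hsub ⟨hx.1, h4.trans hx.2.1, hx.2.2.trans h5⟩)⟩⟩
  · rintro s t u h1 h2 h3 h4 ⟨ρ, _, σ, hσ⟩ ⟨ρ', _, τ, hτ⟩
    have hAB := hs t ⟨h1.trans h2, h3.trans h4⟩
    have hG' : ∀ x ∈ K ∩ κ ⁻¹' {t}, G.CohAt x := fun x hx => hG x hx.1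
    obtain ⟨g₁, g₂, a1, a2, a3, a4⟩ := attach (face_left K κ h2) (face_right K κ h3) hAB hG'
      (hc s t u h1 h2 h3 h4).1 hσ hτ
    obtain ⟨g₃, g₄, b1, b2, b3, b4⟩ := attach (face_right K κ h3) (face_left K κ h2) hAB hG'
      (hc s t u h1 h2 h3 h4).2 hτ hσ
    choose g c1 c2 _ using fun i => FSh.glue_mem hκ (a1 i) (a2 i) (a3 i)
    choose g' d1 _ d3 using fun i => FSh.glue_mem hκ (b2 i) (b1 i)
      fun x hx => (b3 i x hx).mono fun _ h => h.symm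
    refine ⟨ρ ⊕ ρ', inferInstance, Sum.elim g g', fun x hx => ⟨?_, ?_⟩⟩
    · rintro (i | i)
      · exact c1 i x hx
      · exact d1 i x hx
    · rcases le_total (κ x) t with h | h
      · have hx' : x ∈ K ∩ κ ⁻¹' Icc s t := ⟨hx.1, hx.2.1, h⟩
        exact gen_of_eq (a4 x hx') Sum.inl fun i => (c2 i x hx').mono fun _ h => h.symm
      · have hx' : x ∈ K ∩ κ ⁻¹' Icc t u := ⟨hx.1, h, hx.2.2⟩
        exact gen_of_eq (b4 x hx') Sum.inr fun i => (d3 i x hx').mono fun _ h => h.symm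

end ThmAB

theorem ab_slice {K : Set X} (hK : IsCompact K) {κ : X → ℝ} (hκ : ∀ x ∈ K, ContinuousAt κ x)
    {a b : ℝ} (hab : ∀ x ∈ K, κ x ∈ Icc a b) (hs : ∀ t ∈ Icc a b, H.AB (K ∩ κ ⁻¹' {t}))
    (hc : ∀ s t u, a ≤ s → s ≤ t → t ≤ u → u ≤ b →
      H.CousinP (K ∩ κ ⁻¹' Icc s t) (K ∩ κ ⁻¹' Icc t u) (K ∩ κ ⁻¹' {t}) ∧
      H.CartanP (K ∩ κ ⁻¹' Icc s t) (K ∩ κ ⁻¹' Icc t u) (K ∩ κ ⁻¹' {t}) ∧
      H.CartanP (K ∩ κ ⁻¹' Icc t u) (K ∩ κ ⁻¹' Icc s t) (K ∩ κ ⁻¹' {t})) : H.AB K := by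
  have ho : ∀ x ∈ K, H.OkaAt x := fun x hx => (hs (κ x) (hab x hx)).1 x ⟨hx, rfl⟩
  rcases K.eq_empty_or_nonempty with rfl | ⟨x₀, hx₀⟩
  · exact ab_subsingleton subsingleton_empty ho
  refine ⟨ho, fun G hG => ?_⟩
  obtain ⟨ρ, _, σ, hσ⟩ := ThmAB.gen_slice hK hκ ((hab x₀ hx₀).1.trans (hab x₀ hx₀).2) hs
    (fun s t u h1 h2 h3 h4 => (hc s t u h1 h2 h3 h4).2) hG
  have hσ' : G.GenOn σ K := fun x hx => hσ x ⟨hx, hab x hx⟩
  have hv : ∀ j, ∀ t ∈ Icc a b, (FSh.iter j G.toFSh).Van (K ∩ κ ⁻¹' {t}) :=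
    fun j t ht => ((hs t ht).2 G fun x hx => hG x hx.1).2 j
  refine ⟨⟨ρ, inferInstance, σ, hσ'⟩, fun j => FSh.van_slice hK hκ hab (hv j) ?_⟩
  intro s t u h1 h2 h3 h4
  have ht : t ∈ Icc a b := ⟨h1.trans h2, h3.trans h4⟩
  cases j with
  | zero =>
    exact ThmAB.split_of_gen (ThmAB.face_left K κ h2) (ThmAB.face_right K κ h3) (hs t ht)
      (fun x hx => hG x hx.1) (hc s t u h1 h2 h3 h4).1 (fun x hx => hσ' x hx.1)
      fun x hx => hσ' x hx.1
  | succ j => exact FSh.split_next (hv j t ht)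

end Pool.Agent.QMax
end
end

-- part Pool.Agent.Lib.MP_ec9812_ag.BoxModel
section

/-! Adjacent compact boxes have a strip model. -/

open Set Filter Topology

noncomputable section

namespace Pool.Agent.QMax

namespace BoxModel

open Complex

/-- The map `tanh (u / 2)` from a strip to a thin lens around `(-1, 1)`. -/
def T (u : ℂ) : ℂ := (exp u - 1) / (exp u + 1)

/-- The inverse of `T`. -/
def Lg (ζ : ℂ) : ℂ := log (1 + ζ) - log (1 - ζ)

theorem cos_nonneg {u : ℂ} (hu : |u.im| ≤ 1) : 0 ≤ Real.cos u.im := by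
  have := Real.pi_gt_three
  obtain ⟨h1, h2⟩ := abs_le.1 hu
  exact Real.cos_nonneg_of_neg_pi_div_two_le_of_le (by linarith) (by linarith)

theorem exp_add_one_ne {u : ℂ} (hu : |u.im| ≤ 1) : exp u + 1 ≠ 0 := by
  intro h
  have h1 := congrArg re h
  rw [add_re, exp_re, one_re, zero_re] at h1
  have := mul_nonneg (Real.exp_pos u.re).le (cos_nonneg hu)
  linarith

theorem T_bounds {u : ℂ} (hu : |u.im| ≤ 1) : |(T u).re| ≤ 1 ∧ |(T u).im| ≤ |u.im| := by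
  have hc := cos_nonneg hu
  have hρ := Real.exp_pos u.re
  set ρ := Real.exp u.re with hρd
  set co := Real.cos u.im with hco
  set si := Real.sin u.im with hsi
  have hcs : si ^ 2 + co ^ 2 = 1 := Real.sin_sq_add_cos_sq _
  have hN : normSq (exp u + 1) = ρ ^ 2 + 2 * ρ * co + 1 := by
    rw [normSq_apply, add_re, add_im, exp_re, exp_im, one_re, one_im, ← hρd, ← hco, ← hsi]
    linear_combination ρ ^ 2 * hcs
  have hN0 : 0 < ρ ^ 2 + 2 * ρ * co + 1 := by positivity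
  have hre : (T u).re = (ρ ^ 2 - 1) / (ρ ^ 2 + 2 * ρ * co + 1) := by
    rw [T, div_re, hN, sub_re, add_re, sub_im, add_im, exp_re, exp_im, one_re, one_im, ← hρd,
      ← hco, ← hsi, ← add_div]
    congr 1
    linear_combination ρ ^ 2 * hcs
  have him : (T u).im = 2 * ρ * si / (ρ ^ 2 + 2 * ρ * co + 1) := by
    rw [T, div_im, hN, sub_re, add_re, sub_im, add_im, exp_re, exp_im, one_re, one_im, ← hρd,
      ← hco, ← hsi, ← sub_div]
    congr 1
    ring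
  have hρc : 0 ≤ ρ * co := mul_nonneg hρ.le hc
  constructor
  · rw [hre, abs_div, abs_of_pos hN0, div_le_one hN0, abs_le]
    constructor <;> nlinarith
  · rw [him, abs_div, abs_of_pos hN0, div_le_iff₀ hN0, abs_mul, abs_of_pos (by positivity)]
    have h1 : |si| ≤ |u.im| := Real.abs_sin_le_abs
    have h2 : 2 * ρ ≤ ρ ^ 2 + 2 * ρ * co + 1 := by nlinarith [sq_nonneg (ρ - 1)]
    rw [mul_comm]
    exact mul_le_mul h1 h2 (by positivity) (abs_nonneg _)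

theorem T_diff {u : ℂ} (hu : |u.im| ≤ 1) : DifferentiableAt ℂ T u :=
  (differentiableAt_exp.sub_const 1).div (differentiableAt_exp.add_const 1) (exp_add_one_ne hu)

theorem re_pos {ζ : ℂ} (h : |ζ.re| < 1) : 0 < (1 + ζ).re ∧ 0 < (1 - ζ).re := by
  obtain ⟨h1, h2⟩ := abs_lt.1 h
  simp only [add_re, sub_re, one_re]
  constructor <;> linarith

theorem Lg_diff {ζ : ℂ} (h : |ζ.re| < 1) : DifferentiableAt ℂ Lg ζ :=
  ((differentiableAt_id.const_add 1).clog (Or.inl (re_pos h).1)).sub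
    ((differentiableAt_id.const_sub 1).clog (Or.inl (re_pos h).2))

theorem T_Lg {ζ : ℂ} (h : |ζ.re| < 1) : T (Lg ζ) = ζ := by
  have h1 : 1 + ζ ≠ 0 := fun e => by simpa [e] using (re_pos h).1
  have h2 : 1 - ζ ≠ 0 := fun e => by simpa [e] using (re_pos h).2
  have h3 : (1 + ζ) / (1 - ζ) + 1 = 2 / (1 - ζ) := by field_simp; ring
  have h4 : (1 + ζ) / (1 - ζ) - 1 = 2 * ζ / (1 - ζ) := by field_simp; ring
  rw [T, Lg, exp_sub, exp_log h1, exp_log h2, h3, h4]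
  field_simp

theorem arg_nonpos {z : ℂ} (h : 0 < z.re) (hi : z.im ≤ 0) : arg z ≤ 0 := by
  rcases hi.lt_or_eq with h1 | h1
  · exact (arg_neg_iff.2 h1).le
  · exact (arg_eq_zero_iff.2 ⟨h.le, h1⟩).le

theorem Lg_im (ζ : ℂ) : -7 < (Lg ζ).im ∧ (Lg ζ).im < 7 := by
  have := Real.pi_lt_d2
  rw [Lg, sub_im, log_im, log_im]
  constructor <;>
    linarith [arg_le_pi (1 + ζ), arg_le_pi (1 - ζ), neg_pi_lt_arg (1 + ζ), neg_pi_lt_arg (1 - ζ)]

theorem Lg_nonneg {ζ : ℂ} (h : |ζ.re| < 1) (hi : 0 ≤ ζ.im) : 0 ≤ (Lg ζ).im := by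
  rw [Lg, sub_im, log_im, log_im]
  have h1 : 0 ≤ arg (1 + ζ) := arg_nonneg_iff.2 (by simpa using hi)
  have h2 : arg (1 - ζ) ≤ 0 := arg_nonpos (re_pos h).2 (by simpa using hi)
  linarith

theorem Lg_nonpos {ζ : ℂ} (h : |ζ.re| < 1) (hi : ζ.im ≤ 0) : (Lg ζ).im ≤ 0 := by
  rw [Lg, sub_im, log_im, log_im]
  have h1 : 0 ≤ arg (1 - ζ) := arg_nonneg_iff.2 (by simpa using hi)
  have h2 : arg (1 + ζ) ≤ 0 := arg_nonpos (re_pos h).1 (by simpa using hi)
  linarith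

variable {n : ℕ}

/-- Affine normal form of an adjacent pair in the coordinate `i`. -/
def Pre (i : Fin n) (K₁ K₂ K₁₂ : Set (Fin n → ℂ)) : Prop :=
  K₁₂ ⊆ K₁ ∧ K₁₂ ⊆ K₂ ∧ ∀ O : Set (Fin n → ℂ), IsOpen O → K₁₂ ⊆ O →
    ∃ (z₀ v : ℂ) (θ : ℝ) (W C : Set (Fin n → ℂ)), 0 < θ ∧ θ ≤ 1 ∧ v ≠ 0 ∧ IsOpen W ∧
      IsCompact C ∧ C ⊆ O ∧
      (∀ y ∈ K₁ ∪ K₂, y ∈ W ∧ ∃ ζ : ℂ, y i = z₀ + v * ζ ∧ |ζ.re| < 1 ∧ (y ∈ K₁ → 0 ≤ ζ.im) ∧
        (y ∈ K₂ → ζ.im ≤ 0)) ∧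
      ∀ y ∈ W, ∀ ζ : ℂ, |ζ.re| ≤ 1 → |ζ.im| ≤ θ → Function.update y i (z₀ + v * ζ) ∈ C

theorem Pre.swap {i : Fin n} {K₁ K₂ K₁₂ : Set (Fin n → ℂ)} (h : Pre i K₁ K₂ K₁₂) :
    Pre i K₂ K₁ K₁₂ := by
  refine ⟨h.2.1, h.1, fun O hO hK => ?_⟩
  obtain ⟨z₀, v, θ, W, C, h1, h2, h3, h4, h5, h6, h7, h8⟩ := h.2.2 O hO hK
  refine ⟨z₀, -v, θ, W, C, h1, h2, neg_ne_zero.2 h3, h4, h5, h6, fun y hy => ?_,
    fun y hy ζ hr hi => ?_⟩
  · obtain ⟨hW, ζ, e, hr, ha, hb⟩ := h7 y hy.symm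
    refine ⟨hW, -ζ, by rw [e]; ring, by simpa using hr, fun hy => ?_, fun hy => ?_⟩
    · simpa using hb hy
    · simpa using ha hy
  · have := h8 y hy (-ζ) (by simpa using hr) (by simpa using hi)
    rwa [mul_neg, ← neg_mul] at this

theorem Pre.model {i : Fin n} {K₁ K₂ K₁₂ : Set (Fin n → ℂ)} (h : Pre i K₁ K₂ K₁₂) :
    StripModel K₁ K₂ K₁₂ := by
  refine ⟨h.1, h.2.1, fun O hO hK => ?_⟩
  obtain ⟨z₀, v, θ, W, C, h1, h2, h3, h4, h5, h6, h7, h8⟩ := h.2.2 O hO hK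
  have hSt : ∀ u ∈ St (-θ) θ, |u.im| ≤ θ := fun u hu => abs_le.2 ⟨hu.1.le, hu.2.le⟩
  have hz : ∀ y ∈ K₁ ∪ K₂, |((y i - z₀) / v).re| < 1 ∧ (y ∈ K₁ → 0 ≤ ((y i - z₀) / v).im) ∧
      (y ∈ K₂ → ((y i - z₀) / v).im ≤ 0) := fun y hy => by
    obtain ⟨-, ζ, e, hr⟩ := h7 y hy
    have : (y i - z₀) / v = ζ := by rw [e]; field_simp; ring
    rwa [this]
  have hd : Differentiable ℂ fun y : Fin n → ℂ => (y i - z₀) / v := by fun_prop
  have hev : ∀ y ∈ K₁ ∪ K₂, ∀ᶠ z in 𝓝 y, |((z i - z₀) / v).re| < 1 := fun y hy => by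
    have hc : Continuous fun z : Fin n → ℂ => |((z i - z₀) / v).re| :=
      (continuous_re.comp hd.continuous).abs
    exact hc.continuousAt.eventually_lt continuousAt_const (hz y hy).1
  refine ⟨θ, 7, W, C, fun y => (Lg ((y i - z₀) / v), y),
    fun p => Function.update p.2 i (z₀ + v * T p.1), h1, by linarith, h4, h5, h6,
    fun p hp => ?_, fun p hp => ?_, fun y hy => ⟨?_, (h7 y hy).1⟩, fun y hy => ?_,
    fun y hy => ?_, fun y hy => ?_⟩
  · refine DifferentiableAt.differentiableWithinAt (differentiableAt_pi.2 fun j => ?_)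
    by_cases hj : j = i
    · subst hj
      simp only [Function.update_self]
      exact (((T_diff ((hSt _ hp.1).trans h2)).comp p differentiableAt_fst).const_mul v).const_add
        z₀
    · simp only [Function.update_of_ne hj]
      fun_prop
  · have hb := T_bounds ((hSt _ hp.1).trans h2)
    exact h8 _ hp.2 _ hb.1 (hb.2.trans (hSt _ hp.1))
  · filter_upwards [hev y hy] with z hz
    exact ((Lg_diff hz).comp z (hd z)).prodMk differentiableAt_id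
  · exact ⟨Lg_nonneg (hz y (Or.inl hy)).1 ((hz y (Or.inl hy)).2.1 hy), (Lg_im _).2⟩
  · exact ⟨(Lg_im _).1, Lg_nonpos (hz y (Or.inr hy)).1 ((hz y (Or.inr hy)).2.2 hy)⟩
  · filter_upwards [hev y (Or.inl (h.1 hy))] with z hz
    have : z₀ + v * ((z i - z₀) / v) = z i := by field_simp; ring
    rw [T_Lg hz, this, Function.update_eq_self]

theorem thicken {a b : Fin n × Bool → ℝ} (hab : a ≤ b) {O : Set (Fin n → ℂ)} (hO : IsOpen O)
    (h : Box a b ⊆ O) : ∃ δ > 0, Box (fun c => a c - δ) (fun c => b c + δ) ⊆ O := by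
  have h1 : Icc a b ⊆ ofRc ⁻¹' O := fun v hv => h fun c => by
    rw [rc_ofRc]; exact ⟨hv.1 c, hv.2 c⟩
  obtain ⟨δ, hδ, hs⟩ :=
    isCompact_Icc.exists_cthickening_subset_open (hO.preimage continuous_ofRc) h1
  refine ⟨δ, hδ, fun y hy => ?_⟩
  have : rc y ∈ Metric.cthickening δ (Icc a b) := by
    refine Metric.mem_cthickening_of_dist_le _ (fun c => max (a c) (min (rc y c) (b c))) δ _
      ⟨fun c => le_max_left _ _, fun c => max_le (hab c) (min_le_right _ _)⟩ ?_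
    refine (dist_pi_le_iff hδ.le).2 fun c => ?_
    obtain ⟨h2, h3⟩ := hy c
    have h4 := hab c
    rw [Real.dist_eq, abs_le]
    simp only [max_def, min_def] at h2 h3 ⊢
    split_ifs <;> constructor <;> linarith
  exact hs this

theorem rc_update_ne (y : Fin n → ℂ) {i : Fin n} (w : ℂ) {c : Fin n × Bool} (h : c.1 ≠ i) :
    rc (Function.update y i w) c = rc y c := by
  simp only [rc, Function.update_of_ne h]

theorem pre_box (a b : Fin n × Bool → ℝ) (c : Fin n × Bool) {t : ℝ} (ht : t ∈ Icc (a c) (b c)) :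
    Pre c.1 (Box a (Function.update b c t)) (Box (Function.update a c t) b)
      (Box (Function.update a c t) (Function.update b c t)) := by
  have ha : ∀ d, a d ≤ Function.update a c t d := fun d => by
    by_cases hd : d = c
    · subst hd; simpa using ht.1
    · rw [Function.update_of_ne hd]
  have hb : ∀ d, Function.update b c t d ≤ b d := fun d => by
    by_cases hd : d = c
    · subst hd; simpa using ht.2
    · rw [Function.update_of_ne hd]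
  have hK : ∀ y ∈ Box a (Function.update b c t) ∪ Box (Function.update a c t) b, y ∈ Box a b := by
    rintro y (hy | hy) d
    · exact ⟨(hy d).1, (hy d).2.trans (hb d)⟩
    · exact ⟨(ha d).trans (hy d).1, (hy d).2⟩
  refine ⟨fun y hy d => ⟨(ha d).trans (hy d).1, (hy d).2⟩,
    fun y hy d => ⟨(hy d).1, (hy d).2.trans (hb d)⟩, fun O hO hKO => ?_⟩
  by_cases hab : a ≤ b
  swap
  · refine ⟨0, 1, 1, ∅, ∅, one_pos, le_rfl, one_ne_zero, isOpen_empty, isCompact_empty,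
      empty_subset _, fun y hy => (hab fun d => (hK y hy d).1.trans (hK y hy d).2).elim,
      fun y hy => hy.elim⟩
  have hab' : Function.update a c t ≤ Function.update b c t := fun d => by
    by_cases hd : d = c
    · subst hd; simp
    · rw [Function.update_of_ne hd, Function.update_of_ne hd]; exact hab d
  obtain ⟨δ, hδ, hs⟩ := thicken hab' hO hKO
  obtain ⟨i, s⟩ := c
  set m := (a (i, !s) + b (i, !s)) / 2 with hm
  set l := (b (i, !s) - a (i, !s)) / 2 + δ with hl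
  have hl0 : 0 < l := by have := hab (i, !s); rw [hl]; linarith
  set θ := min 1 (δ / l) with hθ
  have hθl : l * θ ≤ δ := by
    calc l * θ ≤ l * (δ / l) := mul_le_mul_of_nonneg_left (min_le_right _ _) hl0.le
      _ = δ := by field_simp
  set W : Set (Fin n → ℂ) := {y | ∀ d : Fin n × Bool, d.1 ≠ i → rc y d ∈ Ioo (a d - δ) (b d + δ)}
  have hW : IsOpen W := by
    have : W = ⋂ d : Fin n × Bool, ⋂ _ : d.1 ≠ i, (fun y => rc y d) ⁻¹' Ioo (a d - δ) (b d + δ) := by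
      ext; simp [W]
    rw [this]
    exact isOpen_iInter_of_finite fun d => isOpen_iInter_of_finite fun _ =>
      isOpen_Ioo.preimage (continuous_rc_apply d)
  have hKW : ∀ y ∈ Box a b, y ∈ W := fun y hy d _ =>
    ⟨by linarith [(hy d).1], by linarith [(hy d).2]⟩
  have hr : ∀ y ∈ Box a b, |(rc y (i, !s) - m) / l| < 1 := fun y hy => by
    rw [abs_div, abs_of_pos hl0, div_lt_one hl0, abs_lt]
    obtain ⟨h1, h2⟩ := hy (i, !s)
    constructor <;> linarith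
  have h1 : ∀ y ∈ Box a (Function.update b (i, s) t), 0 ≤ (t - rc y (i, s)) / l := fun y hy => by
    have := (hy (i, s)).2
    rw [Function.update_self] at this
    exact div_nonneg (by linarith) hl0.le
  have h2 : ∀ y ∈ Box (Function.update a (i, s) t) b, (t - rc y (i, s)) / l ≤ 0 := fun y hy => by
    have := (hy (i, s)).1
    rw [Function.update_self] at this
    exact div_nonpos_of_nonpos_of_nonneg (by linarith) hl0.le
  have hC : ∀ y ∈ W, ∀ w : ℂ, |rc (Function.update y i w) (i, s) - t| ≤ δ →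
      |rc (Function.update y i w) (i, !s) - m| ≤ l → Function.update y i w ∈
        Box (fun d => Function.update a (i, s) t d - δ)
          (fun d => Function.update b (i, s) t d + δ) := by
    rintro y hy w e1 e2 ⟨j, r⟩
    by_cases hj : j = i
    · subst hj
      by_cases hrs : r = s
      · subst hrs
        simp only [Function.update_self]
        obtain ⟨e3, e4⟩ := abs_le.1 e1
        constructor <;> linarith
      · have hr' : r = !s := by cases r <;> cases s <;> simp_all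
        subst hr'
        have hne : (j, !s) ≠ (j, s) := by simp
        simp only [Function.update_of_ne hne]
        obtain ⟨e3, e4⟩ := abs_le.1 e2
        constructor <;> linarith
    · have hne : (j, r) ≠ (i, s) := fun e => hj (congrArg Prod.fst e)
      simp only [Function.update_of_ne hne]
      rw [rc_update_ne y w (c := (j, r)) hj]
      exact Ioo_subset_Icc_self (hy (j, r) hj)
  have hmul : ∀ x : ℝ, |x| ≤ 1 → |l * x| ≤ l := fun x hx => by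
    rw [abs_mul, abs_of_pos hl0]; exact mul_le_of_le_one_right hl0.le hx
  have hmul' : ∀ x : ℝ, |x| ≤ θ → |l * x| ≤ δ := fun x hx => by
    rw [abs_mul, abs_of_pos hl0]; exact (mul_le_mul_of_nonneg_left hx hl0.le).trans hθl
  have hθ0 : 0 < θ := lt_min one_pos (div_pos hδ hl0)
  cases s
  · refine ⟨⟨m, t⟩, ⟨-l, 0⟩, θ, W, _, hθ0, min_le_left _ _, fun e => ?_, hW, isCompact_Box _ _, hs,
      fun y hy => ⟨hKW y (hK y hy), ⟨-((rc y (i, true) - m) / l), (t - rc y (i, false)) / l⟩, ?_,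
        ?_, h1 y, h2 y⟩, fun y hy ζ e1 e2 => hC y hy _ ?_ ?_⟩
    · have := congrArg re e
      simp only [zero_re] at this
      linarith
    · apply Complex.ext <;> simp <;> field_simp <;> ring
    · simpa only [abs_neg, Bool.not_false] using hr y (hK y hy)
    · simpa using hmul' _ e2
    · simpa using hmul _ e1
  · refine ⟨⟨t, m⟩, ⟨0, l⟩, θ, W, _, hθ0, min_le_left _ _, fun e => ?_, hW, isCompact_Box _ _, hs,
      fun y hy => ⟨hKW y (hK y hy), ⟨(rc y (i, false) - m) / l, (t - rc y (i, true)) / l⟩, ?_,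
        hr y (hK y hy), h1 y, h2 y⟩, fun y hy ζ e1 e2 => hC y hy _ ?_ ?_⟩
    · have := congrArg im e
      simp only [zero_im] at this
      linarith
    · apply Complex.ext <;> simp <;> field_simp <;> ring
    · simpa using hmul' _ e2
    · simpa using hmul _ e1

end BoxModel

theorem stripModel_box {n : ℕ} (a b : Fin n × Bool → ℝ) (c : Fin n × Bool) {t : ℝ}
    (ht : t ∈ Icc (a c) (b c)) :
    StripModel (Box a (Function.update b c t)) (Box (Function.update a c t) b)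
      (Box (Function.update a c t) (Function.update b c t)) ∧
    StripModel (Box (Function.update a c t) b) (Box a (Function.update b c t))
      (Box (Function.update a c t) (Function.update b c t)) :=
  ⟨(BoxModel.pre_box a b c ht).model, (BoxModel.pre_box a b c ht).swap.model⟩

end Pool.Agent.QMax
end
end
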