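import Pool.Agent.Lib.MP_ec9812_ag.Div
import Pool.Agent.Lib.MP_7906d6_an.Holo

-- part Pool.Agent.Lib.MP_ec9812_ag.Prep
section

/-! A germ that is regular in the last variable divides a monic polynomial. -/

open Set Filter Topology Metric

noncomputable section

namespace Pool.Agent.QMax

variable {E : Type} [NormedAddCommGroup E] [NormedSpace ℂ E]

namespace Prep

/-- The difference quotient in the last variable. -/
def sg (g : E × ℂ → ℂ) (p : E × ℂ) : ℂ := dslope (fun w => g (p.1, w)) 0 p.2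

omit [NormedAddCommGroup E] [NormedSpace ℂ E] in
theorem sg_eq (g : E × ℂ → ℂ) (p : E × ℂ) : g p = g (p.1, 0) + p.2 * sg g p := by
  have := sub_smul_dslope (fun w => g (p.1, w)) 0 p.2
  simp only [sub_zero, smul_eq_mul, Prod.mk.eta] at this
  rw [sg, this]; ring

omit [NormedAddCommGroup E] [NormedSpace ℂ E] in
theorem iter_eq (n : ℕ) (g : E × ℂ → ℂ) (p : E × ℂ) :
    g p = ∑ j : Fin n, sg^[j] g (p.1, 0) * p.2 ^ (j : ℕ) + p.2 ^ n * sg^[n] g p := by
  induction n with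
  | zero => simp
  | succ n ih =>
    rw [Fin.sum_univ_castSucc, Function.iterate_succ_apply']
    have h := sg_eq (sg^[n] g) p
    simp only [Fin.val_castSucc, Fin.val_last]
    rw [ih, h]
    ring

theorem slice {U : Set E} {ρ : ℝ} {g : E × ℂ → ℂ} (hg : DifferentiableOn ℂ g (U ×ˢ ball 0 ρ))
    {z : E} (hz : z ∈ U) : DifferentiableOn ℂ (fun w => g (z, w)) (ball 0 ρ) :=
  hg.comp (by fun_prop) fun _ hw => ⟨hz, hw⟩

theorem slice0 {U : Set E} {ρ : ℝ} (hρ : 0 < ρ) {g : E × ℂ → ℂ}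
    (hg : DifferentiableOn ℂ g (U ×ˢ ball 0 ρ)) : DifferentiableOn ℂ (fun z => g (z, 0)) U :=
  hg.comp (by fun_prop) fun _ hz => ⟨hz, mem_ball_self hρ⟩

theorem sg_diff {U : Set E} (hU : IsOpen U) {ρ : ℝ} {g : E × ℂ → ℂ}
    (hg : DifferentiableOn ℂ g (U ×ˢ ball 0 ρ)) : DifferentiableOn ℂ (sg g) (U ×ˢ ball 0 ρ) := by
  rintro ⟨z0, w0⟩ ⟨hz0, hw0⟩
  simp only [mem_ball_zero_iff] at hz0 hw0
  obtain ⟨r, hr1, hr2⟩ := exists_between hw0
  have hr0 : 0 < r := (norm_nonneg _).trans_lt hr1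
  have hρ : 0 < ρ := hr0.trans hr2
  let V : Set ((E × ℂ) × ℂ) := {q | q.1.1 ∈ U} ∩ {q | ‖q.2‖ < ρ} ∩ {q | q.2 ≠ 0} ∩ {q | q.2 ≠ q.1.2}
  have hV : IsOpen V :=
    (((hU.preimage (by fun_prop)).inter (isOpen_lt (by fun_prop) (by fun_prop))).inter
      (isOpen_ne_fun (by fun_prop) (by fun_prop))).inter (isOpen_ne_fun (by fun_prop) (by fun_prop))
  have hF : DifferentiableOn ℂ
      (fun q : (E × ℂ) × ℂ => (q.2 - q.1.2)⁻¹ * ((g (q.1.1, q.2) - g (q.1.1, 0)) * (q.2)⁻¹)) V := by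
    refine DifferentiableOn.mul (DifferentiableOn.inv (by fun_prop) fun q hq => sub_ne_zero.2 hq.2)
      (DifferentiableOn.mul (DifferentiableOn.sub ?_ ?_)
        (DifferentiableOn.inv (by fun_prop) fun q hq => hq.1.2))
    · exact hg.comp (by fun_prop) fun q hq => ⟨hq.1.1.1, mem_ball_zero_iff.2 hq.1.1.2⟩
    · exact hg.comp (by fun_prop) fun q hq => ⟨hq.1.1.1, mem_ball_self hρ⟩
  have hW : IsOpen (U ×ˢ ball (0 : ℂ) r) := hU.prod isOpen_ball
  have hI := differentiableOn_circleIntegral hW hV hF (c := 0) hr0.le (by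
    rintro ⟨⟨z, w⟩, ζ⟩ ⟨⟨hz, hw⟩, hζ⟩
    simp only [mem_ball_zero_iff, mem_sphere_zero_iff_norm] at hz hw hζ
    refine ⟨⟨⟨hz, ?_⟩, ?_⟩, ?_⟩
    · show ‖ζ‖ < ρ
      rw [hζ]; exact hr2
    · intro h
      have h' : ζ = 0 := h
      rw [h', norm_zero] at hζ
      exact hr0.ne hζ
    · intro h
      have h' : ζ = w := h
      rw [h'] at hζ
      exact hw.ne hζ)
  have hmem : (z0, w0) ∈ U ×ˢ ball (0 : ℂ) r := ⟨hz0, mem_ball_zero_iff.2 hr1⟩
  have hc : (2 * Real.pi * Complex.I : ℂ) ≠ 0 := Complex.two_pi_I_ne_zero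
  have h2 := ((hI.const_mul (2 * Real.pi * Complex.I : ℂ)⁻¹).differentiableAt (hW.mem_nhds hmem))
  refine (h2.congr_of_eventuallyEq ?_).differentiableWithinAt
  filter_upwards [hW.mem_nhds hmem] with p hp
  have h3 : DifferentiableOn ℂ (dslope (fun w => g (p.1, w)) 0) (closedBall 0 r) :=
    ((Complex.differentiableOn_dslope (ball_mem_nhds _ hρ)).2 (slice hg hp.1)).mono
      (closedBall_subset_ball hr2)
  have h4 := h3.circleIntegral_sub_inv_smul hp.2
  have h5 : (∮ ζ in C(0, r), (ζ - p.2)⁻¹ * ((g (p.1, ζ) - g (p.1, 0)) * ζ⁻¹)) =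
      ∮ ζ in C(0, r), (ζ - p.2)⁻¹ • dslope (fun w => g (p.1, w)) 0 ζ := by
    refine circleIntegral.integral_congr hr0.le fun ζ hζ => ?_
    have hζ0 : ζ ≠ 0 := by
      rintro rfl
      rw [mem_sphere_zero_iff_norm, norm_zero] at hζ
      exact hr0.ne hζ
    simp only [dslope_of_ne _ hζ0, slope_def_field, sub_zero, smul_eq_mul, div_eq_mul_inv]
  show sg g p = _
  rw [h5, h4, smul_eq_mul, ← mul_assoc, inv_mul_cancel₀ hc, one_mul, sg]

theorem sg_bound {U : Set E} {ρ M : ℝ} {g : E × ℂ → ℂ}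
    (hg : DifferentiableOn ℂ g (U ×ˢ ball 0 ρ)) (hM : ∀ p ∈ U ×ˢ ball (0 : ℂ) ρ, ‖g p‖ ≤ M) :
    ∀ p ∈ U ×ˢ ball (0 : ℂ) ρ, ‖sg g p‖ ≤ 2 / ρ * M := by
  intro p hp
  have hρ : 0 < ρ := pos_of_mem_ball hp.2
  have := Complex.norm_dslope_le_div_of_mapsTo_ball (slice hg hp.1) (R₂ := 2 * M)
    (fun w hw => by
      rw [mem_closedBall, dist_eq_norm]
      have h1 := hM (p.1, w) ⟨hp.1, hw⟩
      have h2 := hM (p.1, 0) ⟨hp.1, mem_ball_self hρ⟩
      exact (norm_sub_le _ _).trans (by linarith)) hp.2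
  rw [sg]
  refine this.trans (le_of_eq ?_)
  ring

theorem iter_diff {U : Set E} (hU : IsOpen U) {ρ : ℝ} {g : E × ℂ → ℂ}
    (hg : DifferentiableOn ℂ g (U ×ˢ ball 0 ρ)) (n : ℕ) :
    DifferentiableOn ℂ (sg^[n] g) (U ×ˢ ball 0 ρ) := by
  induction n with
  | zero => exact hg
  | succ n ih => rw [Function.iterate_succ_apply']; exact sg_diff hU ih

theorem iter_bound {U : Set E} (hU : IsOpen U) {ρ M : ℝ} {g : E × ℂ → ℂ}
    (hg : DifferentiableOn ℂ g (U ×ˢ ball 0 ρ)) (hM : ∀ p ∈ U ×ˢ ball (0 : ℂ) ρ, ‖g p‖ ≤ M)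
    (n : ℕ) : ∀ p ∈ U ×ˢ ball (0 : ℂ) ρ, ‖sg^[n] g p‖ ≤ (2 / ρ) ^ n * M := by
  induction n with
  | zero => simpa using hM
  | succ n ih =>
    intro p hp
    rw [Function.iterate_succ_apply']
    refine (sg_bound (iter_diff hU hg n) ih p hp).trans (le_of_eq ?_)
    ring

theorem exists_order {U : Set E} (hU : IsOpen U) {ρ M : ℝ} (hρ : 0 < ρ) {f : E × ℂ → ℂ}
    (hf : DifferentiableOn ℂ f (U ×ˢ ball 0 ρ)) (hM : ∀ p ∈ U ×ˢ ball (0 : ℂ) ρ, ‖f p‖ ≤ M)
    {x : E} (hx : x ∈ U) (hne : ¬ ∀ᶠ w in 𝓝 (0 : ℂ), f (x, w) = 0) :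
    ∃ n, sg^[n] f (x, 0) ≠ 0 := by
  by_contra h
  push Not at h
  apply hne
  filter_upwards [ball_mem_nhds (0 : ℂ) (half_pos hρ)] with w hw
  rw [mem_ball_zero_iff] at hw
  have hw' : (x, w) ∈ U ×ˢ ball (0 : ℂ) ρ := ⟨hx, mem_ball_zero_iff.2 (by linarith)⟩
  have h1 : ∀ n, ‖f (x, w)‖ ≤ (‖w‖ * (2 / ρ)) ^ n * M := fun n => by
    rw [iter_eq n f (x, w)]
    simp only [h, zero_mul, Finset.sum_const_zero, zero_add, norm_mul, norm_pow, mul_pow, mul_assoc]
    exact mul_le_mul_of_nonneg_left (iter_bound hU hf hM n _ hw') (by positivity)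
  have h2 : ‖w‖ * (2 / ρ) < 1 := by
    rw [mul_div_assoc', div_lt_one hρ]; linarith
  have h3 := (tendsto_pow_atTop_nhds_zero_of_lt_one (by positivity) h2).mul_const M
  rw [zero_mul] at h3
  exact norm_le_zero_iff.1 (ge_of_tendsto' h3 h1)

theorem main {U : Set E} (hU : IsOpen U) {ρ m : ℝ} (hρ : 0 < ρ) (hm : 0 < m) {μ : ℕ}
    {f u q : E × ℂ → ℂ} (hu : DifferentiableOn ℂ u (U ×ˢ ball 0 ρ))
    (hq : DifferentiableOn ℂ q (U ×ˢ ball 0 ρ))
    (hum : ∀ p ∈ U ×ˢ ball (0 : ℂ) ρ, m ≤ ‖u p‖)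
    (hqb : ∀ p ∈ U ×ˢ ball (0 : ℂ) ρ, (2 / ρ) ^ μ * ‖q p‖ ≤ 1 / 2)
    (hf : ∀ p ∈ U ×ˢ ball (0 : ℂ) ρ, f p = (q p + p.2 ^ μ) * u p) :
    ∃ (a : E → Fin μ → ℂ) (c : E × ℂ → ℂ), (∀ j, DifferentiableOn ℂ (fun z => a z j) U) ∧
      DifferentiableOn ℂ c (U ×ˢ ball 0 ρ) ∧ ∀ p ∈ U ×ˢ ball (0 : ℂ) ρ, c p * f p = mp a p := by
  obtain ⟨g, g0, gs⟩ : ∃ g : ℕ → E × ℂ → ℂ, (∀ p, g 0 p = p.2 ^ μ) ∧
      ∀ k p, g (k + 1) p = -(sg^[μ] (g k) p * q p) :=
    ⟨fun k => (fun (h : E × ℂ → ℂ) p => -(sg^[μ] h p * q p))^[k] fun p => p.2 ^ μ, fun _ => rfl,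
      fun k p => by simp only [Function.iterate_succ_apply']⟩
  have hg : ∀ k, DifferentiableOn ℂ (g k) (U ×ˢ ball 0 ρ) ∧
      ∀ p ∈ U ×ˢ ball (0 : ℂ) ρ, ‖g k p‖ ≤ ρ ^ μ * (1 / 2) ^ k := by
    intro k
    induction k with
    | zero =>
      refine ⟨by simp only [funext g0]; fun_prop, fun p hp => ?_⟩
      rw [g0, norm_pow, pow_zero, mul_one]
      exact pow_le_pow_left₀ (norm_nonneg _) (mem_ball_zero_iff.1 hp.2).le _
    | succ k ih =>
      refine ⟨?_, fun p hp => ?_⟩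
      · rw [funext (gs k)]
        exact ((iter_diff hU ih.1 μ).fun_mul hq).fun_neg
      · rw [gs, norm_neg, norm_mul]
        have h1 := iter_bound hU ih.1 ih.2 μ p hp
        have h2 := hqb p hp
        calc ‖sg^[μ] (g k) p‖ * ‖q p‖ ≤ (2 / ρ) ^ μ * (ρ ^ μ * (1 / 2) ^ k) * ‖q p‖ :=
              mul_le_mul_of_nonneg_right h1 (norm_nonneg _)
          _ = (ρ ^ μ * (1 / 2) ^ k) * ((2 / ρ) ^ μ * ‖q p‖) := by ring
          _ ≤ (ρ ^ μ * (1 / 2) ^ k) * (1 / 2) := mul_le_mul_of_nonneg_left h2 (by positivity)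
          _ = _ := by ring
  have hs : ∀ n : ℕ, Summable fun k : ℕ => (2 / ρ) ^ n * (ρ ^ μ * (1 / 2 : ℝ) ^ k) := fun n =>
    (summable_geometric_two.mul_left _).mul_left _
  have hb : ∀ n k, ∀ p ∈ U ×ˢ ball (0 : ℂ) ρ,
      ‖sg^[n] (g k) p‖ ≤ (2 / ρ) ^ n * (ρ ^ μ * (1 / 2 : ℝ) ^ k) := fun n k =>
    iter_bound hU (hg k).1 (hg k).2 n
  have hd : ∀ n, DifferentiableOn ℂ (fun p => ∑' k, sg^[n] (g k) p) (U ×ˢ ball 0 ρ) := fun n =>
    differentiableOn_tsum' (hU.prod isOpen_ball) (fun k => iter_diff hU (hg k).1 n) (hs n) (hb n)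
  have hsum : ∀ n, ∀ p ∈ U ×ˢ ball (0 : ℂ) ρ, Summable fun k => sg^[n] (g k) p := fun n p hp =>
    Summable.of_norm_bounded (hs n) fun k => hb n k p hp
  have hu0 : ∀ p ∈ U ×ˢ ball (0 : ℂ) ρ, u p ≠ 0 := fun p hp =>
    norm_pos_iff.1 (hm.trans_le (hum p hp))
  refine ⟨fun z j => -∑' k, sg^[j] (g k) (z, 0), fun p => (∑' k, sg^[μ] (g k) p) * (u p)⁻¹,
    fun j => ?_, (hd μ).fun_mul (hu.fun_inv hu0), fun p hp => ?_⟩
  · have h5 := (slice0 hρ (hd j)).fun_neg
    exact h5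
  have hp0 : (p.1, (0 : ℂ)) ∈ U ×ˢ ball (0 : ℂ) ρ := ⟨hp.1, mem_ball_self hρ⟩
  have h0 : Summable fun k => g k p := by
    simpa only [Function.iterate_zero, id] using hsum 0 p hp
  have h1 := h0.tsum_eq_zero_add
  have h2 : HasSum (fun k => g (k + 1) p) (-((∑' k, sg^[μ] (g k) p) * q p)) := by
    simp only [gs]
    exact ((hsum μ p hp).hasSum.mul_right _).neg
  have h3a : HasSum (fun k => ∑ j : Fin μ, sg^[j] (g k) (p.1, 0) * p.2 ^ (j : ℕ))
      (∑ j : Fin μ, (∑' k, sg^[j] (g k) (p.1, 0)) * p.2 ^ (j : ℕ)) :=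
    hasSum_sum (f := fun (j : Fin μ) k => sg^[j] (g k) (p.1, 0) * p.2 ^ (j : ℕ))
      fun j _ => (hsum j _ hp0).hasSum.mul_right _
  have h3 := h3a.add ((hsum μ p hp).hasSum.mul_left (p.2 ^ μ))
  have h3' : (fun k => ∑ j : Fin μ, sg^[j] (g k) (p.1, 0) * p.2 ^ (j : ℕ) +
      p.2 ^ μ * sg^[μ] (g k) p) = fun k => g k p := funext fun k => (iter_eq μ (g k) p).symm
  rw [h3'] at h3
  rw [h3.tsum_eq, h2.tsum_eq, g0] at h1
  simp only [mp, pv, neg_mul, Finset.sum_neg_distrib]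
  rw [hf p hp]
  have h4 := inv_mul_cancel₀ (hu0 p hp)
  linear_combination h1 + (∑' k, sg^[μ] (g k) p) * (q p + p.2 ^ μ) * h4

end Prep

open Prep in
theorem exists_monic {f : E × ℂ → ℂ} {x : E} (hf : f ∈ (hsE (E × ℂ)).O (x, 0))
    (hne : ¬ ∀ᶠ w in 𝓝 (0 : ℂ), f (x, w) = 0) :
    ∃ (μ : ℕ) (a : E → Fin μ → ℂ) (c : E × ℂ → ℂ), (hsE E).HolV a x ∧
      c ∈ (hsE (E × ℂ)).O (x, 0) ∧ ∀ᶠ p in 𝓝 (x, (0 : ℂ)), c p * f p = mp a p := by
  classical
  have box : ∀ {P : E × ℂ → Prop}, (∀ᶠ p in 𝓝 (x, (0 : ℂ)), P p) →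
      ∃ U : Set E, IsOpen U ∧ x ∈ U ∧ ∃ ρ : ℝ, 0 < ρ ∧ ρ ≤ 1 ∧
        ∀ p ∈ U ×ˢ ball (0 : ℂ) ρ, P p := by
    intro P hP
    obtain ⟨s, hs, t, ht, hst⟩ := mem_nhds_prod_iff.1 hP
    obtain ⟨ρ, hρ, hρt⟩ := Metric.mem_nhds_iff.1 ht
    exact ⟨interior s, isOpen_interior, mem_interior_iff_mem_nhds.2 hs, min ρ 1,
      lt_min hρ one_pos, min_le_right _ _, fun p hp => hst ⟨interior_subset hp.1,
        hρt (ball_subset_ball (min_le_left _ _) hp.2)⟩⟩
  rw [mem_hsE] at hf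
  have hc : ∀ᶠ p in 𝓝 (x, (0 : ℂ)), ‖f p‖ < ‖f (x, 0)‖ + 1 :=
    hf.self_of_nhds.continuousAt.norm.eventually (gt_mem_nhds (lt_add_one _))
  obtain ⟨U0, hU0, hx0, ρ0, hρ0, -, h0⟩ := box (hf.and hc)
  have hd0 : DifferentiableOn ℂ f (U0 ×ˢ ball 0 ρ0) := fun p hp => (h0 p hp).1.differentiableWithinAt
  have hex := exists_order hU0 hρ0 hd0 (fun p hp => (h0 p hp).2.le) hx0 hne
  set μ := Nat.find hex with hμ
  have hμ1 : sg^[μ] f (x, 0) ≠ 0 := Nat.find_spec hex
  have hμ2 : ∀ j : Fin μ, sg^[j] f (x, 0) = 0 := fun j => not_not.1 (Nat.find_min hex j.2)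
  have hn0 : U0 ×ˢ ball (0 : ℂ) ρ0 ∈ 𝓝 (x, (0 : ℂ)) :=
    (hU0.prod isOpen_ball).mem_nhds ⟨hx0, mem_ball_self hρ0⟩
  set m := ‖sg^[μ] f (x, 0)‖ / 2 with hm
  have hm0 : 0 < m := half_pos (norm_pos_iff.2 hμ1)
  have hc1 : ∀ᶠ p in 𝓝 (x, (0 : ℂ)), m < ‖sg^[μ] f p‖ :=
    ((iter_diff hU0 hd0 μ).differentiableAt hn0).continuousAt.norm.eventually
      (lt_mem_nhds (half_lt_self (norm_pos_iff.2 hμ1)))
  obtain ⟨U1, hU1, hx1, ρ, hρ, hρ1, h1⟩ := box (hc1.and hn0)
  have ht : ∀ j : Fin μ, DifferentiableOn ℂ (fun z => sg^[j] f (z, 0)) U0 := fun j =>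
    slice0 hρ0 (iter_diff hU0 hd0 j)
  have hc2 : ContinuousAt (fun z => (2 / ρ) ^ μ * ∑ j : Fin μ, ‖sg^[j] f (z, 0)‖) x :=
    continuousAt_const.mul (tendsto_finsetSum _ fun j _ =>
      ((ht j).differentiableAt (hU0.mem_nhds hx0)).continuousAt.norm)
  have hc3 : ∀ᶠ z in 𝓝 x, (2 / ρ) ^ μ * ∑ j : Fin μ, ‖sg^[j] f (z, 0)‖ < m / 2 :=
    hc2.eventually (gt_mem_nhds (by simp only [hμ2]; simpa using hm0))
  obtain ⟨U, hUs, hU, hx⟩ := _root_.eventually_nhds_iff.1 (hc3.and (hU1.mem_nhds hx1))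
  have hsub : U ×ˢ ball (0 : ℂ) ρ ⊆ U1 ×ˢ ball 0 ρ := prod_mono_left fun z hz => (hUs z hz).2
  have hsub0 : U ×ˢ ball (0 : ℂ) ρ ⊆ U0 ×ˢ ball 0 ρ0 := fun p hp => (h1 p (hsub hp)).2
  have hu := (iter_diff hU0 hd0 μ).mono hsub0
  have hum : ∀ p ∈ U ×ˢ ball (0 : ℂ) ρ, m ≤ ‖sg^[μ] f p‖ := fun p hp => (h1 p (hsub hp)).1.le
  have hu0 : ∀ p ∈ U ×ˢ ball (0 : ℂ) ρ, sg^[μ] f p ≠ 0 := fun p hp =>
    norm_pos_iff.1 (hm0.trans_le (hum p hp))
  obtain ⟨a, c, ha, hcd, hcf⟩ := main (f := f) (μ := μ) hU hρ hm0 hu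
    (q := fun p => (∑ j : Fin μ, sg^[j] f (p.1, 0) * p.2 ^ (j : ℕ)) * (sg^[μ] f p)⁻¹)
    (DifferentiableOn.mul (DifferentiableOn.fun_sum fun j _ =>
      DifferentiableOn.mul ((ht j).comp (by fun_prop) fun p hp => (hsub0 hp).1) (by fun_prop))
      (hu.inv hu0)) hum
    (fun p hp => by
      have e1 : ‖∑ j : Fin μ, sg^[j] f (p.1, 0) * p.2 ^ (j : ℕ)‖ ≤
          ∑ j : Fin μ, ‖sg^[j] f (p.1, 0)‖ := by
        refine (norm_sum_le _ _).trans (Finset.sum_le_sum fun j _ => ?_)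
        rw [norm_mul, norm_pow]
        exact mul_le_of_le_one_right (norm_nonneg _)
          (pow_le_one₀ (norm_nonneg _) ((mem_ball_zero_iff.1 hp.2).le.trans hρ1))
      have e2 := (hUs _ hp.1).1
      have e3 := hum p hp
      have e4 : 0 < ‖sg^[μ] f p‖ := hm0.trans_le e3
      have e5 := mul_le_mul_of_nonneg_left e1 (by positivity : 0 ≤ (2 / ρ) ^ μ)
      rw [norm_mul, norm_inv, ← mul_assoc, ← div_eq_mul_inv, div_le_iff₀ e4]
      linarith)
    (fun p hp => by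
      have h4 := hu0 p hp
      rw [add_mul, mul_assoc, inv_mul_cancel₀ h4, mul_one]
      exact iter_eq μ f p)
  have hn : U ×ˢ ball (0 : ℂ) ρ ∈ 𝓝 (x, (0 : ℂ)) :=
    (hU.prod isOpen_ball).mem_nhds ⟨hx, mem_ball_self hρ⟩
  refine ⟨μ, a, c, fun j => ?_, ?_, ?_⟩
  · rw [mem_hsE]
    filter_upwards [hU.mem_nhds hx] with z hz using (ha j).differentiableAt (hU.mem_nhds hz)
  · rw [mem_hsE]
    filter_upwards [hn] with p hp using hcd.differentiableAt ((hU.prod isOpen_ball).mem_nhds hp)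
  · filter_upwards [hn] with p hp using hcf p hp

end Pool.Agent.QMax
end
end

-- part Pool.Agent.Lib.MP_ec9812_ag.Transport
section

/-! Transport of the analytic inputs along good charts. -/

open Set Filter Topology
open scoped Manifold ContDiff

noncomputable section

namespace Pool.Agent.QMax

section

variable {X Y : Type} [TopologicalSpace X] [TopologicalSpace Y] {H : HS X} {H' : HS Y}
  {e : OpenPartialHomeomorph X Y}

theorem Good.mem_comp (hg : Good H H' e) {x : X} (hx : x ∈ e.source) {g : Y → ℂ}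
    (hf : g ∈ H'.O (e x)) : g ∘ e ∈ H.O x := by
  refine (hg (g ∘ e) x hx).2 (H'.congr ?_ hf)
  filter_upwards [e.eventually_right_inverse (e.map_source hx)] with y hy
  simp only [Function.comp_apply, hy]

theorem Good.mem_comp' (hg : Good H H' e) {y : Y} (hy : y ∈ e.target) {g : Y → ℂ}
    (hf : g ∈ H'.O y) : g ∘ e ∈ H.O (e.symm y) :=
  hg.mem_comp (e.map_target hy) (by rwa [e.right_inv hy])

theorem Good.mem_symm' (hg : Good H H' e) {y : Y} (hy : y ∈ e.target) {f : X → ℂ}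
    (hf : f ∈ H.O (e.symm y)) : f ∘ e.symm ∈ H'.O y := by
  have := (hg f _ (e.map_target hy)).1 hf
  rwa [e.right_inv hy] at this

theorem Transport.pull {y : Y} (hy : y ∈ e.target) {P : Y → Prop} (h : ∀ᶠ w in 𝓝 y, P w) :
    ∀ᶠ z in 𝓝 (e.symm y), P (e z) ∧ e.symm (e z) = z := by
  refine Eventually.and ?_ (e.eventually_left_inverse (e.map_target hy))
  refine (e.continuousAt (e.map_target hy)).eventually ?_
  rwa [e.right_inv hy]

theorem Good.okaAt (hg : Good H H' e) {x : X} (hx : x ∈ e.source) (h : H'.OkaAt (e x)) :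
    H.OkaAt x := by
  intro κ ι _ _ F hF
  obtain ⟨ρ, _, s, hs⟩ := h κ ι (fun i => F i ∘ e.symm) fun i k => (hg _ x hx).1 (hF i k)
  refine ⟨ρ, inferInstance, fun j => s j ∘ e, ?_⟩
  filter_upwards [(e.continuousAt hx).eventually hs, e.open_source.mem_nhds hx] with y hy hys
  refine ⟨fun j => ?_, fun a ha => ?_⟩
  · obtain ⟨h1, h2⟩ := MSh.mem_Rel.1 (hy.1 j)
    refine MSh.mem_Rel.2 ⟨fun i => hg.mem_comp hys (h1 i), ?_⟩
    filter_upwards [(e.continuousAt hys).eventually h2, e.eventually_left_inverse hys]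
      with z hz hz'
    have hz2 : ∑ k, s j (e z) k • F k (e.symm (e z)) = (0 : κ → ℂ) := hz
    rw [hz'] at hz2
    exact hz2
  · obtain ⟨h1, h2⟩ := MSh.mem_Rel.1 ha
    obtain ⟨f, hf, hf'⟩ := hy.2 (a ∘ e.symm) (MSh.mem_Rel.2
      ⟨fun i => (hg _ y hys).1 (h1 i), (e.tendsto_symm hys).eventually h2⟩)
    refine ⟨f ∘ e, fun i => hg.mem_comp hys (hf i), ?_⟩
    filter_upwards [(e.continuousAt hys).eventually hf', e.eventually_left_inverse hys]
      with z hz hz'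
    have hz2 : a (e.symm (e z)) = (∑ k, f (e z) k • s k (e z) : ι → ℂ) := hz
    have hz3 : (a (e.symm (e z)) : ι → ℂ) = a z :=
      congrArg (fun w => (a w : ι → ℂ)) hz'
    exact hz3.symm.trans hz2

theorem Good.cousinP (hg : Good H H' e) {K₁ K₂ K₁₂ : Set Y} (h₁ : K₁ ⊆ e.target)
    (h₂ : K₂ ⊆ e.target) (h₁₂ : K₁₂ ⊆ e.target) (h : H'.CousinP K₁ K₂ K₁₂) :
    H.CousinP (e.symm '' K₁) (e.symm '' K₂) (e.symm '' K₁₂) := by
  intro f hf
  obtain ⟨f₁, f₂, a1, a2, a3⟩ := h (f ∘ e.symm) fun y hy =>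
    hg.mem_symm' (h₁₂ hy) (hf _ (mem_image_of_mem _ hy))
  refine ⟨f₁ ∘ e, f₂ ∘ e, ?_, ?_, ?_⟩
  · rintro _ ⟨y, hy, rfl⟩
    exact hg.mem_comp' (h₁ hy) (a1 y hy)
  · rintro _ ⟨y, hy, rfl⟩
    exact hg.mem_comp' (h₂ hy) (a2 y hy)
  · rintro _ ⟨y, hy, rfl⟩
    filter_upwards [Transport.pull (h₁₂ hy) (a3 y hy)] with z hz
    simpa only [Function.comp_apply, hz.2] using hz.1

theorem Good.cartanP (hg : Good H H' e) {K₁ K₂ K₁₂ : Set Y} (h₁ : K₁ ⊆ e.target)
    (h₂ : K₂ ⊆ e.target) (h₁₂ : K₁₂ ⊆ e.target) (h : H'.CartanP K₁ K₂ K₁₂) :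
    H.CartanP (e.symm '' K₁) (e.symm '' K₂) (e.symm '' K₁₂) := by
  intro ι κ _ _ _ m k hm hk
  obtain ⟨P, Q, S, R, a1, a2, a3, a4, a5, a6⟩ := h ι κ (m ∘ e.symm) (k ∘ e.symm)
    (fun y hy i j => hg.mem_symm' (h₁₂ hy) (hm _ (mem_image_of_mem _ hy) i j))
    (fun y hy i j => hg.mem_symm' (h₁₂ hy) (hk _ (mem_image_of_mem _ hy) i j))
  refine ⟨P ∘ e, Q ∘ e, S ∘ e, R ∘ e, ?_, ?_, ?_, ?_, ?_, ?_⟩
  · rintro _ ⟨y, hy, rfl⟩ i j
    exact hg.mem_comp' (h₁ hy) (a1 y hy i j)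
  · rintro _ ⟨y, hy, rfl⟩ i j
    exact hg.mem_comp' (h₁ hy) (a2 y hy i j)
  · rintro _ ⟨y, hy, rfl⟩ i j
    exact hg.mem_comp' (h₂ hy) (a3 y hy i j)
  · rintro _ ⟨y, hy, rfl⟩ i j
    exact hg.mem_comp' (h₁₂ hy) (a4 y hy i j)
  · rintro _ ⟨y, hy, rfl⟩
    filter_upwards [Transport.pull (h₁ hy) (a5 y hy)] with z hz
    exact hz.1
  · rintro _ ⟨y, hy, rfl⟩
    filter_upwards [Transport.pull (h₁₂ hy) (a6 y hy)] with z hz
    simpa only [Function.comp_apply, hz.2] using hz.1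

end

theorem good_of_homeomorph {E E' : Type} [NormedAddCommGroup E] [NormedSpace ℂ E]
    [NormedAddCommGroup E'] [NormedSpace ℂ E'] (φ : E ≃ₜ E') (h₁ : Differentiable ℂ φ)
    (h₂ : Differentiable ℂ φ.symm) : Good (hsE E) (hsE E') φ.toOpenPartialHomeomorph := by
  intro f x _
  change _ ↔ f ∘ φ.symm ∈ (hsE E').O (φ x)
  rw [mem_hsE, mem_hsE]
  constructor
  · intro h
    have ht : Tendsto φ.symm (𝓝 (φ x)) (𝓝 x) := by
      simpa using φ.symm.continuous.tendsto (φ x)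
    filter_upwards [ht.eventually h] with y hy
    exact hy.comp y (h₂ y)
  · intro h
    filter_upwards [(φ.continuous.tendsto x).eventually h] with y hy
    have := hy.comp y (h₁ y)
    simpa [Function.comp_def] using this

section

variable {n : ℕ} {X : Type} [TopologicalSpace X] [ChartedSpace (Fin n → ℂ) X]
  [IsManifold 𝓘(ℂ, Fin n → ℂ) ω X]

theorem good_of_mem_atlas {e : OpenPartialHomeomorph X (Fin n → ℂ)}
    (he : e ∈ atlas (Fin n → ℂ) X) : Good (hsM n X) (hsE _) e := by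
  have hm : e.MDifferentiable 𝓘(ℂ, Fin n → ℂ) 𝓘(ℂ, Fin n → ℂ) := mdifferentiable_of_mem_atlas he
  intro f x hx
  rw [mem_hsM, mem_hsE]
  constructor
  · intro h
    filter_upwards [(e.tendsto_symm hx).eventually h,
      e.open_target.mem_nhds (e.map_source hx)] with y hy hyt
    exact mdifferentiableAt_iff_differentiableAt.1 (hy.comp y (hm.mdifferentiableAt_symm hyt))
  · intro h
    filter_upwards [(e.continuousAt hx).eventually h, e.open_source.mem_nhds hx] with y hy hys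
    have h1 : MDifferentiableAt 𝓘(ℂ, Fin n → ℂ) 𝓘(ℂ) ((f ∘ e.symm) ∘ e) y :=
      (mdifferentiableAt_iff_differentiableAt.2 hy).comp y (hm.mdifferentiableAt hys)
    refine h1.congr_of_eventuallyEq ?_
    filter_upwards [e.eventually_left_inverse hys] with z hz
    simp only [Function.comp_apply, hz]

theorem contMDiffAt_of_mem_hsM {f : X → ℂ} {x : X} (hf : f ∈ (hsM n X).O x) :
    ContMDiffAt 𝓘(ℂ, Fin n → ℂ) 𝓘(ℂ) ∞ f x := by
  set e := chartAt (Fin n → ℂ) x with he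
  have hx : x ∈ e.source := mem_chart_source _ x
  have h1 := mem_hsE.1 ((good_of_mem_atlas (chart_mem_atlas (Fin n → ℂ) x) f x hx).1 hf)
  obtain ⟨U, hU, hUo, hxU⟩ := eventually_nhds_iff.1 h1
  have h2 : DifferentiableOn ℂ (f ∘ e.symm) U := fun y hy => (hU y hy).differentiableWithinAt
  have h3 : ContDiffAt ℂ ∞ (f ∘ e.symm) (e x) :=
    (contDiffOn_infty.2 fun m =>
      Pool.Agent.Lib.MP_7906d6_an.contDiffOn_of_differentiableOn hUo m h2).contDiffAt
      (hUo.mem_nhds hxU)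
  have h4 : ContMDiffAt 𝓘(ℂ, Fin n → ℂ) 𝓘(ℂ, Fin n → ℂ) ∞ e x :=
    (contMDiffOn_chart (I := 𝓘(ℂ, Fin n → ℂ)) (n := ∞) (x := x)).contMDiffAt
      (e.open_source.mem_nhds hx)
  have h5 : ContMDiffAt 𝓘(ℂ, Fin n → ℂ) 𝓘(ℂ) ∞ ((f ∘ e.symm) ∘ e) x :=
    h3.contMDiffAt.comp x h4
  refine h5.congr_of_eventuallyEq ?_
  filter_upwards [e.eventually_left_inverse hx] with z hz
  simp only [Function.comp_apply, hz]

end

end Pool.Agent.QMax
end
end

-- part Pool.Agent.Lib.MP_ec9812_ag.OkaA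
section

/-! Formal reductions for Oka's coherence theorem, valid for every holomorphic structure. -/

open Set Filter Topology

noncomputable section

namespace Pool.Agent.QMax.Oka

variable {X : Type} [TopologicalSpace X] (H : HS X)

/-- The germs described by `P` are generated by one finite family at all points near `x`. -/
def FG {ι : Type} (P : (X → ι → ℂ) → X → Prop) (x : X) : Prop :=
  ∃ (ρ : Type) (_ : Fintype ρ) (τ : ρ → X → ι → ℂ), ∀ᶠ y in 𝓝 x, (∀ j, P (τ j) y) ∧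
    ∀ g, P g y → ∃ c : X → ρ → ℂ, H.HolV c y ∧ ∀ᶠ z in 𝓝 y, g z = ∑ j, c z j • τ j z

/-- `g` is a relation between the scalar functions `f i` near `y`. -/
def SR {ι : Type} [Fintype ι] (f : ι → X → ℂ) (g : X → ι → ℂ) (y : X) : Prop :=
  H.HolV g y ∧ ∀ᶠ z in 𝓝 y, ∑ i, g z i * f i z = 0

/-- `g` is a relation between the components in `S` of the vector functions `F i` near `y`. -/
def VR {ι κ : Type} [Fintype ι] (S : Finset κ) (F : ι → X → κ → ℂ) (g : X → ι → ℂ) (y : X) :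
    Prop :=
  H.HolV g y ∧ ∀ᶠ z in 𝓝 y, ∀ k ∈ S, ∑ i, g z i * F i z k = 0

variable {H}

theorem FG.congr {ι : Type} {P P' : (X → ι → ℂ) → X → Prop} {x : X} (h : FG H P x)
    (hP : ∀ᶠ y in 𝓝 x, ∀ g, P g y ↔ P' g y) : FG H P' x := by
  obtain ⟨ρ, _, τ, hτ⟩ := h
  refine ⟨ρ, inferInstance, τ, ?_⟩
  filter_upwards [hτ, hP] with y h1 h2
  exact ⟨fun j => (h2 _).1 (h1.1 j), fun g hg => h1.2 g ((h2 g).2 hg)⟩

theorem fg_holV {ι : Type} [Fintype ι] (x : X) : FG H (fun g : X → ι → ℂ => H.HolV g) x := by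
  classical
  refine ⟨ι, inferInstance, fun j _ => Pi.single j 1, Eventually.of_forall fun y =>
    ⟨fun j i => HS.const_mem _ y, fun g hg => ⟨g, hg, Eventually.of_forall fun z => ?_⟩⟩⟩
  funext i
  simp [Finset.sum_apply, Pi.single_apply]

theorem holV_sum_smul {ι ρ : Type} [Fintype ρ] {c : X → ρ → ℂ} {τ : ρ → X → ι → ℂ} {y : X}
    (hc : H.HolV c y) (hτ : ∀ j, H.HolV (τ j) y) : H.HolV (fun z => ∑ j, c z j • τ j z) y := by
  intro i
  simp only [Finset.sum_apply, Pi.smul_apply, smul_eq_mul]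
  exact HS.sum_mem' fun j _ => HS.mul_mem' (hc j) (hτ j i)

theorem sum_smul_mul {ι ρ : Type} [Fintype ι] [Fintype ρ] (c : ρ → ℂ) (τ : ρ → ι → ℂ)
    (v : ι → ℂ) : ∑ i, (∑ j, c j • τ j) i * v i = ∑ j, c j * ∑ i, τ j i * v i := by
  simp only [Finset.sum_apply, Pi.smul_apply, smul_eq_mul, Finset.sum_mul, Finset.mul_sum,
    mul_assoc]
  exact Finset.sum_comm

theorem sum_smul_sum {ι ρ σ : Type} [Fintype ρ] [Fintype σ] (d : σ → ℂ) (s : σ → ρ → ℂ)
    (τ : ρ → ι → ℂ) : ∑ j, (∑ l, d l • s l) j • τ j = ∑ l, d l • ∑ j, s l j • τ j := by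
  simp only [Finset.sum_apply, Pi.smul_apply, smul_eq_mul, Finset.sum_smul, Finset.smul_sum,
    smul_smul]
  exact Finset.sum_comm

/-- The vector valued case follows from the scalar case. -/
theorem fg_VR {x : X}
    (hs : ∀ (ι : Type) [Fintype ι] (f : ι → X → ℂ), (∀ i, f i ∈ H.O x) → FG H (SR H f) x)
    {ι κ : Type} [Fintype ι] {F : ι → X → κ → ℂ} (hF : ∀ i, H.HolV (F i) x) (S : Finset κ) :
    FG H (VR H S F) x := by
  classical
  induction S using Finset.induction_on with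
  | empty =>
    exact (fg_holV x).congr (Eventually.of_forall fun y g => by simp [VR])
  | insert k S hk ih =>
    obtain ⟨ρ, _, τ, hτ⟩ := ih
    obtain ⟨σ, _, s, hs'⟩ := hs ρ (fun j z => ∑ i, τ j z i * F i z k) fun j =>
      HS.sum_mem' fun i _ => HS.mul_mem' ((hτ.self_of_nhds.1 j).1 i) (hF i k)
    refine ⟨σ, inferInstance, fun l z => ∑ j, s l z j • τ j z, ?_⟩
    filter_upwards [hτ, hs'] with y h1 h2
    refine ⟨fun l => ⟨holV_sum_smul (h2.1 l).1 fun j => (h1.1 j).1, ?_⟩, fun g hg => ?_⟩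
    · filter_upwards [(h2.1 l).2, eventually_all.2 fun j => (h1.1 j).2] with z h3 h4 k' hk'
      rw [sum_smul_mul]
      rcases Finset.mem_insert.1 hk' with rfl | hk'
      · exact h3
      · exact Finset.sum_eq_zero fun j _ => by rw [h4 j k' hk', mul_zero]
    · obtain ⟨c, hc, hgc⟩ := h1.2 g ⟨hg.1, hg.2.mono fun z hz k' hk' =>
        hz k' (Finset.mem_insert_of_mem hk')⟩
      obtain ⟨d, hd, hcd⟩ := h2.2 c ⟨hc, by
        filter_upwards [hgc, hg.2] with z h3 h4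
        rw [← sum_smul_mul, ← h3]
        exact h4 k (Finset.mem_insert_self k S)⟩
      refine ⟨d, hd, ?_⟩
      filter_upwards [hgc, hcd] with z h3 h4
      rw [h3, h4, sum_smul_sum]

theorem mem_Rel_iff {ι κ : Type} [Fintype ι] [Fintype κ] {F : ι → X → κ → ℂ} {g : X → ι → ℂ}
    {y : X} : g ∈ ((MSh.free H κ).Rel F).A y ↔ VR H Finset.univ F g y := by
  rw [MSh.mem_Rel]
  refine and_congr_right fun _ => eventually_congr (Eventually.of_forall fun z => ?_)
  rw [MSh.lc_free]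
  constructor
  · intro h k _
    have : (∑ i, g z i • F i z) k = 0 := congrFun h k
    simpa [Finset.sum_apply] using this
  · intro h
    funext k
    have := h k (Finset.mem_univ k)
    change (∑ i, g z i • F i z) k = 0
    simpa [Finset.sum_apply] using this

theorem finAt_iff {ι κ : Type} [Fintype ι] [Fintype κ] {F : ι → X → κ → ℂ} {x : X} :
    ((MSh.free H κ).Rel F).FinAt x ↔ FG H (VR H Finset.univ F) x := by
  constructor
  · rintro ⟨ρ, _, τ, hτ⟩
    refine ⟨ρ, inferInstance, τ, hτ.mono fun y hy =>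
      ⟨fun j => mem_Rel_iff.1 (hy.1 j), fun g hg => hy.2 g (mem_Rel_iff.2 hg)⟩⟩
  · rintro ⟨ρ, _, τ, hτ⟩
    refine ⟨ρ, inferInstance, τ, hτ.mono fun y hy =>
      ⟨fun j => mem_Rel_iff.2 (hy.1 j), fun g hg => hy.2 g (mem_Rel_iff.1 hg)⟩⟩

theorem okaAt_of_scalar {x : X}
    (hs : ∀ (ι : Type) [Fintype ι] (f : ι → X → ℂ), (∀ i, f i ∈ H.O x) → FG H (SR H f) x) :
    H.OkaAt x := fun _ _ _ _ _ hF => finAt_iff.2 (fg_VR hs hF _)

/-- Reduction to the divisor and the remainders. -/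
theorem fg_of_option {ι : Type} [Fintype ι] {f Q R : ι → X → ℂ} {P c : X → ℂ} {i₀ : ι} {x : X}
    (hc : c ∈ H.O x) (hQ : ∀ i, Q i ∈ H.O x) (h1 : ∀ᶠ z in 𝓝 x, c z * f i₀ z = P z)
    (h2 : ∀ᶠ z in 𝓝 x, ∀ i, f i z = Q i z * P z + R i z)
    (h : FG H (SR H fun o : Option ι => o.elim P R) x) : FG H (SR H f) x := by
  classical
  obtain ⟨ρ, _, τ, hτ⟩ := h
  refine ⟨ρ, inferInstance, fun l z i => τ l z (some i) +
    (if i = i₀ then 1 else 0) * (c z * (τ l z none - ∑ k, τ l z (some k) * Q k z)), ?_⟩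
  filter_upwards [hτ, H.nhds hc, eventually_all.2 fun i => H.nhds (hQ i), h1.eventually_nhds,
    h2.eventually_nhds] with y h3 hc' hQ' h1' h2'
  refine ⟨fun l => ⟨fun i => HS.add_mem' ((h3.1 l).1 _) (HS.mul_mem' (HS.const_mem _ y)
    (HS.mul_mem' hc' (HS.sub_mem' ((h3.1 l).1 _)
      (HS.sum_mem' fun k _ => HS.mul_mem' ((h3.1 l).1 _) (hQ' k))))), ?_⟩, fun g hg => ?_⟩
  · filter_upwards [(h3.1 l).2, h1', h2'] with z h4 h5 h6
    simp only [Fintype.sum_option, Option.elim] at h4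
    simp only [add_mul, Finset.sum_add_distrib, ite_mul, one_mul, zero_mul, Finset.sum_ite_eq',
      Finset.mem_univ, if_true]
    have h7 : ∑ i, τ l z (some i) * f i z =
        (∑ k, τ l z (some k) * Q k z) * P z + ∑ i, τ l z (some i) * R i z := by
      rw [Finset.sum_mul, ← Finset.sum_add_distrib]
      exact Finset.sum_congr rfl fun i _ => by rw [h6 i]; ring
    rw [h7]
    linear_combination h4 + (τ l z none - ∑ k, τ l z (some k) * Q k z) * h5
  · obtain ⟨d, hd, hgd⟩ := h3.2 (fun z o => o.elim (∑ k, g z k * Q k z) (g z)) ⟨by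
      rintro (_ | i)
      · exact HS.sum_mem' fun k _ => HS.mul_mem' (hg.1 k) (hQ' k)
      · exact hg.1 i, by
      filter_upwards [hg.2, h2'] with z h4 h6
      simp only [Fintype.sum_option, Option.elim]
      rw [← h4, Finset.sum_mul, ← Finset.sum_add_distrib]
      exact Finset.sum_congr rfl fun i _ => by rw [h6 i]; ring⟩
    refine ⟨d, hd, hgd.mono fun z hz => funext fun i => ?_⟩
    have e1 : ∀ k, g z k = ∑ l, d z l * τ l z (some k) := fun k => by
      simpa [Finset.sum_apply] using congrFun hz (some k)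
    have e2 : ∑ k, g z k * Q k z = ∑ l, d z l * τ l z none := by
      simpa [Finset.sum_apply] using congrFun hz none
    have e3 : ∑ l, d z l * (τ l z none - ∑ k, τ l z (some k) * Q k z) = 0 := by
      simp only [mul_sub, Finset.sum_sub_distrib, ← e2, e1, Finset.sum_mul, Finset.mul_sum,
        mul_assoc]
      rw [Finset.sum_comm, sub_self]
    simp only [Finset.sum_apply, Pi.smul_apply, smul_eq_mul, mul_add, Finset.sum_add_distrib]
    rw [← e1 i]
    have e4 : ∑ l, d z l * ((if i = i₀ then 1 else 0) *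
        (c z * (τ l z none - ∑ k, τ l z (some k) * Q k z))) =
        (if i = i₀ then 1 else 0) * (c z *
          ∑ l, d z l * (τ l z none - ∑ k, τ l z (some k) * Q k z)) := by
      rw [Finset.mul_sum, Finset.mul_sum]
      exact Finset.sum_congr rfl fun l _ => by ring
    rw [e4, e3]
    simp

/-- Transport along a homeomorphism that preserves the holomorphic structures. -/
theorem fg_of_homeomorph {Y : Type} [TopologicalSpace Y] {H' : HS Y} (φ : X ≃ₜ Y)
    (h1 : ∀ g x, g ∈ H'.O (φ x) → g ∘ φ ∈ H.O x)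
    (h2 : ∀ g x, g ∈ H.O x → g ∘ φ.symm ∈ H'.O (φ x))
    {ι : Type} [Fintype ι] {f : ι → X → ℂ} {x : X}
    (h : FG H' (SR H' fun i => f i ∘ φ.symm) (φ x)) : FG H (SR H f) x := by
  obtain ⟨ρ, _, τ, hτ⟩ := h
  refine ⟨ρ, inferInstance, fun j => τ j ∘ φ, ?_⟩
  filter_upwards [φ.continuous.continuousAt.eventually hτ] with y hy
  refine ⟨fun j => ⟨fun i => h1 _ y ((hy.1 j).1 i), ?_⟩, fun g hg => ?_⟩
  · filter_upwards [φ.continuous.continuousAt.eventually (hy.1 j).2] with z hz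
    simpa using hz
  · have ht : Tendsto φ.symm (𝓝 (φ y)) (𝓝 y) := by
      have := φ.symm.continuous.tendsto (φ y)
      rwa [φ.symm_apply_apply] at this
    obtain ⟨c, hc, hgc⟩ := hy.2 (g ∘ φ.symm) ⟨fun i => h2 _ y (hg.1 i), ht.eventually hg.2⟩
    refine ⟨c ∘ φ, fun j => h1 _ y (hc j), ?_⟩
    filter_upwards [φ.continuous.continuousAt.eventually hgc] with z hz
    simpa using hz

end Pool.Agent.QMax.Oka
end
end

-- part Pool.Agent.Lib.MP_ec9812_ag.Oka
section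

/-! Oka's coherence theorem. -/

open Set Filter Topology

noncomputable section

namespace Pool.Agent.QMax

namespace Oka

/-- The polynomial with the coefficients `c`. -/
def pp {μ : ℕ} (c : Fin μ → ℂ) : Polynomial ℂ :=
  ∑ j, Polynomial.C (c j) * Polynomial.X ^ (j : ℕ)

theorem natDegree_pp {μ : ℕ} (c : Fin μ → ℂ) : (pp c).natDegree ≤ μ :=
  Polynomial.natDegree_sum_le_of_forall_le _ _ fun j _ =>
    (Polynomial.natDegree_C_mul_X_pow_le _ _).trans j.2.le

theorem eval_pp {μ : ℕ} (c : Fin μ → ℂ) (w : ℂ) : (pp c).eval w = ∑ j, c j * w ^ (j : ℕ) := by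
  simp [pp, Polynomial.eval_finsetSum]

variable {E : Type} [NormedAddCommGroup E] [NormedSpace ℂ E]

omit [NormedAddCommGroup E] [NormedSpace ℂ E] in
/-- A polynomial relation that holds at `2 μ + 1` points holds everywhere. -/
theorem rel_of_points {μ : ℕ} {ι : Type} [Fintype ι] (α a : E → Fin μ → ℂ)
    (r b : ι → E → Fin μ → ℂ) (z : E)
    (h : ∀ k : Fin (2 * μ + 1), pv α (z, ((k : ℕ) : ℂ)) * mp a (z, ((k : ℕ) : ℂ)) +
      ∑ i, pv (r i) (z, ((k : ℕ) : ℂ)) * pv (b i) (z, ((k : ℕ) : ℂ)) = 0) (w : ℂ) :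
    pv α (z, w) * mp a (z, w) + ∑ i, pv (r i) (z, w) * pv (b i) (z, w) = 0 := by
  set p : Polynomial ℂ := pp (α z) * (Polynomial.X ^ μ + pp (a z)) +
    ∑ i, pp (r i z) * pp (b i z) with hp
  have he : ∀ w : ℂ, p.eval w =
      pv α (z, w) * mp a (z, w) + ∑ i, pv (r i) (z, w) * pv (b i) (z, w) := fun w => by
    simp [hp, Polynomial.eval_finsetSum, eval_pp, pv, mp]
  have hd : p.natDegree ≤ 2 * μ := by
    refine Polynomial.natDegree_add_le_of_degree_le ?_ ?_
    · refine Polynomial.natDegree_mul_le.trans ?_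
      have h1 : (Polynomial.X ^ μ + pp (a z) : Polynomial ℂ).natDegree ≤ μ :=
        Polynomial.natDegree_add_le_of_degree_le (Polynomial.natDegree_X_pow_le μ)
          (natDegree_pp _)
      have := natDegree_pp (α z)
      omega
    · refine Polynomial.natDegree_sum_le_of_forall_le _ _ fun i _ => ?_
      refine Polynomial.natDegree_mul_le.trans ?_
      have := natDegree_pp (r i z)
      have := natDegree_pp (b i z)
      omega
  have h0 : p = 0 := by
    refine Polynomial.eq_zero_of_natDegree_lt_card_of_eval_eq_zero p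
      (f := fun k : Fin (2 * μ + 1) => ((k : ℕ) : ℂ)) ?_ (fun k => (he _).trans (h k)) ?_
    · exact Nat.cast_injective.comp Fin.val_injective
    · rw [Fintype.card_fin]; omega
  rw [← he, h0, Polynomial.eval_zero]

theorem mem_fst {f : E → ℂ} {y : E × ℂ} (hf : f ∈ (hsE E).O y.1) :
    (fun p : E × ℂ => f p.1) ∈ (hsE (E × ℂ)).O y := by
  rw [mem_hsE] at hf ⊢
  filter_upwards [continuous_fst.continuousAt.eventually hf] with p hp
  exact hp.comp p differentiableAt_fst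

theorem mem_slice {f : E × ℂ → ℂ} {x : E} {w : ℂ} (hf : f ∈ (hsE (E × ℂ)).O (x, w)) :
    (fun z => f (z, w)) ∈ (hsE E).O x := by
  rw [mem_hsE] at hf ⊢
  have hc : ContinuousAt (fun z : E => (z, w)) x := by fun_prop
  filter_upwards [hc.eventually hf] with z hz
  exact hz.comp z (by fun_prop)

omit [NormedAddCommGroup E] [NormedSpace ℂ E] in
theorem sum_option_prod {μ : ℕ} {ι : Type} [Fintype ι] (s : E → Option ι × Fin μ → ℂ)
    (v : Option ι → ℂ) (z : E) (w : ℂ) :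
    ∑ o : Option ι × Fin μ, s z o * (w ^ (o.2 : ℕ) * v o.1) =
      pv (fun z j => s z (none, j)) (z, w) * v none +
        ∑ i, pv (fun z j => s z (some i, j)) (z, w) * v (some i) := by
  simp only [Fintype.sum_prod_type, Fintype.sum_option, pv, Finset.sum_mul, mul_assoc]

omit [NormedAddCommGroup E] [NormedSpace ℂ E] in
theorem pv_sum {μ : ℕ} {ρ : Type} [Fintype ρ] {c : E → Fin μ → ℂ} {s : ρ → E → Fin μ → ℂ}
    {d : ρ → ℂ} {p : E × ℂ} (h : ∀ j, c p.1 j = ∑ l, d l * s l p.1 j) :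
    pv c p = ∑ l, d l * pv (s l) p := by
  simp only [pv, h, Finset.sum_mul, Finset.mul_sum, mul_assoc]
  exact Finset.sum_comm

/-- Relations between a monic polynomial and polynomials of smaller degree. -/
theorem fg_poly {μ : ℕ} {ι : Type} [Fintype ι] {a : E → Fin μ → ℂ} {b : ι → E → Fin μ → ℂ}
    {x : E × ℂ} (ha : (hsE E).HolV a x.1) (hb : ∀ i, (hsE E).HolV (b i) x.1)
    (ih : (hsE E).OkaAt x.1) :
    FG (hsE (E × ℂ)) (SR (hsE (E × ℂ)) fun o : Option ι => o.elim (mp a) fun i => pv (b i)) x := by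
  classical
  obtain ⟨ρ, _, s, hs⟩ := finAt_iff.1 (ih (Fin (2 * μ + 1)) (Option ι × Fin μ)
    (fun o z k => ((k : ℕ) : ℂ) ^ (o.2 : ℕ) *
      (o.1.elim (mp a) (fun i => pv (b i)) : E × ℂ → ℂ) (z, ((k : ℕ) : ℂ))) (by
      rintro ⟨_ | i, j⟩ k
      · exact HS.mul_mem' (HS.const_mem _ _) (mem_slice (mp_mem ha))
      · exact HS.mul_mem' (HS.const_mem _ _) (mem_slice (pv_mem (hb i)))))
  refine ⟨ι ⊕ ρ, inferInstance, Sum.elim
    (fun k p o => o.elim (-pv (b k) p) fun i => (if i = k then 1 else 0) * mp a p)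
    (fun l p o => pv (fun z j => s l z (o, j)) p), ?_⟩
  have hc : ContinuousAt (Prod.fst : E × ℂ → E) x := continuous_fst.continuousAt
  filter_upwards [hc.eventually hs, hc.eventually ha.nhds,
    hc.eventually (eventually_all.2 fun i => (hb i).nhds)] with y h1 ha' hb'
  have hcy : ContinuousAt (Prod.fst : E × ℂ → E) y := continuous_fst.continuousAt
  refine ⟨?_, fun g hg => ?_⟩
  · rintro (k | l)
    · refine ⟨?_, Eventually.of_forall fun p => ?_⟩
      · rintro (_ | i)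
        · exact HS.neg_mem' (pv_mem (hb' k))
        · exact HS.mul_mem' (HS.const_mem _ _) (mp_mem ha')
      · simp [Fintype.sum_option, mul_comm]
    · refine ⟨fun o => pv_mem fun j => (h1.1 l).1 (o, j), ?_⟩
      filter_upwards [hcy.eventually (h1.1 l).2] with p hp
      simp only [Fintype.sum_option, Sum.elim_inr, Option.elim]
      refine rel_of_points _ a (fun i z j => s l z (some i, j)) b p.1 (fun k => ?_) p.2
      have := hp k (Finset.mem_univ k)
      rwa [sum_option_prod (s l) (fun o =>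
        (o.elim (mp a) (fun i => pv (b i)) : E × ℂ → ℂ) (p.1, ((k : ℕ) : ℂ)))] at this
  · obtain ⟨q, r, α, hq, hr, hα, e1, e2, e3⟩ := div_rel ha' hb' (hg.1 none)
      (fun i => hg.1 (some i)) (by simpa [Fintype.sum_option] using hg.2)
    obtain ⟨d, hd, hsd⟩ := h1.2 (fun z o => o.1.elim (α z o.2) fun i => r i z o.2) ⟨by
      rintro ⟨_ | i, j⟩
      · exact hα j
      · exact hr i j, by
      filter_upwards [e2] with z hz k _
      rw [sum_option_prod (fun z (o : Option ι × Fin μ) => o.1.elim (α z o.2) fun i => r i z o.2)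
        (fun o => (o.elim (mp a) (fun i => pv (b i)) : E × ℂ → ℂ) (z, ((k : ℕ) : ℂ)))]
      exact hz _⟩
    refine ⟨fun p => Sum.elim (fun k => q k p) (d p.1), ?_, ?_⟩
    · rintro (k | l)
      · exact hq k
      · exact mem_fst (hd l)
    · filter_upwards [e1, e3, hcy.eventually hsd] with p h2 h3 h4
      funext o
      simp only [Finset.sum_apply, Pi.smul_apply, smul_eq_mul, Fintype.sum_sum_type, Sum.elim_inl,
        Sum.elim_inr]
      rcases o with _ | i
      · rw [h3, ← pv_sum (c := α) (s := fun l z j => s l z (none, j)) (d := d p.1) fun j => by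
          simpa [Finset.sum_apply] using congrFun h4 (none, j)]
        simp only [Option.elim, mul_neg, Finset.sum_neg_distrib]
        ring
      · rw [h2 i, ← pv_sum (c := r i) (s := fun l z j => s l z (some i, j)) (d := d p.1)
          fun j => by simpa [Finset.sum_apply] using congrFun h4 (some i, j)]
        simp

/-- The inductive step for a family with a member that is regular in the last variable. -/
theorem fg_regular {ι : Type} [Fintype ι] {f : ι → E × ℂ → ℂ} {x : E}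
    (hf : ∀ i, f i ∈ (hsE (E × ℂ)).O (x, 0)) {i₀ : ι}
    (hne : ¬ ∀ᶠ w in 𝓝 (0 : ℂ), f i₀ (x, w) = 0) (ih : (hsE E).OkaAt x) :
    FG (hsE (E × ℂ)) (SR (hsE (E × ℂ)) f) (x, 0) := by
  obtain ⟨μ, a, c, ha, hc, hca⟩ := exists_monic (hf i₀) hne
  choose Q b hQ hb hQb using fun i => div_simple (y := (x, (0 : ℂ))) ha (hf i)
  exact fg_of_option hc hQ hca (eventually_all.2 hQb) (fg_poly (x := (x, 0)) ha hb ih)

/-- A nonzero germ is nonzero along some complex line. -/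
theorem exists_line [Nontrivial E] {f : E → ℂ} {x : E} (hf : f ∈ (hsE E).O x)
    (hne : ¬ ∀ᶠ y in 𝓝 x, f y = 0) :
    ∃ v : E, v ≠ 0 ∧ ¬ ∀ᶠ t in 𝓝 (0 : ℂ), f (x + t • v) = 0 := by
  by_contra hcon
  push Not at hcon
  apply hne
  obtain ⟨R, hR, hB⟩ := Metric.eventually_nhds_iff_ball.1 (mem_hsE.1 hf)
  filter_upwards [Metric.ball_mem_nhds x hR] with y hy
  by_cases hxy : y = x
  · obtain ⟨v, hv⟩ := exists_ne (0 : E)
    have := (hcon v hv).self_of_nhds
    simpa [hxy] using this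
  · set L : ℂ →ᵃ[ℝ] E := AffineMap.const ℝ ℂ x +
      ((LinearMap.toSpanSingleton ℂ E (y - x)).restrictScalars ℝ).toAffineMap with hL
    have hLt : ∀ t : ℂ, L t = x + t • (y - x) := fun t => by simp [hL]
    have hconv : Convex ℝ {t : ℂ | x + t • (y - x) ∈ Metric.ball x R} := by
      have := (convex_ball x R).affine_preimage L
      simpa only [preimage, hLt] using this
    have hopen : IsOpen {t : ℂ | x + t • (y - x) ∈ Metric.ball x R} :=
      Metric.isOpen_ball.preimage (by fun_prop)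
    have hd : DifferentiableOn ℂ (fun t : ℂ => f (x + t • (y - x)))
        {t : ℂ | x + t • (y - x) ∈ Metric.ball x R} := fun t ht =>
      ((hB _ ht).comp t (by fun_prop)).differentiableWithinAt
    have := (hd.analyticOnNhd hopen).eqOn_zero_of_preconnected_of_eventuallyEq_zero
      hconv.isPreconnected (z₀ := 0) (by simpa using hR) (hcon _ (sub_ne_zero.2 hxy))
      (x := 1) (by simpa [dist_eq_norm] using hy)
    simpa using this

theorem scalar_zero [Subsingleton E] {ι : Type} [Fintype ι] (f : ι → E → ℂ) (x : E) :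
    FG (hsE E) (SR (hsE E) f) x := by
  have hO : ∀ (g : E → ℂ) (y : E), g ∈ (hsE E).O y := fun g y =>
    (hsE E).congr (Eventually.of_forall fun z => congrArg g (Subsingleton.elim x z))
      (HS.const_mem (g x) y)
  let φ : (ι → ℂ) →ₗ[ℂ] ℂ := ∑ i, f i x • LinearMap.proj i
  have hφ : ∀ v, φ v = ∑ i, v i * f i x := fun v => by simp [φ, mul_comm]
  let B := Module.finBasis ℂ (LinearMap.ker φ)
  refine ⟨_, inferInstance, fun j _ => (B j : ι → ℂ), Eventually.of_forall fun y =>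
    ⟨fun j => ⟨fun i => hO _ y, Eventually.of_forall fun z => ?_⟩, fun g hg => ?_⟩⟩
  · rw [Subsingleton.elim z x, ← hφ]
    exact (B j).2
  · have hm : g x ∈ LinearMap.ker φ := by
      have := hg.2.self_of_nhds
      rwa [Subsingleton.elim y x, ← hφ] at this
    refine ⟨fun _ j => B.repr ⟨g x, hm⟩ j, fun j => hO _ y, Eventually.of_forall fun z => ?_⟩
    have := congrArg Subtype.val (B.sum_repr ⟨g x, hm⟩)
    rw [Subsingleton.elim z x]
    simpa only [Submodule.coe_sum, Submodule.coe_smul] using this.symm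

/-- Coordinates adapted to a complex line. -/
theorem exists_equiv [FiniteDimensional ℂ E] {v : E} (hv : v ≠ 0) :
    ∃ (S : Submodule ℂ E) (L : (S × ℂ) ≃L[ℂ] E), Module.finrank ℂ S + 1 = Module.finrank ℂ E ∧
      ∀ t : ℂ, L (0, t) = t • v := by
  obtain ⟨S, hS⟩ := Submodule.exists_isCompl (Submodule.span ℂ {v})
  let L₀ : (S × ℂ) ≃ₗ[ℂ] E :=
    ((LinearEquiv.refl ℂ S).prodCongr (LinearEquiv.toSpanNonzeroSingleton ℂ E v hv)).trans
      (Submodule.prodEquivOfIsCompl _ _ hS.symm)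
  refine ⟨S, L₀.toContinuousLinearEquiv, ?_, fun t => ?_⟩
  · rw [← L₀.finrank_eq, Module.finrank_prod, Module.finrank_self]
  · simp [L₀]

theorem oka_aux (n : ℕ) : ∀ (E : Type) [NormedAddCommGroup E] [NormedSpace ℂ E]
    [FiniteDimensional ℂ E], Module.finrank ℂ E = n → ∀ x : E, (hsE E).OkaAt x := by
  induction n with
  | zero =>
    intro E _ _ _ hn x
    have : Subsingleton E := Module.finrank_zero_iff.1 hn
    exact okaAt_of_scalar fun ι _ f _ => scalar_zero f x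
  | succ n ih =>
    intro E _ _ _ hn x
    have : Nontrivial E := Module.nontrivial_of_finrank_eq_succ hn
    refine okaAt_of_scalar fun ι _ f hf => ?_
    by_cases h0 : ∀ i, ∀ᶠ y in 𝓝 x, f i y = 0
    · refine (fg_holV x).congr ?_
      filter_upwards [(eventually_all.2 h0).eventually_nhds] with y hy g
      exact ⟨fun hg => ⟨hg, hy.mono fun z hz => by simp [hz]⟩, fun hg => hg.1⟩
    · push Not at h0
      obtain ⟨i₀, hi⟩ := h0
      obtain ⟨v, hv, hne⟩ := exists_line (hf i₀) (by simpa using hi)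
      obtain ⟨S, L, hS, hL⟩ := exists_equiv hv
      let φ : E ≃ₜ S × ℂ := (Homeomorph.subRight x).trans L.symm.toHomeomorph
      have hφ : ∀ y, φ y = L.symm (y - x) := fun _ => rfl
      have hφ' : ∀ p, φ.symm p = L p + x := fun _ => rfl
      have hd : Differentiable ℂ φ := by
        rw [show (φ : E → S × ℂ) = fun y => L.symm (y - x) from rfl]
        fun_prop
      have hd' : Differentiable ℂ φ.symm := by
        rw [show (φ.symm : S × ℂ → E) = fun p => L p + x from rfl]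
        fun_prop
      have hg := good_of_homeomorph φ hd hd'
      have h2 : ∀ g y, g ∈ (hsE E).O y → g ∘ φ.symm ∈ (hsE (S × ℂ)).O (φ y) := fun g y h =>
        (hg g y (mem_univ y)).1 h
      have hx : φ x = (0, 0) := by rw [hφ, sub_self, map_zero]; rfl
      refine fg_of_homeomorph φ (fun g y h => hg.mem_comp (mem_univ y) h) h2 ?_
      rw [hx]
      refine fg_regular (i₀ := i₀) (fun i => hx ▸ h2 _ x (hf i)) ?_ (ih S (by omega) 0)
      simpa only [Function.comp_apply, hφ', hL, add_comm] using hne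

end Oka

theorem oka (E : Type) [NormedAddCommGroup E] [NormedSpace ℂ E] [FiniteDimensional ℂ E] (x : E) :
    (hsE E).OkaAt x := Oka.oka_aux _ E rfl x

end Pool.Agent.QMax
end
end

-- part Pool.Agent.Lib.MP_ec9812_ag.BridgeA
section

/-! Stalks and germs for a presheaf of modules over a presheaf of rings. -/

open Set Filter Topology CategoryTheory TopologicalSpace Opposite
open scoped Manifold ContDiff

noncomputable section

namespace Pool.Agent.QMax.Bridge

section General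

variable {X : Type} [TopologicalSpace X] (R : (Opens X)ᵒᵖ ⥤ RingCat.{0})

/-- The stalk of the presheaf of rings. -/
def RSt (x : X) : Type := (TopCat.Presheaf.stalk (X := TopCat.of X) R x : RingCat.{0})

instance (x : X) : Ring (RSt R x) :=
  inferInstanceAs (Ring (TopCat.Presheaf.stalk (X := TopCat.of X) R x : RingCat.{0}))

/-- Germs of ring sections. -/
def gr (U : Opens X) (x : X) (hx : x ∈ U) : Fn R U →+* RSt R x :=
  (TopCat.Presheaf.germ (X := TopCat.of X) R U x hx).hom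

variable {R}

theorem gr_res {U V : Opens X} (h : V ≤ U) {x : X} (hx : x ∈ V) (r : Fn R U) :
    gr R V x hx (resO h r) = gr R U x (h hx) r :=
  TopCat.Presheaf.germ_res_apply (X := TopCat.of X) R (homOfLE h) x hx r

variable (M : PresheafOfModules.{0} R)

/-- The stalk of the presheaf of modules. -/
def MSt (x : X) : Type :=
  (TopCat.Presheaf.stalk (X := TopCat.of X) M.presheaf x : AddCommGrpCat.{0})

instance (x : X) : AddCommGroup (MSt M x) :=
  inferInstanceAs (AddCommGroup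
    (TopCat.Presheaf.stalk (X := TopCat.of X) M.presheaf x : AddCommGrpCat.{0}))

instance (x : X) : Module (RSt R x) (MSt M x) :=
  PresheafOfModules.instModuleCarrierStalkRingCatCarrierAbPresheafOpensCarrier
    (X := TopCat.of X) M x

/-- Germs of module sections. -/
def gm (U : Opens X) (x : X) (hx : x ∈ U) : Sec M U →+ MSt M x :=
  (TopCat.Presheaf.germ (X := TopCat.of X) M.presheaf U x hx).hom

theorem gm_res {U V : Opens X} (h : V ≤ U) {x : X} (hx : x ∈ V) (s : Sec M U) :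
    gm M V x hx (res M h s) = gm M U x (h hx) s :=
  TopCat.Presheaf.germ_res_apply (X := TopCat.of X) M.presheaf (homOfLE h) x hx s

theorem gm_smul {U : Opens X} {x : X} (hx : x ∈ U) (r : Fn R U) (s : Sec M U) :
    gm M U x hx (r • s) = gr R U x hx r • gm M U x hx s :=
  PresheafOfModules.germ_ringCat_smul (X := TopCat.of X) M x U hx r s

open Classical in
/-- The total function of germs of a section, zero outside the domain. -/
def phi (U : Opens X) : Sec M U →+ ∀ y, MSt M y where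
  toFun s y := if h : y ∈ U then gm M U y h s else 0
  map_zero' := by
    funext y
    by_cases h : y ∈ U <;> simp [h]
  map_add' s t := by
    funext y
    by_cases h : y ∈ U <;> simp [h]

theorem phi_apply {U : Opens X} {y : X} (hy : y ∈ U) (s : Sec M U) :
    phi M U s y = gm M U y hy s := dif_pos hy

theorem phi_res {U V : Opens X} (h : V ≤ U) {y : X} (hy : y ∈ V) (s : Sec M U) :
    phi M V (res M h s) y = phi M U s y := by
  rw [phi_apply M hy, phi_apply M (h hy), gm_res]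

theorem phi_smul {U : Opens X} {y : X} (hy : y ∈ U) (r : Fn R U) (s : Sec M U) :
    phi M U (r • s) y = gr R U y hy r • phi M U s y := by
  rw [phi_apply M hy, phi_apply M hy, gm_smul]

theorem phi_comb {U V : Opens X} (h : V ≤ U) {p : ℕ} (f : Fin p → Fn R V) (s : Fin p → Sec M U)
    {y : X} (hy : y ∈ V) :
    phi M V (comb M h f s) y = ∑ i, gr R V y hy (f i) • phi M U (s i) y := by
  rw [comb, map_sum, Finset.sum_apply]
  exact Finset.sum_congr rfl fun i _ => by rw [phi_smul M hy, phi_res M h hy]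

end General

section Hol

variable {n : ℕ} {X : Type} [TopologicalSpace X] [ChartedSpace (Fin n → ℂ) X]

/-- The value of a section of the structure sheaf. -/
def ev {U : Opens X} (r : Fn (OX n X).obj U) (y : U) : ℂ :=
  (show C^∞⟮𝓘(ℂ, Fin n → ℂ), U; 𝓘(ℂ), ℂ⟯ from r) y

theorem ev_ext {U : Opens X} {r r' : Fn (OX n X).obj U} (h : ∀ y, ev r y = ev r' y) : r = r' :=
  ContMDiffMap.ext (f := (r : C^∞⟮𝓘(ℂ, Fin n → ℂ), U; 𝓘(ℂ), ℂ⟯)) h

theorem ev_res {U V : Opens X} (h : V ≤ U) (r : Fn (OX n X).obj U) (y : V) :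
    ev (resO h r) y = ev r ⟨y, h y.2⟩ := rfl

theorem ev_add {U : Opens X} (r r' : Fn (OX n X).obj U) (y : U) :
    ev (r + r') y = ev r y + ev r' y := rfl

theorem ev_mul {U : Opens X} (r r' : Fn (OX n X).obj U) (y : U) :
    ev (r * r') y = ev r y * ev r' y := rfl

theorem ev_zero {U : Opens X} (y : U) : ev (0 : Fn (OX n X).obj U) y = 0 := rfl

theorem ev_one {U : Opens X} (y : U) : ev (1 : Fn (OX n X).obj U) y = 1 := rfl

theorem ev_const (c : ℂ) {U : Opens X} (y : U) : ev (constFn n c U) y = c := rfl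

theorem ev_sum {U : Opens X} {ι : Type*} (s : Finset ι) (r : ι → Fn (OX n X).obj U) (y : U) :
    ev (∑ i ∈ s, r i) y = ∑ i ∈ s, ev (r i) y := by
  classical
  induction s using Finset.induction_on with
  | empty => simp [ev_zero]
  | insert i s hi ih => rw [Finset.sum_insert hi, Finset.sum_insert hi, ev_add, ih]

open Classical in
/-- Extension by zero of a section of the structure sheaf. -/
def ext0 {U : Opens X} (r : Fn (OX n X).obj U) (y : X) : ℂ :=
  if h : y ∈ U then ev r ⟨y, h⟩ else 0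

theorem ext0_apply {U : Opens X} (r : Fn (OX n X).obj U) {y : X} (hy : y ∈ U) :
    ext0 r y = ev r ⟨y, hy⟩ := dif_pos hy

theorem ext0_mem {U : Opens X} (r : Fn (OX n X).obj U) {x : X} (hx : x ∈ U) :
    ext0 r ∈ (hsM n X).O x := by
  rw [mem_hsM]
  filter_upwards [U.isOpen.mem_nhds hx] with y hy
  have h1 : ContMDiff 𝓘(ℂ, Fin n → ℂ) 𝓘(ℂ) ∞ (fun z : U => ext0 r z) := by
    have : (fun z : U => ext0 r z) = (show C^∞⟮𝓘(ℂ, Fin n → ℂ), U; 𝓘(ℂ), ℂ⟯ from r) :=
      funext fun z => ext0_apply r z.2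
    rw [this]
    exact ContMDiffMap.contMDiff _
  have h2 : ContMDiffAt 𝓘(ℂ, Fin n → ℂ) 𝓘(ℂ) ∞ (ext0 r) y :=
    (contMDiffAt_subtype_iff (U := U) (f := ext0 r) (x := ⟨y, hy⟩)).1 (h1 ⟨y, hy⟩)
  exact h2.mdifferentiableAt (by simp)

theorem gr_congr {U V : Opens X} {x : X} (hU : x ∈ U) (hV : x ∈ V) {r : Fn (OX n X).obj U}
    {r' : Fn (OX n X).obj V} (h : ext0 r =ᶠ[𝓝 x] ext0 r') :
    gr _ U x hU r = gr _ V x hV r' := by
  obtain ⟨W, hW, hWo, hxW⟩ := eventually_nhds_iff.1 h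
  let W' : Opens X := ⟨W, hWo⟩ ⊓ (U ⊓ V)
  have h1 : W' ≤ U := inf_le_right.trans inf_le_left
  have h2 : W' ≤ V := inf_le_right.trans inf_le_right
  have hx : x ∈ W' := ⟨hxW, hU, hV⟩
  rw [← gr_res h1 hx, ← gr_res h2 hx]
  congr 1
  refine ev_ext fun y => ?_
  rw [ev_res, ev_res, ← ext0_apply r (h1 y.2), ← ext0_apply r' (h2 y.2)]
  exact hW y y.2.1

variable [IsManifold 𝓘(ℂ, Fin n → ℂ) ω X]

/-- A function that is holomorphic near all points of `U`, as a section over `U`. -/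
def toSec (f : X → ℂ) (U : Opens X) (h : ∀ y ∈ U, f ∈ (hsM n X).O y) : Fn (OX n X).obj U :=
  (⟨fun y : U => f y, fun y =>
    (contMDiffAt_subtype_iff (U := U) (f := f) (x := y)).2 (contMDiffAt_of_mem_hsM (h y y.2))⟩ :
      C^∞⟮𝓘(ℂ, Fin n → ℂ), U; 𝓘(ℂ), ℂ⟯)

theorem ev_toSec (f : X → ℂ) (U : Opens X) (h : ∀ y ∈ U, f ∈ (hsM n X).O y) (y : U) :
    ev (toSec f U h) y = f y := rfl

theorem ext0_toSec (f : X → ℂ) (U : Opens X) (h : ∀ y ∈ U, f ∈ (hsM n X).O y) {x : X}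
    (hx : x ∈ U) : f =ᶠ[𝓝 x] ext0 (toSec f U h) := by
  filter_upwards [U.isOpen.mem_nhds hx] with y hy
  rw [ext0_apply _ hy, ev_toSec]

variable (n) in
/-- The domain of holomorphy of a total function. -/
def dom (f : X → ℂ) : Opens X :=
  ⟨{y | f ∈ (hsM n X).O y}, isOpen_iff_mem_nhds.2 fun _ h => (hsM n X).nhds h⟩

variable (n) in
open Classical in
/-- The germ of a total function (zero if it is not holomorphic near the point). -/
def gf (f : X → ℂ) (x : X) : RSt (OX n X).obj x :=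
  if h : f ∈ (hsM n X).O x then gr _ (dom n f) x h (toSec f (dom n f) fun _ hy => hy) else 0

theorem gf_eq {f : X → ℂ} {U : Opens X} {x : X} (hx : x ∈ U) {r : Fn (OX n X).obj U}
    (h : f =ᶠ[𝓝 x] ext0 r) : gf n f x = gr _ U x hx r := by
  have hf : f ∈ (hsM n X).O x := (hsM n X).congr h.symm (ext0_mem r hx)
  rw [gf, dif_pos hf]
  exact gr_congr _ _ ((ext0_toSec f (dom n f) (fun _ hy => hy) hf).symm.trans h)

theorem gf_congr {f g : X → ℂ} {x : X} (h : f =ᶠ[𝓝 x] g) : gf n f x = gf n g x := by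
  by_cases hg : g ∈ (hsM n X).O x
  · have h2 := ext0_toSec g (dom n g) (fun _ hy => hy) hg
    rw [gf_eq (U := dom n g) hg (h.trans h2), gf_eq (U := dom n g) hg h2]
  · have hf : f ∉ (hsM n X).O x := fun hf => hg ((hsM n X).congr h hf)
    rw [gf, gf, dif_neg hf, dif_neg hg]

theorem gf_add {f g : X → ℂ} {x : X} (hf : f ∈ (hsM n X).O x) (hg : g ∈ (hsM n X).O x) :
    gf n (f + g) x = gf n f x + gf n g x := by
  have hx : x ∈ dom n f ⊓ dom n g := ⟨hf, hg⟩
  have h1 := ext0_toSec f (dom n f ⊓ dom n g) (fun _ hy => hy.1) hx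
  have h2 := ext0_toSec g (dom n f ⊓ dom n g) (fun _ hy => hy.2) hx
  rw [gf_eq hx h1, gf_eq hx h2, ← map_add]
  refine gf_eq hx ?_
  filter_upwards [(dom n f ⊓ dom n g).isOpen.mem_nhds hx] with y hy
  rw [ext0_apply _ hy]
  rfl

theorem gf_mul {f g : X → ℂ} {x : X} (hf : f ∈ (hsM n X).O x) (hg : g ∈ (hsM n X).O x) :
    gf n (f * g) x = gf n f x * gf n g x := by
  have hx : x ∈ dom n f ⊓ dom n g := ⟨hf, hg⟩
  have h1 := ext0_toSec f (dom n f ⊓ dom n g) (fun _ hy => hy.1) hx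
  have h2 := ext0_toSec g (dom n f ⊓ dom n g) (fun _ hy => hy.2) hx
  rw [gf_eq hx h1, gf_eq hx h2, ← map_mul]
  refine gf_eq hx ?_
  filter_upwards [(dom n f ⊓ dom n g).isOpen.mem_nhds hx] with y hy
  rw [ext0_apply _ hy]
  rfl

theorem gf_const (c : ℂ) {U : Opens X} {x : X} (hx : x ∈ U) :
    gf n (fun _ => c) x = gr _ U x hx (constFn n c U) := by
  refine gf_eq hx ?_
  filter_upwards [U.isOpen.mem_nhds hx] with y hy
  rw [ext0_apply _ hy]
  rfl

variable (n) in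
/-- Germs of constants. -/
def cst (x : X) : ℂ →+* RSt (OX n X).obj x where
  toFun c := gf n (fun _ => c) x
  map_one' := by
    rw [gf_const (U := ⊤) 1 trivial]
    exact map_one _
  map_zero' := by
    rw [gf_const (U := ⊤) 0 trivial]
    exact map_zero _
  map_mul' c d := gf_mul (HS.const_mem c x) (HS.const_mem d x)
  map_add' c d := gf_add (HS.const_mem c x) (HS.const_mem d x)

theorem gf_comm (f : X → ℂ) (c : ℂ) (x : X) : gf n f x * cst n x c = cst n x c * gf n f x := by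
  by_cases hf : f ∈ (hsM n X).O x
  · change gf n f x * gf n (fun _ => c) x = gf n (fun _ => c) x * gf n f x
    rw [← gf_mul hf (HS.const_mem c x), ← gf_mul (HS.const_mem c x) hf, mul_comm]
  · rw [gf, dif_neg hf, zero_mul, mul_zero]

end Hol

end Pool.Agent.QMax.Bridge
end
end

-- part Pool.Agent.Lib.MP_ec9812_ag.Bridge
section

/-! A coherent sheaf of modules is a coherent module sheaf of functions (with values in stalks). -/

open Set Filter Topology CategoryTheory TopologicalSpace Opposite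
open scoped Manifold ContDiff

noncomputable section

namespace Pool.Agent.QMax

namespace Bridge

variable {n : ℕ} {X : Type} [TopologicalSpace X] [ChartedSpace (Fin n → ℂ) X]
  [IsManifold 𝓘(ℂ, Fin n → ℂ) ω X] (M : PresheafOfModules.{0} (OX n X).obj)

/-- The complex vector space structure of the stalks. -/
instance modC (x : X) : Module ℂ (MSt M x) := Module.compHom (MSt M x) (cst n x)

theorem smul_def (c : ℂ) {x : X} (v : MSt M x) : c • v = cst n x c • v := rfl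

/-- The action of a total function on the stalks. -/
def actL (f : X → ℂ) (x : X) : MSt M x →ₗ[ℂ] MSt M x where
  toFun v := gf n f x • v
  map_add' v w := smul_add _ v w
  map_smul' c v := by
    rw [RingHom.id_apply, smul_def, smul_def, ← mul_smul, gf_comm, mul_smul]

theorem actL_apply (f : X → ℂ) (x : X) (v : MSt M x) : actL M f x v = gf n f x • v := rfl

theorem actL_phi {f : X → ℂ} {U : Opens X} {y : X} (hy : y ∈ U) {r : Fn (OX n X).obj U}
    (h : f =ᶠ[𝓝 y] ext0 r) (s : Sec M U) :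
    actL M f y (phi M U s y) = phi M U (r • s) y := by
  rw [actL_apply, gf_eq hy h, phi_smul M hy]

theorem smul_phi (c : ℂ) {U : Opens X} {y : X} (hy : y ∈ U) (s : Sec M U) :
    c • phi M U s y = phi M U (constFn n c U • s) y := by
  rw [smul_def, phi_smul M hy, ← gf_const c hy]
  rfl

/-- Total functions that are germs of one section near `x`. -/
def Asub (x : X) : Submodule ℂ (∀ y, MSt M y) where
  carrier := {a | ∃ U : Opens X, x ∈ U ∧ ∃ s : Sec M U, ∀ᶠ y in 𝓝 x, a y = phi M U s y}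
  add_mem' := by
    rintro a b ⟨U, hU, s, hs⟩ ⟨V, hV, t, ht⟩
    refine ⟨U ⊓ V, ⟨hU, hV⟩, res M inf_le_left s + res M inf_le_right t, ?_⟩
    filter_upwards [hs, ht, (U ⊓ V).isOpen.mem_nhds ⟨hU, hV⟩] with y h1 h2 hy
    rw [map_add, Pi.add_apply, Pi.add_apply, phi_res M _ hy, phi_res M _ hy, h1, h2]
  zero_mem' := ⟨⊤, trivial, 0, Eventually.of_forall fun y => by rw [map_zero]⟩
  smul_mem' := by
    rintro c a ⟨U, hU, s, hs⟩
    refine ⟨U, hU, constFn n c U • s, ?_⟩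
    filter_upwards [hs, U.isOpen.mem_nhds hU] with y h1 hy
    rw [Pi.smul_apply, h1, smul_phi M c hy]

/-- The module sheaf of functions with values in the stalks. -/
def msh : MSh (hsM n X) where
  E := MSt M
  A := Asub M
  congr := by
    rintro x a b h ⟨U, hU, s, hs⟩
    exact ⟨U, hU, s, by filter_upwards [h, hs] with y h1 h2; rw [← h1, h2]⟩
  nhds := by
    rintro x a ⟨U, hU, s, hs⟩
    filter_upwards [hs.eventually_nhds, U.isOpen.mem_nhds hU] with y h1 hy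
    exact ⟨U, hy, s, h1⟩
  act := actL M
  act_congr h := LinearMap.ext fun v => by rw [actL_apply, actL_apply, gf_congr h]
  act_add hf hg := LinearMap.ext fun v => by
    rw [LinearMap.add_apply, actL_apply, actL_apply, actL_apply, gf_add hf hg, add_smul]
  act_mul hf hg := LinearMap.ext fun v => by
    rw [LinearMap.comp_apply, actL_apply, actL_apply, actL_apply, gf_mul hf hg, mul_smul]
  act_const c y := LinearMap.ext fun v => rfl
  act_mem := by
    rintro f a x hf ⟨U, hU, s, hs⟩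
    have hx : x ∈ U ⊓ dom n f := ⟨hU, hf⟩
    refine ⟨U ⊓ dom n f, hx, toSec f (U ⊓ dom n f) (fun _ hy => hy.2) • res M inf_le_left s, ?_⟩
    filter_upwards [hs, (U ⊓ dom n f).isOpen.mem_nhds hx] with y h1 hy
    rw [h1, ← phi_res M inf_le_left hy, actL_phi M hy (ext0_toSec f (U ⊓ dom n f) (fun _ hy => hy.2) hy)]

theorem mem_A {x : X} {a : (msh M).T} : a ∈ (msh M).A x ↔
    ∃ U : Opens X, x ∈ U ∧ ∃ s : Sec M U, ∀ᶠ y in 𝓝 x, a y = phi M U s y := Iff.rfl

theorem phi_mem {U : Opens X} {x : X} (hx : x ∈ U) (s : Sec M U) :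
    (phi M U s : (msh M).T) ∈ (msh M).A x := ⟨U, hx, s, Eventually.of_forall fun _ => rfl⟩

/-- A section near `x` is the function of germs of a section on a small open set. -/
theorem exists_sec {x : X} {a : (msh M).T} (ha : a ∈ (msh M).A x) {V : Opens X} (hV : x ∈ V) :
    ∃ W : Opens X, W ≤ V ∧ x ∈ W ∧ ∃ s : Sec M W, ∀ y ∈ W, a y = phi M W s y := by
  obtain ⟨U, hU, s, hs⟩ := ha
  obtain ⟨W, hW, hWo, hxW⟩ := eventually_nhds_iff.1 hs
  let W' : Opens X := ⟨W, hWo⟩ ⊓ (U ⊓ V)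
  have h1 : W' ≤ U := inf_le_right.trans inf_le_left
  refine ⟨W', inf_le_right.trans inf_le_right, ⟨hxW, hU, hV⟩, res M h1 s, fun y hy => ?_⟩
  rw [phi_res M h1 hy]
  exact hW y hy.1

theorem exists_sec_fin {x : X} {ι : Type} [Finite ι] {a : ι → (msh M).T}
    (ha : ∀ i, a i ∈ (msh M).A x) :
    ∃ W : Opens X, x ∈ W ∧ ∃ s : ι → Sec M W, ∀ i, ∀ y ∈ W, a i y = phi M W (s i) y := by
  choose U _ hU s hs using fun i => exists_sec M (ha i) (V := ⊤) trivial
  let W : Opens X := ⟨⋂ i, U i, isOpen_iInter_of_finite fun i => (U i).isOpen⟩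
  have h1 : ∀ i, W ≤ U i := fun i y hy => mem_iInter.1 hy i
  refine ⟨W, mem_iInter.2 hU, fun i => res M (h1 i) (s i), fun i y hy => ?_⟩
  rw [phi_res M (h1 i) hy]
  exact hs i y (h1 i hy)

theorem lc_phi {ι : Type} [Fintype ι] {p : ℕ} (e : ι ≃ Fin p) {U V : Opens X} (h : V ≤ U)
    (f : Fin p → Fn (OX n X).obj V) (s : Fin p → Sec M U) {y : X} (hy : y ∈ V)
    {g : X → ι → ℂ} (hg : ∀ i, (fun z => g z i) =ᶠ[𝓝 y] ext0 (f (e i)))
    {a : ι → (msh M).T} (ha : ∀ i, a i y = phi M U (s (e i)) y) :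
    (msh M).lc g a y = phi M V (comb M h f s) y := by
  rw [phi_comb M h f s hy, ← e.sum_comp]
  refine Finset.sum_congr rfl fun i _ => ?_
  rw [ha i, ← gf_eq hy (hg i)]
  rfl

theorem finAt (hM : FiniteType M) (x : X) : (msh M).FinAt x := by
  obtain ⟨U, p, s, hx, hs⟩ := hM x
  refine ⟨Fin p, inferInstance, fun i => phi M U (s i), ?_⟩
  filter_upwards [U.isOpen.mem_nhds hx] with y hy
  refine ⟨fun i => phi_mem M hy _, fun a ha => ?_⟩
  obtain ⟨V, hVU, hyV, t, ht⟩ := exists_sec M ha hy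
  obtain ⟨W, hWV, f, hyW, hf⟩ := hs V hVU t y hyV
  refine ⟨fun z i => ext0 (f i) z, fun i => ext0_mem (f i) hyW, ?_⟩
  filter_upwards [W.isOpen.mem_nhds hyW] with z hz
  rw [ht z (hWV hz), ← phi_res M hWV hz, hf]
  exact (lc_phi M (Equiv.refl _) (hWV.trans hVU) f s hz (fun _ => EventuallyEq.rfl)
    fun _ => rfl).symm

section Sheaf

variable (F : SheafOfModules.{0} (OX n X))

omit [IsManifold 𝓘(ℂ, Fin n → ℂ) ω X] in
theorem phi_inj {U : Opens X} {s t : Sec F.val U}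
    (h : ∀ y ∈ U, phi F.val U s y = phi F.val U t y) : s = t := by
  refine TopCat.Presheaf.section_ext (X := TopCat.of X) (ab F) U s t fun x hx => ?_
  have := h x hx
  rw [phi_apply _ hx, phi_apply _ hx] at this
  exact this

theorem phi_surj {U : Opens X} {a : (msh F.val).T} (ha : (msh F.val).IsSec U a) :
    ∃ s : Sec F.val U, ∀ y ∈ U, phi F.val U s y = a y := by
  choose W hWU hW s hs using fun x : U => exists_sec F.val (ha x x.2) x.2
  have hc : TopCat.Presheaf.IsCompatible (X := TopCat.of X) (ab F).1 W s := by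
    intro i j
    refine phi_inj F (U := W i ⊓ W j) (s := res F.val inf_le_left (s i))
      (t := res F.val inf_le_right (s j)) fun y hy => ?_
    rw [phi_res _ _ hy, phi_res _ _ hy, ← hs i y hy.1, ← hs j y hy.2]
  obtain ⟨t, ht, -⟩ := TopCat.Sheaf.existsUnique_gluing' (X := TopCat.of X) (ab F) W U
    (fun i => homOfLE (hWU i)) (fun y hy => Opens.mem_iSup.2 ⟨⟨y, hy⟩, hW ⟨y, hy⟩⟩) s hc
  refine ⟨t, fun y hy => ?_⟩
  have h1 : res F.val (hWU ⟨y, hy⟩) t = s ⟨y, hy⟩ := ht ⟨y, hy⟩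
  rw [hs ⟨y, hy⟩ y (hW ⟨y, hy⟩), ← h1]
  exact (phi_res F.val (hWU ⟨y, hy⟩) (y := y) (hW ⟨y, hy⟩) t).symm

theorem rel_finAt (hM : RelationsFiniteType F.val) (x : X) (ρ : Type) [Fintype ρ]
    (a : ρ → (msh F.val).T) (ha : ∀ i, a i ∈ (msh F.val).A x) :
    ((msh F.val).Rel a).FinAt x := by
  obtain ⟨U, hxU, s, hs⟩ := exists_sec_fin F.val ha
  let e := Fintype.equivFin ρ
  obtain ⟨U', hU', r, τ, hx', hτ, hgen⟩ := hM U _ (fun i => s (e.symm i)) x hxU
  have ha' : ∀ z ∈ U, ∀ i, a i z = phi F.val U (s (e.symm (e i))) z := fun z hz i => by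
    rw [e.symm_apply_apply, hs i z hz]
  refine ⟨Fin r, inferInstance, fun j z i => ext0 (τ j (e i)) z, ?_⟩
  filter_upwards [U'.isOpen.mem_nhds hx'] with y hy
  refine ⟨fun j => MSh.mem_Rel.2 ⟨fun i => ext0_mem _ hy, ?_⟩, fun f hf => ?_⟩
  · filter_upwards [U'.isOpen.mem_nhds hy] with z hz
    rw [lc_phi F.val e hU' (τ j) (fun i => s (e.symm i)) hz (fun _ => EventuallyEq.rfl)
      (ha' z (hU' hz)), hτ j, map_zero]
    rfl
  · obtain ⟨hf1, hf2⟩ := MSh.mem_Rel.1 hf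
    obtain ⟨V, hV, hVo, hyV⟩ := eventually_nhds_iff.1 (hf1.nhds.and hf2)
    let V' : Opens X := ⟨V, hVo⟩ ⊓ U'
    have hV' : V' ≤ U' := inf_le_right
    let f' : Fin (Fintype.card ρ) → Fn (OX n X).obj V' := fun i =>
      toSec (fun z => f z (e.symm i)) V' fun z hz => (hV z hz.1).1 _
    have h0 : comb F.val (hV'.trans hU') f' (fun i => s (e.symm i)) = 0 := by
      refine phi_inj F fun z hz => ?_
      rw [← lc_phi F.val e (hV'.trans hU') f' (fun i => s (e.symm i)) hz (g := f) (fun i => ?_)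
        (ha' z (hU' hz.2)), (hV z hz.1).2, map_zero]
      · rfl
      · have := ext0_toSec (fun z => f z (e.symm (e i))) V' (fun z hz => (hV z hz.1).1 _) hz
        refine EventuallyEq.trans ?_ this
        rw [e.symm_apply_apply]
    obtain ⟨W, hW, g, hyW, hg⟩ := hgen V' hV' f' h0 y ⟨hyV, hy⟩
    refine ⟨fun z j => ext0 (g j) z, fun j => ext0_mem _ hyW, ?_⟩
    filter_upwards [W.isOpen.mem_nhds hyW] with z hz
    rw [MSh.lc_Rel]
    funext i
    have h1 := congrArg (fun r => ev r ⟨z, hz⟩) (hg (e i))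
    simp only [ev_sum, ev_mul, ev_res, f', ev_toSec, e.symm_apply_apply] at h1
    rw [Finset.sum_apply, h1]
    refine Finset.sum_congr rfl fun j _ => ?_
    rw [Pi.smul_apply, smul_eq_mul, ext0_apply _ hz, ext0_apply _ (hV' (hW hz))]

theorem rep : Rep (ab F) (cmul F) (msh F.val).toFSh := by
  refine ⟨fun U => phi F.val U, fun U s x hx => phi_mem _ hx s, fun U V h s y hy => ?_,
    fun U s h => ?_, fun U a ha => phi_surj F ha, fun U c s y hy => ?_⟩
  · exact phi_res F.val h hy s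
  · refine phi_inj F fun y hy => ?_
    exact (h y hy).trans (congrFun (map_zero (phi F.val U)) y).symm
  · exact (smul_phi F.val c hy s).symm

end Sheaf

end Bridge

theorem bridge {n : ℕ} {X : Type} [TopologicalSpace X] [ChartedSpace (Fin n → ℂ) X]
    [IsManifold 𝓘(ℂ, Fin n → ℂ) ω X] (F : SheafOfModules.{0} (OX n X)) (hF : Coherent F.val) :
    ∃ G : MSh (hsM n X), (∀ x, G.CohAt x) ∧ Rep (ab F) (cmul F) G.toFSh :=
  ⟨Bridge.msh F.val, fun x => ⟨Bridge.finAt _ hF.1 x, Bridge.rel_finAt F hF.2 x⟩, Bridge.rep F⟩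

end Pool.Agent.QMax
end
end
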