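import Pool.Agent.Lib.MP_ec9812_ag.Div

-- part Pool.Agent.Lib.MP_ec9812_ag.StripA
section

/-! Contour shifts, the Cauchy formula on strips and Gaussian kernel integrals. -/

set_option linter.unusedSectionVars false

open Set Filter Topology MeasureTheory Complex

noncomputable section

namespace Pool.Agent.QMax.Strip

variable {E F : Type} [NormedAddCommGroup E] [NormedSpace ℂ E] [NormedAddCommGroup F]
  [NormedSpace ℂ F] [CompleteSpace F]

theorem cont_line {f : ℂ → F} {s : Set ℂ} (hf : ContinuousOn f s) {a : ℝ}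
    (h : ∀ x : ℝ, (x : ℂ) + a * I ∈ s) : Continuous fun x : ℝ => f (x + a * I) :=
  hf.comp_continuous (by fun_prop) h

theorem shift {f : ℂ → F} {a b M : ℝ} (hf : DifferentiableOn ℂ f {z | z.im ∈ uIcc a b})
    (hM : ∀ z : ℂ, z.im ∈ uIcc a b → 1 ≤ |z.re| → ‖f z‖ ≤ M / |z.re|)
    (hi : Integrable fun x : ℝ => f (x + a * I) - f (x + b * I)) :
    ∫ x : ℝ, (f (x + a * I) - f (x + b * I)) = 0 := by
  have ca := cont_line hf.continuousOn (a := a) fun x => by simp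
  have cb := cont_line hf.continuousOn (a := b) fun x => by simp
  have h1 := intervalIntegral_tendsto_integral hi tendsto_neg_atTop_atBot tendsto_id
  refine tendsto_nhds_unique h1 (squeeze_zero_norm' (a := fun R => 2 * (M / R * |b - a|)) ?_ ?_)
  · filter_upwards [eventually_ge_atTop 1] with R hR
    have h2 := integral_boundary_rect_eq_zero_of_differentiableOn f ⟨-R, a⟩ ⟨R, b⟩
      (hf.mono fun z hz => hz.2)
    have v : ∀ r : ℝ, |r| = R → ‖I • ∫ y : ℝ in a..b, f (r + y * I)‖ ≤ M / R * |b - a| := by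
      intro r hr
      rw [norm_smul, norm_I, one_mul]
      refine intervalIntegral.norm_integral_le_of_norm_le_const fun y hy => ?_
      have := hM (r + y * I) (by simpa using uIoc_subset_uIcc hy) (by simpa [hr] using hR)
      simpa [hr] using this
    have v1 := v R (abs_of_nonneg (by linarith))
    have v2 := v (-R) (by rw [abs_neg, abs_of_nonneg (by linarith)])
    rw [id, intervalIntegral.integral_sub (ca.intervalIntegrable _ _) (cb.intervalIntegrable _ _)]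
    dsimp only at h2
    rw [add_sub_assoc, add_eq_zero_iff_eq_neg] at h2
    rw [h2, norm_neg]
    exact (norm_sub_le _ _).trans (by linarith)
  · simpa using ((tendsto_const_nhds (x := M)).div_atTop tendsto_id).mul_const |b - a| |>.const_mul 2

theorem line_ne {a : ℝ} (ha : a ≠ 0) (x : ℝ) : (x : ℂ) + a * I ≠ 0 := fun h =>
  ha (by simpa using congrArg Complex.im h)

theorem int_inv {a b : ℝ} (ha : a ≠ 0) (hb : b ≠ 0) :
    Integrable fun x : ℝ => ((x : ℂ) + a * I)⁻¹ - ((x : ℂ) + b * I)⁻¹ := by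
  set μ := min 1 (min (a ^ 2) (b ^ 2)) with hμ
  have m0 : 0 < μ := by positivity
  have m1 : μ ≤ 1 := min_le_left _ _
  have m2 : μ ≤ a ^ 2 := (min_le_right _ _).trans (min_le_left _ _)
  have m3 : μ ≤ b ^ 2 := (min_le_right _ _).trans (min_le_right _ _)
  refine (integrable_inv_one_add_sq.const_mul (|b - a| / μ)).mono' ?_ (ae_of_all _ fun x => ?_)
  · exact (Continuous.sub (Continuous.inv₀ (by fun_prop) (line_ne ha))
      (Continuous.inv₀ (by fun_prop) (line_ne hb))).aestronglyMeasurable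
  · have n : ∀ c : ℝ, ‖(x : ℂ) + c * I‖ ^ 2 = x ^ 2 + c ^ 2 := fun c => by
      rw [Complex.sq_norm, Complex.normSq_add_mul_I]
    have e : (x : ℂ) + b * I - (x + a * I) = ((b - a : ℝ) : ℂ) * I := by
      push_cast
      ring
    have p : μ * (1 + x ^ 2) ≤ ‖(x : ℂ) + a * I‖ * ‖(x : ℂ) + b * I‖ := by
      refine (pow_le_pow_iff_left₀ (by positivity) (by positivity) two_ne_zero).1 ?_
      have x2 := mul_le_mul_of_nonneg_right m1 (sq_nonneg x)
      rw [mul_pow _ ‖_‖, n, n, sq]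
      exact mul_le_mul (by linarith) (by linarith) (by positivity) (by positivity)
    rw [inv_sub_inv (line_ne ha x) (line_ne hb x), e, norm_div, norm_mul, norm_mul, norm_I,
      mul_one, norm_real, Real.norm_eq_abs, ← div_eq_mul_inv, div_div]
    exact div_le_div_of_nonneg_left (abs_nonneg _) (by positivity) p

theorem inv_formula {a b : ℝ} (ha : a < 0) (hb : 0 < b) :
    ∫ x : ℝ, (((x : ℂ) + a * I)⁻¹ - ((x : ℂ) + b * I)⁻¹) = 2 * Real.pi * I := by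
  have ha' : 0 < -a := neg_pos.2 ha
  have h1 : ∫ x : ℝ, (((x : ℂ) + (-a : ℝ) * I)⁻¹ - ((x : ℂ) + b * I)⁻¹) = 0 := by
    refine shift (f := fun z => z⁻¹) (M := 1) (fun z hz => ?_) (fun z _ h => ?_)
      (int_inv ha'.ne' hb.ne')
    · refine (differentiableAt_inv fun e => ?_).differentiableWithinAt
      have : min (-a) b ≤ z.im := hz.1
      rw [e, zero_im] at this
      exact absurd (lt_min ha' hb) (not_lt.2 this)
    · rw [norm_inv, one_div]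
      exact inv_anti₀ (by linarith) (abs_re_le_norm z)
  have h2 : ∫ x : ℝ, (((x : ℂ) + a * I)⁻¹ - ((x : ℂ) + (-a : ℝ) * I)⁻¹) = 2 * Real.pi * I := by
    have e : ∀ x : ℝ, ((x : ℂ) + a * I)⁻¹ - ((x : ℂ) + (-a : ℝ) * I)⁻¹ =
        (((1 + (x / a) ^ 2)⁻¹ : ℝ) : ℂ) * (-2 * I / a) := fun x => by
      have n1 := line_ne ha.ne x
      have n2 := line_ne ha'.ne' x
      have n3 : (a : ℂ) ≠ 0 := ofReal_ne_zero.2 ha.ne
      have n4 : ((x : ℂ) + a * I) * (x + (-a : ℝ) * I) = a ^ 2 * (1 + (x / a) ^ 2) := by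
        push_cast
        field_simp
        linear_combination (-(a : ℂ) ^ 2) * I_sq
      have n5 : (1 : ℂ) + (x / a) ^ 2 ≠ 0 := fun e =>
        mul_ne_zero n1 n2 (by rw [n4, e, mul_zero])
      rw [inv_sub_inv n1 n2, n4]
      push_cast
      field_simp
      ring
    simp only [e]
    rw [integral_mul_const, integral_complex_ofReal,
      Measure.integral_comp_div (fun y : ℝ => (1 + y ^ 2)⁻¹), integral_univ_inv_one_add_sq,
      abs_of_neg ha, smul_eq_mul]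
    have n3 : (a : ℂ) ≠ 0 := ofReal_ne_zero.2 ha.ne
    push_cast
    field_simp
  rw [← add_zero (2 * Real.pi * I : ℂ), ← h2, ← h1,
    ← integral_add (int_inv ha.ne ha'.ne') (int_inv ha'.ne' hb.ne')]
  simp only [sub_add_sub_cancel]

theorem cauchy {φ : ℂ → F} {a b M : ℝ} (ha : a < 0) (hb : 0 < b)
    (hφ : DifferentiableOn ℂ φ {z | z.im ∈ uIcc a b})
    (hM : ∀ z : ℂ, z.im ∈ uIcc a b → ‖φ z‖ ≤ M)
    (ia : Integrable fun x : ℝ => ((x : ℂ) + a * I)⁻¹ • φ (x + a * I))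
    (ib : Integrable fun x : ℝ => ((x : ℂ) + b * I)⁻¹ • φ (x + b * I)) :
    (∫ x : ℝ, ((x : ℂ) + a * I)⁻¹ • φ (x + a * I)) -
      ∫ x : ℝ, ((x : ℂ) + b * I)⁻¹ • φ (x + b * I) = (2 * Real.pi * I : ℂ) • φ 0 := by
  have hab : uIcc a b = Icc a b := uIcc_of_le (by linarith)
  have n0 : {z : ℂ | z.im ∈ uIcc a b} ∈ 𝓝 (0 : ℂ) := by
    rw [hab]
    exact continuous_im.continuousAt.preimage_mem_nhds (Icc_mem_nhds ha hb)
  have ds : ∀ z : ℂ, z ≠ 0 → dslope φ 0 z = z⁻¹ • φ z - z⁻¹ • φ 0 := fun z hz => by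
    rw [dslope_of_ne _ hz, slope_def_module, sub_zero, smul_sub]
  have e : ∀ x : ℝ, dslope φ 0 (x + a * I) - dslope φ 0 (x + b * I) =
      (((x : ℂ) + a * I)⁻¹ • φ (x + a * I) - ((x : ℂ) + b * I)⁻¹ • φ (x + b * I)) -
        (((x : ℂ) + a * I)⁻¹ - ((x : ℂ) + b * I)⁻¹) • φ 0 := fun x => by
    rw [ds _ (line_ne ha.ne x), ds _ (line_ne hb.ne' x), sub_smul]
    abel
  have i3 := (int_inv ha.ne hb.ne').smul_const (φ 0)
  have i4 := ia.sub' ib
  have h1 := shift (f := dslope φ 0) (M := 2 * M) ((differentiableOn_dslope n0).2 hφ)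
    (fun z hz h => by
      have z0 : z ≠ 0 := fun e => by
        rw [e, zero_re, abs_zero] at h
        linarith
      have b1 := hM z hz
      have b2 := hM 0 (mem_of_mem_nhds n0 :)
      rw [ds z z0, ← smul_sub, norm_smul, norm_inv, mul_comm, div_eq_mul_inv]
      exact mul_le_mul ((norm_sub_le _ _).trans (by linarith))
        (inv_anti₀ (by linarith) (abs_re_le_norm z)) (by positivity)
        (by linarith [norm_nonneg (φ z)]))
    (by simpa only [e] using i4.sub' i3)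
  simp only [e] at h1
  rw [integral_sub i4 i3, integral_sub ia ib, integral_smul_const, inv_formula ha hb,
    sub_eq_zero] at h1
  exact h1

section kernel

variable {θ c α β K lam M : ℝ} {W : Set E} {g : ℂ × E → F} {κ : ℂ → ℂ}

/-- Integral of `g` along the line at height `c` against the kernel `κ`. -/
def kint (κ : ℂ → ℂ) (c : ℝ) (g : ℂ × E → F) (p : ℂ × E) : F :=
  ∫ x : ℝ, κ (x + c * I - p.1) • g (x + c * I, p.2)

theorem line_mem {c α β : ℝ} {u : ℂ} (hu : u ∈ St (c - β) (c - α)) (x : ℝ) :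
    (x : ℂ) + c * I - u ∈ St α β := by
  obtain ⟨h1, h2⟩ := hu
  constructor <;> simp <;> linarith

theorem kcont (hg : DifferentiableOn ℂ g (St (-θ) θ ×ˢ W)) (hc : c ∈ Ioo (-θ) θ)
    (hκ : DifferentiableOn ℂ κ (St α β)) {p : ℂ × E} (hp : p ∈ St (c - β) (c - α) ×ˢ W) :
    Continuous fun x : ℝ => κ (x + c * I - p.1) • g (x + c * I, p.2) :=
  (hκ.continuousOn.comp_continuous (by fun_prop) (line_mem hp.1)).smul
    (hg.continuousOn.comp_continuous (by fun_prop) fun x => ⟨by simpa [St] using hc, hp.2⟩)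

theorem kbound (hM : ∀ p ∈ St (-θ) θ ×ˢ W, ‖g p‖ ≤ M) (hc : c ∈ Ioo (-θ) θ)
    (hK : ∀ s ∈ St α β, ‖κ s‖ ≤ K * Real.exp (-lam * s.re ^ 2)) {p : ℂ × E}
    (hp : p ∈ St (c - β) (c - α) ×ˢ W) (x : ℝ) :
    ‖κ (x + c * I - p.1) • g (x + c * I, p.2)‖ ≤
      K * M * Real.exp (-lam * (x - p.1.re) ^ 2) := by
  have h1 := hK _ (line_mem hp.1 x)
  have h2 := hM (x + c * I, p.2) ⟨by simpa [St] using hc, hp.2⟩
  have e : ((x : ℂ) + c * I - p.1).re = x - p.1.re := by simp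
  rw [e] at h1
  rw [norm_smul, mul_right_comm]
  exact mul_le_mul h1 h2 (norm_nonneg _) ((norm_nonneg _).trans h1)

theorem kintegrable (hg : DifferentiableOn ℂ g (St (-θ) θ ×ˢ W))
    (hM : ∀ p ∈ St (-θ) θ ×ˢ W, ‖g p‖ ≤ M) (hc : c ∈ Ioo (-θ) θ)
    (hκ : DifferentiableOn ℂ κ (St α β)) (hl : 0 < lam)
    (hK : ∀ s ∈ St α β, ‖κ s‖ ≤ K * Real.exp (-lam * s.re ^ 2)) {p : ℂ × E}
    (hp : p ∈ St (c - β) (c - α) ×ˢ W) :
    Integrable fun x : ℝ => κ (x + c * I - p.1) • g (x + c * I, p.2) :=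
  (((integrable_exp_neg_mul_sq hl).comp_sub_right p.1.re).const_mul (K * M)).mono'
    (kcont hg hc hκ hp).aestronglyMeasurable (ae_of_all _ (kbound hM hc hK hp))

theorem kint_le (hM : ∀ p ∈ St (-θ) θ ×ˢ W, ‖g p‖ ≤ M) (hc : c ∈ Ioo (-θ) θ) (hl : 0 < lam)
    (hK : ∀ s ∈ St α β, ‖κ s‖ ≤ K * Real.exp (-lam * s.re ^ 2)) {p : ℂ × E}
    (hp : p ∈ St (c - β) (c - α) ×ˢ W) : ‖kint κ c g p‖ ≤ K * √(Real.pi / lam) * M := by
  refine (norm_integral_le_of_norm_le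
    (((integrable_exp_neg_mul_sq hl).comp_sub_right p.1.re).const_mul (K * M))
    (ae_of_all _ (kbound hM hc hK hp))).trans_eq ?_
  rw [integral_const_mul, integral_sub_right_eq_self (fun x : ℝ => Real.exp (-lam * x ^ 2)),
    integral_gaussian, mul_right_comm]

theorem kint_diff (hW : IsOpen W) (hg : DifferentiableOn ℂ g (St (-θ) θ ×ˢ W))
    (hM : ∀ p ∈ St (-θ) θ ×ˢ W, ‖g p‖ ≤ M) (hc : c ∈ Ioo (-θ) θ)
    (hκ : DifferentiableOn ℂ κ (St α β)) (hl : 0 < lam)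
    (hK : ∀ s ∈ St α β, ‖κ s‖ ≤ K * Real.exp (-lam * s.re ^ 2)) :
    DifferentiableOn ℂ (kint κ c g) (St (c - β) (c - α) ×ˢ W) := by
  intro p0 hp0
  have hO : IsOpen ((St (c - β) (c - α) ×ˢ W) ∩ {p : ℂ × E | |p.1.re - p0.1.re| < 1}) :=
    ((isOpen_St _ _).prod hW).inter (isOpen_lt (by fun_prop) continuous_const)
  have KM : 0 ≤ K * M :=
    nonneg_of_mul_nonneg_left ((norm_nonneg _).trans (kbound hM hc hK hp0 0)) (Real.exp_pos _)
  refine ((differentiableOn_integral hO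
    (f := fun (p : ℂ × E) (x : ℝ) => κ (x + c * I - p.1) • g (x + c * I, p.2))
    (bound := fun x => K * M * Real.exp lam * Real.exp (-(lam / 2) * (x - p0.1.re) ^ 2))
    (fun p hp => (kcont hg hc hκ hp.1).aestronglyMeasurable) (ae_of_all _ fun x => ?_)
    (ae_of_all _ fun x p hp => (kbound hM hc hK hp.1 x).trans ?_)
    (((integrable_exp_neg_mul_sq (half_pos hl)).comp_sub_right p0.1.re).const_mul
      _)).differentiableAt (hO.mem_nhds ⟨hp0, by simp⟩)).differentiableWithinAt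
  · exact (hκ.comp (by fun_prop) fun p hp => line_mem hp.1.1 x).smul
      (hg.comp (by fun_prop) fun p hp => ⟨by simpa [St] using hc, hp.1.2⟩)
  · rw [mul_assoc (K * M), ← Real.exp_add]
    refine mul_le_mul_of_nonneg_left (Real.exp_le_exp.2 ?_) KM
    have h1 : (p.1.re - p0.1.re) ^ 2 ≤ 1 := by
      rw [← sq_abs]
      exact pow_le_one₀ (abs_nonneg _) (le_of_lt hp.2)
    have h2 : (x - p0.1.re) ^ 2 / 2 ≤ (x - p.1.re) ^ 2 + 1 := by
      nlinarith [sq_nonneg (x - p.1.re - (p.1.re - p0.1.re))]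
    nlinarith [mul_le_mul_of_nonneg_left h2 hl.le]

/-- The same integral, centred at the point. -/
theorem line_eq (c : ℝ) (u : ℂ) (x : ℝ) :
    ((x + u.re : ℝ) : ℂ) + c * I - u = x + (c - u.im : ℝ) * I ∧
      ((x + u.re : ℝ) : ℂ) + c * I = u + (x + (c - u.im : ℝ) * I) := by
  constructor <;> apply Complex.ext <;> simp [add_comm]

theorem kint_eq (κ : ℂ → ℂ) (c : ℝ) (g : ℂ × E → F) (p : ℂ × E) : kint κ c g p =
    ∫ x : ℝ, κ (x + (c - p.1.im : ℝ) * I) • g (p.1 + (x + (c - p.1.im : ℝ) * I), p.2) := by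
  rw [kint, ← integral_add_right_eq_self _ p.1.re]
  simp only [(line_eq c p.1 _).1]
  simp only [(line_eq c p.1 _).2]

theorem kintegrable' {p : ℂ × E}
    (h : Integrable fun x : ℝ => κ (x + c * I - p.1) • g (x + c * I, p.2)) :
    Integrable fun x : ℝ =>
      κ (x + (c - p.1.im : ℝ) * I) • g (p.1 + (x + (c - p.1.im : ℝ) * I), p.2) := by
  have := h.comp_add_right p.1.re
  simp only [(line_eq c p.1 _).1] at this
  simpa only [(line_eq c p.1 _).2] using this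

end kernel

theorem norm_gauss (lam : ℝ) (s : ℂ) :
    ‖cexp (-lam * s ^ 2)‖ = Real.exp (lam * s.im ^ 2) * Real.exp (-lam * s.re ^ 2) := by
  rw [Complex.norm_exp, ← Real.exp_add]
  congr 1
  simp [sq]
  ring

end Pool.Agent.QMax.Strip
end
end

-- part Pool.Agent.Lib.MP_ec9812_ag.Strip
section

/-! Bounded additive splitting on strips, with holomorphic parameters. -/

set_option linter.unusedSectionVars false

open Set Filter Topology

noncomputable section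

namespace Pool.Agent.QMax

variable {E F : Type} [NormedAddCommGroup E] [NormedSpace ℂ E] [NormedAddCommGroup F]
  [NormedSpace ℂ F] [CompleteSpace F]

namespace Strip

open MeasureTheory Complex

theorem glue {U V : Set E} (hU : IsOpen U) (hV : IsOpen V) {f g : E → F}
    (hf : DifferentiableOn ℂ f U) (hg : DifferentiableOn ℂ g V) (h : ∀ p ∈ U, p ∈ V → f p = g p) :
    ∃ k : E → F, DifferentiableOn ℂ k (U ∪ V) ∧ (∀ p ∈ U, k p = f p) ∧ ∀ p ∈ V, k p = g p := by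
  classical
  have h1 : ∀ p ∈ U, (if p ∈ U then f p else g p) = f p := fun p hp => if_pos hp
  have h2 : ∀ p ∈ V, (if p ∈ U then f p else g p) = g p := fun p hp => by
    split_ifs with c
    · exact h p c hp
    · rfl
  refine ⟨fun p => if p ∈ U then f p else g p, ?_, h1, h2⟩
  rintro p (hp | hp)
  · exact ((hf.differentiableAt (hU.mem_nhds hp)).congr_of_eventuallyEq
      (mem_of_superset (hU.mem_nhds hp) h1)).differentiableWithinAt
  · exact ((hg.differentiableAt (hV.mem_nhds hp)).congr_of_eventuallyEq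
      (mem_of_superset (hV.mem_nhds hp) h2)).differentiableWithinAt

/-- The Cauchy kernel with Gaussian decay. -/
def ck (s : ℂ) : ℂ := s⁻¹ * cexp (-(1 : ℝ) * s ^ 2)

theorem ck_le {η B : ℝ} (hη : 0 < η) {s : ℂ} (h1 : η ≤ |s.im|) (h2 : |s.im| ≤ B) :
    ‖ck s‖ ≤ η⁻¹ * Real.exp (B ^ 2) * Real.exp (-1 * s.re ^ 2) := by
  rw [ck, norm_mul, norm_gauss, norm_inv, one_mul, mul_assoc]
  refine mul_le_mul (inv_anti₀ hη (h1.trans (abs_im_le_norm s)))
    (mul_le_mul_of_nonneg_right (Real.exp_le_exp.2 ?_) (Real.exp_pos _).le) (by positivity)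
    (by positivity)
  rw [← sq_abs]
  exact pow_le_pow_left₀ (abs_nonneg _) h2 2

theorem ck_diff {α β : ℝ} (h : 0 ≤ α ∨ β ≤ 0) : DifferentiableOn ℂ ck (St α β) := fun s hs => by
  have h0 : s ≠ 0 := by
    rintro rfl
    have h1 : α < 0 := hs.1
    have h2 : 0 < β := hs.2
    rcases h with h | h <;> linarith
  exact ((differentiableAt_inv h0).mul (by fun_prop)).differentiableWithinAt

theorem jump {θ M : ℝ} (hθ : 0 < θ) {W : Set E} {g : ℂ × E → F}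
    (hg : DifferentiableOn ℂ g (St (-θ) θ ×ˢ W)) (hM : ∀ p ∈ St (-θ) θ ×ˢ W, ‖g p‖ ≤ M)
    {p : ℂ × E} (hp : p ∈ St (-(θ / 2)) (θ / 2) ×ˢ W)
    (i1 : Integrable fun x : ℝ =>
      ck (x + (-(θ / 2) : ℝ) * I - p.1) • g (x + (-(θ / 2) : ℝ) * I, p.2))
    (i2 : Integrable fun x : ℝ => ck (x + (θ / 2 : ℝ) * I - p.1) • g (x + (θ / 2 : ℝ) * I, p.2)) :
    kint ck (-(θ / 2)) g p - kint ck (θ / 2) g p = (2 * Real.pi * I : ℂ) • g p := by
  obtain ⟨⟨h1, h2⟩, h3⟩ := hp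
  have m : ∀ z : ℂ, z.im ∈ uIcc (-(θ / 2) - p.1.im) (θ / 2 - p.1.im) →
      (p.1 + z, p.2) ∈ St (-θ) θ ×ˢ W ∧ |z.im| ≤ θ := fun z hz => by
    rw [uIcc_of_le (by linarith)] at hz
    obtain ⟨a1, a2⟩ := hz
    refine ⟨⟨⟨?_, ?_⟩, h3⟩, abs_le.2 ⟨by linarith, by linarith⟩⟩ <;> simp only [add_im] <;> linarith
  have := cauchy (φ := fun s => cexp (-(1 : ℝ) * s ^ 2) • g (p.1 + s, p.2))
    (a := -(θ / 2) - p.1.im) (b := θ / 2 - p.1.im) (M := Real.exp (θ ^ 2) * M) (by linarith)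
    (by linarith) (DifferentiableOn.smul (by fun_prop)
      (hg.comp (by fun_prop) fun z hz => (m z hz).1)) (fun z hz => by
      rw [norm_smul, norm_gauss, one_mul]
      refine mul_le_mul ?_ (hM _ (m z hz).1) (norm_nonneg _) (Real.exp_pos _).le
      refine (mul_le_of_le_one_right (Real.exp_pos _).le (Real.exp_le_one_iff.2 ?_)).trans
        (Real.exp_le_exp.2 ?_)
      · nlinarith [sq_nonneg z.re]
      · rw [← sq_abs]
        exact pow_le_pow_left₀ (abs_nonneg _) (m z hz).2 2)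
    (by simpa only [ck, mul_smul] using kintegrable' i1)
    (by simpa only [ck, mul_smul] using kintegrable' i2)
  rw [kint_eq, kint_eq]
  simpa only [ck, mul_smul, add_zero, ne_eq, OfNat.ofNat_ne_zero, not_false_eq_true, zero_pow,
    mul_zero, Complex.exp_zero, one_smul] using this

end Strip

open Strip Complex in
theorem strip_split {θ L : ℝ} (hθ : 0 < θ) (hL : θ ≤ L) {W : Set E} (hW : IsOpen W) :
    ∃ C > 0, ∀ (g : ℂ × E → F) (M : ℝ), DifferentiableOn ℂ g (St (-θ) θ ×ˢ W) →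
      (∀ p ∈ St (-θ) θ ×ˢ W, ‖g p‖ ≤ M) →
      ∃ g₁ g₂ : ℂ × E → F, DifferentiableOn ℂ g₁ (St (-θ) L ×ˢ W) ∧
        DifferentiableOn ℂ g₂ (St (-L) θ ×ˢ W) ∧ (∀ p ∈ St (-θ) L ×ˢ W, ‖g₁ p‖ ≤ C * M) ∧
        (∀ p ∈ St (-L) θ ×ˢ W, ‖g₂ p‖ ≤ C * M) ∧ ∀ p ∈ St (-θ) θ ×ˢ W, g p = g₁ p - g₂ p := by
  set K := (θ / 4)⁻¹ * Real.exp ((L + θ) ^ 2) with hK
  have K0 : 0 < K * √(Real.pi / 1) := by positivity
  refine ⟨K * √(Real.pi / 1) + 1, by positivity, fun g M hg hM => ?_⟩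
  have c1 : -(θ / 2) ∈ Ioo (-θ) θ := ⟨by linarith, by linarith⟩
  have c2 : θ / 2 ∈ Ioo (-θ) θ := ⟨by linarith, by linarith⟩
  have d1 : DifferentiableOn ℂ ck (St (-(L + θ)) (-(θ / 4))) := ck_diff (Or.inr (by linarith))
  have d2 : DifferentiableOn ℂ ck (St (θ / 4) (L + θ)) := ck_diff (Or.inl (by linarith))
  have k1 : ∀ s ∈ St (-(L + θ)) (-(θ / 4)), ‖ck s‖ ≤ K * Real.exp (-1 * s.re ^ 2) := fun s hs =>
    ck_le (by linarith) (le_abs.2 (Or.inr (by linarith [hs.2])))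
      (abs_le.2 ⟨hs.1.le, by linarith [hs.2]⟩)
  have k2 : ∀ s ∈ St (θ / 4) (L + θ), ‖ck s‖ ≤ K * Real.exp (-1 * s.re ^ 2) := fun s hs =>
    ck_le (by linarith) (le_abs.2 (Or.inl hs.1.le)) (abs_le.2 ⟨by linarith [hs.1], hs.2.le⟩)
  have s1 : St (-(θ / 4)) L ×ˢ W ⊆ St (-(θ / 2) - -(θ / 4)) (-(θ / 2) - -(L + θ)) ×ˢ W :=
    fun p hp => ⟨⟨by linarith [hp.1.1], by linarith [hp.1.2]⟩, hp.2⟩
  have s2 : St (-L) (θ / 4) ×ˢ W ⊆ St (θ / 2 - (L + θ)) (θ / 2 - θ / 4) ×ˢ W :=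
    fun p hp => ⟨⟨by linarith [hp.1.1], by linarith [hp.1.2]⟩, hp.2⟩
  have n0 : (2 * Real.pi * I : ℂ) ≠ 0 := two_pi_I_ne_zero
  have n1 : ‖(2 * Real.pi * I : ℂ)⁻¹‖ ≤ 1 := by
    rw [norm_inv]
    refine inv_le_one_of_one_le₀ ?_
    simp only [Complex.norm_mul, Complex.norm_ofNat, norm_real, Real.norm_eq_abs, norm_I, mul_one,
      abs_of_pos Real.pi_pos]
    linarith [Real.pi_gt_three]
  obtain ⟨T1, T2, e1, e2, b1, b2, j⟩ : ∃ T1 T2 : ℂ × E → F,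
      DifferentiableOn ℂ T1 (St (-(θ / 4)) L ×ˢ W) ∧ DifferentiableOn ℂ T2 (St (-L) (θ / 4) ×ˢ W) ∧
      (∀ p ∈ St (-(θ / 4)) L ×ˢ W, ‖T1 p‖ ≤ K * √(Real.pi / 1) * M) ∧
      (∀ p ∈ St (-L) (θ / 4) ×ˢ W, ‖T2 p‖ ≤ K * √(Real.pi / 1) * M) ∧
      ∀ p ∈ St (-(θ / 4)) L ×ˢ W, p ∈ St (-L) (θ / 4) ×ˢ W → T1 p - T2 p = g p := by
    refine ⟨fun p => (2 * Real.pi * I : ℂ)⁻¹ • kint ck (-(θ / 2)) g p,
      fun p => (2 * Real.pi * I : ℂ)⁻¹ • kint ck (θ / 2) g p,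
      ((kint_diff hW hg hM c1 d1 one_pos k1).mono s1).const_smul _,
      ((kint_diff hW hg hM c2 d2 one_pos k2).mono s2).const_smul _, fun p hp => ?_, fun p hp => ?_,
      fun p hp hp' => ?_⟩
    · rw [norm_smul]
      exact (mul_le_of_le_one_left (norm_nonneg _) n1).trans (kint_le hM c1 one_pos k1 (s1 hp))
    · rw [norm_smul]
      exact (mul_le_of_le_one_left (norm_nonneg _) n1).trans (kint_le hM c2 one_pos k2 (s2 hp))
    · rw [← smul_sub, jump hθ hg hM ⟨⟨by linarith [hp.1.1], by linarith [hp'.1.2]⟩, hp.2⟩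
        (kintegrable hg hM c1 d1 one_pos k1 (s1 hp)) (kintegrable hg hM c2 d2 one_pos k2 (s2 hp')),
        inv_smul_smul₀ n0]
  have M0 : ∀ p : ℂ × E, p.2 ∈ W → 0 ≤ M := fun p hp =>
    (norm_nonneg _).trans (hM (0, p.2) ⟨⟨by simpa using hθ, by simpa using hθ⟩, hp⟩)
  have o : ∀ a b : ℝ, IsOpen (St a b ×ˢ W) := fun a b => (isOpen_St a b).prod hW
  have sub : ∀ {a b a' b' : ℝ}, a' ≤ a → b ≤ b' → St a b ×ˢ W ⊆ St a' b' ×ˢ W :=
    fun h1 h2 p hp => ⟨⟨h1.trans_lt hp.1.1, hp.1.2.trans_le h2⟩, hp.2⟩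
  have lo : ∀ {b : ℝ} {p : ℂ × E}, b ≤ L → p ∈ St (-θ) b ×ˢ W → p ∉ St (-(θ / 4)) L ×ˢ W →
      p ∈ St (-θ) (θ / 4) ×ˢ W := fun hb hp c => ⟨⟨hp.1.1, by
    by_contra c'
    exact c ⟨⟨by linarith, hp.1.2.trans_le hb⟩, hp.2⟩⟩, hp.2⟩
  have hi : ∀ {a : ℝ} {p : ℂ × E}, -L ≤ a → p ∈ St a θ ×ˢ W → p ∉ St (-L) (θ / 4) ×ˢ W →
      p ∈ St (-(θ / 4)) θ ×ˢ W := fun ha hp c => ⟨⟨by
    by_contra c'
    exact c ⟨⟨ha.trans_lt hp.1.1, by linarith⟩, hp.2⟩, hp.1.2⟩, hp.2⟩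
  have t1 : θ / 4 ≤ θ := by linarith
  have t2 : -θ ≤ -(θ / 4) := by linarith
  have t3 : -L ≤ -θ := by linarith
  obtain ⟨g1, a1, a2, a3⟩ := glue (o _ _) (o (-θ) (θ / 4)) e1 ((hg.mono (sub le_rfl t1)).add
    (e2.mono (sub t3 le_rfl))) fun p hp hp' => eq_add_of_sub_eq (j p hp (sub t3 le_rfl hp'))
  obtain ⟨g2, a4, a5, a6⟩ := glue (o _ _) (o (-(θ / 4)) θ) e2 ((e1.mono (sub le_rfl hL)).sub
    (hg.mono (sub t2 le_rfl))) fun p hp hp' => by
      rw [Pi.sub_apply, ← j p (sub le_rfl hL hp') hp, sub_sub_cancel]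
  refine ⟨g1, g2, a1.mono fun p hp => (em _).imp_right (lo le_rfl hp),
    a4.mono fun p hp => (em _).imp_right (hi le_rfl hp), fun p hp => ?_, fun p hp => ?_,
    fun p hp => ?_⟩
  · have := M0 p hp.2
    rcases (em _).imp_right (lo le_rfl hp) with h | h
    · rw [a2 p h]
      linarith [b1 p h]
    · rw [a3 p h, Pi.add_apply]
      linarith [norm_add_le (g p) (T2 p), hM p (sub le_rfl t1 h), b2 p (sub t3 le_rfl h)]
  · have := M0 p hp.2
    rcases (em _).imp_right (hi le_rfl hp) with h | h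
    · rw [a5 p h]
      linarith [b2 p h]
    · rw [a6 p h, Pi.sub_apply]
      linarith [norm_sub_le (T1 p) (g p), hM p (sub t2 le_rfl h), b1 p (sub le_rfl hL h)]
  · rcases (em _).imp_right (hi t3 hp) with h | h
    · rw [a5 p h, a3 p ⟨⟨hp.1.1, h.1.2⟩, hp.2⟩, Pi.add_apply, add_sub_cancel_right]
    · rw [a6 p h, a2 p (sub le_rfl hL h), Pi.sub_apply, sub_sub_cancel]

end Pool.Agent.QMax
end
end

-- part Pool.Agent.Lib.MP_ec9812_ag.Strip2
section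

/-! Runge approximation and multiplicative splitting on strips. -/

set_option linter.unusedSectionVars false

open Set Filter Topology

noncomputable section

namespace Pool.Agent.QMax

variable {E F : Type} [NormedAddCommGroup E] [NormedSpace ℂ E] [NormedAddCommGroup F]
  [NormedSpace ℂ F] [CompleteSpace F]

namespace Strip2

open MeasureTheory Complex Strip

/-- The Gaussian kernel. -/
def gk (lam : ℝ) (s : ℂ) : ℂ := cexp (-lam * s ^ 2)

theorem gk_diff (lam : ℝ) : Differentiable ℂ (gk lam) := by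
  unfold gk
  fun_prop

theorem gk_le {lam B : ℝ} (hl : 0 < lam) {s : ℂ} (h : |s.im| ≤ B) :
    ‖gk lam s‖ ≤ Real.exp (lam * B ^ 2) * Real.exp (-lam * s.re ^ 2) := by
  rw [gk, norm_gauss]
  refine mul_le_mul_of_nonneg_right (Real.exp_le_exp.2 (mul_le_mul_of_nonneg_left ?_ hl.le))
    (Real.exp_pos _).le
  rw [← sq_abs]
  exact pow_le_pow_left₀ (abs_nonneg _) h 2

theorem gk_real (lam x : ℝ) : gk lam x = (Real.exp (-lam * x ^ 2) : ℝ) := by
  simp [gk]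

variable {θ M : ℝ} {W : Set E} {g : ℂ × E → F}

theorem lip (hθ : 0 < θ) (hg : DifferentiableOn ℂ g (St (-θ) θ ×ˢ W))
    (hM : ∀ p ∈ St (-θ) θ ×ˢ W, ‖g p‖ ≤ M) {p : ℂ × E} (hp : p ∈ St (-(θ / 2)) (θ / 2) ×ˢ W)
    (x : ℝ) : ‖g (p.1 + x, p.2) - g p‖ ≤ 2 * M / (θ / 2) * |x| := by
  have h1 : DifferentiableOn ℂ (fun u => g (u, p.2)) (St (-θ) θ) :=
    hg.comp (by fun_prop) fun u hu => ⟨hu, hp.2⟩
  have h2 : ∀ u ∈ St (-(θ / 2)) (θ / 2), Metric.ball u (θ / 2) ⊆ St (-θ) θ := fun u hu z hz => by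
    have := abs_lt.1 ((abs_im_le_norm (z - u)).trans_lt (mem_ball_iff_norm.1 hz))
    rw [sub_im] at this
    exact ⟨by linarith [hu.1, this.1], by linarith [hu.2, this.2]⟩
  have := Convex.norm_image_sub_le_of_norm_fderiv_le (𝕜 := ℂ) (f := fun u => g (u, p.2))
    (s := St (-(θ / 2)) (θ / 2)) (C := 2 * M / (θ / 2))
    (fun u hu => h1.differentiableAt (mem_of_superset (Metric.ball_mem_nhds u (half_pos hθ))
      (h2 u hu)))
    (fun u hu => Pool.Agent.Lib.MP_7906d6_an.cauchy_fderiv (half_pos hθ) (h1.mono (h2 u hu))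
      fun z hz => hM (z, p.2) ⟨h2 u hu hz, hp.2⟩)
    ((convex_halfSpace_im_gt _).inter (convex_halfSpace_im_lt _)) hp.1
    (y := p.1 + x) (by simpa [St] using hp.1)
  simpa using this

theorem kint_real (hθ : 0 < θ) (hg : DifferentiableOn ℂ g (St (-θ) θ ×ˢ W))
    (hM : ∀ p ∈ St (-θ) θ ×ˢ W, ‖g p‖ ≤ M) {lam : ℝ} (hl : 0 < lam) {p : ℂ × E}
    (hp : p ∈ St (-θ) θ ×ˢ W) :
    Integrable (fun x : ℝ => gk lam x • g (p.1 + x, p.2)) ∧
      kint (gk lam) 0 g p = ∫ x : ℝ, gk lam x • g (p.1 + x, p.2) := by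
  have k : ∀ s ∈ St (-θ) θ, ‖gk lam s‖ ≤ Real.exp (lam * θ ^ 2) * Real.exp (-lam * s.re ^ 2) :=
    fun s hs => gk_le hl (abs_le.2 ⟨hs.1.le, hs.2.le⟩)
  have i1 := kintegrable' (kintegrable (c := 0) hg hM ⟨by linarith, hθ⟩
    (gk_diff lam).differentiableOn hl k (p := p) (by simpa using hp))
  have i2 := kintegrable' (kintegrable (c := p.1.im) hg hM hp.1
    (gk_diff lam).differentiableOn hl k (p := p) ⟨⟨by linarith, by linarith⟩, hp.2⟩)
  rw [sub_self] at i2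
  have m : ∀ z : ℂ, z.im ∈ uIcc (0 - p.1.im) 0 → (p.1 + z, p.2) ∈ St (-θ) θ ×ˢ W ∧ |z.im| ≤ θ :=
    fun z hz => by
      obtain ⟨⟨h1, h2⟩, h3⟩ := hp
      rcases mem_uIcc.1 hz with ⟨a1, a2⟩ | ⟨a1, a2⟩
      all_goals
        refine ⟨⟨⟨?_, ?_⟩, h3⟩, abs_le.2 ⟨by linarith, by linarith⟩⟩ <;> simp only [add_im] <;>
          linarith
  have M0 : 0 ≤ M := (norm_nonneg _).trans (hM p hp)
  have h := shift (f := fun s => gk lam s • g (p.1 + s, p.2)) (a := 0 - p.1.im) (b := 0)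
    (M := Real.exp (lam * θ ^ 2) * lam⁻¹ * M)
    ((gk_diff lam).differentiableOn.smul (hg.comp (by fun_prop) fun z hz => (m z hz).1))
    (fun z hz h1 => by
      rw [norm_smul, mul_div_right_comm]
      refine mul_le_mul ((gk_le hl (m z hz).2).trans ?_) (hM _ (m z hz).1) (norm_nonneg _)
        (by positivity)
      rw [mul_div_assoc]
      refine mul_le_mul_of_nonneg_left ?_ (Real.exp_pos _).le
      rw [neg_mul, Real.exp_neg, div_eq_mul_inv, ← mul_inv]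
      refine inv_anti₀ (by positivity) ?_
      have a1 := Real.add_one_le_exp (lam * z.re ^ 2)
      have a2 : |z.re| ≤ z.re ^ 2 := by
        rw [← sq_abs]
        exact le_self_pow₀ h1 two_ne_zero
      linarith [mul_le_mul_of_nonneg_left a2 hl.le]) (i1.sub' i2)
  rw [integral_sub i1 i2, sub_eq_zero] at h
  rw [kint_eq, h]
  simp only [ofReal_zero, zero_mul, add_zero] at i2 ⊢
  exact ⟨i2, trivial⟩

theorem approx (hθ : 0 < θ) (hg : DifferentiableOn ℂ g (St (-θ) θ ×ˢ W))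
    (hM : ∀ p ∈ St (-θ) θ ×ˢ W, ‖g p‖ ≤ M) {r : ℝ} (hr : 0 < r) {p : ℂ × E}
    (hp : p ∈ St (-(θ / 2)) (θ / 2) ×ˢ W) :
    ‖g p - ((√(Real.pi / r ^ 2) : ℝ) : ℂ)⁻¹ • kint (gk (r ^ 2)) 0 g p‖ ≤
      2 * M / (θ / 2) * 2 / r := by
  have hl : 0 < r ^ 2 := by positivity
  have hp' : p ∈ St (-θ) θ ×ˢ W := ⟨⟨by linarith [hp.1.1], by linarith [hp.1.2]⟩, hp.2⟩
  have M0 : 0 ≤ M := (norm_nonneg _).trans (hM p hp')
  obtain ⟨i1, e1⟩ := kint_real hθ hg hM hl hp'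
  set N := √(Real.pi / r ^ 2) with hN
  have N0 : 0 < N := by positivity
  have i2 : Integrable fun x : ℝ => gk (r ^ 2) x := by
    simp only [gk_real]
    exact (integrable_exp_neg_mul_sq hl).ofReal
  have e2 : ∫ x : ℝ, gk (r ^ 2) x = N := by
    simp only [gk_real]
    rw [integral_complex_ofReal, integral_gaussian]
  have e3 : kint (gk (r ^ 2)) 0 g p - (N : ℂ) • g p =
      ∫ x : ℝ, gk (r ^ 2) x • (g (p.1 + x, p.2) - g p) := by
    simp only [smul_sub]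
    rw [integral_sub i1 (i2.smul_const _), integral_smul_const, e1, e2]
  have b1 : ‖kint (gk (r ^ 2)) 0 g p - (N : ℂ) • g p‖ ≤ 2 * M / (θ / 2) / r * (2 * N) := by
    rw [e3]
    refine (norm_integral_le_of_norm_le ((integrable_exp_neg_mul_sq (half_pos hl)).const_mul
      (2 * M / (θ / 2) / r)) (ae_of_all _ fun x => ?_)).trans ?_
    · rw [norm_smul, gk_real, norm_real, Real.norm_eq_abs, abs_of_pos (Real.exp_pos _)]
      refine (mul_le_mul_of_nonneg_left (lip hθ hg hM hp x) (Real.exp_pos _).le).trans ?_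
      rw [mul_left_comm, div_mul_eq_mul_div _ r, mul_div_assoc _ _ r]
      refine mul_le_mul_of_nonneg_left ?_ (by positivity)
      have a1 := Real.add_one_le_exp (r ^ 2 / 2 * x ^ 2)
      have a2 : |x| * r ≤ Real.exp (r ^ 2 / 2 * x ^ 2) := by
        rw [← sq_abs x] at a1 ⊢
        nlinarith [sq_nonneg (|x| * r - 1)]
      rw [le_div_iff₀ hr, mul_assoc, show -(r ^ 2 / 2) * x ^ 2 =
        -r ^ 2 * x ^ 2 + r ^ 2 / 2 * x ^ 2 by ring, Real.exp_add]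
      exact mul_le_mul_of_nonneg_left a2 (Real.exp_pos _).le
    · rw [integral_const_mul, integral_gaussian]
      refine mul_le_mul_of_nonneg_left (Real.sqrt_le_iff.2 ⟨by positivity, ?_⟩) (by positivity)
      rw [mul_pow, hN, Real.sq_sqrt (by positivity), div_div_eq_mul_div, mul_div_right_comm]
      nlinarith [div_pos Real.pi_pos hl]
  have n0 : (N : ℂ) ≠ 0 := ofReal_ne_zero.2 N0.ne'
  rw [norm_sub_rev, ← inv_smul_smul₀ n0 (g p), ← smul_sub, norm_smul, norm_inv, norm_real,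
    Real.norm_eq_abs, abs_of_pos N0, inv_mul_le_iff₀ N0]
  refine b1.trans_eq ?_
  ring

end Strip2

open Strip Strip2 in
theorem strip_runge {θ : ℝ} (hθ : 0 < θ) {W : Set E} (hW : IsOpen W) {g : ℂ × E → F} {M : ℝ}
    (hg : DifferentiableOn ℂ g (St (-θ) θ ×ˢ W)) (hM : ∀ p ∈ St (-θ) θ ×ˢ W, ‖g p‖ ≤ M)
    {ε : ℝ} (hε : 0 < ε) :
    ∃ h : ℂ × E → F, DifferentiableOn ℂ h (univ ×ˢ W) ∧
      ∀ p ∈ St (-(θ / 2)) (θ / 2) ×ˢ W, ‖g p - h p‖ ≤ ε := by
  obtain ⟨r, hr, h⟩ : ∃ r > 0, 2 * M / (θ / 2) * 2 / r ≤ ε := by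
    refine ⟨|2 * M / (θ / 2) * 2| / ε + 1, by positivity, ?_⟩
    rw [div_le_iff₀ (by positivity), mul_add, mul_div_cancel₀ _ hε.ne']
    linarith [le_abs_self (2 * M / (θ / 2) * 2)]
  refine ⟨fun p => ((√(Real.pi / r ^ 2) : ℝ) : ℂ)⁻¹ • kint (gk (r ^ 2)) 0 g p, fun p hp => ?_,
    fun p hp => (approx hθ hg hM hr hp).trans h⟩
  have hl : 0 < r ^ 2 := by positivity
  have d := kint_diff (c := 0) (α := -(|p.1.im| + 1)) (β := |p.1.im| + 1) hW hg hM
    ⟨by linarith, hθ⟩ (gk_diff _).differentiableOn hl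
    fun s hs => gk_le hl (abs_le.2 ⟨hs.1.le, hs.2.le⟩)
  exact ((d.differentiableAt (((isOpen_St _ _).prod hW).mem_nhds
    ⟨⟨by linarith [neg_abs_le p.1.im], by linarith [le_abs_self p.1.im]⟩, hp.2⟩)).const_smul
      _).differentiableWithinAt

theorem strip_mult {𝔸 : Type} [NormedRing 𝔸] [NormedAlgebra ℂ 𝔸] [CompleteSpace 𝔸] {θ L : ℝ}
    (hθ : 0 < θ) (hL : θ ≤ L) {W : Set E} (hW : IsOpen W) :
    ∃ δ > 0, ∀ e : ℂ × E → 𝔸, DifferentiableOn ℂ e (St (-θ) θ ×ˢ W) →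
      (∀ p ∈ St (-θ) θ ×ˢ W, ‖e p‖ ≤ δ) →
      ∃ a b : ℂ × E → 𝔸, DifferentiableOn ℂ a (St (-θ) L ×ˢ W) ∧
        DifferentiableOn ℂ b (St (-L) θ ×ˢ W) ∧ (∀ p ∈ St (-θ) L ×ˢ W, ‖a p‖ ≤ 1 / 2) ∧
        ∀ p ∈ St (-θ) θ ×ˢ W, 1 + a p = (1 + b p) * (1 - e p) := by
  obtain ⟨C, hC, h⟩ := strip_split (F := 𝔸) hθ hL hW
  choose! A B h1 h2 h3 h4 h5 using h
  set δ := 1 / (4 * C) with hδ
  have d0 : 0 < δ := by positivity
  have d1 : C * δ = 1 / 4 := by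
    rw [hδ]
    field_simp
  refine ⟨δ, d0, fun e he hb => ?_⟩
  have s1 : St (-θ) θ ×ˢ W ⊆ St (-θ) L ×ˢ W := fun p hp => ⟨⟨hp.1.1, hp.1.2.trans_le hL⟩, hp.2⟩
  have s2 : St (-θ) θ ×ˢ W ⊆ St (-L) θ ×ˢ W :=
    fun p hp => ⟨⟨(neg_le_neg hL).trans_lt hp.1.1, hp.1.2⟩, hp.2⟩
  let G : ℕ → ℂ × E → 𝔸 := fun k =>
    Nat.rec (fun p => -e p) (fun k g p => -(B g (δ * (1 / 2) ^ k) p * e p)) k
  have G0 : ∀ p, G 0 p = -e p := fun _ => rfl
  have G1 : ∀ k p, G (k + 1) p = -(B (G k) (δ * (1 / 2) ^ k) p * e p) := fun _ _ => rfl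
  have hG : ∀ k, DifferentiableOn ℂ (G k) (St (-θ) θ ×ˢ W) ∧
      ∀ p ∈ St (-θ) θ ×ˢ W, ‖G k p‖ ≤ δ * (1 / 2) ^ k := by
    intro k
    induction k with
    | zero => exact ⟨he.neg, fun p hp => by simpa [G0] using hb p hp⟩
    | succ k ih =>
      refine ⟨(((h2 _ _ ih.1 ih.2).mono s2).mul he).neg, fun p hp => ?_⟩
      have a1 := h4 _ _ ih.1 ih.2 p (s2 hp)
      rw [← mul_assoc, d1] at a1
      rw [G1, norm_neg]
      refine (norm_mul_le _ _).trans ((mul_le_mul a1 (hb p hp) (norm_nonneg _)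
        (by positivity)).trans ?_)
      rw [pow_succ]
      nlinarith [mul_pos d0 (pow_pos (show (0 : ℝ) < 1 / 2 by norm_num) k)]
  have su : HasSum (fun k : ℕ => C * (δ * (1 / 2 : ℝ) ^ k)) (1 / 2) := by
    have := (hasSum_geometric_two.mul_left δ).mul_left C
    rwa [← mul_assoc C δ 2, d1, show (1 / 4 * 2 : ℝ) = 1 / 2 by norm_num] at this
  refine ⟨fun p => ∑' k, A (G k) (δ * (1 / 2) ^ k) p, fun p => ∑' k, B (G k) (δ * (1 / 2) ^ k) p,
    differentiableOn_tsum' ((isOpen_St _ _).prod hW) (fun k => h1 _ _ (hG k).1 (hG k).2)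
      su.summable fun k => h3 _ _ (hG k).1 (hG k).2,
    differentiableOn_tsum' ((isOpen_St _ _).prod hW) (fun k => h2 _ _ (hG k).1 (hG k).2)
      su.summable fun k => h4 _ _ (hG k).1 (hG k).2,
    fun p hp => tsum_of_norm_bounded su fun k => h3 _ _ (hG k).1 (hG k).2 p hp, fun p hp => ?_⟩
  have sa : Summable fun k => A (G k) (δ * (1 / 2) ^ k) p :=
    su.summable.of_norm_bounded fun k => h3 _ _ (hG k).1 (hG k).2 p (s1 hp)
  have sb : Summable fun k => B (G k) (δ * (1 / 2) ^ k) p :=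
    su.summable.of_norm_bounded fun k => h4 _ _ (hG k).1 (hG k).2 p (s2 hp)
  have e1 : (fun k => G k p) = fun k =>
      A (G k) (δ * (1 / 2) ^ k) p - B (G k) (δ * (1 / 2) ^ k) p :=
    funext fun k => h5 _ _ (hG k).1 (hG k).2 p hp
  have sg : Summable fun k => G k p := e1 ▸ sa.sub sb
  have e2 := sg.tsum_eq_zero_add
  simp only [G1] at e2
  rw [tsum_neg, sb.tsum_mul_right, G0, e1, sa.tsum_sub sb, sub_eq_iff_eq_add] at e2
  simp only [e2]
  noncomm_ring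

end Pool.Agent.QMax
end
end

-- part Pool.Agent.Lib.MP_ec9812_ag.Cousin
section

/-! Cousin splitting and Cartan attaching lemma from a strip model. -/

open Set Filter Topology

noncomputable section

namespace Pool.Agent.QMax

namespace Cousin

variable {E : Type} [NormedAddCommGroup E] [NormedSpace ℂ E]

theorem ev_mem {Φ : E → ℂ × E} {y : E} {U : Set (ℂ × E)} (hU : IsOpen U)
    (hΦ : ∀ᶠ z in 𝓝 y, DifferentiableAt ℂ Φ z) (hy : Φ y ∈ U) : ∀ᶠ z in 𝓝 y, Φ z ∈ U :=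
  hΦ.self_of_nhds.continuousAt.preimage_mem_nhds (hU.mem_nhds hy)

theorem ev_comp {F : Type} [NormedAddCommGroup F] [NormedSpace ℂ F] {Φ : E → ℂ × E} {y : E}
    {U : Set (ℂ × E)} (hU : IsOpen U) {g : ℂ × E → F} (hg : DifferentiableOn ℂ g U)
    (hΦ : ∀ᶠ z in 𝓝 y, DifferentiableAt ℂ Φ z) (hy : Φ y ∈ U) :
    ∀ᶠ z in 𝓝 y, DifferentiableAt ℂ (fun w => g (Φ w)) z := by
  filter_upwards [hΦ, ev_mem hU hΦ hy] with z h1 h2
  exact (hg.differentiableAt (hU.mem_nhds h2)).comp z h1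

theorem pull {F : Type} [NormedAddCommGroup F] [NormedSpace ℂ F] {Ψ : ℂ × E → E}
    {U : Set (ℂ × E)} {C : Set E} (hC : IsCompact C) (hΨ : DifferentiableOn ℂ Ψ U)
    (hΨC : MapsTo Ψ U C) {f : E → F} (hf : ∀ y ∈ C, DifferentiableAt ℂ f y) :
    DifferentiableOn ℂ (fun p => f (Ψ p)) U ∧ ∃ M, 0 < M ∧ ∀ p ∈ U, ‖f (Ψ p)‖ ≤ M := by
  refine ⟨fun p hp => (hf _ (hΨC hp)).comp_differentiableWithinAt p (hΨ p hp), ?_⟩
  obtain ⟨M, hM⟩ := hC.exists_bound_of_continuousOn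
    (f := f) fun y hy => (hf y hy).continuousAt.continuousWithinAt
  exact ⟨max M 1, lt_max_of_lt_right one_pos, fun p hp => (hM _ (hΨC hp)).trans (le_max_left _ _)⟩

theorem St_mono {a b a' b' : ℝ} (ha : a' ≤ a) (hb : b ≤ b') : St a b ⊆ St a' b' :=
  fun _ hu => ⟨ha.trans_lt hu.1, hu.2.trans_le hb⟩

section Mat

open scoped Matrix.Norms.Operator

variable {G : Type} [NormedAddCommGroup G] [NormedSpace ℂ G]

theorem diffAt_matrix {ι κ : Type} [Fintype ι] [Fintype κ] {f : G → Matrix ι κ ℂ} {x : G} :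
    DifferentiableAt ℂ f x ↔ ∀ i j, DifferentiableAt ℂ (fun z => f z i j) x := by
  classical
  constructor
  · intro h i j
    exact (LinearMap.toContinuousLinearMap
      (Matrix.entryLinearMap ℂ ℂ i j : Matrix ι κ ℂ →ₗ[ℂ] ℂ)).differentiableAt.comp x h
  · intro h
    have : f = fun z => ∑ i, ∑ j, f z i j • Matrix.single i j (1 : ℂ) := by
      funext z
      conv_lhs => rw [Matrix.matrix_eq_sum_single (f z)]
      simp [Matrix.smul_single]
    rw [this]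
    exact DifferentiableAt.fun_sum fun i _ => DifferentiableAt.fun_sum fun j _ =>
      (h i j).smul_const _

theorem diffAt_mul {ι κ μ : Type} [Fintype ι] [Fintype κ] [Fintype μ] {f : G → Matrix ι κ ℂ}
    {g : G → Matrix κ μ ℂ} {x : G} (hf : DifferentiableAt ℂ f x) (hg : DifferentiableAt ℂ g x) :
    DifferentiableAt ℂ (fun z => f z * g z) x := by
  rw [diffAt_matrix] at hf hg ⊢
  intro i j
  simp only [Matrix.mul_apply]
  exact DifferentiableAt.fun_sum fun l _ => (hf i l).mul (hg l j)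

theorem diffOn_mul {ι κ μ : Type} [Fintype ι] [Fintype κ] [Fintype μ] {f : G → Matrix ι κ ℂ}
    {g : G → Matrix κ μ ℂ} {U : Set G} (hU : IsOpen U) (hf : DifferentiableOn ℂ f U)
    (hg : DifferentiableOn ℂ g U) : DifferentiableOn ℂ (fun z => f z * g z) U := fun _ hx =>
  (diffAt_mul (hf.differentiableAt (hU.mem_nhds hx))
    (hg.differentiableAt (hU.mem_nhds hx))).differentiableWithinAt

theorem holM_iff {ι κ : Type} [Fintype ι] [Fintype κ] {f : G → Matrix ι κ ℂ} {x : G} :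
    (hsE G).HolM f x ↔ ∀ᶠ z in 𝓝 x, DifferentiableAt ℂ f z := by
  simp only [HS.HolM, mem_hsE, diffAt_matrix, eventually_all]

theorem cartan {K₁ K₂ K₁₂ : Set E} (h : StripModel K₁ K₂ K₁₂) :
    (hsE E).CartanP K₁ K₂ K₁₂ := by
  intro ι κ _ _ _ m k hm hk
  obtain ⟨h1, h2, h3⟩ := h
  have : CompleteSpace (Matrix ι ι ℂ) := FiniteDimensional.complete ℂ _
  have : CompleteSpace (Matrix ι κ ℂ) := FiniteDimensional.complete ℂ _
  simp only [holM_iff] at hm hk ⊢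
  have hO : IsOpen {y | ∀ᶠ z in 𝓝 y, DifferentiableAt ℂ m z ∧ DifferentiableAt ℂ k z} :=
    isOpen_setOfPred_eventually_nhds
  obtain ⟨θ, L, W, C, Φ, Ψ, hθ, hL, hW, hC, hCO, hΨ, hΨC, hΦ, hK₁, hK₂, hinv⟩ :=
    h3 _ hO fun y hy => (hm y hy).and (hk y hy)
  obtain ⟨hmd, Mm, -, hMm⟩ := pull hC hΨ hΨC (f := m) fun y hy => (hCO hy).self_of_nhds.1
  obtain ⟨hkd, Mk, hMk0, hMk⟩ := pull hC hΨ hΨC (f := k) fun y hy => (hCO hy).self_of_nhds.2
  have hθ2 : 0 < θ / 2 := half_pos hθ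
  have hL2 : θ / 2 ≤ L := (half_le_self hθ.le).trans hL
  obtain ⟨δ, hδ, hmult⟩ := strip_mult (𝔸 := Matrix ι ι ℂ) hθ2 hL2 hW
  obtain ⟨g, hg, hgε⟩ := strip_runge hθ hW hmd hMm (ε := δ / Mk) (div_pos hδ hMk0)
  have hsub : St (-(θ / 2)) (θ / 2) ×ˢ W ⊆ St (-θ) θ ×ˢ W :=
    prod_mono (St_mono (by linarith) (by linarith)) Subset.rfl
  have hop : ∀ a b : ℝ, IsOpen (St a b ×ˢ W) := fun a b => (isOpen_St a b).prod hW
  have hg' : ∀ a b : ℝ, DifferentiableOn ℂ g (St a b ×ˢ W) := fun a b =>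
    hg.mono (prod_mono (subset_univ _) Subset.rfl)
  obtain ⟨a, b, ha, hb, hna, hab⟩ := hmult (fun p => (m (Ψ p) - g p) * k (Ψ p))
    (diffOn_mul (hop _ _) ((hmd.mono hsub).sub (hg' _ _)) (hkd.mono hsub)) (fun p hp => by
      calc ‖(m (Ψ p) - g p) * k (Ψ p)‖ ≤ ‖m (Ψ p) - g p‖ * ‖k (Ψ p)‖ :=
            Matrix.linfty_opNorm_mul _ _
        _ ≤ δ / Mk * Mk := mul_le_mul (hgε p hp) (hMk p (hsub hp)) (norm_nonneg _)
            (div_pos hδ hMk0).le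
        _ = δ := div_mul_cancel₀ _ hMk0.ne')
  have hm1 : ∀ y ∈ K₁, Φ y ∈ St (-(θ / 2)) L ×ˢ W := fun y hy =>
    ⟨⟨by linarith [(hK₁ y hy).1], (hK₁ y hy).2⟩, (hΦ y (Or.inl hy)).2⟩
  have hm2 : ∀ y ∈ K₂, Φ y ∈ St (-L) (θ / 2) ×ˢ W := fun y hy =>
    ⟨⟨(hK₂ y hy).1, by linarith [(hK₂ y hy).2]⟩, (hΦ y (Or.inr hy)).2⟩
  have hm12 : ∀ y ∈ K₁₂, Φ y ∈ St (-(θ / 2)) (θ / 2) ×ˢ W := fun y hy =>
    ⟨⟨(hm1 y (h1 hy)).1.1, (hm2 y (h2 hy)).1.2⟩, (hΦ y (Or.inl (h1 hy))).2⟩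
  have hunit : ∀ p ∈ St (-(θ / 2)) L ×ˢ W, IsUnit (1 + a p) := fun p hp => by
    have : ‖-a p‖ < 1 := by rw [norm_neg]; linarith [hna p hp]
    simpa using (Units.oneSub (-a p) this).isUnit
  have ha1 : DifferentiableOn ℂ (fun p => 1 + a p) (St (-(θ / 2)) L ×ˢ W) := ha.const_add 1
  have hb1 : DifferentiableOn ℂ (fun p => 1 + b p) (St (-L) (θ / 2) ×ˢ W) := hb.const_add 1
  have hinvd : DifferentiableOn ℂ (fun p => Ring.inverse (1 + a p)) (St (-(θ / 2)) L ×ˢ W) :=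
    fun p hp => DifferentiableAt.comp_differentiableWithinAt (g := Ring.inverse)
      (f := fun p => 1 + a p) p (differentiableAt_inverse (hunit p hp)) (ha1 p hp)
  refine ⟨fun z => 1 + a (Φ z), fun z => Ring.inverse (1 + a (Φ z)), fun z => 1 + b (Φ z),
    fun z => (1 + b (Φ z)) * g (Φ z), fun y hy => ?_, fun y hy => ?_, fun y hy => ?_,
    fun y hy => ?_, fun y hy => ?_, fun y hy => ?_⟩
  · exact ev_comp (hop _ _) ha1 (hΦ y (Or.inl hy)).1 (hm1 y hy)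
  · exact ev_comp (hop _ _) hinvd (hΦ y (Or.inl hy)).1 (hm1 y hy)
  · exact ev_comp (hop _ _) (diffOn_mul (hop _ _) hb1 (hg' _ _)) (hΦ y (Or.inr hy)).1 (hm2 y hy)
  · exact ev_comp (hop _ _) hb1 (hΦ y (Or.inr (h2 hy))).1 (hm2 y (h2 hy))
  · filter_upwards [ev_mem (hop _ _) (hΦ y (Or.inl hy)).1 (hm1 y hy)] with z hz
    exact Ring.inverse_mul_cancel _ (hunit _ hz)
  · filter_upwards [ev_mem (hop _ _) (hΦ y (Or.inl (h1 hy))).1 (hm12 y hy), hinv y hy]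
      with z hz hz'
    rw [hab _ hz, hz', Matrix.mul_assoc, ← mul_add, Matrix.sub_mul]
    congr 1
    abel

end Mat

end Cousin

variable {E : Type} [NormedAddCommGroup E] [NormedSpace ℂ E]

theorem StripModel.cousinP {K₁ K₂ K₁₂ : Set E} (h : StripModel K₁ K₂ K₁₂) :
    (hsE E).CousinP K₁ K₂ K₁₂ := by
  intro f hf
  obtain ⟨h1, h2, h3⟩ := h
  simp only [mem_hsE] at hf ⊢
  have hO : IsOpen {y | ∀ᶠ z in 𝓝 y, DifferentiableAt ℂ f z} := isOpen_setOfPred_eventually_nhds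
  obtain ⟨θ, L, W, C, Φ, Ψ, hθ, hL, hW, hC, hCO, hΨ, hΨC, hΦ, hK₁, hK₂, hinv⟩ := h3 _ hO hf
  obtain ⟨hfd, M, -, hM⟩ := Cousin.pull hC hΨ hΨC (f := f) fun y hy => (hCO hy).self_of_nhds
  obtain ⟨c, -, hs⟩ := strip_split (F := ℂ) hθ hL hW
  obtain ⟨g₁, g₂, hg₁, hg₂, -, -, hg⟩ := hs _ M hfd hM
  have hop : ∀ a b : ℝ, IsOpen (St a b ×ˢ W) := fun a b => (isOpen_St a b).prod hW
  have hm1 : ∀ y ∈ K₁, Φ y ∈ St (-θ) L ×ˢ W := fun y hy =>
    ⟨⟨by linarith [(hK₁ y hy).1], (hK₁ y hy).2⟩, (hΦ y (Or.inl hy)).2⟩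
  have hm2 : ∀ y ∈ K₂, Φ y ∈ St (-L) θ ×ˢ W := fun y hy =>
    ⟨⟨(hK₂ y hy).1, by linarith [(hK₂ y hy).2]⟩, (hΦ y (Or.inr hy)).2⟩
  have hm12 : ∀ y ∈ K₁₂, Φ y ∈ St (-θ) θ ×ˢ W := fun y hy =>
    ⟨⟨(hm1 y (h1 hy)).1.1, (hm2 y (h2 hy)).1.2⟩, (hΦ y (Or.inl (h1 hy))).2⟩
  refine ⟨fun z => g₁ (Φ z), fun z => g₂ (Φ z), fun y hy => ?_, fun y hy => ?_, fun y hy => ?_⟩
  · exact Cousin.ev_comp (hop _ _) hg₁ (hΦ y (Or.inl hy)).1 (hm1 y hy)
  · exact Cousin.ev_comp (hop _ _) hg₂ (hΦ y (Or.inr hy)).1 (hm2 y hy)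
  · filter_upwards [Cousin.ev_mem (hop _ _) (hΦ y (Or.inl (h1 hy))).1 (hm12 y hy), hinv y hy]
      with z hz hz'
    rw [← hg _ hz, hz']

theorem StripModel.cartanP {K₁ K₂ K₁₂ : Set E} (h : StripModel K₁ K₂ K₁₂) :
    (hsE E).CartanP K₁ K₂ K₁₂ := Cousin.cartan h

end Pool.Agent.QMax
end
end
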