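import Mathlib

/-!
Definitions for the statement on cohomologically `q`-convex complex manifolds and
`q`-maximal compact analytic subvarieties.
-/

open CategoryTheory TopologicalSpace Opposite Set
open scoped Manifold ContDiff Topology

noncomputable section

namespace Pool.Agent.QMax

section Coherence

variable {X : Type} [TopologicalSpace X]

/-- The ring `R(U)` of sections of a presheaf of rings. -/
abbrev Fn (R : (Opens X)ᵒᵖ ⥤ RingCat.{0}) (U : Opens X) : Type := R.obj (op U)

variable {R : (Opens X)ᵒᵖ ⥤ RingCat.{0}}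

/-- The `R(U)`-module `M(U)` of sections of a presheaf of `R`-modules. -/
abbrev Sec (M : PresheafOfModules.{0} R) (U : Opens X) : Type := M.obj (op U)

/-- Restriction `R(U) → R(V)`. -/
def resO {U V : Opens X} (h : V ≤ U) (f : Fn R U) : Fn R V := R.map (homOfLE h).op f

/-- Restriction `M(U) → M(V)`. -/
def res (M : PresheafOfModules.{0} R) {U V : Opens X} (h : V ≤ U) (s : Sec M U) : Sec M V :=
  M.presheaf.map (homOfLE h).op s

/-- The linear combination `∑ i, f i • (s i)|V` of sections `s i` over `U ⊇ V`. -/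
def comb (M : PresheafOfModules.{0} R) {U V : Opens X} (h : V ≤ U) {p : ℕ}
    (f : Fin p → Fn R V) (s : Fin p → Sec M U) : Sec M V :=
  ∑ i, f i • res M h (s i)

/-- `M` is locally of finite type: every point has an open neighbourhood `U` with finitely many
sections over `U` such that every section over an open `V ⊆ U` is locally an `R`-linear
combination of them. -/
def FiniteType (M : PresheafOfModules.{0} R) : Prop :=
  ∀ x : X, ∃ (U : Opens X) (p : ℕ) (s : Fin p → Sec M U), x ∈ U ∧
    ∀ (V : Opens X) (hV : V ≤ U) (t : Sec M V), ∀ y ∈ V,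
      ∃ (W : Opens X) (hW : W ≤ V) (f : Fin p → Fn R W), y ∈ W ∧
        res M hW t = comb M (hW.trans hV) f s

/-- For every open `U` and all sections `s 1, …, s p` over `U`, the sheaf of relations
(the kernel of `R^p → M` over `U`) is locally of finite type. -/
def RelationsFiniteType (M : PresheafOfModules.{0} R) : Prop :=
  ∀ (U : Opens X) (p : ℕ) (s : Fin p → Sec M U), ∀ x ∈ U,
    ∃ (U' : Opens X) (hU' : U' ≤ U) (r : ℕ) (τ : Fin r → Fin p → Fn R U'), x ∈ U' ∧
      (∀ j, comb M hU' (τ j) s = 0) ∧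
      ∀ (V : Opens X) (hV : V ≤ U') (f : Fin p → Fn R V),
        comb M (hV.trans hU') f s = 0 → ∀ y ∈ V,
          ∃ (W : Opens X) (hW : W ≤ V) (g : Fin r → Fn R W), y ∈ W ∧
            ∀ i, resO hW (f i) = ∑ j, g j * resO (hW.trans hV) (τ j i)

/-- Coherence in the sense of Serre: finite type, and all relation sheaves of finite type. -/
def Coherent (M : PresheafOfModules.{0} R) : Prop :=
  FiniteType M ∧ RelationsFiniteType M

/-- Multiplication by a family of sections `k U ∈ R(U)` compatible with restriction, as an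
endomorphism of the presheaf of abelian groups underlying `M`. -/
def mulBy (M : PresheafOfModules.{0} R) (k : ∀ U : Opens X, Fn R U)
    (hk : ∀ (U V : Opens X) (h : V ≤ U), resO h (k U) = k V) : M.presheaf ⟶ M.presheaf where
  app U := AddCommGrpCat.ofHom (DistribSMul.toAddMonoidHom (Sec M U.unop) (k U.unop))
  naturality U V i := AddCommGrpCat.ext fun s => by
    have h := M.map_smul i (k U.unop) s
    have h2 := hk U.unop V.unop (leOfHom i.unop)
    exact (congrArg (fun r : Fn R V.unop => r • (M.map i s : Sec M V.unop)) h2).symm.trans h.symm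

/-- The degree `ν` cohomology `H^ν(X, A)` of an abelian sheaf (derived functor cohomology
`Ext^ν(ℤ_X, A)` of Mathlib), on which `c : ℂ` acts by the map induced by the endomorphism `m c`
of `A`, is spanned by finitely many classes. -/
def FinSpanH (A : Sheaf (Opens.grothendieckTopology X) AddCommGrpCat.{0}) (m : ℂ → (A ⟶ A))
    (ν : ℕ) : Prop :=
  ∃ (N : ℕ) (x : Fin N → A.H ν), ∀ y : A.H ν,
    ∃ c : Fin N → ℂ, y = ∑ i, Sheaf.H.map (m (c i)) ν (x i)

end Coherence

section Sheaves

variable (n : ℕ) (X : Type) [TopologicalSpace X] [ChartedSpace (Fin n → ℂ) X]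

/-- The structure sheaf `O_X` of holomorphic functions (functions that are infinitely often
complex differentiable in the charts), as a sheaf of rings. -/
def OX : Sheaf (Opens.grothendieckTopology X) RingCat.{0} :=
  smoothSheafRing 𝓘(ℂ, Fin n → ℂ) 𝓘(ℂ) X ℂ

variable {X}

/-- The constant function `c` in `O_X(U)`. -/
def constFn (c : ℂ) (U : Opens X) : Fn (OX n X).obj U :=
  (ContMDiffMap.const c : C^∞⟮𝓘(ℂ, Fin n → ℂ), U; 𝓘(ℂ), ℂ⟯)

variable {n}

/-- The sheaf of abelian groups underlying a sheaf of `O_X`-modules. -/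
def ab (F : SheafOfModules.{0} (OX n X)) :
    Sheaf (Opens.grothendieckTopology X) AddCommGrpCat.{0} :=
  (SheafOfModules.toSheaf (OX n X)).obj F

/-- Multiplication by the constant `c`, as an endomorphism of the abelian sheaf of `F`. -/
def cmul (F : SheafOfModules.{0} (OX n X)) (c : ℂ) : ab F ⟶ ab F :=
  ObjectProperty.homMk (mulBy F.val (constFn n c) fun _ _ _ => rfl)

variable (n X)

/-- `X` is cohomologically `q`-convex: `dim_ℂ H^ν(X, F) < ∞` for every coherent sheaf of
`O_X`-modules `F` and every `ν ≥ q`. -/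
def CohConvex (q : ℕ) : Prop :=
  ∀ F : SheafOfModules.{0} (OX n X), Coherent F.val → ∀ ν, q ≤ ν → FinSpanH (ab F) (cmul F) ν

end Sheaves

section Subvarieties

variable (n : ℕ) {X : Type} [TopologicalSpace X] [ChartedSpace (Fin n → ℂ) X]

/-- `f : X → F` is holomorphic on `U`. -/
def HolOn {F : Type} [NormedAddCommGroup F] [NormedSpace ℂ F] (f : X → F) (U : Set X) : Prop :=
  MDifferentiableOn 𝓘(ℂ, Fin n → ℂ) 𝓘(ℂ, F) f U

/-- The complex differential of `f : X → F` at `y` is surjective. -/
def SubmersionAt {F : Type} [NormedAddCommGroup F] [NormedSpace ℂ F] (f : X → F) (y : X) : Prop :=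
  (mfderiv 𝓘(ℂ, Fin n → ℂ) 𝓘(ℂ, F) f y).range = ⊤

/-- Analytic subvariety of `X`: near every point of `X` it is the common zero set of finitely
many holomorphic functions. -/
def IsAnalyticSet (A : Set X) : Prop :=
  ∀ x : X, ∃ (U : Set X) (p : ℕ) (f : Fin p → X → ℂ), IsOpen U ∧ x ∈ U ∧
    (∀ i, HolOn n (f i) U) ∧ ∀ y ∈ U, y ∈ A ↔ ∀ i, f i y = 0

/-- Irreducible analytic subvariety. -/
def IsIrreducibleAnalytic (A : Set X) : Prop :=
  IsAnalyticSet n A ∧ A.Nonempty ∧
    ∀ A₁ A₂ : Set X, IsAnalyticSet n A₁ → IsAnalyticSet n A₂ → A = A₁ ∪ A₂ → A = A₁ ∨ A = A₂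

/-- `x` is a regular point of `A` of dimension `d`: near `x`, `A` is the zero fibre of a
holomorphic submersion to `ℂ^(n-d)`, that is, a `d`-dimensional complex submanifold. -/
def IsRegularPt (A : Set X) (x : X) (d : ℕ) : Prop :=
  x ∈ A ∧ d ≤ n ∧ ∃ (U : Set X) (f : X → Fin (n - d) → ℂ), IsOpen U ∧ x ∈ U ∧
    HolOn n f U ∧ (∀ y ∈ U, SubmersionAt n f y) ∧ ∀ y ∈ U, y ∈ A ↔ f y = 0

/-- `dim A ≥ q`, the dimension of an analytic set being the largest dimension at a regular
point. -/
def DimGE (A : Set X) (q : ℕ) : Prop := ∃ x d, q ≤ d ∧ IsRegularPt n A x d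

/-- `S` is a `q`-maximal compact analytic subvariety. -/
def IsQMaximal (q : ℕ) (S : Set X) : Prop :=
  IsCompact S ∧ IsAnalyticSet n S ∧
    (∀ T : Set X, IsCompact T → IsIrreducibleAnalytic n T → DimGE n T q → T ⊆ S) ∧
    ∀ x ∈ S, x ∈ closure (S \ {x})

end Subvarieties

end Pool.Agent.QMax
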