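import Pool.Agent.Lib.MP_ec9812_ag.Defs
import Pool.Agent.Lib.MP_7906d6_an.Holo

-- part Pool.Agent.Lib.MP_ec9812_ag.Core
section

/-!
Core notions: sheaves of functions `FSh` with their canonical (Godement type) resolution,
holomorphic structures `HS`, module sheaves `MSh`, coherence.
-/

open Set Filter Topology
open scoped Manifold ContDiff

noncomputable section

namespace Pool.Agent.QMax

/-- A sheaf of functions: `A x` is the space of total functions that are sections near `x`. -/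
structure FSh (X : Type) [TopologicalSpace X] where
  E : X → Type
  [acg : ∀ x, AddCommGroup (E x)]
  [mod : ∀ x, Module ℂ (E x)]
  A : X → Submodule ℂ (∀ y, E y)
  congr : ∀ {x : X} {a b : ∀ y, E y}, (∀ᶠ y in 𝓝 x, a y = b y) → a ∈ A x → b ∈ A x
  nhds : ∀ {x : X} {a : ∀ y, E y}, a ∈ A x → ∀ᶠ y in 𝓝 x, a ∈ A y

attribute [instance] FSh.acg FSh.mod

namespace FSh

variable {X : Type} [TopologicalSpace X] (G : FSh X)

/-- Total functions. -/
abbrev T : Type := ∀ y, G.E y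

/-- The quotient of the sheaf of all functions by `G`, again as a sheaf of functions. -/
def next : FSh X where
  E x := G.T ⧸ G.A x
  A x :=
    { carrier := {a | ∃ t : G.T, ∀ᶠ y in 𝓝 x, a y = Submodule.Quotient.mk t}
      add_mem' := by
        rintro a b ⟨t, ht⟩ ⟨u, hu⟩
        exact ⟨t + u, by filter_upwards [ht, hu] with y h1 h2; simp [h1, h2]⟩
      zero_mem' := ⟨0, by simp⟩
      smul_mem' := by
        rintro c a ⟨t, ht⟩
        exact ⟨c • t, by filter_upwards [ht] with y h1; simp [h1]⟩ }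
  congr := by
    rintro x a b h ⟨t, ht⟩
    exact ⟨t, by filter_upwards [h, ht] with y h1 h2; rw [← h1, h2]⟩
  nhds := by
    rintro x a ⟨t, ht⟩
    exact ht.eventually_nhds.mono fun y hy => ⟨t, hy⟩

/-- The quotient map from total functions to global sections of `G.next`. -/
def d : G.T →ₗ[ℂ] G.next.T := LinearMap.pi fun x => (G.A x).mkQ

/-- `a` is a section of `G` near every point of `U`. -/
def IsSec (U : Set X) (a : G.T) : Prop := ∀ x ∈ U, a ∈ G.A x

/-- The section `a` of `G.next` comes from a total function on `U` (its class in `H^1(U, G)`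
vanishes). -/
def Triv (U : Set X) (a : G.next.T) : Prop := ∃ t : G.T, ∀ x ∈ U, a x = G.d t x

/-- `H^1(U, G) = 0` (for `U` open, or for germs along a compact `U`). -/
def Van (U : Set X) : Prop := ∀ a, G.next.IsSec U a → G.Triv U a

/-- `H^1(U, G)` is finite dimensional. -/
def FD (U : Set X) : Prop :=
  ∃ (N : ℕ) (a : Fin N → G.next.T), (∀ i, G.next.IsSec U (a i)) ∧
    ∀ b, G.next.IsSec U b → ∃ c : Fin N → ℂ, G.Triv U (b - ∑ i, c i • a i)

/-- `H^1(W, G) → H^1(V, G)` is injective. -/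
def RInj (V W : Set X) : Prop := ∀ a, G.next.IsSec W a → G.Triv V a → G.Triv W a

/-- `H^1(W, G) → H^1(V, G)` is surjective. -/
def RSur (V W : Set X) : Prop :=
  ∀ a, G.next.IsSec V a → ∃ a', G.next.IsSec W a' ∧ G.Triv V (a - a')

/-- Iterated quotients; `H^1(U, iter j G) = H^(j+1)(U, G)`. -/
def iter : ℕ → FSh X → FSh X
  | 0, G => G
  | j + 1, G => (iter j G).next

@[simp] theorem iter_zero : iter 0 G = G := rfl

theorem iter_succ (j : ℕ) : iter (j + 1) G = (iter j G).next := rfl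

theorem iter_next (j : ℕ) : iter j G.next = iter (j + 1) G := by
  induction j with
  | zero => rfl
  | succ j ih => rw [iter_succ, ih]; rfl

variable {G}

theorem mem_of_eventually_zero {x : X} {a : G.T} (h : ∀ᶠ y in 𝓝 x, a y = 0) : a ∈ G.A x :=
  G.congr (a := 0) (h.mono fun _ hy => hy.symm) (G.A x).zero_mem

theorem mem_congr {x : X} {a b : G.T} (h : ∀ᶠ y in 𝓝 x, a y = b y) : a ∈ G.A x ↔ b ∈ G.A x :=
  ⟨G.congr h, G.congr (h.mono fun _ hy => hy.symm)⟩

theorem mem_next {x : X} {a : G.next.T} :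
    a ∈ G.next.A x ↔ ∃ t : G.T, ∀ᶠ y in 𝓝 x, a y = G.d t y := Iff.rfl

theorem d_mem (t : G.T) (x : X) : G.d t ∈ G.next.A x := ⟨t, Eventually.of_forall fun _ => rfl⟩

theorem d_isSec (t : G.T) (U : Set X) : G.next.IsSec U (G.d t) := fun x _ => d_mem t x

theorem d_eq_iff {t u : G.T} {x : X} : G.d t x = G.d u x ↔ t - u ∈ G.A x :=
  Submodule.Quotient.eq _

theorem d_eq_zero {t : G.T} {x : X} : G.d t x = 0 ↔ t ∈ G.A x :=
  Submodule.Quotient.mk_eq_zero _

theorem d_surj (x : X) (v : G.next.E x) : ∃ t, G.d t x = v := Submodule.mkQ_surjective _ v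

theorem d_congr {t u : G.T} {x : X} (h : ∀ᶠ y in 𝓝 x, t y = u y) : G.d t x = G.d u x :=
  d_eq_iff.2 (mem_of_eventually_zero (h.mono fun y hy => by simp [hy]))

/-- Sections of `G.next` that agree at a point agree near it. -/
theorem next_eventually_eq {x : X} {a b : G.next.T} (ha : a ∈ G.next.A x) (hb : b ∈ G.next.A x)
    (h : a x = b x) : ∀ᶠ y in 𝓝 x, a y = b y := by
  obtain ⟨t, ht⟩ := mem_next.1 ha
  obtain ⟨u, hu⟩ := mem_next.1 hb
  have h1 : t - u ∈ G.A x := d_eq_iff.1 (by rw [← ht.self_of_nhds, ← hu.self_of_nhds, h])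
  filter_upwards [ht, hu, G.nhds h1] with y h2 h3 h4
  rw [h2, h3, d_eq_iff.2 h4]

theorem isOpen_mem (a : G.T) : IsOpen {x | a ∈ G.A x} :=
  isOpen_iff_mem_nhds.2 fun _ h => G.nhds h

theorem IsSec.mono {U V : Set X} {a : G.T} (h : G.IsSec U a) (hV : V ⊆ U) : G.IsSec V a :=
  fun x hx => h x (hV hx)

theorem IsSec.add {U : Set X} {a b : G.T} (ha : G.IsSec U a) (hb : G.IsSec U b) :
    G.IsSec U (a + b) := fun x hx => add_mem (ha x hx) (hb x hx)

theorem IsSec.sub {U : Set X} {a b : G.T} (ha : G.IsSec U a) (hb : G.IsSec U b) :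
    G.IsSec U (a - b) := fun x hx => sub_mem (ha x hx) (hb x hx)

theorem IsSec.smul {U : Set X} {a : G.T} (c : ℂ) (ha : G.IsSec U a) :
    G.IsSec U (c • a) := fun x hx => (G.A x).smul_mem c (ha x hx)

theorem IsSec.sum {U : Set X} {ι : Type*} {s : Finset ι} {a : ι → G.T}
    (ha : ∀ i ∈ s, G.IsSec U (a i)) : G.IsSec U (∑ i ∈ s, a i) :=
  fun x hx => sum_mem fun i hi => ha i hi x hx

theorem isSec_zero (U : Set X) : G.IsSec U 0 := fun _ _ => zero_mem _

/-- On an open set, being a section only depends on the values on the set. -/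
theorem IsSec.congr {U : Set X} (hU : IsOpen U) {a b : G.T} (ha : G.IsSec U a)
    (h : ∀ x ∈ U, a x = b x) : G.IsSec U b :=
  fun x hx => G.congr (mem_of_superset (hU.mem_nhds hx) h) (ha x hx)

theorem Triv.mono {U V : Set X} {a : G.next.T} (h : G.Triv U a) (hV : V ⊆ U) : G.Triv V a :=
  h.imp fun _ ht x hx => ht x (hV hx)

theorem Triv.add {U : Set X} {a b : G.next.T} (ha : G.Triv U a) (hb : G.Triv U b) :
    G.Triv U (a + b) := by
  obtain ⟨t, ht⟩ := ha
  obtain ⟨u, hu⟩ := hb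
  exact ⟨t + u, fun x hx => by simp [ht x hx, hu x hx]⟩

theorem Triv.smul {U : Set X} {a : G.next.T} (c : ℂ) (ha : G.Triv U a) : G.Triv U (c • a) := by
  obtain ⟨t, ht⟩ := ha
  exact ⟨c • t, fun x hx => by simp [ht x hx]⟩

theorem Triv.sub {U : Set X} {a b : G.next.T} (ha : G.Triv U a) (hb : G.Triv U b) :
    G.Triv U (a - b) := by
  obtain ⟨t, ht⟩ := ha
  obtain ⟨u, hu⟩ := hb
  exact ⟨t - u, fun x hx => by simp [ht x hx, hu x hx]⟩

theorem triv_zero (U : Set X) : G.Triv U 0 := ⟨0, fun x _ => by simp⟩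

theorem triv_d (U : Set X) (t : G.T) : G.Triv U (G.d t) := ⟨t, fun _ _ => rfl⟩

theorem Triv.congr {U : Set X} {a b : G.next.T} (ha : G.Triv U a) (h : ∀ x ∈ U, a x = b x) :
    G.Triv U b := ha.imp fun _ ht x hx => (h x hx).symm.trans (ht x hx)

theorem van_empty : G.Van ∅ := fun _ _ => ⟨0, fun _ h => h.elim⟩

theorem van_singleton (x : X) : G.Van {x} := fun a _ => by
  obtain ⟨t, ht⟩ := d_surj x (a x)
  exact ⟨t, by rintro y rfl; exact ht.symm⟩

end FSh

/-- A holomorphic structure: `O x` is the algebra of functions that are holomorphic near `x`. -/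
structure HS (X : Type) [TopologicalSpace X] where
  O : X → Subalgebra ℂ (X → ℂ)
  congr : ∀ {x : X} {f g : X → ℂ}, f =ᶠ[𝓝 x] g → f ∈ O x → g ∈ O x
  nhds : ∀ {x : X} {f : X → ℂ}, f ∈ O x → ∀ᶠ y in 𝓝 x, f ∈ O y
  cont : ∀ {x : X} {f : X → ℂ}, f ∈ O x → ContinuousAt f x

/-- The holomorphic structure of a complex normed space. -/
def hsE (E : Type) [NormedAddCommGroup E] [NormedSpace ℂ E] : HS E where
  O x :=
    { carrier := {f | ∀ᶠ y in 𝓝 x, DifferentiableAt ℂ f y}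
      mul_mem' := fun ha hb => by filter_upwards [ha, hb] with y h1 h2 using h1.mul h2
      add_mem' := fun ha hb => by filter_upwards [ha, hb] with y h1 h2 using h1.add h2
      algebraMap_mem' := fun c => Eventually.of_forall fun _ => differentiableAt_const c }
  congr h hf := by
    filter_upwards [h.eventuallyEq_nhds, hf] with y h1 h2 using h2.congr_of_eventuallyEq h1.symm
  nhds hf := hf.eventually_nhds
  cont hf := hf.self_of_nhds.continuousAt

theorem mem_hsE {E : Type} [NormedAddCommGroup E] [NormedSpace ℂ E] {f : E → ℂ} {x : E} :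
    f ∈ (hsE E).O x ↔ ∀ᶠ y in 𝓝 x, DifferentiableAt ℂ f y := Iff.rfl

/-- The holomorphic structure of a space with charts in `ℂ^n`. -/
def hsM (n : ℕ) (X : Type) [TopologicalSpace X] [ChartedSpace (Fin n → ℂ) X] : HS X where
  O x :=
    { carrier := {f | ∀ᶠ y in 𝓝 x, MDifferentiableAt 𝓘(ℂ, Fin n → ℂ) 𝓘(ℂ) f y}
      mul_mem' := fun ha hb => by filter_upwards [ha, hb] with y h1 h2 using h1.mul h2
      add_mem' := fun ha hb => by filter_upwards [ha, hb] with y h1 h2 using h1.add h2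
      algebraMap_mem' := fun c => Eventually.of_forall fun _ => mdifferentiableAt_const (c := c) }
  congr h hf := by
    filter_upwards [h.eventuallyEq_nhds, hf] with y h1 h2 using h2.congr_of_eventuallyEq h1.symm
  nhds hf := hf.eventually_nhds
  cont hf := hf.self_of_nhds.continuousAt

theorem mem_hsM {n : ℕ} {X : Type} [TopologicalSpace X] [ChartedSpace (Fin n → ℂ) X]
    {f : X → ℂ} {x : X} :
    f ∈ (hsM n X).O x ↔ ∀ᶠ y in 𝓝 x, MDifferentiableAt 𝓘(ℂ, Fin n → ℂ) 𝓘(ℂ) f y := Iff.rfl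

namespace HS

variable {X : Type} [TopologicalSpace X] (H : HS X)

/-- A vector valued function is holomorphic near `x`. -/
def HolV {ι : Type} (f : X → ι → ℂ) (x : X) : Prop := ∀ i, (fun z => f z i) ∈ H.O x

/-- A matrix valued function is holomorphic near `x`. -/
def HolM {ι κ : Type} (f : X → Matrix ι κ ℂ) (x : X) : Prop :=
  ∀ i j, (fun z => f z i j) ∈ H.O x

variable {H}

theorem const_mem (c : ℂ) (x : X) : (fun _ => c) ∈ H.O x := (H.O x).algebraMap_mem c

theorem add_mem' {f g : X → ℂ} {x : X} (hf : f ∈ H.O x) (hg : g ∈ H.O x) :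
    (fun z => f z + g z) ∈ H.O x := add_mem hf hg

theorem sub_mem' {f g : X → ℂ} {x : X} (hf : f ∈ H.O x) (hg : g ∈ H.O x) :
    (fun z => f z - g z) ∈ H.O x := sub_mem hf hg

theorem neg_mem' {f : X → ℂ} {x : X} (hf : f ∈ H.O x) : (fun z => -f z) ∈ H.O x := neg_mem hf

theorem mul_mem' {f g : X → ℂ} {x : X} (hf : f ∈ H.O x) (hg : g ∈ H.O x) :
    (fun z => f z * g z) ∈ H.O x := mul_mem hf hg

theorem sum_mem' {ι : Type*} {s : Finset ι} {f : ι → X → ℂ} {x : X}
    (hf : ∀ i ∈ s, f i ∈ H.O x) : (fun z => ∑ i ∈ s, f i z) ∈ H.O x := by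
  have := sum_mem hf
  rwa [show (∑ i ∈ s, f i) = fun z => ∑ i ∈ s, f i z from funext fun z => by simp] at this

theorem HolV.nhds {ι : Type} [Finite ι] {f : X → ι → ℂ} {x : X} (h : H.HolV f x) :
    ∀ᶠ y in 𝓝 x, H.HolV f y := eventually_all.2 fun i => H.nhds (h i)

theorem HolV.congr {ι : Type} {f g : X → ι → ℂ} {x : X} (h : H.HolV f x)
    (hfg : ∀ᶠ y in 𝓝 x, f y = g y) : H.HolV g x :=
  fun i => H.congr (hfg.mono fun _ hy => congrFun hy i) (h i)

end HS

/-- The chart `e` identifies the holomorphic structures. -/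
def Good {X Y : Type} [TopologicalSpace X] [TopologicalSpace Y] (H : HS X) (H' : HS Y)
    (e : OpenPartialHomeomorph X Y) : Prop :=
  ∀ (f : X → ℂ), ∀ x ∈ e.source, f ∈ H.O x ↔ f ∘ e.symm ∈ H'.O (e x)

/-- A sheaf of functions with an action of the holomorphic functions. -/
structure MSh {X : Type} [TopologicalSpace X] (H : HS X) extends FSh X where
  act : (X → ℂ) → ∀ y, E y →ₗ[ℂ] E y
  act_congr : ∀ {f g : X → ℂ} {y : X}, f =ᶠ[𝓝 y] g → act f y = act g y
  act_add : ∀ {f g : X → ℂ} {y : X}, f ∈ H.O y → g ∈ H.O y → act (f + g) y = act f y + act g y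
  act_mul : ∀ {f g : X → ℂ} {y : X}, f ∈ H.O y → g ∈ H.O y → act (f * g) y = act f y ∘ₗ act g y
  act_const : ∀ (c : ℂ) (y : X), act (fun _ => c) y = c • LinearMap.id
  act_mem : ∀ {f : X → ℂ} {a : ∀ y, E y} {x : X}, f ∈ H.O x → a ∈ A x →
    (fun y => act f y (a y)) ∈ A x

namespace MSh

variable {X : Type} [TopologicalSpace X] {H : HS X} (G : MSh H)

/-- The linear combination `∑ i, f i • s i`. -/
def lc {ι : Type} [Fintype ι] (f : X → ι → ℂ) (s : ι → G.T) : G.T :=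
  fun y => ∑ i, G.act (fun z => f z i) y (s i y)

variable {G}

theorem act_zero (y : X) : G.act (fun _ => 0) y = 0 := by rw [G.act_const, zero_smul]

theorem act_one (y : X) : G.act (fun _ => 1) y = LinearMap.id := by rw [G.act_const, one_smul]

theorem act_add' {f g : X → ℂ} {y : X} (hf : f ∈ H.O y) (hg : g ∈ H.O y) (v : G.E y) :
    G.act (fun z => f z + g z) y v = G.act f y v + G.act g y v :=
  congrArg (fun φ : G.E y →ₗ[ℂ] G.E y => φ v) (G.act_add hf hg)

theorem act_mul' {f g : X → ℂ} {y : X} (hf : f ∈ H.O y) (hg : g ∈ H.O y) (v : G.E y) :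
    G.act (fun z => f z * g z) y v = G.act f y (G.act g y v) :=
  congrArg (fun φ : G.E y →ₗ[ℂ] G.E y => φ v) (G.act_mul hf hg)

theorem act_smul' (c : ℂ) {f : X → ℂ} {y : X} (hf : f ∈ H.O y) (v : G.E y) :
    G.act (fun z => c * f z) y v = c • G.act f y v := by
  rw [act_mul' (HS.const_mem c y) hf, G.act_const]; rfl

theorem act_neg' {f : X → ℂ} {y : X} (hf : f ∈ H.O y) (v : G.E y) :
    G.act (fun z => -f z) y v = -G.act f y v := by
  have := act_smul' (-1) hf v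
  simpa using this

theorem act_sub' {f g : X → ℂ} {y : X} (hf : f ∈ H.O y) (hg : g ∈ H.O y) (v : G.E y) :
    G.act (fun z => f z - g z) y v = G.act f y v - G.act g y v := by
  simp only [sub_eq_add_neg]
  rw [act_add' hf (HS.neg_mem' hg), act_neg' hg]

theorem act_sum' {ι : Type*} {s : Finset ι} {f : ι → X → ℂ} {y : X}
    (hf : ∀ i ∈ s, f i ∈ H.O y) (v : G.E y) :
    G.act (fun z => ∑ i ∈ s, f i z) y v = ∑ i ∈ s, G.act (f i) y v := by
  classical
  induction s using Finset.induction_on with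
  | empty => simp [act_zero]
  | insert i s hi ih =>
    simp only [Finset.sum_insert hi]
    rw [act_add' (hf i (by simp)) (HS.sum_mem' fun j hj => hf j (by simp [hj])),
      ih fun j hj => hf j (by simp [hj])]

variable {ι κ : Type} [Fintype ι] [Fintype κ]

theorem lc_mem {f : X → ι → ℂ} {s : ι → G.T} {x : X} (hf : H.HolV f x) (hs : ∀ i, s i ∈ G.A x) :
    G.lc f s ∈ G.A x := by
  have := sum_mem (S := G.A x) (t := Finset.univ) fun i _ => G.act_mem (hf i) (hs i)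
  convert this using 1
  funext y
  simp [lc]

theorem lc_congr {f g : X → ι → ℂ} {s : ι → G.T} {y : X} (h : ∀ᶠ z in 𝓝 y, f z = g z) :
    G.lc f s y = G.lc g s y :=
  Finset.sum_congr rfl fun i _ => by
    rw [G.act_congr (f := fun z => f z i) (g := fun z => g z i) (h.mono fun _ hz => congrFun hz i)]

theorem lc_congr_right {f : X → ι → ℂ} {s t : ι → G.T} {y : X} (h : ∀ i, s i y = t i y) :
    G.lc f s y = G.lc f t y := Finset.sum_congr rfl fun i _ => by rw [h i]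

theorem lc_zero (s : ι → G.T) : G.lc (0 : X → ι → ℂ) s = 0 := by
  funext y
  simp [lc, act_zero]

theorem lc_add {f g : X → ι → ℂ} (s : ι → G.T) {y : X} (hf : H.HolV f y) (hg : H.HolV g y) :
    G.lc (f + g) s y = G.lc f s y + G.lc g s y := by
  simp only [lc, ← Finset.sum_add_distrib, Pi.add_apply]
  exact Finset.sum_congr rfl fun i _ => act_add' (hf i) (hg i) _

theorem lc_sub {f g : X → ι → ℂ} (s : ι → G.T) {y : X} (hf : H.HolV f y) (hg : H.HolV g y) :
    G.lc (f - g) s y = G.lc f s y - G.lc g s y := by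
  simp only [lc, ← Finset.sum_sub_distrib, Pi.sub_apply]
  exact Finset.sum_congr rfl fun i _ => act_sub' (hf i) (hg i) _

theorem lc_smul (c : ℂ) {f : X → ι → ℂ} (s : ι → G.T) {y : X} (hf : H.HolV f y) :
    G.lc (c • f) s y = c • G.lc f s y := by
  simp only [lc, Finset.smul_sum, Pi.smul_apply, smul_eq_mul]
  exact Finset.sum_congr rfl fun i _ => act_smul' c (hf i) _

theorem act_lc {g : X → ℂ} {f : X → ι → ℂ} (s : ι → G.T) {y : X} (hg : g ∈ H.O y)
    (hf : H.HolV f y) : G.act g y (G.lc f s y) = G.lc (fun z => g z • f z) s y := by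
  simp only [lc, map_sum, Pi.smul_apply, smul_eq_mul]
  exact Finset.sum_congr rfl fun i _ => (act_mul' hg (hf i) _).symm

/-- Linear combinations of linear combinations. -/
theorem lc_lc {f : X → κ → ℂ} {g : κ → X → ι → ℂ} (s : ι → G.T) {y : X} (hf : H.HolV f y)
    (hg : ∀ k, H.HolV (g k) y) :
    G.lc f (fun k => G.lc (g k) s) y = G.lc (fun z => ∑ k, f z k • g k z) s y := by
  have h1 : ∀ k, G.act (fun z => f z k) y (G.lc (g k) s y) =
      ∑ i, G.act (fun z => f z k * g k z i) y (s i y) := fun k => act_lc s (hf k) (hg k)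
  simp only [lc] at h1 ⊢
  simp only [h1, Finset.sum_apply, Pi.smul_apply, smul_eq_mul]
  rw [Finset.sum_comm]
  exact Finset.sum_congr rfl fun i _ =>
    (act_sum' (fun k _ => HS.mul_mem' (hf k) (hg k i)) _).symm

variable (H) in
/-- A subsheaf of `O^ι`, given by its spaces of sections. -/
def ofSub (ι : Type) (A : X → Submodule ℂ (X → ι → ℂ))
    (h1 : ∀ {x : X} {a b : X → ι → ℂ}, (∀ᶠ y in 𝓝 x, a y = b y) → a ∈ A x → b ∈ A x)
    (h2 : ∀ {x : X} {a : X → ι → ℂ}, a ∈ A x → ∀ᶠ y in 𝓝 x, a ∈ A y)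
    (h3 : ∀ {f : X → ℂ} {a : X → ι → ℂ} {x : X}, f ∈ H.O x → a ∈ A x →
      (fun y => f y • a y) ∈ A x) : MSh H where
  E _ := ι → ℂ
  A := A
  congr := h1
  nhds := h2
  act f y := f y • LinearMap.id
  act_congr h := by rw [h.self_of_nhds]
  act_add _ _ := by simp [add_smul]
  act_mul _ _ := by ext; simp [mul_assoc]
  act_const _ _ := rfl
  act_mem := h3

variable (H ι) in
/-- The free sheaf `O^ι`. -/
def free : MSh H :=
  ofSub H ι
    (fun x =>
      { carrier := {f | H.HolV f x}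
        add_mem' := fun ha hb i => add_mem (ha i) (hb i)
        zero_mem' := fun _ => zero_mem _
        smul_mem' := fun c _ ha i => (H.O x).smul_mem (ha i) c })
    (fun h ha => HS.HolV.congr ha h) (fun ha => HS.HolV.nhds ha)
    (fun hf ha i => mul_mem hf (ha i))

variable (G) in
/-- The sheaf of relations between the `s i`. -/
def Rel (s : ι → G.T) : MSh H :=
  ofSub H ι
    (fun x =>
      { carrier := {f | H.HolV f x ∧ ∀ᶠ y in 𝓝 x, G.lc f s y = 0}
        add_mem' := fun ha hb => ⟨fun i => add_mem (ha.1 i) (hb.1 i), by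
          filter_upwards [ha.1.nhds, hb.1.nhds, ha.2, hb.2] with y h1 h2 h3 h4
          rw [lc_add s h1 h2, h3, h4, add_zero]⟩
        zero_mem' := ⟨fun _ => zero_mem _, Eventually.of_forall fun y => by rw [lc_zero]; rfl⟩
        smul_mem' := fun c _ ha => ⟨fun i => (H.O x).smul_mem (ha.1 i) c, by
          filter_upwards [ha.1.nhds, ha.2] with y h1 h2
          rw [lc_smul c s h1, h2, smul_zero]⟩ })
    (fun h ha => ⟨ha.1.congr h, by
      filter_upwards [h.eventually_nhds, ha.2] with y h1 h2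
      rw [← lc_congr h1, h2]⟩)
    (fun ha => ha.1.nhds.and ha.2.eventually_nhds)
    (fun hf ha => ⟨fun i => mul_mem hf (ha.1 i), by
      filter_upwards [H.nhds hf, ha.1.nhds, ha.2] with y h1 h2 h3
      rw [← act_lc s h1 h2, h3, map_zero]⟩)

theorem mem_free {f : X → ι → ℂ} {x : X} : f ∈ (free H ι).A x ↔ H.HolV f x := Iff.rfl

theorem mem_Rel {s : ι → G.T} {f : X → ι → ℂ} {x : X} :
    f ∈ (G.Rel s).A x ↔ H.HolV f x ∧ ∀ᶠ y in 𝓝 x, G.lc f s y = 0 := Iff.rfl

theorem lc_free (f : X → κ → ℂ) (s : κ → X → ι → ℂ) (y : X) :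
    (free H ι).lc f s y = ∑ k, f y k • s k y := rfl

theorem lc_Rel (t : ι → G.T) (f : X → κ → ℂ) (s : κ → X → ι → ℂ) (y : X) :
    (G.Rel t).lc f s y = ∑ k, f y k • s k y := rfl

theorem Rel_Rel (t : ι → G.T) (s : κ → X → ι → ℂ) :
    (G.Rel t).Rel s = (free H ι).Rel s := rfl

variable (G)

/-- The `s i` generate the germs of sections of `G` at `x`. -/
def Gen (s : ι → G.T) (x : X) : Prop :=
  ∀ a ∈ G.A x, ∃ f : X → ι → ℂ, H.HolV f x ∧ ∀ᶠ y in 𝓝 x, a y = G.lc f s y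

/-- The `s i` are sections near `K` that generate at every point of `K`. -/
def GenOn (s : ι → G.T) (K : Set X) : Prop := ∀ x ∈ K, (∀ i, s i ∈ G.A x) ∧ G.Gen s x

/-- `G` is of finite type near `x`. -/
def FinAt (x : X) : Prop :=
  ∃ (ρ : Type) (_ : Fintype ρ) (s : ρ → G.T), ∀ᶠ y in 𝓝 x, (∀ i, s i ∈ G.A y) ∧ G.Gen s y

/-- `G` is coherent at `x`. -/
def CohAt (x : X) : Prop :=
  G.FinAt x ∧ ∀ (ρ : Type) [Fintype ρ] (s : ρ → G.T), (∀ i, s i ∈ G.A x) → (G.Rel s).FinAt x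

end MSh

namespace HS

variable {X : Type} [TopologicalSpace X] (H : HS X)

/-- The conclusion of Oka's coherence theorem at `x`. -/
def OkaAt (x : X) : Prop :=
  ∀ (κ ι : Type) [Fintype κ] [Fintype ι] (F : ι → X → κ → ℂ), (∀ i, H.HolV (F i) x) →
    ((MSh.free H κ).Rel F).FinAt x

/-- Theorems A and B for (germs along) the set `K`. -/
def AB (K : Set X) : Prop :=
  (∀ x ∈ K, H.OkaAt x) ∧ ∀ G : MSh H, (∀ x ∈ K, G.CohAt x) →
    (∃ (ρ : Type) (_ : Fintype ρ) (s : ρ → G.T), G.GenOn s K) ∧ ∀ j, (FSh.iter j G.toFSh).Van K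

/-- Additive Cousin splitting. -/
def CousinP (K₁ K₂ K₁₂ : Set X) : Prop :=
  ∀ f : X → ℂ, (∀ y ∈ K₁₂, f ∈ H.O y) → ∃ f₁ f₂ : X → ℂ, (∀ y ∈ K₁, f₁ ∈ H.O y) ∧
    (∀ y ∈ K₂, f₂ ∈ H.O y) ∧ ∀ y ∈ K₁₂, ∀ᶠ z in 𝓝 y, f z = f₁ z - f₂ z

/-- The form of Cartan's attaching lemma that is used for Theorem A. -/
def CartanP (K₁ K₂ K₁₂ : Set X) : Prop :=
  ∀ (ι κ : Type) [Fintype ι] [Fintype κ] [DecidableEq ι] (m : X → Matrix ι κ ℂ)
    (k : X → Matrix κ ι ℂ), (∀ y ∈ K₁₂, H.HolM m y) → (∀ y ∈ K₁₂, H.HolM k y) →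
    ∃ (P Q S : X → Matrix ι ι ℂ) (R : X → Matrix ι κ ℂ), (∀ y ∈ K₁, H.HolM P y) ∧
      (∀ y ∈ K₁, H.HolM Q y) ∧ (∀ y ∈ K₂, H.HolM R y) ∧ (∀ y ∈ K₁₂, H.HolM S y) ∧
      (∀ y ∈ K₁, ∀ᶠ z in 𝓝 y, Q z * P z = 1) ∧
      ∀ y ∈ K₁₂, ∀ᶠ z in 𝓝 y, P z = S z * (1 - m z * k z) + R z * k z

/-- Weierstrass convergence and equicontinuity of bounded families. -/
def Montel : Prop :=
  (∀ (U : Set X) (F : ℕ → X → ℂ) (f : X → ℂ), IsOpen U → (∀ k, ∀ x ∈ U, F k ∈ H.O x) →
    TendstoUniformlyOn F f atTop U → ∀ x ∈ U, f ∈ H.O x) ∧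
  ∀ (U : Set X), IsOpen U → ∀ x ∈ U, ∀ ε > 0, ∀ᶠ y in 𝓝 x, ∀ f : X → ℂ,
    (∀ z ∈ U, f ∈ H.O z) → (∀ z ∈ U, ‖f z‖ ≤ 1) → ‖f y - f x‖ < ε

end HS

end Pool.Agent.QMax
end
end

-- part Pool.Agent.Lib.MP_ec9812_ag.Core2
section

/-!
Boxes, strips, Cech cochains, level covers, bump steps, representation of abelian sheaves.
-/

open Set Filter Topology

noncomputable section

namespace Pool.Agent.QMax

section Boxes

variable {n : ℕ}

/-- Real coordinates: `(i, true)` is `Re (y i)` and `(i, false)` is `Im (y i)`. -/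
def rc (y : Fin n → ℂ) (c : Fin n × Bool) : ℝ := if c.2 then (y c.1).re else (y c.1).im

/-- The point with given real coordinates. -/
def ofRc (v : Fin n × Bool → ℝ) : Fin n → ℂ := fun i => ⟨v (i, true), v (i, false)⟩

@[simp] theorem rc_true (y : Fin n → ℂ) (i : Fin n) : rc y (i, true) = (y i).re := rfl

@[simp] theorem rc_false (y : Fin n → ℂ) (i : Fin n) : rc y (i, false) = (y i).im := rfl

@[simp] theorem rc_ofRc (v : Fin n × Bool → ℝ) : rc (ofRc v) = v := by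
  funext ⟨i, b⟩; cases b <;> rfl

@[simp] theorem ofRc_rc (y : Fin n → ℂ) : ofRc (rc y) = y := rfl

theorem continuous_rc_apply (c : Fin n × Bool) : Continuous fun y : Fin n → ℂ => rc y c := by
  obtain ⟨i, b⟩ := c
  cases b
  · exact Complex.continuous_im.comp (continuous_apply i)
  · exact Complex.continuous_re.comp (continuous_apply i)

theorem continuous_rc : Continuous (rc : (Fin n → ℂ) → _) := continuous_pi continuous_rc_apply

theorem continuous_ofRc : Continuous (ofRc : _ → Fin n → ℂ) := by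
  refine continuous_pi fun i => ?_
  have : (fun v : Fin n × Bool → ℝ => ofRc v i) =
      fun v => ((v (i, true) : ℝ) : ℂ) + ((v (i, false) : ℝ) : ℂ) * Complex.I :=
    funext fun v => Complex.mk_eq_add_mul_I _ _
  rw [this]
  fun_prop

/-- Compact box. -/
def Box (a b : Fin n × Bool → ℝ) : Set (Fin n → ℂ) := {y | ∀ c, rc y c ∈ Icc (a c) (b c)}

/-- Box with sides `I c`. -/
def OBox (I : Fin n × Bool → Set ℝ) : Set (Fin n → ℂ) := {y | ∀ c, rc y c ∈ I c}

/-- All sides are open intervals (possibly empty or unbounded). -/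
def IsOI (I : Fin n × Bool → Set ℝ) : Prop := ∀ c, IsOpen (I c) ∧ (I c).OrdConnected

theorem isCompact_Box (a b : Fin n × Bool → ℝ) : IsCompact (Box a b) := by
  have : Box a b = ofRc '' Icc a b := by
    ext y
    constructor
    · intro h
      exact ⟨rc y, ⟨fun c => (h c).1, fun c => (h c).2⟩, rfl⟩
    · rintro ⟨v, hv, rfl⟩ c
      rw [rc_ofRc]
      exact ⟨hv.1 c, hv.2 c⟩
  rw [this]
  exact isCompact_Icc.image continuous_ofRc

theorem IsOI.isOpen {I : Fin n × Bool → Set ℝ} (h : IsOI I) : IsOpen (OBox I) := by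
  have : OBox I = ⋂ c, (fun y => rc y c) ⁻¹' I c := by ext; simp [OBox]
  rw [this]
  exact isOpen_iInter_of_finite fun c => (h c).1.preimage (continuous_rc_apply c)

theorem IsOI.inter {I I' : Fin n × Bool → Set ℝ} (h : IsOI I) (h' : IsOI I') :
    IsOI fun c => I c ∩ I' c := fun c => ⟨(h c).1.inter (h' c).1, (h c).2.inter (h' c).2⟩

theorem OBox_inter (I I' : Fin n × Bool → Set ℝ) :
    OBox (fun c => I c ∩ I' c) = OBox I ∩ OBox I' := by
  ext; simp [OBox, forall_and]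

theorem Box_inter (a b a' b' : Fin n × Bool → ℝ) :
    Box a b ∩ Box a' b' = Box (a ⊔ a') (b ⊓ b') := by
  ext y
  simp only [Box, mem_inter_iff, mem_ofPred_eq, mem_Icc, Pi.sup_apply, Pi.inf_apply, sup_le_iff,
    le_inf_iff, ← forall_and]
  exact forall_congr' fun c => by tauto

variable {X : Type} [TopologicalSpace X]

/-- `K` is a compact box in a good chart. -/
def IsCBox (n : ℕ) (H : HS X) (K : Set X) : Prop :=
  ∃ e : OpenPartialHomeomorph X (Fin n → ℂ), Good H (hsE _) e ∧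
    ∃ a b, Box a b ⊆ e.target ∧ K = e.symm '' Box a b

/-- `W` is obtained from the open set `V` by adding an open box `B` of a good chart, and `V ∩ B`
is a union of at most `M` open boxes of that chart. -/
def BumpStep (n : ℕ) (H : HS X) (M : ℕ) (V W : Set X) : Prop :=
  IsOpen V ∧ ∃ e : OpenPartialHomeomorph X (Fin n → ℂ), Good H (hsE _) e ∧
    ∃ I, IsOI I ∧ OBox I ⊆ e.target ∧ W = V ∪ e.symm '' OBox I ∧
      ∃ L : List (Fin n × Bool → Set ℝ), L.length ≤ M ∧
        (∀ I' ∈ L, IsOI I' ∧ OBox I' ⊆ e.target) ∧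
        V ∩ e.symm '' OBox I = ⋃ I' ∈ L, e.symm '' OBox I'

end Boxes

section Strips

/-- Horizontal strip. -/
def St (a b : ℝ) : Set ℂ := {u | a < u.im ∧ u.im < b}

theorem isOpen_St (a b : ℝ) : IsOpen (St a b) :=
  (isOpen_lt continuous_const Complex.continuous_im).inter
    (isOpen_lt Complex.continuous_im continuous_const)

/-- The pair `K₁, K₂` with common face `K₁₂` can be straightened to upper and lower half strips:
`Φ` is holomorphic near `K₁ ∪ K₂`, and `Ψ` is a holomorphic left inverse near `K₁₂`, defined on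
a thin strip and with values in a compact part of a given neighbourhood `O` of `K₁₂`. -/
def StripModel {E : Type} [NormedAddCommGroup E] [NormedSpace ℂ E] (K₁ K₂ K₁₂ : Set E) : Prop :=
  K₁₂ ⊆ K₁ ∧ K₁₂ ⊆ K₂ ∧ ∀ O : Set E, IsOpen O → K₁₂ ⊆ O →
    ∃ (θ L : ℝ) (W C : Set E) (Φ : E → ℂ × E) (Ψ : ℂ × E → E), 0 < θ ∧ θ ≤ L ∧ IsOpen W ∧
      IsCompact C ∧ C ⊆ O ∧ DifferentiableOn ℂ Ψ (St (-θ) θ ×ˢ W) ∧
      MapsTo Ψ (St (-θ) θ ×ˢ W) C ∧
      (∀ y ∈ K₁ ∪ K₂, (∀ᶠ z in 𝓝 y, DifferentiableAt ℂ Φ z) ∧ (Φ y).2 ∈ W) ∧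
      (∀ y ∈ K₁, 0 ≤ (Φ y).1.im ∧ (Φ y).1.im < L) ∧
      (∀ y ∈ K₂, -L < (Φ y).1.im ∧ (Φ y).1.im ≤ 0) ∧
      ∀ y ∈ K₁₂, ∀ᶠ z in 𝓝 y, Ψ (Φ z) = z

/-- The polynomial in the last variable with coefficients `c`. -/
def pv {E : Type} {μ : ℕ} (c : E → Fin μ → ℂ) (p : E × ℂ) : ℂ := ∑ j, c p.1 j * p.2 ^ (j : ℕ)

/-- The monic polynomial of degree `μ` in the last variable with lower coefficients `a`. -/
def mp {E : Type} {μ : ℕ} (a : E → Fin μ → ℂ) (p : E × ℂ) : ℂ := p.2 ^ μ + pv a p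

end Strips

section Cech

variable {ι : Type}

/-- The intersection of the sets with index in the list `J`. -/
def capL {X : Type} (U : ι → Set X) (J : List ι) : Set X := {x | ∀ i ∈ J, x ∈ U i}

theorem capL_mono {X : Type} {U V : ι → Set X} (h : ∀ i, U i ⊆ V i) (J : List ι) :
    capL U J ⊆ capL V J := fun _ hx i hi => h i (hx i hi)

theorem capL_sublist {X : Type} (U : ι → Set X) {J K : List ι} (h : K.Sublist J) :
    capL U J ⊆ capL U K := fun _ hx i hi => hx i (h.subset hi)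

theorem mem_capL_cons {X : Type} {U : ι → Set X} {i : ι} {J : List ι} {x : X} :
    x ∈ capL U (i :: J) ↔ x ∈ U i ∧ x ∈ capL U J := by simp [capL]

theorem isOpen_capL {X : Type} [TopologicalSpace X] {U : ι → Set X} (h : ∀ i, IsOpen (U i))
    (J : List ι) : IsOpen (capL U J) := by
  induction J with
  | nil => simp [capL]
  | cons i J ih =>
    rw [show capL U (i :: J) = U i ∩ capL U J from Set.ext fun _ => mem_capL_cons]
    exact (h i).inter ih

variable {M N : Type} [AddCommGroup M] [AddCommGroup N]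

/-- The Cech coboundary, on cochains indexed by lists. -/
def dl : (List ι → M) → List ι → M
  | _, [] => 0
  | c, i :: J => c J - dl (fun K => c (i :: K)) J

@[simp] theorem dl_nil (c : List ι → M) : dl c [] = 0 := rfl

theorem dl_cons (c : List ι → M) (i : ι) (J : List ι) :
    dl c (i :: J) = c J - dl (fun K => c (i :: K)) J := rfl

@[simp] theorem dl_singleton (c : List ι → M) (i : ι) : dl c [i] = c [] := by simp [dl_cons]

theorem map_dl (φ : M →+ N) (c : List ι → M) (J : List ι) :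
    φ (dl c J) = dl (fun K => φ (c K)) J := by
  induction J generalizing c with
  | nil => simp
  | cons i J ih => rw [dl_cons, dl_cons, map_sub, ih]

theorem dl_add (c c' : List ι → M) : dl (c + c') = dl c + dl c' := by
  funext J
  induction J generalizing c c' with
  | nil => simp
  | cons i J ih =>
    have := ih (fun K => c (i :: K)) (fun K => c' (i :: K))
    change c J + c' J - dl ((fun K => c (i :: K)) + fun K => c' (i :: K)) J = _
    rw [this]
    simp only [dl_cons, Pi.add_apply]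
    abel

/-- The coboundary as an additive map. -/
def dlHom : (List ι → M) →+ (List ι → M) := AddMonoidHom.mk' dl dl_add

theorem dl_zero : dl (0 : List ι → M) = 0 := map_zero dlHom

theorem dl_sub (c c' : List ι → M) : dl (c - c') = dl c - dl c' := map_sub dlHom c c'

theorem dl_sum {α : Type*} (s : Finset α) (c : α → List ι → M) :
    dl (∑ a ∈ s, c a) = ∑ a ∈ s, dl (c a) := map_sum dlHom c s

theorem dl_smul [Module ℂ M] (r : ℂ) (c : List ι → M) : dl (r • c) = r • dl c :=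
  funext fun J => (map_dl (DistribSMul.toAddMonoidHom M r) c J).symm

theorem dl_dl (c : List ι → M) : dl (dl c) = 0 := by
  funext J
  induction J generalizing c with
  | nil => rfl
  | cons i J ih =>
    have h : (fun K => dl c (i :: K)) = c - dl fun K => c (i :: K) := rfl
    rw [dl_cons, h, dl_sub, Pi.sub_apply, ih]
    simp

/-- Locality: `dl c J` only involves the sublists of `J` with one entry removed. -/
theorem dl_mem {S : Type*} [SetLike S M] [AddSubgroupClass S M] (P : S) {c : List ι → M}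
    {J : List ι} (h : ∀ K : List ι, K.Sublist J → K.length + 1 = J.length → c K ∈ P) :
    dl c J ∈ P := by
  induction J generalizing c with
  | nil => exact zero_mem _
  | cons i J ih =>
    rw [dl_cons]
    exact sub_mem (h J (List.sublist_cons_self i J) rfl)
      (ih fun K hK hl => h _ (hK.cons_cons i) (by simp [hl]))

theorem dl_congr {c c' : List ι → M} (φ : M →+ N) {J : List ι}
    (h : ∀ K : List ι, K.Sublist J → K.length + 1 = J.length → φ (c K) = φ (c' K)) :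
    φ (dl c J) = φ (dl c' J) := by
  have := dl_mem φ.ker (c := c - c') (J := J) fun K hK hl => by
    rw [AddMonoidHom.mem_ker, Pi.sub_apply, map_sub, h K hK hl, sub_self]
  rwa [AddMonoidHom.mem_ker, dl_sub, Pi.sub_apply, map_sub, sub_eq_zero] at this

variable {X : Type} [TopologicalSpace X]

namespace FSh

variable (G : FSh X)

/-- Sections near `K₁₂` split as differences of sections near `K₁` and near `K₂`. -/
def Split (K₁ K₂ K₁₂ : Set X) : Prop :=
  ∀ g, G.IsSec K₁₂ g → ∃ g₁ g₂, G.IsSec K₁ g₁ ∧ G.IsSec K₂ g₂ ∧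
    ∀ x ∈ K₁₂, ∀ᶠ y in 𝓝 x, g y = g₁ y - g₂ y

/-- Cochain of `G` on lists of length `m`. -/
def Coch (U : ι → Set X) (m : ℕ) (c : List ι → G.T) : Prop :=
  ∀ J : List ι, J.length = m → G.IsSec (capL U J) (c J)

/-- Cocycle of `G` on lists of length `m`. -/
def Cocy (U : ι → Set X) (m : ℕ) (c : List ι → G.T) : Prop :=
  G.Coch U m c ∧ ∀ J : List ι, J.length = m + 1 → ∀ x ∈ capL U J, dl c J x = 0

/-- `c`, on lists of length `m + 1`, is a coboundary. -/
def Cob (U : ι → Set X) (m : ℕ) (c : List ι → G.T) : Prop :=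
  ∃ b, G.Coch U m b ∧ ∀ J : List ι, J.length = m + 1 → ∀ x ∈ capL U J, c J x = dl b J x

/-- Every cocycle (of degree `m`) on `U₁` is cohomologous on `U₀` to a cocycle on `U₂`. -/
def CSur (m : ℕ) (U₀ U₁ U₂ : ι → Set X) : Prop :=
  ∀ z, G.Cocy U₁ (m + 1) z → ∃ z', G.Cocy U₂ (m + 1) z' ∧ G.Cob U₀ m (z - z')

/-- The image of the degree `m` Cech cohomology of `U₁` in that of `U₀` is finite dimensional. -/
def CFin (m : ℕ) (U₀ U₁ : ι → Set X) : Prop :=
  ∃ (N : ℕ) (z : Fin N → List ι → G.T), (∀ i, G.Cocy U₀ (m + 1) (z i)) ∧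
    ∀ w, G.Cocy U₁ (m + 1) w → ∃ c : Fin N → ℂ, G.Cob U₀ m (w - ∑ i, c i • z i)

end FSh

/-- Nested open sets `U r i` and compact sets `K r i`, for levels `r ≤ R`. -/
structure Levels (R : ℝ) (U K : ℝ → ι → Set X) : Prop where
  isOpen : ∀ r ≤ R, ∀ i, IsOpen (U r i)
  isCompact : ∀ r ≤ R, ∀ J : List ι, J ≠ [] → IsCompact (capL (K r) J)
  sub : ∀ r ≤ R, ∀ i, U r i ⊆ K r i
  sub' : ∀ r r', r < r' → r' ≤ R → ∀ i, K r i ⊆ U r' i

end Cech

theorem Levels.mono {X ι : Type} [TopologicalSpace X] {R : ℝ} {U K : ℝ → ι → Set X}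
    (h : Levels R U K) {r r' : ℝ} (h1 : r ≤ r') (h2 : r' ≤ R) (i : ι) : U r i ⊆ U r' i := by
  rcases h1.eq_or_lt with rfl | h1
  · exact Subset.rfl
  · exact (h.sub r (h1.le.trans h2) i).trans (h.sub' r r' h1 h2 i)

theorem Levels.monoK {X ι : Type} [TopologicalSpace X] {R : ℝ} {U K : ℝ → ι → Set X}
    (h : Levels R U K) {r r' : ℝ} (h1 : r ≤ r') (h2 : r' ≤ R) (i : ι) : K r i ⊆ K r' i := by
  rcases h1.eq_or_lt with rfl | h1
  · exact Subset.rfl
  · exact (h.sub' r r' h1 h2 i).trans (h.sub r' h2 i)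

section Rep

open CategoryTheory TopologicalSpace Opposite

variable {X : Type} [TopologicalSpace X]

/-- The abelian sheaf `A` with the endomorphisms `m c` is the sheaf of sections of `G`. -/
def Rep (A : Sheaf (Opens.grothendieckTopology X) AddCommGrpCat.{0}) (m : ℂ → (A ⟶ A))
    (G : FSh X) : Prop :=
  ∃ φ : ∀ U : Opens X, A.obj.obj (op U) →+ G.T,
    (∀ (U : Opens X) s, G.IsSec U (φ U s)) ∧
    (∀ U V (h : V ≤ U) s, ∀ y ∈ V, φ V (A.obj.map (homOfLE h).op s) y = φ U s y) ∧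
    (∀ U s, (∀ y ∈ U, φ U s y = 0) → s = 0) ∧
    (∀ (U : Opens X) a, G.IsSec U a → ∃ s, ∀ y ∈ U, φ U s y = a y) ∧
    (∀ U c s, ∀ y ∈ U, φ U ((m c).hom.app (op U) s) y = c • φ U s y)

end Rep

end Pool.Agent.QMax
end
end

-- part Pool.Agent.Lib.MP_ec9812_ag.HolE
section

/-! Holomorphy of parametric integrals, uniform limits and series; Montel property. -/

open Set Filter Topology MeasureTheory

set_option linter.unusedSectionVars false

noncomputable section

namespace Pool.Agent.QMax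

open Pool.Agent.Lib.MP_7906d6_an

variable {E F : Type} [NormedAddCommGroup E] [NormedSpace ℂ E] [NormedAddCommGroup F]
  [NormedSpace ℂ F] [CompleteSpace F]

theorem differentiableOn_integral {α : Type} [MeasurableSpace α] {μ : Measure α} {U : Set E}
    (hU : IsOpen U) {f : E → α → F} {bound : α → ℝ}
    (hm : ∀ z ∈ U, AEStronglyMeasurable (f z) μ)
    (hd : ∀ᵐ a ∂μ, DifferentiableOn ℂ (fun z => f z a) U)
    (hb : ∀ᵐ a ∂μ, ∀ z ∈ U, ‖f z a‖ ≤ bound a) (hi : Integrable bound μ) :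
    DifferentiableOn ℂ (fun z => ∫ a, f z a ∂μ) U := by
  intro c hc
  apply DifferentiableAt.differentiableWithinAt
  obtain ⟨R, hR, hsub⟩ := Metric.isOpen_iff.1 hU c hc
  set D : α → E →L[ℂ] F := fun a => fderiv ℂ (fun z => f z a) c with hD
  have hint : ∀ z ∈ U, Integrable (f z) μ := fun z hz =>
    hi.mono' (hm z hz) (hb.mono fun a ha => ha z hz)
  have hDb : ∀ y : E, ∀ᵐ a ∂μ, ‖D a y‖ ≤ 2 / R * ‖y‖ * bound a := by
    intro y
    filter_upwards [hd, hb] with a h1 h2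
    have h3 := cauchy_fderiv hR (h1.mono hsub) fun z hz => h2 z (hsub hz)
    calc ‖D a y‖ ≤ ‖D a‖ * ‖y‖ := (D a).le_opNorm y
      _ ≤ 2 * bound a / R * ‖y‖ := mul_le_mul_of_nonneg_right h3 (norm_nonneg _)
      _ = _ := by ring
  have hDm : ∀ y : E, AEStronglyMeasurable (fun a => D a y) μ := by
    intro y
    set C : ℝ := (‖y‖ + 1) / R with hC
    have hC0 : 0 < C := by positivity
    set t : ℕ → ℂ := fun k => (((k + 1) * C : ℝ) : ℂ) with ht
    have hn : ∀ k, ‖t k‖ = (k + 1) * C := fun k => by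
      rw [ht, Complex.norm_real, Real.norm_of_nonneg (by positivity)]
    have hlim : Tendsto (fun k => ‖t k‖) atTop atTop := by
      simp only [hn]
      exact (tendsto_atTop_add_const_right _ _ tendsto_natCast_atTop_atTop).atTop_mul_const hC0
    have hmem : ∀ k, c + (t k)⁻¹ • y ∈ U := fun k => by
      apply hsub
      rw [mem_ball_iff_norm, add_sub_cancel_left, norm_smul, norm_inv, hn,
        inv_mul_lt_iff₀ (by positivity)]
      have h1 : C * R = ‖y‖ + 1 := by rw [hC]; field_simp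
      have h2 : (0 : ℝ) ≤ k * (C * R) := by positivity
      nlinarith
    refine aestronglyMeasurable_of_tendsto_ae atTop
      (f := fun k a => t k • (f (c + (t k)⁻¹ • y) a - f c a))
      (fun k => ((hm _ (hmem k)).sub (hm c hc)).const_smul _) ?_
    filter_upwards [hd] with a ha
    exact (ha.differentiableAt (hU.mem_nhds hc)).hasFDerivAt.lim y hlim
  have hDi : ∀ y : E, Integrable (fun a => D a y) μ := fun y =>
    (hi.const_mul _).mono' (hDm y) (hDb y)
  let L0 : E →ₗ[ℂ] F :=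
    { toFun := fun y => ∫ a, D a y ∂μ
      map_add' := fun y y' => by simp only [map_add, integral_add (hDi y) (hDi y')]
      map_smul' := fun r y => by simp only [map_smul, integral_smul, RingHom.id_apply] }
  let L : E →L[ℂ] F := L0.mkContinuous (2 / R * ∫ a, bound a ∂μ) fun y => by
    refine (norm_integral_le_of_norm_le (hi.const_mul _) (hDb y)).trans_eq ?_
    rw [integral_const_mul]
    ring
  refine HasFDerivAt.differentiableAt (f' := L) ?_
  rw [hasFDerivAt_iff_isLittleO_nhds_zero]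
  refine Asymptotics.IsBigO.trans_isLittleO ?_
    (Asymptotics.isLittleO_norm_pow_id (n := 2) (by norm_num))
  refine Asymptotics.IsBigO.of_bound (4 / R ^ 2 * ∫ a, bound a ∂μ) ?_
  filter_upwards [Metric.ball_mem_nhds (0 : E) hR] with y hy
  rw [mem_ball_zero_iff] at hy
  have hcy : c + y ∈ U := hsub (by rwa [mem_ball_iff_norm, add_sub_cancel_left])
  have e1 : ∫ a, f (c + y) a ∂μ - ∫ a, f c a ∂μ - L y =
      ∫ a, (f (c + y) a - f c a - D a y) ∂μ := by
    rw [integral_sub (f := fun a => f (c + y) a - f c a) ((hint _ hcy).sub (hint _ hc)) (hDi y),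
      integral_sub (hint _ hcy) (hint _ hc)]
    rfl
  rw [e1]
  refine (norm_integral_le_of_norm_le (hi.const_mul (4 * (‖y‖ / R) ^ 2)) ?_).trans_eq ?_
  · filter_upwards [hd, hb] with a h1 h2
    refine (taylor_two hR (h1.mono hsub) (fun z hz => h2 z (hsub hz)) hy).trans_eq ?_
    ring
  · rw [integral_const_mul, Real.norm_of_nonneg (by positivity)]
    ring

theorem differentiableOn_circleIntegral {U : Set E} (hU : IsOpen U) {V : Set (E × ℂ)}
    (hV : IsOpen V) {f : E × ℂ → F} (hf : DifferentiableOn ℂ f V) {c : ℂ} {R : ℝ} (hR : 0 ≤ R)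
    (hUV : U ×ˢ Metric.sphere c R ⊆ V) :
    DifferentiableOn ℂ (fun z => ∮ ζ in C(c, R), f (z, ζ)) U := by
  intro z₀ hz₀
  apply DifferentiableAt.differentiableWithinAt
  have hda : ∀ z ∈ U, ∀ ζ ∈ Metric.sphere c R, DifferentiableAt ℂ f (z, ζ) := fun z hz ζ hζ =>
    hf.differentiableAt (hV.mem_nhds (hUV ⟨hz, hζ⟩))
  have hco : ∀ z ∈ U, ContinuousOn (fun ζ => f (z, ζ)) (Metric.sphere c R) := fun z hz ζ hζ =>
    ((hda z hz ζ hζ).continuousAt.comp
      (f := fun ζ => (z, ζ)) (Continuous.prodMk_right z).continuousAt).continuousWithinAt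
  obtain ⟨M, hM⟩ := (isCompact_sphere c R).exists_bound_of_continuousOn (hco z₀ hz₀)
  have h1 : ∀ᶠ z in 𝓝 z₀, ∀ ζ ∈ Metric.sphere c R, ‖f (z, ζ)‖ ≤ M + 1 := by
    refine (isCompact_sphere c R).eventually_forall_of_forall_eventually
      (P := fun z ζ => ‖f (z, ζ)‖ ≤ M + 1) fun ζ hζ => ?_
    exact (hda z₀ hz₀ ζ hζ).continuousAt.norm.eventually
      (eventually_le_nhds (lt_of_le_of_lt (hM ζ hζ) (lt_add_one M)))
  obtain ⟨W, hW, hWo, hzW⟩ := eventually_nhds_iff.1 (h1.and (hU.mem_nhds hz₀))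
  have hcm : ∀ θ, circleMap c R θ ∈ Metric.sphere c R := circleMap_mem_sphere c hR
  have key : DifferentiableOn ℂ (fun z => ∫ θ in Ioc 0 (2 * Real.pi),
      deriv (circleMap c R) θ • f (z, circleMap c R θ)) W := by
    refine differentiableOn_integral hWo (bound := fun _ => R * (M + 1)) (fun z hz => ?_)
      (Eventually.of_forall fun θ z hz => ?_) (Eventually.of_forall fun θ z hz => ?_)
      (integrable_const _)
    · refine Continuous.aestronglyMeasurable ?_
      refine Continuous.smul ?_ ((hco z (hW z hz).2).comp_continuous (continuous_circleMap c R) hcm)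
      simp only [funext (deriv_circleMap c R)]
      exact (continuous_circleMap 0 R).mul continuous_const
    · refine DifferentiableAt.differentiableWithinAt ?_
      refine DifferentiableAt.const_smul (f := fun z => f (z, circleMap c R θ)) ?_ _
      exact (hda z (hW z hz).2 _ (hcm θ)).comp z (f := fun z => (z, circleMap c R θ))
        (differentiableAt_id.prodMk (differentiableAt_const _))
    · rw [norm_smul, deriv_circleMap, norm_mul, Complex.norm_I, mul_one, norm_circleMap_zero,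
        abs_of_nonneg hR]
      exact mul_le_mul_of_nonneg_left ((hW z hz).1 _ (hcm θ)) hR
  have e : (fun z => ∮ ζ in C(c, R), f (z, ζ)) = fun z => ∫ θ in Ioc 0 (2 * Real.pi),
      deriv (circleMap c R) θ • f (z, circleMap c R θ) := by
    funext z
    rw [circleIntegral, intervalIntegral.integral_of_le Real.two_pi_pos.le]
  rw [e]
  exact key.differentiableAt (hWo.mem_nhds hzW)

theorem differentiableOn_of_tendstoUniformlyOn {U : Set E} (hU : IsOpen U) {f : ℕ → E → F}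
    {g : E → F} (hd : ∀ k, DifferentiableOn ℂ (f k) U) (hu : TendstoUniformlyOn f g atTop U) :
    DifferentiableOn ℂ g U := by
  intro c hc
  obtain ⟨R, hR, hsub⟩ := Metric.isOpen_iff.1 hU c hc
  exact (weierstrass hR (fun k => (hd k).mono hsub) (hu.mono hsub)).differentiableWithinAt

theorem differentiableOn_tsum' {U : Set E} (hU : IsOpen U) {f : ℕ → E → F} {u : ℕ → ℝ}
    (hd : ∀ k, DifferentiableOn ℂ (f k) U) (hu : Summable u)
    (hb : ∀ k, ∀ z ∈ U, ‖f k z‖ ≤ u k) : DifferentiableOn ℂ (fun z => ∑' k, f k z) U :=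
  differentiableOn_of_tendstoUniformlyOn hU
    (fun _ => DifferentiableOn.fun_sum fun k _ => hd k) (tendstoUniformlyOn_tsum_nat hu hb)

theorem montel_of_charts {X : Type} [TopologicalSpace X] (H : HS X)
    (hc : ∀ x, ∃ e : OpenPartialHomeomorph X E, Good H (hsE E) e ∧ x ∈ e.source) :
    H.Montel := by
  have main : ∀ (U : Set X), IsOpen U → ∀ x ∈ U, ∃ e : OpenPartialHomeomorph X E,
      Good H (hsE E) e ∧ x ∈ e.source ∧ ∃ R > 0, MapsTo e.symm (Metric.ball (e x) R) U ∧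
        ∀ f : X → ℂ, (∀ z ∈ U, f ∈ H.O z) →
          DifferentiableOn ℂ (f ∘ e.symm) (Metric.ball (e x) R) := by
    intro U hU x hx
    obtain ⟨e, he, hxe⟩ := hc x
    have h1 : ∀ᶠ y in 𝓝 (e x), e.symm y ∈ U ∧ y ∈ e.target :=
      ((e.tendsto_symm hxe).eventually (hU.mem_nhds hx)).and
        (e.open_target.mem_nhds (e.map_source hxe))
    obtain ⟨R, hR, hsub⟩ := Metric.eventually_nhds_iff_ball.1 h1
    refine ⟨e, he, hxe, R, hR, fun y hy => (hsub y hy).1, fun f hf y hy => ?_⟩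
    have h2 := (he f _ (e.map_target (hsub y hy).2)).1 (hf _ (hsub y hy).1)
    rw [e.right_inv (hsub y hy).2] at h2
    exact (mem_hsE.1 h2).self_of_nhds.differentiableWithinAt
  constructor
  · intro U G g hU hG hu x hx
    obtain ⟨e, he, hxe, R, hR, hmap, hdiff⟩ := main U hU x hx
    refine (he g x hxe).2 (mem_hsE.2 ?_)
    have h1 : DifferentiableOn ℂ (g ∘ e.symm) (Metric.ball (e x) R) :=
      differentiableOn_of_tendstoUniformlyOn Metric.isOpen_ball (f := fun k => G k ∘ e.symm)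
        (fun k => hdiff _ (hG k)) ((hu.comp e.symm).mono hmap)
    filter_upwards [Metric.ball_mem_nhds (e x) hR] with y hy
    exact h1.differentiableAt (Metric.isOpen_ball.mem_nhds hy)
  · intro U hU x hx ε hε
    obtain ⟨e, he, hxe, R, hR, hmap, hdiff⟩ := main U hU x hx
    have hδ : 0 < min R (ε * R / 2) := lt_min hR (by positivity)
    filter_upwards [(e.continuousAt hxe).eventually (Metric.ball_mem_nhds (e x) hδ),
      e.open_source.mem_nhds hxe] with y hy hys f hf hb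
    rw [lt_min_iff] at hy
    have h1 := Complex.dist_le_div_mul_dist_of_mapsTo_ball (hdiff f hf) (R₂ := 2)
      (fun z hz => by
        rw [Metric.mem_closedBall, dist_eq_norm]
        have h2 := hb _ (hmap hz)
        have h3 := hb _ (hmap (Metric.mem_ball_self hR))
        have h4 := norm_sub_le (f (e.symm z)) (f (e.symm (e x)))
        simp only [Function.comp_apply]
        linarith) (z := e y) hy.1
    simp only [Function.comp_apply, e.left_inv hys, e.left_inv hxe] at h1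
    rw [dist_eq_norm] at h1
    refine h1.trans_lt ?_
    rw [div_mul_eq_mul_div, div_lt_iff₀ hR]
    linarith [hy.2]

end Pool.Agent.QMax
end
end

-- part Pool.Agent.Lib.MP_ec9812_ag.Div
section

/-! Division by a monic polynomial through Cauchy integrals, compatible with relations. -/

open Set Filter Topology

noncomputable section

namespace Pool.Agent.QMax

variable {E : Type} [NormedAddCommGroup E] [NormedSpace ℂ E]

namespace DivA

open Metric

theorem fst_mem {f : E → ℂ} {y : E × ℂ} (h : f ∈ (hsE E).O y.1) :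
    (fun p : E × ℂ => f p.1) ∈ (hsE (E × ℂ)).O y := by
  have h1 := (continuous_fst.tendsto y).eventually (mem_hsE.1 h)
  exact mem_hsE.2 (h1.mono fun p hp => hp.comp p differentiableAt_fst)

theorem snd_mem {f : ℂ → ℂ} (h : Differentiable ℂ f) (y : E × ℂ) :
    (fun p : E × ℂ => f p.2) ∈ (hsE (E × ℂ)).O y :=
  mem_hsE.2 (Eventually.of_forall fun p => (h p.2).comp p differentiableAt_snd)

theorem sum_mem' {X ι : Type} [TopologicalSpace X] [Fintype ι] {H : HS X} {f : ι → X → ℂ} {x : X}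
    (h : ∀ i, f i ∈ H.O x) : (fun p => ∑ i, f i p) ∈ H.O x := by
  have := sum_mem (S := H.O x) (t := Finset.univ) fun i _ => h i
  convert this using 1
  funext p
  simp

/-- Coefficients of the difference quotient of `w ^ k`. -/
def ek (k : ℕ) (ζ : ℂ) (j : ℕ) : ℂ := if j < k then ζ ^ (k - 1 - j) else 0

theorem differentiable_ek (k j : ℕ) : Differentiable ℂ fun ζ => ek k ζ j := by
  unfold ek
  split_ifs <;> fun_prop

theorem pow_sub_pow {μ k : ℕ} (hk : k ≤ μ) (ζ w : ℂ) :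
    ζ ^ k - w ^ k = (ζ - w) * ∑ j : Fin μ, ek k ζ j * w ^ (j : ℕ) := by
  have h1 : ∑ j : Fin μ, ek k ζ j * w ^ (j : ℕ) =
      ∑ j ∈ Finset.range k, w ^ j * ζ ^ (k - 1 - j) := by
    rw [Fin.sum_univ_eq_sum_range (fun j => ek k ζ j * w ^ j) μ,
      ← Finset.sum_subset (Finset.range_subset_range.2 hk)]
    · refine Finset.sum_congr rfl fun j hj => ?_
      rw [ek, if_pos (Finset.mem_range.1 hj), mul_comm]
    · intro j _ hj
      rw [ek, if_neg (by simpa using hj), zero_mul]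
  have h2 := geom_sum₂_mul w ζ k
  rw [h1]
  linear_combination h2

/-- Coefficients of the difference quotient of `pv c`. -/
def dv {μ : ℕ} (c : E → Fin μ → ℂ) (j : Fin μ) (p : E × ℂ) : ℂ := ∑ k, c p.1 k * ek k p.2 j

/-- Coefficients of the difference quotient of `mp a`. -/
def dm {μ : ℕ} (a : E → Fin μ → ℂ) (j : Fin μ) (p : E × ℂ) : ℂ := ek μ p.2 j + dv a j p

omit [NormedAddCommGroup E] [NormedSpace ℂ E] in
theorem pv_sub {μ : ℕ} (c : E → Fin μ → ℂ) (z : E) (ζ w : ℂ) :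
    pv c (z, ζ) - pv c (z, w) = (ζ - w) * ∑ j, dv c j (z, ζ) * w ^ (j : ℕ) := by
  simp only [pv, dv, ← Finset.sum_sub_distrib, ← mul_sub, Finset.sum_mul]
  rw [Finset.sum_comm, Finset.mul_sum]
  refine Finset.sum_congr rfl fun k _ => ?_
  rw [pow_sub_pow k.2.le, Finset.mul_sum, Finset.mul_sum, Finset.mul_sum]
  exact Finset.sum_congr rfl fun j _ => by ring

omit [NormedAddCommGroup E] [NormedSpace ℂ E] in
theorem mp_sub {μ : ℕ} (a : E → Fin μ → ℂ) (z : E) (ζ w : ℂ) :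
    mp a (z, ζ) - mp a (z, w) = (ζ - w) * ∑ j, dm a j (z, ζ) * w ^ (j : ℕ) := by
  have h1 := pv_sub a z ζ w
  have h2 := pow_sub_pow (le_refl μ) ζ w
  simp only [mp, dm, add_mul, Finset.sum_add_distrib]
  linear_combination h1 + h2

theorem dv_mem {μ : ℕ} {c : E → Fin μ → ℂ} {y : E × ℂ} (hc : (hsE E).HolV c y.1) (j : Fin μ) :
    dv c j ∈ (hsE (E × ℂ)).O y :=
  sum_mem' fun k => mul_mem (fst_mem (hc k)) (snd_mem (differentiable_ek k j) y)

theorem dm_mem {μ : ℕ} {a : E → Fin μ → ℂ} {y : E × ℂ} (ha : (hsE E).HolV a y.1) (j : Fin μ) :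
    dm a j ∈ (hsE (E × ℂ)).O y :=
  add_mem (snd_mem (differentiable_ek μ j) y) (dv_mem ha j)

omit [NormedAddCommGroup E] [NormedSpace ℂ E] in
theorem finite_zero {μ : ℕ} (a : E → Fin μ → ℂ) (z : E) : {w | mp a (z, w) = 0}.Finite := by
  have h := Polynomial.monic_X_pow_add (Polynomial.degree_sum_fin_lt (a z))
  refine (Polynomial.finite_setOfPred_isRoot h.ne_zero).subset fun w hw => ?_
  simpa [Polynomial.IsRoot, Polynomial.eval_finsetSum, mp, pv] using hw

/-- The normalised circle integral. -/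
def Lam (c : ℂ) (ε : ℝ) (f : ℂ → ℂ) : ℂ := (2 * Real.pi * Complex.I)⁻¹ * ∮ ζ in C(c, ε), f ζ

variable {c : ℂ} {ε : ℝ}

theorem Lam_congr (hε : 0 ≤ ε) {f g : ℂ → ℂ} (h : ∀ ζ ∈ sphere c ε, f ζ = g ζ) :
    Lam c ε f = Lam c ε g := by
  rw [Lam, Lam, circleIntegral.integral_congr hε h]

theorem Lam_mul (f : ℂ → ℂ) (t : ℂ) : Lam c ε f * t = Lam c ε fun ζ => f ζ * t := by
  simp only [Lam, mul_comm _ t, circleIntegral.integral_const_mul]
  ring

theorem Lam_add (hε : 0 ≤ ε) {f g : ℂ → ℂ} (hf : ContinuousOn f (sphere c ε))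
    (hg : ContinuousOn g (sphere c ε)) :
    Lam c ε f + Lam c ε g = Lam c ε fun ζ => f ζ + g ζ := by
  rw [Lam, Lam, Lam, ← mul_add,
    circleIntegral.integral_add (hf.circleIntegrable hε) (hg.circleIntegrable hε)]

theorem Lam_sum (hε : 0 ≤ ε) {ι : Type} [Fintype ι] {f : ι → ℂ → ℂ}
    (hf : ∀ i, ContinuousOn (f i) (sphere c ε)) :
    ∑ i, Lam c ε (f i) = Lam c ε fun ζ => ∑ i, f i ζ := by
  simp only [Lam]
  rw [← Finset.mul_sum, circleIntegral.integral_fun_sum fun i _ => (hf i).circleIntegrable hε]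

theorem Lam_zero (hε : 0 ≤ ε) {f : ℂ → ℂ} (hf : DifferentiableOn ℂ f (closedBall c ε)) :
    Lam c ε f = 0 := by
  rw [Lam, (hf.mono closure_ball_subset_closedBall).diffContOnCl.circleIntegral_eq_zero hε,
    mul_zero]

theorem Lam_cauchy {f : ℂ → ℂ} (hf : DifferentiableOn ℂ f (closedBall c ε)) {w : ℂ}
    (hw : w ∈ ball c ε) : (Lam c ε fun ζ => (ζ - w)⁻¹ * f ζ) = f w := by
  have h := hf.circleIntegral_sub_inv_smul hw
  simp only [smul_eq_mul] at h
  rw [Lam, h, ← mul_assoc, inv_mul_cancel₀ Complex.two_pi_I_ne_zero, one_mul]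

theorem div_one_var {μ : ℕ} {g P : ℂ → ℂ} {d : Fin μ → ℂ → ℂ} {w : ℂ} (hw : w ∈ ball c ε)
    (hg : DifferentiableOn ℂ g (closedBall c ε)) (hP : ContinuousOn P (sphere c ε))
    (hP0 : ∀ ζ ∈ sphere c ε, P ζ ≠ 0) (hd : ∀ j, ContinuousOn (d j) (sphere c ε))
    (h : ∀ ζ, P ζ - P w = (ζ - w) * ∑ j, d j ζ * w ^ (j : ℕ)) :
    g w = (Lam c ε fun ζ => g ζ / (P ζ * (ζ - w))) * P w +
      ∑ j, (Lam c ε fun ζ => g ζ * d j ζ / P ζ) * w ^ (j : ℕ) := by
  have hε : 0 ≤ ε := (pos_of_mem_ball hw).le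
  have hg' : ContinuousOn g (sphere c ε) := hg.continuousOn.mono sphere_subset_closedBall
  have hne : ∀ ζ ∈ sphere c ε, ζ - w ≠ 0 := fun ζ hζ h0 => by
    rw [sub_eq_zero.1 h0, mem_sphere] at hζ
    exact (mem_ball.1 hw).ne hζ
  have c1 : ∀ j, ContinuousOn (fun ζ => g ζ * d j ζ / P ζ * w ^ (j : ℕ)) (sphere c ε) :=
    fun j => ((hg'.mul (hd j)).div hP hP0).mul continuousOn_const
  simp only [Lam_mul]
  rw [Lam_sum hε c1, Lam_add hε _ (continuousOn_finsetSum _ fun j _ => c1 j), ← Lam_cauchy hg hw]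
  · refine Lam_congr hε fun ζ hζ => ?_
    have h1 := hne ζ hζ
    have h2 := hP0 ζ hζ
    have h3 : ∑ j, g ζ * d j ζ / P ζ * w ^ (j : ℕ) = g ζ / P ζ * ∑ j, d j ζ * w ^ (j : ℕ) := by
      rw [Finset.mul_sum]
      exact Finset.sum_congr rfl fun j _ => by ring
    rw [h3]
    field_simp
    linear_combination g ζ * h ζ
  · exact (hg'.div (hP.mul (continuousOn_id.sub continuousOn_const))
      fun ζ hζ => mul_ne_zero (hP0 ζ hζ) (hne ζ hζ)).mul continuousOn_const

theorem rel_one_var (hε : 0 ≤ ε) {μ : ℕ} {ι : Type} [Fintype ι] {g₀ P : ℂ → ℂ}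
    {g R : ι → ℂ → ℂ} {d : Fin μ → ℂ → ℂ} {e : ι → Fin μ → ℂ → ℂ} (w : ℂ)
    (hg₀ : DifferentiableOn ℂ g₀ (closedBall c ε))
    (hg : ∀ i, DifferentiableOn ℂ (g i) (closedBall c ε)) (hP : ContinuousOn P (sphere c ε))
    (hP0 : ∀ ζ ∈ sphere c ε, P ζ ≠ 0) (hd : ∀ j, DifferentiableOn ℂ (d j) (closedBall c ε))
    (he : ∀ i j, DifferentiableOn ℂ (e i j) (closedBall c ε))
    (h : ∀ ζ, P ζ - P w = (ζ - w) * ∑ j, d j ζ * w ^ (j : ℕ))
    (h' : ∀ i ζ, R i ζ - R i w = (ζ - w) * ∑ j, e i j ζ * w ^ (j : ℕ))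
    (hrel : ∀ ζ ∈ sphere c ε, g₀ ζ * P ζ + ∑ i, g i ζ * R i ζ = 0) :
    (∑ j, (Lam c ε fun ζ => -(∑ i, g i ζ * e i j ζ) / P ζ) * w ^ (j : ℕ)) * P w +
      ∑ i, (∑ j, (Lam c ε fun ζ => g i ζ * d j ζ / P ζ) * w ^ (j : ℕ)) * R i w = 0 := by
  have co : ∀ {f : ℂ → ℂ}, DifferentiableOn ℂ f (closedBall c ε) → ContinuousOn f (sphere c ε) :=
    fun hf => hf.continuousOn.mono sphere_subset_closedBall
  have c1 : ∀ j, ContinuousOn (fun ζ => -(∑ i, g i ζ * e i j ζ) / P ζ * w ^ (j : ℕ))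
      (sphere c ε) := fun j =>
    ((continuousOn_finsetSum _ fun i _ => (co (hg i)).mul (co (he i j))).neg.div hP hP0).mul
      continuousOn_const
  have c2 : ∀ i j, ContinuousOn (fun ζ => g i ζ * d j ζ / P ζ * w ^ (j : ℕ)) (sphere c ε) :=
    fun i j => (((co (hg i)).mul (co (hd j))).div hP hP0).mul continuousOn_const
  have c3 : ∀ i, ContinuousOn (fun ζ => (∑ j, g i ζ * d j ζ / P ζ * w ^ (j : ℕ)) * R i w)
      (sphere c ε) := fun i =>
    (continuousOn_finsetSum _ fun j _ => c2 i j).mul continuousOn_const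
  have c4 : ContinuousOn (fun ζ => (∑ j, -(∑ i, g i ζ * e i j ζ) / P ζ * w ^ (j : ℕ)) * P w)
      (sphere c ε) := (continuousOn_finsetSum _ fun j _ => c1 j).mul continuousOn_const
  simp only [Lam_mul]
  rw [Lam_sum hε c1]
  simp only [fun i => Lam_sum hε (c2 i), Lam_mul]
  rw [Lam_sum hε c3, Lam_add hε c4 (continuousOn_finsetSum _ fun i _ => c3 i),
    ← Lam_zero hε (c := c) (f := fun ζ => -(g₀ ζ * ∑ j, d j ζ * w ^ (j : ℕ)) -
      ∑ i, g i ζ * ∑ j, e i j ζ * w ^ (j : ℕ))]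
  · refine Lam_congr hε fun ζ hζ => ?_
    have h2 := hP0 ζ hζ
    have h3 : ∀ i, ∑ j, g i ζ * d j ζ / P ζ * w ^ (j : ℕ) =
        g i ζ / P ζ * ∑ j, d j ζ * w ^ (j : ℕ) := fun i => by
      rw [Finset.mul_sum]
      exact Finset.sum_congr rfl fun j _ => by ring
    have h4 : ∑ j, -(∑ i, g i ζ * e i j ζ) / P ζ * w ^ (j : ℕ) =
        -(∑ i, g i ζ * ∑ j, e i j ζ * w ^ (j : ℕ)) / P ζ := by
      simp only [Finset.mul_sum]
      rw [Finset.sum_comm, neg_div, Finset.sum_div, ← Finset.sum_neg_distrib]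
      refine Finset.sum_congr rfl fun j _ => ?_
      rw [neg_div, neg_mul, Finset.sum_div, Finset.sum_div, Finset.sum_mul]
      congr 1
      exact Finset.sum_congr rfl fun i _ => by ring
    have h5 : ∑ i, g i ζ / P ζ * (∑ j, d j ζ * w ^ (j : ℕ)) * R i w =
        (∑ j, d j ζ * w ^ (j : ℕ)) / P ζ * (∑ i, g i ζ * R i ζ -
          (ζ - w) * ∑ i, g i ζ * ∑ j, e i j ζ * w ^ (j : ℕ)) := by
      rw [Finset.mul_sum _ _ (ζ - w), ← Finset.sum_sub_distrib, Finset.mul_sum]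
      refine Finset.sum_congr rfl fun i _ => ?_
      have := h' i ζ
      linear_combination -(g i ζ / P ζ * ∑ j, d j ζ * w ^ (j : ℕ)) * this
    simp only [h3]
    rw [h4, h5]
    have h6 := h ζ
    have h7 := hrel ζ hζ
    generalize (∑ j, d j ζ * w ^ (j : ℕ)) = D at *
    generalize (∑ i, g i ζ * ∑ j, e i j ζ * w ^ (j : ℕ)) = S at *
    generalize (∑ i, g i ζ * R i ζ) = T at *
    field_simp
    linear_combination S * h6 + D * h7
  · refine (hg₀.mul (DifferentiableOn.fun_sum fun j _ => (hd j).mul_const _)).neg.sub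
      (DifferentiableOn.fun_sum fun i _ => (hg i).mul
        (DifferentiableOn.fun_sum fun j _ => (he i j).mul_const _))

theorem lam_mem (hε : 0 ≤ ε) {V : Set (E × ℂ)} (hV : IsOpen V) {f : E × ℂ → ℂ}
    (hf : ∀ p ∈ V, DifferentiableAt ℂ f p) {U : Set E} (hU : IsOpen U)
    (hUV : ∀ z ∈ U, ∀ ζ ∈ sphere c ε, (z, ζ) ∈ V) {x : E} (hx : x ∈ U) :
    (fun z => Lam c ε fun ζ => f (z, ζ)) ∈ (hsE E).O x := by
  have h := differentiableOn_circleIntegral hU hV (f := f)
    (fun p hp => (hf p hp).differentiableWithinAt) (c := c) hε fun p hp => hUV p.1 hp.1 p.2 hp.2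
  filter_upwards [hU.mem_nhds hx] with z hz
  exact (h.differentiableAt (hU.mem_nhds hz)).const_mul _

end DivA

open DivA Metric

theorem pv_mem {μ : ℕ} {c : E → Fin μ → ℂ} {y : E × ℂ} (hc : (hsE E).HolV c y.1) :
    pv c ∈ (hsE (E × ℂ)).O y :=
  sum_mem' fun j => mul_mem (fst_mem (hc j)) (snd_mem (differentiable_pow (j : ℕ)) y)

theorem mp_mem {μ : ℕ} {a : E → Fin μ → ℂ} {y : E × ℂ} (ha : (hsE E).HolV a y.1) :
    mp a ∈ (hsE (E × ℂ)).O y :=
  add_mem (snd_mem (differentiable_pow μ) y) (pv_mem ha)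

namespace DivA

theorem setup {μ : ℕ} {a : E → Fin μ → ℂ} {y : E × ℂ} (ha : (hsE E).HolV a y.1)
    {Q : E × ℂ → Prop} (hQ : ∀ᶠ p in 𝓝 y, Q p) :
    ∃ ε > 0, ∃ U : Set E, IsOpen U ∧ y.1 ∈ U ∧ (∀ z ∈ U, ∀ ζ ∈ closedBall y.2 ε, Q (z, ζ)) ∧
      ∀ z ∈ U, ∀ ζ ∈ sphere y.2 ε, mp a (z, ζ) ≠ 0 := by
  obtain ⟨δ, hδ, hb⟩ := Metric.eventually_nhds_iff_ball.1 hQ
  obtain ⟨ε, hε, hε'⟩ := (Set.Ioo_infinite hδ).exists_notMem_finite
    ((finite_zero a y.1).image fun ζ => dist ζ y.2)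
  have h1 : ∀ᶠ z in 𝓝 y.1, ∀ ζ ∈ sphere y.2 ε, mp a (z, ζ) ≠ 0 := by
    refine (isCompact_sphere y.2 ε).eventually_forall_of_forall_eventually
      (P := fun z ζ => mp a (z, ζ) ≠ 0) fun ζ hζ => ?_
    have h2 : ContinuousAt (mp a) (y.1, ζ) := (hsE (E × ℂ)).cont (mp_mem (y := (y.1, ζ)) ha)
    exact h2.eventually_ne fun h0 => hε' ⟨ζ, h0, hζ⟩
  obtain ⟨U, hU1, hU2, hU3⟩ := _root_.eventually_nhds_iff.1 (h1.and (ball_mem_nhds y.1 hδ))
  refine ⟨ε, hε.1, U, hU2, hU3, fun z hz ζ hζ => hb _ ?_, fun z hz => (hU1 z hz).1⟩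
  rw [← ball_prod_same]
  exact ⟨(hU1 z hz).2, closedBall_subset_ball hε.2 hζ⟩

theorem diffAt {f : E × ℂ → ℂ} {p : E × ℂ} (h : f ∈ (hsE (E × ℂ)).O p) :
    DifferentiableAt ℂ f p := (mem_hsE.1 h).self_of_nhds

theorem ddiv {f g : E → ℂ} {p : E} (hf : DifferentiableAt ℂ f p) (hg : DifferentiableAt ℂ g p)
    (h : g p ≠ 0) : DifferentiableAt ℂ (fun x => f x / g x) p := by
  simpa only [div_eq_mul_inv] using hf.fun_mul (hg.fun_inv h)

theorem slice {f : E × ℂ → ℂ} {z : E} {S : Set ℂ} (h : ∀ ζ ∈ S, f ∈ (hsE (E × ℂ)).O (z, ζ)) :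
    DifferentiableOn ℂ (fun ζ => f (z, ζ)) S := fun ζ hζ =>
  ((diffAt (h ζ hζ)).comp ζ (f := fun ζ => (z, ζ)) (by fun_prop)).differentiableWithinAt

omit [NormedSpace ℂ E] in
theorem cancel_mp {μ : ℕ} (a : E → Fin μ → ℂ) {h : E × ℂ → ℂ} {p : E × ℂ}
    (hc : ContinuousAt h p) (h0 : ∀ᶠ p' in 𝓝 p, h p' * mp a p' = 0) : h p = 0 := by
  have h1 : Tendsto (fun w : ℂ => (p.1, w)) (𝓝[≠] p.2) (𝓝 p) :=
    (Continuous.tendsto (f := fun w : ℂ => (p.1, w)) (by fun_prop) p.2).mono_left nhdsWithin_le_nhds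
  have h2 : ∀ᶠ w in 𝓝[≠] p.2, mp a (p.1, w) ≠ 0 := by
    have h3 := ((finite_zero a p.1).subset (sdiff_subset (t := {p.2}))).isClosed.isOpen_compl
    filter_upwards [nhdsWithin_le_nhds (h3.mem_nhds (x := p.2) (by simp)), self_mem_nhdsWithin]
      with w hw hw' h4
    exact hw ⟨h4, hw'⟩
  refine tendsto_nhds_unique (hc.tendsto.comp h1) (tendsto_const_nhds.congr' ?_)
  filter_upwards [h1.eventually h0, h2] with w h3 h4
  exact ((mul_eq_zero.1 h3).resolve_right h4).symm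

end DivA

theorem div_rel {μ : ℕ} {ι : Type} [Fintype ι] {a : E → Fin μ → ℂ} {b : ι → E → Fin μ → ℂ}
    {y : E × ℂ} (ha : (hsE E).HolV a y.1) (hb : ∀ i, (hsE E).HolV (b i) y.1)
    {g₀ : E × ℂ → ℂ} {g : ι → E × ℂ → ℂ} (hg₀ : g₀ ∈ (hsE (E × ℂ)).O y)
    (hg : ∀ i, g i ∈ (hsE (E × ℂ)).O y)
    (hrel : ∀ᶠ p in 𝓝 y, g₀ p * mp a p + ∑ i, g i p * pv (b i) p = 0) :
    ∃ (q : ι → E × ℂ → ℂ) (r : ι → E → Fin μ → ℂ) (α : E → Fin μ → ℂ),
      (∀ i, q i ∈ (hsE (E × ℂ)).O y) ∧ (∀ i, (hsE E).HolV (r i) y.1) ∧ (hsE E).HolV α y.1 ∧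
      (∀ᶠ p in 𝓝 y, ∀ i, g i p = q i p * mp a p + pv (r i) p) ∧
      (∀ᶠ z in 𝓝 y.1, ∀ w : ℂ,
        pv α (z, w) * mp a (z, w) + ∑ i, pv (r i) (z, w) * pv (b i) (z, w) = 0) ∧
      ∀ᶠ p in 𝓝 y, g₀ p = pv α p - ∑ i, q i p * pv (b i) p := by
  set V₀ : Set (E × ℂ) := {p | g₀ ∈ (hsE (E × ℂ)).O p ∧ (∀ i, g i ∈ (hsE (E × ℂ)).O p) ∧
    (hsE E).HolV a p.1 ∧ ∀ i, (hsE E).HolV (b i) p.1} with hV₀
  have hV₀n : ∀ p ∈ V₀, ∀ᶠ p' in 𝓝 p, p' ∈ V₀ := fun p hp =>
    ((hsE _).nhds hp.1).and ((eventually_all.2 fun i => (hsE _).nhds (hp.2.1 i)).and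
      (((continuous_fst.tendsto p).eventually hp.2.2.1.nhds).and
        (eventually_all.2 fun i => (continuous_fst.tendsto p).eventually (hp.2.2.2 i).nhds)))
  set V : Set (E × ℂ) := {p | p ∈ V₀ ∧ mp a p ≠ 0} with hV
  have hVo : IsOpen V := isOpen_iff_mem_nhds.2 fun p hp =>
    (hV₀n p hp.1).and (((hsE (E × ℂ)).cont (mp_mem hp.1.2.2.1)).eventually_ne hp.2)
  obtain ⟨ε, hε, U, hU, hyU, hQ, hP⟩ := setup ha ((hV₀n y ⟨hg₀, hg, ha, hb⟩).and hrel)
  have hUV : ∀ z ∈ U, ∀ ζ ∈ sphere y.2 ε, (z, ζ) ∈ V := fun z hz ζ hζ =>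
    ⟨(hQ z hz ζ (sphere_subset_closedBall hζ)).1, hP z hz ζ hζ⟩
  have hnb : U ×ˢ ball y.2 ε ∈ 𝓝 y := (hU.prod isOpen_ball).mem_nhds ⟨hyU, mem_ball_self hε⟩
  set q : ι → E × ℂ → ℂ := fun i p =>
    Lam y.2 ε fun ζ => g i (p.1, ζ) / (mp a (p.1, ζ) * (ζ - p.2)) with hq
  set r : ι → E → Fin μ → ℂ := fun i z j =>
    Lam y.2 ε fun ζ => g i (z, ζ) * dm a j (z, ζ) / mp a (z, ζ) with hr
  set α : E → Fin μ → ℂ := fun z j =>
    Lam y.2 ε fun ζ => -(∑ i, g i (z, ζ) * dv (b i) j (z, ζ)) / mp a (z, ζ) with hα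
  have h1 : ∀ i, q i ∈ (hsE (E × ℂ)).O y := by
    intro i
    have c1 : Continuous fun p : (E × ℂ) × ℂ => (p.1.1, p.2) := by fun_prop
    refine lam_mem hε.le (V := {p : (E × ℂ) × ℂ | (p.1.1, p.2) ∈ V ∧ p.2 - p.1.2 ≠ 0})
      ((hVo.preimage c1).inter (isOpen_ne_fun (by fun_prop) continuous_const))
      (f := fun p => g i (p.1.1, p.2) / (mp a (p.1.1, p.2) * (p.2 - p.1.2))) ?_
      (hU.prod isOpen_ball) ?_ ⟨hyU, mem_ball_self hε⟩
    · intro p hp
      have d1 : DifferentiableAt ℂ (fun p : (E × ℂ) × ℂ => (p.1.1, p.2)) p := by fun_prop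
      have d2 : DifferentiableAt ℂ (fun p : (E × ℂ) × ℂ => p.2 - p.1.2) p := by fun_prop
      exact ddiv ((diffAt (hp.1.1.2.1 i)).comp p d1)
        (((diffAt (mp_mem hp.1.1.2.2.1)).comp p d1).fun_mul d2) (mul_ne_zero hp.1.2 hp.2)
    · intro z hz ζ hζ
      refine ⟨hUV z.1 hz.1 ζ hζ, fun h0 => ?_⟩
      have h2 : ζ = z.2 := sub_eq_zero.1 h0
      rw [h2, mem_sphere] at hζ
      exact (mem_ball.1 hz.2).ne hζ
  have h2 : ∀ i, (hsE E).HolV (r i) y.1 := fun i j =>
    lam_mem hε.le hVo (f := fun p => g i p * dm a j p / mp a p) (fun p hp =>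
      ddiv ((diffAt (hp.1.2.1 i)).fun_mul (diffAt (dm_mem hp.1.2.2.1 j)))
        (diffAt (mp_mem hp.1.2.2.1)) hp.2) hU hUV hyU
  have h3 : (hsE E).HolV α y.1 := fun j =>
    lam_mem hε.le hVo (f := fun p => -(∑ i, g i p * dv (b i) j p) / mp a p) (fun p hp =>
      ddiv (DifferentiableAt.fun_sum fun i _ =>
        (diffAt (hp.1.2.1 i)).fun_mul (diffAt (dv_mem (hp.1.2.2.2 i) j))).fun_neg
        (diffAt (mp_mem hp.1.2.2.1)) hp.2) hU hUV hyU
  have hPc : ∀ z ∈ U, ContinuousOn (fun ζ => mp a (z, ζ)) (sphere y.2 ε) := fun z hz =>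
    (slice fun ζ hζ => mp_mem (hUV z hz ζ hζ).1.2.2.1).continuousOn
  have h4 : ∀ᶠ p in 𝓝 y, ∀ i, g i p = q i p * mp a p + pv (r i) p := by
    filter_upwards [hnb] with p hp i
    exact div_one_var (g := fun ζ => g i (p.1, ζ)) (P := fun ζ => mp a (p.1, ζ))
      (d := fun j ζ => dm a j (p.1, ζ)) hp.2 (slice fun ζ hζ => (hQ p.1 hp.1 ζ hζ).1.2.1 i)
      (hPc p.1 hp.1) (hP p.1 hp.1)
      (fun j => (slice fun ζ hζ => dm_mem (hUV p.1 hp.1 ζ hζ).1.2.2.1 j).continuousOn)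
      fun ζ => mp_sub a p.1 ζ p.2
  have h5 : ∀ᶠ z in 𝓝 y.1, ∀ w : ℂ,
      pv α (z, w) * mp a (z, w) + ∑ i, pv (r i) (z, w) * pv (b i) (z, w) = 0 := by
    filter_upwards [hU.mem_nhds hyU] with z hz w
    exact rel_one_var hε.le (g₀ := fun ζ => g₀ (z, ζ)) (g := fun i ζ => g i (z, ζ))
      (P := fun ζ => mp a (z, ζ)) (R := fun i ζ => pv (b i) (z, ζ))
      (d := fun j ζ => dm a j (z, ζ)) (e := fun i j ζ => dv (b i) j (z, ζ)) w
      (slice fun ζ hζ => (hQ z hz ζ hζ).1.1) (fun i => slice fun ζ hζ => (hQ z hz ζ hζ).1.2.1 i)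
      (hPc z hz) (hP z hz) (fun j => slice fun ζ hζ => dm_mem (hQ z hz ζ hζ).1.2.2.1 j)
      (fun i j => slice fun ζ hζ => dv_mem ((hQ z hz ζ hζ).1.2.2.2 i) j)
      (fun ζ => mp_sub a z ζ w) (fun i ζ => pv_sub (b i) z ζ w)
      fun ζ hζ => (hQ z hz ζ (sphere_subset_closedBall hζ)).2
  refine ⟨q, r, α, h1, h2, h3, h4, h5, ?_⟩
  have h6 : (fun p => g₀ p - (pv α p - ∑ i, q i p * pv (b i) p)) ∈ (hsE (E × ℂ)).O y :=
    sub_mem hg₀ (sub_mem (pv_mem h3) (sum_mem' fun i => mul_mem (h1 i) (pv_mem (hb i))))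
  have h7 : ∀ᶠ p in 𝓝 y, (g₀ p - (pv α p - ∑ i, q i p * pv (b i) p)) * mp a p = 0 := by
    filter_upwards [hrel, h4, (continuous_fst.tendsto y).eventually h5] with p e1 e2 e3
    have e4 := e3 p.2
    have e5 : ∑ i, g i p * pv (b i) p =
        (∑ i, q i p * pv (b i) p) * mp a p + ∑ i, pv (r i) p * pv (b i) p := by
      rw [Finset.sum_mul, ← Finset.sum_add_distrib]
      exact Finset.sum_congr rfl fun i _ => by rw [e2 i]; ring
    simp only [Prod.mk.eta] at e4
    linear_combination e1 - e4 - e5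
  filter_upwards [(hsE _).nhds h6, h7.eventually_nhds] with p e1 e2
  exact sub_eq_zero.1 (cancel_mp a ((hsE _).cont e1) e2)

theorem div_simple {μ : ℕ} {a : E → Fin μ → ℂ} {y : E × ℂ} (ha : (hsE E).HolV a y.1)
    {g : E × ℂ → ℂ} (hg : g ∈ (hsE (E × ℂ)).O y) :
    ∃ (q : E × ℂ → ℂ) (r : E → Fin μ → ℂ), q ∈ (hsE (E × ℂ)).O y ∧ (hsE E).HolV r y.1 ∧
      ∀ᶠ p in 𝓝 y, g p = q p * mp a p + pv r p := by
  obtain ⟨q, r, _, h1, h2, _, h4, _⟩ := div_rel (ι := Unit) (b := fun _ _ _ => 0) (g₀ := 0)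
    (g := fun _ => g) ha (fun _ _ => zero_mem _) (zero_mem _) (fun _ => hg)
    (Eventually.of_forall fun p => by simp [pv])
  exact ⟨q (), r (), h1 (), h2 (), h4.mono fun p hp => hp ()⟩

end Pool.Agent.QMax
end
end
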