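import Pool.Agent.Lib.MP_ec9812_ag.Div

-- part Pool.Agent.Lib.MP_ec9812_ag.Leray
section

/-! Comparison of the canonical resolution with Cech cochains. -/

open Set Filter Topology

noncomputable section

namespace Pool.Agent.QMax.Leray

open FSh

variable {X ι : Type} [TopologicalSpace X] {G : FSh X}

theorem dl_at {c c' : List ι → G.T} {J : List ι} {x : X}
    (h : ∀ K : List ι, K.Sublist J → K.length + 1 = J.length → c K x = c' K x) :
    dl c J x = dl c' J x := dl_congr (Pi.evalAddMonoidHom G.E x) h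

theorem d_dl (t : List ι → G.T) (J : List ι) : G.d (dl t J) = dl (fun K => G.d (t K)) J :=
  map_dl G.d.toAddMonoidHom t J

theorem d_on {W : Set X} (hW : IsOpen W) {t u : G.T} (h : ∀ y ∈ W, t y = u y) {x : X}
    (hx : x ∈ W) : G.d t x = G.d u x := d_congr (mem_of_superset (hW.mem_nhds hx) h)

/-- Cochains of total functions are acyclic. -/
theorem contract (U : ι → Set X) {n : ℕ} {z : List ι → G.T}
    (h : ∀ J : List ι, J.length = n + 2 → ∀ x ∈ capL U J, dl z J x = 0) :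
    ∃ t : List ι → G.T, ∀ J : List ι, J.length = n + 1 → ∀ x ∈ capL U J, z J x = dl t J x := by
  classical
  refine ⟨fun J x => if hx : ∃ i, x ∈ U i then z (hx.choose :: J) x else 0, fun J hJ x hx => ?_⟩
  have hex : ∃ i, x ∈ U i := by
    cases J with
    | nil => simp at hJ
    | cons i J => exact ⟨i, (mem_capL_cons.1 hx).1⟩
  have h1 := h (hex.choose :: J) (by simp [hJ]) x (mem_capL_cons.2 ⟨hex.choose_spec, hx⟩)
  rw [dl_cons, Pi.sub_apply, sub_eq_zero] at h1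
  rw [h1]
  exact dl_at fun K _ _ => by simp [hex]

variable (G) in
/-- Strong triviality of a cochain of `G.next`. -/
def TrivD (U : ι → Set X) (m : ℕ) (c : List ι → G.next.T) : Prop :=
  ∃ u : List ι → G.T, ∀ J : List ι, J.length = m + 1 → ∀ x ∈ capL U J, c J x = G.d (dl u J) x

theorem up {U : ι → Set X} (hU : ∀ i, IsOpen (U i)) {m : ℕ} {z : List ι → G.T}
    (hz : G.Cocy U (m + 2) z) : ∃ t : List ι → G.T,
      (∀ J : List ι, J.length = m + 2 → ∀ x ∈ capL U J, z J x = dl t J x) ∧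
      G.next.Cocy U (m + 1) fun K => G.d (t K) := by
  obtain ⟨t, ht⟩ := contract U (n := m + 1) hz.2
  refine ⟨t, ht, fun J _ => d_isSec _ _, fun J hJ x hx => ?_⟩
  rw [← d_dl, d_eq_zero]
  exact (hz.1 J hJ).congr (isOpen_capL hU J) (ht J hJ) x hx

theorem lift {K V : ι → Set X} (hKV : ∀ i, K i ⊆ V i)
    (hv : ∀ J : List ι, J ≠ [] → G.Van (capL K J)) {m : ℕ} {b : List ι → G.next.T}
    (hb : G.next.Coch V (m + 1) b) : ∃ t : List ι → G.T,
      ∀ J : List ι, J.length = m + 1 → ∀ x ∈ capL K J, b J x = G.d (t J) x := by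
  have : ∀ J : List ι, ∃ t : G.T, J.length = m + 1 → ∀ x ∈ capL K J, b J x = G.d t x := by
    intro J
    by_cases hJ : J.length = m + 1
    · obtain ⟨t, ht⟩ := hv J (by rintro rfl; simp at hJ) (b J) ((hb J hJ).mono (capL_mono hKV J))
      exact ⟨t, fun _ => ht⟩
    · exact ⟨0, fun h => absurd h hJ⟩
  choose t ht using this
  exact ⟨t, ht⟩

theorem dl_lift {U : ι → Set X} {m : ℕ} {b : List ι → G.next.T} {t : List ι → G.T}
    (ht : ∀ J : List ι, J.length = m → ∀ x ∈ capL U J, b J x = G.d (t J) x) {J : List ι}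
    (hJ : J.length = m + 1) {x : X} (hx : x ∈ capL U J) : dl b J x = G.d (dl t J) x := by
  rw [d_dl]
  exact dl_at fun K hK hl => ht K (by omega) x (capL_sublist U hK hx)

theorem down {U K V : ι → Set X} (hUK : ∀ i, U i ⊆ K i) (hKV : ∀ i, K i ⊆ V i)
    (hv : ∀ J : List ι, J ≠ [] → G.Van (capL K J)) {m : ℕ} {z : List ι → G.next.T}
    (hz : G.next.Cocy V (m + 1) z) : ∃ t : List ι → G.T,
      (∀ J : List ι, J.length = m + 1 → ∀ x ∈ capL U J, z J x = G.d (t J) x) ∧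
      G.Cocy U (m + 2) (dl t) := by
  obtain ⟨t, ht⟩ := lift hKV hv hz.1
  have ht' : ∀ J : List ι, J.length = m + 1 → ∀ x ∈ capL U J, z J x = G.d (t J) x :=
    fun J hJ x hx => ht J hJ x (capL_mono hUK J hx)
  refine ⟨t, ht', fun J hJ x hx => ?_, fun J _ x _ => by rw [dl_dl]; rfl⟩
  rw [← d_eq_zero, ← dl_lift ht' hJ hx]
  exact hz.2 J hJ x (capL_mono (fun i => (hUK i).trans (hKV i)) J hx)

theorem trivD_of_cob {U : ι → Set X} (hU : ∀ i, IsOpen (U i)) {m : ℕ} {z t : List ι → G.T}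
    {z' : List ι → G.next.T}
    (h1 : ∀ J : List ι, J.length = m + 2 → ∀ x ∈ capL U J, z J x = dl t J x)
    (h2 : ∀ J : List ι, J.length = m + 1 → ∀ x ∈ capL U J, z' J x = G.d (t J) x)
    (h : G.Cob U (m + 1) z) : TrivD G U m z' := by
  obtain ⟨b, hb, hb'⟩ := h
  obtain ⟨u, hu⟩ := contract U (n := m) (z := t - b) fun J hJ x hx => by
    rw [dl_sub, Pi.sub_apply, Pi.sub_apply, ← h1 J hJ x hx, hb' J hJ x hx, sub_self]
  refine ⟨u, fun J hJ x hx => ?_⟩
  rw [h2 J hJ x hx, ← d_on (isOpen_capL hU J) (hu J hJ) hx, d_eq_iff]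
  simpa using hb J hJ x hx

theorem cob_of_trivD {U : ι → Set X} {m : ℕ} {z t : List ι → G.T} {z' : List ι → G.next.T}
    (h1 : ∀ J : List ι, J.length = m + 2 → ∀ x ∈ capL U J, z J x = dl t J x)
    (h2 : ∀ J : List ι, J.length = m + 1 → ∀ x ∈ capL U J, z' J x = G.d (t J) x)
    (h : TrivD G U m z') : G.Cob U (m + 1) z := by
  obtain ⟨u, hu⟩ := h
  refine ⟨t - dl u, fun J hJ x hx => ?_, fun J hJ x hx => ?_⟩
  · exact d_eq_iff.1 ((h2 J hJ x hx).symm.trans (hu J hJ x hx))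
  · rw [dl_sub, dl_dl, sub_zero, h1 J hJ x hx]

theorem cocy_const (U : ι → Set X) {a : G.T} (ha : G.IsSec univ a) :
    G.Cocy U 1 fun _ => a := by
  refine ⟨fun J _ => ha.mono (subset_univ _), fun J hJ x _ => ?_⟩
  match J, hJ with
  | [i, k], _ => simp [dl_cons]

theorem glue {U : ι → Set X} (hU : ∀ i, IsOpen (U i)) {z : List ι → G.T} (hz : G.Cocy U 1 z) :
    ∃ a : G.T, G.IsSec (⋃ i, U i) a ∧ ∀ i, ∀ x ∈ U i, z [i] x = a x := by
  obtain ⟨t, ht⟩ := contract U (n := 0) hz.2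
  have h : ∀ i, ∀ x ∈ capL U [i], z [i] x = t [] x := fun i x hx => by
    simpa using ht [i] rfl x hx
  have hc : ∀ i x, x ∈ U i → x ∈ capL U [i] := fun i x hx => by simpa [capL] using hx
  refine ⟨t [], fun x hx => ?_, fun i x hx => h i x (hc i x hx)⟩
  obtain ⟨i, hi⟩ := mem_iUnion.1 hx
  exact (hz.1 [i] rfl).congr (isOpen_capL hU _) (h i) x (hc i x hi)

variable (G) in
/-- Surjectivity up to strongly trivial cochains. -/
def SurD (m : ℕ) (U₀ U₁ U₂ : ι → Set X) : Prop :=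
  ∀ z, G.next.Cocy U₁ (m + 1) z → ∃ z', G.next.Cocy U₂ (m + 1) z' ∧ TrivD G U₀ m (z - z')

theorem csur_of_surD {U₀ U₁ U₂ K V : ι → Set X} (hU₁ : ∀ i, IsOpen (U₁ i))
    (h01 : ∀ i, U₀ i ⊆ U₁ i) (h02 : ∀ i, U₀ i ⊆ U₂ i) (hUK : ∀ i, U₂ i ⊆ K i)
    (hKV : ∀ i, K i ⊆ V i) (hv : ∀ J : List ι, J ≠ [] → G.Van (capL K J)) {m : ℕ}
    (h : SurD G m U₀ U₁ V) : G.CSur (m + 1) U₀ U₁ U₂ := by
  intro z hz
  obtain ⟨t, ht, hc⟩ := up hU₁ hz
  obtain ⟨z₂, hz₂, htr⟩ := h _ hc
  obtain ⟨t₂, ht₂, hc₂⟩ := down hUK hKV hv hz₂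
  refine ⟨dl t₂, hc₂, cob_of_trivD (t := t - t₂) (fun J hJ x hx => ?_) (fun J hJ x hx => ?_) htr⟩
  · rw [dl_sub]
    simp only [Pi.sub_apply]
    rw [ht J hJ x (capL_mono h01 J hx)]
  · simp only [Pi.sub_apply, map_sub]
    rw [ht₂ J hJ x (capL_mono h02 J hx)]

theorem surD_of_csur {U₀ U₁ U₂ K V : ι → Set X} (hUK : ∀ i, U₀ i ⊆ K i)
    (hKV : ∀ i, K i ⊆ V i) (hv : ∀ J : List ι, J ≠ [] → G.Van (capL K J)) {m : ℕ}
    (h : G.next.CSur (m + 1) V U₁ U₂) : SurD G (m + 1) U₀ U₁ U₂ := by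
  intro z hz
  obtain ⟨z₂, hz₂, b, hb, hb'⟩ := h z hz
  obtain ⟨u, hu⟩ := lift hKV hv hb
  refine ⟨z₂, hz₂, u, fun J hJ x hx => ?_⟩
  rw [hb' J hJ x (capL_mono (fun i => (hUK i).trans (hKV i)) J hx)]
  exact dl_lift (U := U₀) (fun J hJ x hx => hu J hJ x (capL_mono hUK J hx)) hJ hx

theorem surD_zero {U₀ U₁ U₂ : ι → Set X} (hU₁ : ∀ i, IsOpen (U₁ i)) (h01 : ∀ i, U₀ i ⊆ U₁ i)
    {D : Set X} (hD₀ : ∀ i, U₀ i ⊆ D) (hD₁ : D ⊆ ⋃ i, U₁ i) (hs : G.RSur D univ) :
    SurD G 0 U₀ U₁ U₂ := by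
  intro z hz
  obtain ⟨a, ha, ha'⟩ := glue hU₁ hz
  obtain ⟨a', h1, t, ht⟩ := hs a (ha.mono hD₁)
  refine ⟨fun _ => a', cocy_const _ h1, fun _ => t, fun J hJ x hx => ?_⟩
  match J, hJ with
  | [i], _ =>
    have hi : x ∈ U₀ i := by simpa [capL] using hx
    rw [dl_singleton, ← ht x (hD₀ i hi)]
    simp only [Pi.sub_apply]
    rw [ha' i x (h01 i hi)]

variable (G) in
/-- Finiteness up to strongly trivial cochains. -/
def CFinD (m : ℕ) (U₀ U₁ : ι → Set X) : Prop :=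
  ∃ (N : ℕ) (z : Fin N → List ι → G.next.T), (∀ i, G.next.Cocy U₀ (m + 1) (z i)) ∧
    ∀ w, G.next.Cocy U₁ (m + 1) w → ∃ c : Fin N → ℂ, TrivD G U₀ m (w - ∑ i, c i • z i)

theorem cfinD_of_cfin {U₀ U₁ K V : ι → Set X} (hU₀ : ∀ i, IsOpen (U₀ i))
    (h01 : ∀ i, U₀ i ⊆ U₁ i) (hUK : ∀ i, U₁ i ⊆ K i) (hKV : ∀ i, K i ⊆ V i)
    (hv : ∀ J : List ι, J ≠ [] → G.Van (capL K J)) {m : ℕ} (h : G.CFin (m + 1) U₀ U₁) :
    CFinD G m U₀ V := by
  obtain ⟨N, z, hz, h⟩ := h
  choose t ht hc using fun i => up hU₀ (hz i)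
  refine ⟨N, _, hc, fun w hw => ?_⟩
  obtain ⟨s, hs, hs'⟩ := down hUK hKV hv hw
  obtain ⟨c, hcob⟩ := h _ hs'
  refine ⟨c, trivD_of_cob hU₀ (t := s - ∑ i, c i • t i) (fun J hJ x hx => ?_)
    (fun J hJ x hx => ?_) hcob⟩
  · rw [dl_sub, dl_sum]
    simp only [Pi.sub_apply, Finset.sum_apply, dl_smul, Pi.smul_apply, ht _ J hJ x hx]
  · simp only [Pi.sub_apply, Finset.sum_apply, Pi.smul_apply, map_sub, map_sum, map_smul]
    rw [hs J hJ x (capL_mono h01 J hx)]

theorem cfin_of_cfinD {U₀ U₁ : ι → Set X} {m : ℕ} (h : CFinD G m U₀ U₁) :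
    G.next.CFin m U₀ U₁ := by
  obtain ⟨N, z, hz, h⟩ := h
  refine ⟨N, z, hz, fun w hw => ?_⟩
  obtain ⟨c, u, hu⟩ := h w hw
  exact ⟨c, fun K => G.d (u K), fun J _ => d_isSec _ _, fun J hJ x hx => by
    rw [hu J hJ x hx, d_dl]⟩

theorem fd_of_cfinD {U₀ U₁ : ι → Set X} (hU₀ : ∀ i, IsOpen (U₀ i)) {D : Set X}
    (hD : D ⊆ ⋃ i, U₀ i) (hi : G.RInj D univ) (h : CFinD G 0 U₀ U₁) : G.FD univ := by
  obtain ⟨N, z, hz, h⟩ := h
  choose a _ ha using fun i => glue hU₀ (hz i)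
  let Tw : Submodule ℂ G.next.T :=
    { carrier := {w | G.Triv D w}
      add_mem' := Triv.add
      zero_mem' := triv_zero _
      smul_mem' := fun c _ h => h.smul c }
  let S : Submodule ℂ G.next.T :=
    { carrier := {w | G.next.IsSec univ w}
      add_mem' := IsSec.add
      zero_mem' := isSec_zero _
      smul_mem' := fun c _ h => h.smul c }
  have hle : S.map Tw.mkQ ≤ Submodule.span ℂ (range fun i => Tw.mkQ (a i)) := by
    rintro _ ⟨b, hb, rfl⟩
    obtain ⟨c, u, hu⟩ := h _ (cocy_const U₁ hb)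
    have h1 : b - ∑ i, c i • a i ∈ Tw := by
      refine ⟨u [], fun x hx => ?_⟩
      obtain ⟨k, hk⟩ := mem_iUnion.1 (hD hx)
      have := hu [k] rfl x (by simpa [capL] using hk)
      rw [dl_singleton] at this
      rw [← this]
      simp only [Pi.sub_apply, Finset.sum_apply, Pi.smul_apply, ha _ k x hk]
    have h2 : Tw.mkQ b = ∑ i, c i • Tw.mkQ (a i) := by
      simp only [← map_smul, ← map_sum]
      exact (Submodule.Quotient.eq Tw).2 h1
    rw [h2]
    exact Submodule.sum_mem _ fun i _ => Submodule.smul_mem _ _ (Submodule.subset_span ⟨i, rfl⟩)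
  have : FiniteDimensional ℂ (Submodule.span ℂ (range fun i => Tw.mkQ (a i))) :=
    FiniteDimensional.span_of_finite ℂ (finite_range _)
  have hfg : (S.map Tw.mkQ).FG :=
    (Submodule.fg_iff_finiteDimensional _).2 (Submodule.finiteDimensional_of_le hle)
  obtain ⟨n, s, hs⟩ := Submodule.fg_iff_exists_fin_generating_family.1 hfg
  have hm : ∀ i, ∃ b ∈ S, Tw.mkQ b = s i := fun i =>
    Submodule.mem_map.1 (hs ▸ Submodule.subset_span ⟨i, rfl⟩)
  choose b hb hb' using hm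
  refine ⟨n, b, hb, fun w hw => ?_⟩
  have hw' : Tw.mkQ w ∈ Submodule.span ℂ (range s) := hs ▸ Submodule.mem_map_of_mem hw
  obtain ⟨c, hc⟩ := (Submodule.mem_span_range_iff_exists_fun ℂ).1 hw'
  refine ⟨c, hi _ (IsSec.sub hw (IsSec.sum fun i _ => IsSec.smul _ (hb i))) ?_⟩
  have : Tw.mkQ w = Tw.mkQ (∑ i, c i • b i) := by
    simp only [map_sum, map_smul, hb', hc]
  exact (Submodule.Quotient.eq Tw).1 this

end Pool.Agent.QMax.Leray

namespace Pool.Agent.QMax.FSh

open Leray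

variable {X ι : Type} [TopologicalSpace X] {G : FSh X} {R : ℝ} {U K : ℝ → ι → Set X}

theorem csur_of_rsur (hL : Levels R U K)
    (hv : ∀ r ≤ R, ∀ J : List ι, J ≠ [] → ∀ l, (iter l G).Van (capL (K r) J))
    {D : Set X} {j : ℕ} {R₀ r₀ r₁ r₂ : ℝ} (hD₀ : ⋃ i, U R₀ i ⊆ D) (hD₁ : D ⊆ ⋃ i, U r₁ i)
    (hs : (iter j G).RSur D univ) (h₀ : r₀ < R₀) (h₁ : R₀ ≤ r₁) (h₂ : r₁ ≤ r₂) (h₃ : r₂ < R) :
    G.CSur (j + 1) (U r₀) (U r₁) (U r₂) := by
  have hR₁ : r₁ ≤ R := by linarith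
  have stepA : ∀ l m, (∀ a < R₀, ∀ b, r₁ ≤ b → b < R → SurD (iter l G) m (U a) (U r₁) (U b)) →
      ∀ a < R₀, ∀ b, r₁ ≤ b → b < R → (iter l G).CSur (m + 1) (U a) (U r₁) (U b) := by
    intro l m h a ha b hb hb'
    exact csur_of_surD (K := K b) (V := U ((b + R) / 2)) (hL.isOpen r₁ hR₁)
      (hL.mono (by linarith) hR₁) (hL.mono (by linarith) hb'.le) (hL.sub b hb'.le)
      (hL.sub' b _ (by linarith) (by linarith)) (fun J hJ => hv b hb'.le J hJ l)
      (h a ha _ (by linarith) (by linarith))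
  have main : ∀ m l, l + m = j →
      ∀ a < R₀, ∀ b, r₁ ≤ b → b < R → SurD (iter l G) m (U a) (U r₁) (U b) := by
    intro m
    induction m with
    | zero =>
      rintro l rfl a ha b _ _
      exact surD_zero (hL.isOpen r₁ hR₁) (hL.mono (by linarith) hR₁)
        (fun i => (hL.mono ha.le (by linarith) i).trans ((subset_iUnion _ i).trans hD₀)) hD₁ hs
    | succ m ih =>
      intro l hl a ha b hb hb'
      exact surD_of_csur (K := K a) (V := U ((a + R₀) / 2)) (hL.sub a (by linarith))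
        (hL.sub' a _ (by linarith) (by linarith)) (fun J hJ => hv a (by linarith) J hJ l)
        (stepA (l + 1) m (ih (l + 1) (by omega)) _ (by linarith) b hb hb')
  exact stepA 0 j (main j 0 (by simp)) r₀ h₀ r₂ h₂ h₃

theorem fd_of_cfin (hL : Levels R U K)
    (hv : ∀ r ≤ R, ∀ J : List ι, J ≠ [] → ∀ l, (iter l G).Van (capL (K r) J))
    {D : Set X} {j : ℕ} {r₀ r₁ : ℝ} (hD : D ⊆ ⋃ i, U r₀ i) (hi : (iter j G).RInj D univ)
    (h₀ : r₀ ≤ r₁) (h₁ : r₁ < R) (hf : G.CFin (j + 1) (U r₀) (U r₁)) :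
    (iter j G).FD univ := by
  have hR₀ : r₀ ≤ R := by linarith
  have stepA : ∀ l m b, r₀ ≤ b → b < R → (iter l G).CFin (m + 1) (U r₀) (U b) →
      CFinD (iter l G) m (U r₀) (U ((b + R) / 2)) := by
    intro l m b hb hb' h
    exact cfinD_of_cfin (K := K b) (hL.isOpen r₀ hR₀) (hL.mono hb hb'.le) (hL.sub b hb'.le)
      (hL.sub' b _ (by linarith) (by linarith)) (fun J hJ => hv b hb'.le J hJ l) h
  have main : ∀ l m, l + m = j →
      ∃ b, r₀ ≤ b ∧ b < R ∧ (iter l G).CFin (m + 1) (U r₀) (U b) := by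
    intro l
    induction l with
    | zero =>
      intro m hm
      obtain rfl : m = j := by omega
      exact ⟨r₁, h₀, h₁, hf⟩
    | succ l ih =>
      intro m hm
      obtain ⟨b, hb, hb', h⟩ := ih (m + 1) (by omega)
      exact ⟨(b + R) / 2, by linarith, by linarith, cfin_of_cfinD (stepA l (m + 1) b hb hb' h)⟩
  obtain ⟨b, hb, hb', h⟩ := main j 0 rfl
  exact fd_of_cfinD (hL.isOpen r₀ hR₀) hD hi (stepA j 0 b hb hb' h)

end Pool.Agent.QMax.FSh
end
end

-- part Pool.Agent.Lib.MP_ec9812_ag.ExtLink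
section

/-! The canonical resolution computes the derived functor cohomology. -/

open Set Filter Topology CategoryTheory TopologicalSpace Opposite

noncomputable section

namespace Pool.Agent.QMax

namespace ExtLink

variable {X : Type} [TopologicalSpace X]

/-- Abelian sheaves on `X`. -/
abbrev Sh (X : Type) [TopologicalSpace X] :=
  Sheaf (Opens.grothendieckTopology X) AddCommGrpCat.{0}

/-- `φ` identifies `A` with the sheaf of sections of `G`. -/
structure RD (A : Sh X) (G : FSh X) (φ : ∀ U : Opens X, A.obj.obj (op U) →+ G.T) : Prop where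
  sec : ∀ (U : Opens X) s, G.IsSec U (φ U s)
  res : ∀ U V (h : V ≤ U) s, ∀ y ∈ V, φ V (A.obj.map (homOfLE h).op s) y = φ U s y
  inj : ∀ U s, (∀ y ∈ U, φ U s y = 0) → s = 0
  sur : ∀ (U : Opens X) a, G.IsSec U a → ∃ s, ∀ y ∈ U, φ U s y = a y

variable {A B : Sh X} {G : FSh X} {φ : ∀ U : Opens X, A.obj.obj (op U) →+ G.T}

theorem RD.ext (h : RD A G φ) {U : Opens X} {s t : A.obj.obj (op U)}
    (e : ∀ y ∈ U, φ U s y = φ U t y) : s = t :=
  sub_eq_zero.1 (h.inj U _ fun y hy => by rw [map_sub, Pi.sub_apply, e y hy, sub_self])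

theorem RD.hom_ext (h : RD A G φ) {f g : B ⟶ A}
    (e : ∀ (U : Opens X) s, ∀ y ∈ U, φ U (f.hom.app (op U) s) y = φ U (g.hom.app (op U) s) y) :
    f = g := by
  ext U s
  exact h.ext (e U.unop s)

/-- Construction of morphisms into a represented sheaf. -/
theorem RD.exists_hom (h : RD A G φ) (κ : ∀ U : Opens X, B.obj.obj (op U) →+ G.T)
    (h1 : ∀ (U : Opens X) s, G.IsSec U (κ U s))
    (h2 : ∀ U V (h : V ≤ U) s, ∀ y ∈ V, κ V (B.obj.map (homOfLE h).op s) y = κ U s y) :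
    ∃ f : B ⟶ A, ∀ (U : Opens X) s, ∀ y ∈ U, φ U (f.hom.app (op U) s) y = κ U s y := by
  choose k hk using fun U s => h.sur U (κ U s) (h1 U s)
  refine ⟨ObjectProperty.homMk
    { app := fun U => AddCommGrpCat.ofHom (AddMonoidHom.mk' (k U.unop) fun s t =>
        h.ext fun y hy => by rw [map_add, Pi.add_apply, hk _ _ y hy, hk _ _ y hy, hk _ _ y hy,
          map_add, Pi.add_apply])
      naturality := fun U V i => AddCommGrpCat.ext fun s => h.ext fun y hy => ?_ }, hk⟩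
  have e1 := h2 U.unop V.unop (leOfHom i.unop) s y hy
  have e2 := h.res U.unop V.unop (leOfHom i.unop) (k U.unop s) y hy
  exact ((hk _ _ y hy).trans e1).trans (e2.trans (hk _ _ y (leOfHom i.unop hy))).symm

open Classical in
/-- Restriction of total functions. -/
def ind (G : FSh X) (V : Opens X) : G.T →+ G.T where
  toFun a y := if y ∈ V then a y else 0
  map_zero' := by funext y; simp
  map_add' a b := by funext y; by_cases h : y ∈ V <;> simp [h]

theorem ind_pos {V : Opens X} (a : G.T) {y : X} (h : y ∈ V) : ind G V a y = a y := if_pos h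

theorem ind_neg {V : Opens X} (a : G.T) {y : X} (h : y ∉ V) : ind G V a y = 0 := if_neg h

/-- Sections over `U`, extended by zero. -/
def secs (G : FSh X) (U : Opens X) : AddSubgroup G.T where
  carrier := {a | G.IsSec U a ∧ ∀ y ∉ U, a y = 0}
  add_mem' ha hb := ⟨ha.1.add hb.1, fun y hy => by simp [ha.2 y hy, hb.2 y hy]⟩
  zero_mem' := ⟨FSh.isSec_zero _, fun _ _ => rfl⟩
  neg_mem' ha := ⟨fun x hx => neg_mem (ha.1 x hx), fun y hy => by simp [ha.2 y hy]⟩

theorem ind_mem {V : Opens X} {a : G.T} (h : G.IsSec V a) : ind G V a ∈ secs G V :=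
  ⟨h.congr V.isOpen fun _ hy => (ind_pos a hy).symm, fun _ hy => ind_neg a hy⟩

theorem secs_ext {U : Opens X} {a b : secs G U} (h : ∀ y ∈ U, a.1 y = b.1 y) : a = b :=
  Subtype.ext (funext fun y => by
    by_cases hy : y ∈ U
    · exact h y hy
    · rw [a.2.2 y hy, b.2.2 y hy])

/-- The presheaf of sections. -/
def psh (G : FSh X) : (Opens X)ᵒᵖ ⥤ AddCommGrpCat.{0} where
  obj U := AddCommGrpCat.of (secs G U.unop)
  map {U V} i := AddCommGrpCat.ofHom (((ind G V.unop).comp (secs G U.unop).subtype).codRestrict _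
    fun a => ind_mem (a.2.1.mono (leOfHom i.unop)))
  map_id _ := AddCommGrpCat.ext fun _ => secs_ext fun _ hy => ind_pos _ hy
  map_comp _ j := AddCommGrpCat.ext fun a => secs_ext fun _ hy =>
    (ind_pos _ hy).trans ((ind_pos _ hy).trans (ind_pos a.1 (leOfHom j.unop hy))).symm

theorem psh_isSheaf (G : FSh X) : Presheaf.IsSheaf (Opens.grothendieckTopology X) (psh G) := by
  classical
  refine (TopCat.Presheaf.isSheaf_iff_isSheafUniqueGluing (X := TopCat.of X) (psh G)).2 ?_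
  intro ι U sf hc
  have key : ∀ i j y, y ∈ U i → y ∈ U j → (sf i).1 y = (sf j).1 y := fun i j y hi hj => by
    have h := congrFun (congrArg Subtype.val (hc i j)) y
    have hy : y ∈ U i ⊓ U j := ⟨hi, hj⟩
    exact (ind_pos _ hy).symm.trans (h.trans (ind_pos _ hy))
  let a : G.T := fun y => if h : ∃ i, y ∈ U i then (sf h.choose).1 y else 0
  have ha : ∀ i, ∀ y ∈ U i, a y = (sf i).1 y := fun i y hy => by
    have h : ∃ i, y ∈ U i := ⟨i, hy⟩
    exact (dif_pos h).trans (key _ _ y h.choose_spec hy)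
  refine ⟨⟨a, fun y hy => ?_, fun y hy => dif_neg fun h => hy (Opens.mem_iSup.2 h)⟩,
    fun i => secs_ext fun y hy => (ind_pos _ hy).trans (ha i y hy), fun b hb => secs_ext ?_⟩
  · obtain ⟨i, hi⟩ := Opens.mem_iSup.1 hy
    exact (sf i).2.1.congr (U i).isOpen (fun z hz => (ha i z hz).symm) y hi
  · intro y hy
    obtain ⟨i, hi⟩ := Opens.mem_iSup.1 hy
    have h := congrFun (congrArg Subtype.val (hb i)) y
    exact ((ind_pos _ hi).symm.trans h).trans (ha i y hi).symm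

theorem exists_rd (G : FSh X) : ∃ (A : Sh X) (φ : ∀ U : Opens X, A.obj.obj (op U) →+ G.T),
    RD A G φ :=
  ⟨⟨psh G, psh_isSheaf G⟩, fun U => (secs G U).subtype, fun _ s => s.2.1,
    fun _ _ _ _ _ hy => ind_pos _ hy, fun _ _ h => secs_ext h,
    fun _ a ha => ⟨⟨_, ind_mem ha⟩, fun _ hy => ind_pos a hy⟩⟩

theorem RD.exists_smul (h : RD A G φ) : ∃ m : ℂ → (A ⟶ A), ∀ (U : Opens X) c s, ∀ y ∈ U,
    φ U ((m c).hom.app (op U) s) y = c • φ U s y := by
  choose m hm using fun c : ℂ => h.exists_hom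
    (fun U => (DistribSMul.toAddMonoidHom G.T c).comp (φ U)) (fun U s => (h.sec U s).smul c)
    fun U V hV s y hy => congrArg (c • ·) (h.res U V hV s y hy)
  exact ⟨m, fun U c s y hy => hm c U s y hy⟩

/-- The sheaf of all functions. -/
def all (G : FSh X) : FSh X where
  E := G.E
  A _ := ⊤
  congr _ _ := trivial
  nhds _ := Eventually.of_forall fun _ => trivial

theorem injective_all {I : Sh X} {ψ : ∀ U : Opens X, I.obj.obj (op U) →+ G.T}
    (h : RD I (all G) ψ) : Injective I := by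
  classical
  refine ⟨fun {S T} g i hi => ?_⟩
  have key : ∀ x : X, ∃ e : TopCat.Presheaf.stalk (X := TopCat.of X) T.obj x ⟶
      AddCommGrpCat.of (G.E x), ∀ (U : Opens X) (hx : x ∈ U) s,
        e (TopCat.Presheaf.germ (X := TopCat.of X) T.obj U x hx (i.hom.app (op U) s)) =
          ψ U (g.hom.app (op U) s) x := by
    intro x
    let _ : DivisibleBy (G.E x) ℤ := divisibleByOfSMulRightSurj _ _ fun {n} hn a =>
      ⟨((n : ℂ)⁻¹) • a, by
        change n • ((n : ℂ)⁻¹ • a) = a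
        rw [← Int.cast_smul_eq_zsmul ℂ, smul_smul, mul_inv_cancel₀ (Int.cast_ne_zero.2 hn),
          one_smul]⟩
    let c : Limits.Cocone ((OpenNhds.inclusion (X := TopCat.of X) x).op ⋙ S.obj) :=
      { pt := AddCommGrpCat.of (G.E x)
        ι := { app := fun U => g.hom.app (op U.unop.1) ≫
                AddCommGrpCat.ofHom ((Pi.evalAddMonoidHom G.E x).comp (ψ U.unop.1))
               naturality := fun U V j => AddCommGrpCat.ext fun s => by
                 have hV : V.unop.1 ≤ U.unop.1 := leOfHom j.unop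
                 have e1 := NatTrans.naturality_apply g.hom (homOfLE hV).op s
                 exact (congrArg (fun t => ψ V.unop.1 t x) e1).trans
                   (h.res _ _ hV _ x V.unop.2) } }
    let l : TopCat.Presheaf.stalk (X := TopCat.of X) S.obj x ⟶ AddCommGrpCat.of (G.E x) :=
      Limits.colimit.desc _ c
    let q : TopCat.Presheaf.stalk (X := TopCat.of X) S.obj x ⟶
        TopCat.Presheaf.stalk (X := TopCat.of X) T.obj x :=
      (TopCat.Presheaf.stalkFunctor AddCommGrpCat (X := TopCat.of X) x).map i.hom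
    have hi' : Mono i.hom := (sheafToPresheaf _ _).map_mono i
    have hm : Mono q := ConcreteCategory.mono_of_injective _
      (TopCat.Presheaf.stalkFunctor_map_injective_of_app_injective (X := TopCat.of X)
        (fun U => (AddCommGrpCat.mono_iff_injective (i.hom.app (op U))).1 inferInstance) x)
    refine ⟨Injective.factorThru l q, fun U hx s => ?_⟩
    have e1 := TopCat.Presheaf.stalkFunctor_map_germ_apply (X := TopCat.of X) U x hx i.hom s
    have e2 := ConcreteCategory.congr_hom (Injective.comp_factorThru l q)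
      (TopCat.Presheaf.germ (X := TopCat.of X) S.obj U x hx s)
    exact ((congrArg _ e1).symm.trans e2).trans
      (ConcreteCategory.congr_hom (Limits.colimit.ι_desc c (op ⟨U, hx⟩)) s)
  choose e he using key
  obtain ⟨f, hf⟩ := h.exists_hom (B := T) (fun U => AddMonoidHom.mk' (fun s y =>
      if hy : y ∈ U then e y (TopCat.Presheaf.germ (X := TopCat.of X) T.obj U y hy s) else 0)
      fun s t => funext fun y => by
        rw [Pi.add_apply]
        by_cases hy : y ∈ U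
        · simp only [dif_pos hy, map_add]; rfl
        · simp only [dif_neg hy, add_zero])
    (fun _ _ _ _ => trivial) fun U V hV s y hy => by
      change dite _ _ _ = dite _ _ _
      rw [dif_pos hy, dif_pos (hV hy), TopCat.Presheaf.germ_res_apply]
  refine ⟨f, h.hom_ext fun U s y hy => ?_⟩
  exact (hf U _ y hy).trans ((dif_pos hy).trans (he y U hy s))

/-- The first step of the canonical resolution. -/
theorem RD.exists_ses (h : RD A G φ) {I Q : Sh X} {ψ : ∀ U : Opens X, I.obj.obj (op U) →+ G.T}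
    (hI : RD I (all G) ψ) {χ : ∀ U : Opens X, Q.obj.obj (op U) →+ G.next.T}
    (hQ : RD Q G.next χ) : ∃ (f : A ⟶ I) (g : I ⟶ Q) (w : f ≫ g = 0),
      (ShortComplex.mk f g w).ShortExact ∧
      (∀ (U : Opens X) s, ∀ y ∈ U, ψ U (f.hom.app (op U) s) y = φ U s y) ∧
      ∀ (U : Opens X) s, ∀ y ∈ U, χ U (g.hom.app (op U) s) y = G.d (ψ U s) y := by
  obtain ⟨f, hf⟩ := hI.exists_hom (B := A) φ (fun _ _ _ _ => trivial) h.res
  obtain ⟨g, hg⟩ := hQ.exists_hom (B := I) (fun U => G.d.toAddMonoidHom.comp (ψ U))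
    (fun U s => FSh.d_isSec _ _) fun U V hV s y hy =>
      FSh.d_congr (mem_of_superset (V.isOpen.mem_nhds hy) (hI.res U V hV s))
  have w : f ≫ g = 0 := hQ.hom_ext fun U s y hy => by
    refine (hg U _ y hy).trans ?_
    have e : χ U ((0 : A ⟶ Q).hom.app (op U) s) y = 0 := congrFun (map_zero (χ U)) y
    rw [e]
    exact FSh.d_eq_zero.2 ((h.sec U s).congr U.isOpen (fun z hz => (hf U s z hz).symm) y hy)
  have hm : Mono f := ⟨fun a b e => h.hom_ext fun U s y hy => (hf U _ y hy).symm.trans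
    ((congrArg (fun k => ψ U (k.hom.app (op U) s) y) e).trans (hf U _ y hy))⟩
  have he : Epi g := by
    refine (Sheaf.isLocallySurjective_iff_epi' _ g).1 ⟨fun {U} s x hx => ?_⟩
    obtain ⟨t, ht⟩ := FSh.mem_next.1 (hQ.sec U s x hx)
    obtain ⟨W, hW, hWo, hxW⟩ := eventually_nhds_iff.1 ht
    let V : Opens X := ⟨W, hWo⟩ ⊓ U
    obtain ⟨u, hu⟩ := hI.sur V t fun _ _ => trivial
    refine ⟨V, homOfLE inf_le_right, ⟨u, hQ.ext fun y hy => ?_⟩, hxW, hx⟩
    rw [hg V u y hy, hQ.res U V inf_le_right s y hy, hW y hy.1]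
    exact FSh.d_congr (mem_of_superset (V.isOpen.mem_nhds hy) hu)
  refine ⟨f, g, w, { exact := ShortComplex.exact_of_f_is_kernel _ ?_ }, hf, hg⟩
  refine Limits.KernelFork.IsLimit.ofι' f w fun {W} k hk => ?_
  have := h.exists_hom (B := W) (fun U => (ψ U).comp (k.hom.app (op U)).hom)
    (fun U s y hy => FSh.d_eq_zero.1 ((hg U _ y hy).symm.trans
      ((congrArg (fun r => χ U (r.hom.app (op U) s) y) hk).trans (congrFun (map_zero (χ U)) y))))
    fun U V hV s y hy => (congrArg (fun t => ψ V t y)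
      (NatTrans.naturality_apply k.hom (homOfLE hV).op s)).trans (hI.res U V hV _ y hy)
  exact ⟨this.choose, hI.hom_ext fun U s y hy => (hf U _ y hy).trans (this.choose_spec U s y hy)⟩

theorem span_succ {S : ShortComplex (Sh X)} (hS : S.ShortExact) [Injective S.X₂]
    (m : ℂ → (S ⟶ S)) (ν N : ℕ) (x : Fin N → S.X₃.H ν)
    (hx : ∀ z : S.X₃.H ν, ∃ (c : Fin N → ℂ) (t : S.X₂.H ν),
      z = ∑ i, Sheaf.H.map (m (c i)).τ₃ ν (x i) + Sheaf.H.map S.g ν t) :
    FinSpanH S.X₁ (fun c => (m c).τ₁) (ν + 1) := by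
  refine ⟨N, fun i => (x i).comp hS.extClass rfl, fun y => ?_⟩
  obtain ⟨z, rfl⟩ := Abelian.Ext.covariant_sequence_exact₁ _ hS y
    (Abelian.Ext.eq_zero_of_injective _) rfl
  obtain ⟨c, t, rfl⟩ := hx z
  refine ⟨c, ?_⟩
  change hS.extClass.postcomp _ rfl _ = _
  rw [map_add, map_sum]
  have e : hS.extClass.postcomp _ (rfl : ν + 1 = ν + 1) (Sheaf.H.map S.g ν t) = 0 := by
    change (t.comp (Abelian.Ext.mk₀ S.g) (add_zero ν)).comp hS.extClass rfl = 0
    rw [Abelian.Ext.comp_assoc_of_second_deg_zero, hS.comp_extClass, Abelian.Ext.comp_zero]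
  rw [e, add_zero]
  refine Finset.sum_congr rfl fun i _ => ?_
  change ((x i).comp (Abelian.Ext.mk₀ (m (c i)).τ₃) (add_zero ν)).comp hS.extClass rfl =
    ((x i).comp hS.extClass rfl).comp (Abelian.Ext.mk₀ (m (c i)).τ₁) (add_zero _)
  rw [Abelian.Ext.comp_assoc_of_second_deg_zero, Abelian.Ext.comp_assoc_of_third_deg_zero,
    hS.extClass_naturality hS]

end ExtLink

open ExtLink in
theorem finSpanH_of_fd {X : Type} [TopologicalSpace X] (j : ℕ)
    (A : Sheaf (Opens.grothendieckTopology X) AddCommGrpCat.{0}) (m : ℂ → (A ⟶ A)) (G : FSh X)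
    (h : Rep A m G) (hfd : (FSh.iter j G).FD univ) : FinSpanH A m (j + 1) := by
  have key : ∀ (A : Sh X) (m : ℂ → (A ⟶ A)) (G : FSh X), Rep A m G →
      ∃ (S : ShortComplex (Sh X)) (_ : S.ShortExact) (_ : Injective S.X₂) (n : ℂ → (S ⟶ S))
        (ψ : ∀ U : Opens X, S.X₂.obj.obj (op U) →+ G.T)
        (χ : ∀ U : Opens X, S.X₃.obj.obj (op U) →+ G.next.T), RD S.X₂ (all G) ψ ∧
        RD S.X₃ G.next χ ∧
        (∀ (U : Opens X) s, ∀ y ∈ U, χ U (S.g.hom.app (op U) s) y = G.d (ψ U s) y) ∧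
        (∀ (U : Opens X) c s, ∀ y ∈ U, χ U ((n c).τ₃.hom.app (op U) s) y = c • χ U s y) ∧
        ∀ ν, FinSpanH S.X₁ (fun c => (n c).τ₁) ν → FinSpanH A m ν := by
    rintro A m G ⟨φ, h1, h2, h3, h4, h5⟩
    have h : RD A G φ := ⟨h1, h2, h3, h4⟩
    obtain ⟨I, ψ, hI⟩ := exists_rd (all G)
    obtain ⟨Q, χ, hQ⟩ := exists_rd G.next
    obtain ⟨mI, hmI⟩ := hI.exists_smul
    obtain ⟨mQ, hmQ⟩ := hQ.exists_smul
    obtain ⟨f, g, w, hS, hf, hg⟩ := h.exists_ses hI hQ
    refine ⟨_, hS, injective_all hI, fun c => ShortComplex.homMk (m c) (mI c) (mQ c)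
      (hI.hom_ext fun U s y hy => ?_) (hQ.hom_ext fun U s y hy => ?_), ψ, χ, hI, hQ, hg, hmQ,
      fun _ => id⟩
    · exact ((hf U _ y hy).trans (h5 U c s y hy)).trans
        ((hmI U c _ y hy).trans (congrArg (c • ·) (hf U s y hy))).symm
    · refine ((hg U _ y hy).trans ?_).trans
        ((hmQ U c _ y hy).trans (congrArg (c • ·) (hg U s y hy))).symm
      exact (FSh.d_congr (G := G) (u := c • (ψ U s : G.T)) (mem_of_superset (U.isOpen.mem_nhds hy)
        (hmI U c s))).trans (congrFun (map_smul G.d c _) y)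
  induction j generalizing A m G with
  | zero =>
    obtain ⟨S, hS, _, n, ψ, χ, hI, hQ, hg, hn, hfin⟩ := key A m G h
    obtain ⟨N, a, ha, hb⟩ := (show G.FD univ from hfd)
    choose s hs using fun i => hQ.sur ⊤ (a i) (ha i)
    refine hfin _ (span_succ hS n 0 N
      (fun i => (Sheaf.H.equiv₀ _ Limits.isTerminalTop).symm (s i)) fun z => ?_)
    obtain ⟨c, t, ht⟩ := hb _ (hQ.sec ⊤ (Sheaf.H.equiv₀ _ Limits.isTerminalTop z))
    obtain ⟨u, hu⟩ := hI.sur ⊤ t fun _ _ => trivial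
    refine ⟨c, (Sheaf.H.equiv₀ _ Limits.isTerminalTop).symm u,
      (Sheaf.H.equiv₀ _ Limits.isTerminalTop).injective (hQ.ext fun y hy => ?_)⟩
    simp only [Sheaf.H.equiv₀_symm_naturality, map_add, map_sum, AddEquiv.apply_symm_apply,
      Pi.add_apply, Finset.sum_apply]
    have e1 : G.d (ψ ⊤ u) y = G.d t y := FSh.d_congr (Eventually.of_forall fun z => hu z trivial)
    have e2 : χ ⊤ (Sheaf.H.equiv₀ _ Limits.isTerminalTop z) y - (∑ i, c i • a i) y = G.d t y :=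
      ht y trivial
    rw [hg ⊤ u y hy, e1, ← e2, Finset.sum_apply,
      Finset.sum_congr rfl fun i _ => (hn ⊤ (c i) (s i) y hy).trans
        (congrArg (c i • ·) (hs i y hy))]
    exact (add_sub_cancel _ _).symm
  | succ j ih =>
    obtain ⟨S, hS, _, n, ψ, χ, hI, hQ, hg, hn, hfin⟩ := key A m G h
    obtain ⟨N, x, hx⟩ := ih S.X₃ (fun c => (n c).τ₃) G.next
      ⟨χ, hQ.sec, hQ.res, hQ.inj, hQ.sur, hn⟩ (by rwa [FSh.iter_next])
    exact hfin _ (span_succ hS n (j + 1) N x fun z => (hx z).imp fun c hc =>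
      ⟨0, by rw [map_zero, add_zero]; exact hc⟩)

end Pool.Agent.QMax
end
end
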