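import Pool.Agent.Lib.MP_ec9812_ag.Div

-- part Pool.Agent.Lib.MP_ec9812_ag.Schwartz
section

/-! The Schwartz finiteness lemma and Banach spaces of bounded holomorphic functions. -/

open Set Filter Topology
open scoped ENNReal

noncomputable section

namespace Pool.Agent.QMax

theorem surjective_of_approx {V Z : Type} [NormedAddCommGroup V] [NormedSpace ℂ V]
    [CompleteSpace V] [NormedAddCommGroup Z] [NormedSpace ℂ Z] (T : V →L[ℂ] Z) {C : ℝ}
    (hC : 0 ≤ C) (h : ∀ y, ∃ v, ‖v‖ ≤ C * ‖y‖ ∧ ‖y - T v‖ ≤ 1 / 2 * ‖y‖) :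
    Function.Surjective T := by
  choose g hg1 hg2 using h
  intro y
  let k y := y - T (g y)
  have hn : ∀ n : ℕ, ‖k^[n] y‖ ≤ (1 / 2) ^ n * ‖y‖ := by
    intro n
    induction n with
    | zero => simp
    | succ n ih =>
      rw [Function.iterate_succ_apply', pow_succ', mul_assoc]
      exact (hg2 _).trans (by gcongr)
  have hs : Summable fun n => g (k^[n] y) := by
    refine Summable.of_norm_bounded (g := fun n => (1 / 2) ^ n * (C * ‖y‖))
      (summable_geometric_two.mul_right _) fun n => (hg1 _).trans ?_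
    calc C * ‖k^[n] y‖ ≤ C * ((1 / 2) ^ n * ‖y‖) := by gcongr; exact hn n
      _ = _ := by ring
  have he : ∀ n : ℕ, T (∑ i ∈ Finset.range n, g (k^[i] y)) = y - k^[n] y := by
    intro n
    induction n with
    | zero => simp
    | succ n ih => rw [Finset.sum_range_succ, map_add, ih, Function.iterate_succ_apply', sub_add]
  have L₁ := (T.continuous.tendsto _).comp hs.hasSum.tendsto_sum_nat
  simp only [Function.comp_def, he] at L₁
  have L₂ : Tendsto (fun n => y - k^[n] y) atTop (𝓝 (y - 0)) := by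
    refine tendsto_const_nhds.sub (tendsto_zero_iff_norm_tendsto_zero.2 ?_)
    refine squeeze_zero (fun _ => norm_nonneg _) hn ?_
    rw [← zero_mul ‖y‖]
    exact (tendsto_pow_atTop_nhds_zero_of_lt_one (by norm_num) (by norm_num)).mul_const _
  exact ⟨_, (tendsto_nhds_unique L₁ L₂).trans (sub_zero y)⟩

theorem schwartz {W Z : Type} [NormedAddCommGroup W] [NormedSpace ℂ W] [CompleteSpace W]
    [NormedAddCommGroup Z] [NormedSpace ℂ Z] [CompleteSpace Z] (p κ : W →L[ℂ] Z)
    (hp : Function.Surjective p) (hκ : IsCompactOperator κ) :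
    ∃ (N : ℕ) (z : Fin N → Z), ∀ y, ∃ (c : Fin N → ℂ) (w : W),
      y = ∑ i, c i • z i + (p w - κ w) := by
  obtain ⟨C, hC, hpre⟩ := p.exists_preimage_norm_le hp
  obtain ⟨K, hK, hsub⟩ := IsCompactOperator.image_closedBall_subset_compact
    (f := (κ : W →ₗ[ℂ] Z)) hκ C
  obtain ⟨t, ht, hcov⟩ := Metric.totallyBounded_iff.1 hK.totallyBounded (1 / 2) (by norm_num)
  obtain ⟨N, z, hz⟩ : ∃ (N : ℕ) (z : Fin N → Z), ∀ y ∈ t, ∃ i, z i = y := by
    obtain ⟨N, z, -, hz⟩ := ht.fin_param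
    exact ⟨N, z, fun y hy => by rw [← hz] at hy; exact hy⟩
  let S : (Fin N → ℂ) →L[ℂ] Z := ∑ i, (ContinuousLinearMap.proj i).smulRight (z i)
  have hS : ∀ c, S c = ∑ i, c i • z i := fun c => by simp [S]
  have key := surjective_of_approx (S.coprod (p - κ)) (C := C + 1) (by positivity) fun y => by
    rcases eq_or_ne y 0 with rfl | hy
    · exact ⟨0, by simp, by simp⟩
    have hy' : 0 < ‖y‖ := norm_pos_iff.2 hy
    obtain ⟨w, hw, hw'⟩ := hpre y
    have h1 : κ (((‖y‖ : ℂ))⁻¹ • w) ∈ K := hsub ⟨_, by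
      rw [mem_closedBall_zero_iff, norm_smul, norm_inv, Complex.norm_real, norm_norm,
        inv_mul_le_iff₀ hy', mul_comm]
      exact hw', rfl⟩
    obtain ⟨y₀, hy₀, h2⟩ := mem_iUnion₂.1 (hcov h1)
    obtain ⟨i, rfl⟩ := hz y₀ hy₀
    refine ⟨(Pi.single i (‖y‖ : ℂ), w), ?_, ?_⟩
    · rw [Prod.norm_def, Pi.norm_single, Complex.norm_real, norm_norm]
      exact max_le (by nlinarith) (by nlinarith)
    · have h3 : y - (S.coprod (p - κ)) (Pi.single i (‖y‖ : ℂ), w) =
          (‖y‖ : ℂ) • (κ (((‖y‖ : ℂ))⁻¹ • w) - z i) := by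
        have h4 : (‖y‖ : ℂ) ≠ 0 := by exact_mod_cast hy'.ne'
        simp [hS, Pi.single_apply, hw, smul_sub, smul_smul, h4]
        abel
      rw [h3, norm_smul, Complex.norm_real, norm_norm, mul_comm]
      gcongr
      exact (mem_ball_iff_norm.1 h2).le
  refine ⟨N, z, fun y => ?_⟩
  obtain ⟨⟨c, w⟩, h⟩ := key y
  exact ⟨c, w, by rw [← h, ← hS]; rfl⟩

variable {X : Type} [TopologicalSpace X]

/-- Bounded holomorphic functions on `U`, extended by zero. -/
def Hinf (H : HS X) (U : Set X) : Submodule ℂ (lp (fun _ : X => ℂ) ∞) where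
  carrier := {f | (∀ x ∉ U, f x = 0) ∧ ∀ x ∈ U, (fun z => f z) ∈ H.O x}
  add_mem' := fun ha hb => ⟨fun x hx => by simp [ha.1 x hx, hb.1 x hx],
    fun x hx => add_mem (ha.2 x hx) (hb.2 x hx)⟩
  zero_mem' := ⟨fun _ _ => rfl, fun _ _ => zero_mem _⟩
  smul_mem' := fun c _ ha => ⟨fun x hx => by simp [ha.1 x hx],
    fun x hx => (H.O x).smul_mem (ha.2 x hx) c⟩

variable {H : HS X}

/-- Evaluation at a point. -/
def Hinf.ev (U : Set X) (x : X) : Hinf H U →L[ℂ] ℂ :=
  LinearMap.mkContinuous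
    { toFun := fun f => f.1 x
      map_add' := fun _ _ => rfl
      map_smul' := fun _ _ => rfl } 1
    fun f => by simpa using lp.norm_apply_le_norm ENNReal.top_ne_zero f.1 x

theorem Hinf.ev_mem {U : Set X} (f : Hinf H U) {x : X} (hx : x ∈ U) :
    (fun z => Hinf.ev U z f) ∈ H.O x := f.2.2 x hx

theorem Hinf.ev_of_notMem {U : Set X} (f : Hinf H U) {x : X} (hx : x ∉ U) :
    Hinf.ev U x f = 0 := f.2.1 x hx

theorem Hinf.norm_ev_le {U : Set X} (f : Hinf H U) (x : X) : ‖Hinf.ev U x f‖ ≤ ‖f‖ :=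
  lp.norm_apply_le_norm ENNReal.top_ne_zero f.1 x

theorem Hinf.norm_le {U : Set X} (f : Hinf H U) {C : ℝ} (hC : 0 ≤ C)
    (h : ∀ x ∈ U, ‖Hinf.ev U x f‖ ≤ C) : ‖f‖ ≤ C := by
  refine lp.norm_le_of_forall_le hC fun x => ?_
  by_cases hx : x ∈ U
  · exact h x hx
  · exact (congrArg norm (f.2.1 x hx)).trans_le (by simpa using hC)

theorem Hinf.ext_on {U : Set X} {f g : Hinf H U} (h : ∀ x ∈ U, Hinf.ev U x f = Hinf.ev U x g) :
    f = g := by
  refine Subtype.ext (lp.ext (funext fun x => ?_))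
  by_cases hx : x ∈ U
  · exact h x hx
  · rw [f.2.1 x hx, g.2.1 x hx]

theorem Hinf.completeSpace (hM : H.Montel) {U : Set X} (hU : IsOpen U) :
    CompleteSpace (Hinf H U) := by
  suffices h : IsClosed (Hinf H U : Set (lp (fun _ : X => ℂ) ∞)) from h.completeSpace_coe
  refine isClosed_of_closure_subset fun f hf => ?_
  obtain ⟨F, hF, hlim⟩ := mem_closure_iff_seq_limit.1 hf
  have hu : TendstoUniformlyOn (fun k z => F k z) (fun z => f z) atTop univ := by
    rw [Metric.tendstoUniformlyOn_iff]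
    intro ε hε
    filter_upwards [Metric.tendsto_nhds.1 hlim ε hε] with k hk z _
    rw [dist_comm, dist_eq_norm] at hk
    rw [dist_eq_norm]
    exact (lp.norm_apply_le_norm ENNReal.top_ne_zero (f - F k) z).trans_lt hk
  refine ⟨fun x hx => ?_, hM.1 U _ _ hU (fun k => (hF k).2) (hu.mono (subset_univ _))⟩
  have := hu.tendsto_at (mem_univ x)
  simp only [fun k => (hF k).1 x hx] at this
  exact (tendsto_nhds_unique tendsto_const_nhds this).symm

/-- A bounded function that is holomorphic on the open set `V`, as an element of `Hinf H V`. -/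
def Hinf.mk {V : Set X} (hV : IsOpen V) (f : X → ℂ) (hf : ∀ x ∈ V, f ∈ H.O x) (C : ℝ)
    (hC : ∀ x ∈ V, ‖f x‖ ≤ C) : Hinf H V :=
  ⟨⟨V.indicator f, memℓp_infty ⟨max C 0, by
      rintro _ ⟨x, rfl⟩
      by_cases hx : x ∈ V
      · simp only [indicator_of_mem hx]; exact (hC x hx).trans (le_max_left _ _)
      · simp [indicator_of_notMem hx]⟩⟩,
    fun x hx => indicator_of_notMem hx f,
    fun x hx => H.congr (mem_of_superset (hV.mem_nhds hx) fun z hz =>
      (indicator_of_mem hz f).symm) (hf x hx)⟩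

theorem Hinf.ev_mk {V : Set X} (hV : IsOpen V) (f : X → ℂ) (hf : ∀ x ∈ V, f ∈ H.O x) (C : ℝ)
    (hC : ∀ x ∈ V, ‖f x‖ ≤ C) {x : X} (hx : x ∈ V) : Hinf.ev V x (Hinf.mk hV f hf C hC) = f x :=
  indicator_of_mem hx f

theorem Hinf.exists_of_compact {K V : Set X} (hK : IsCompact K) (hV : IsOpen V) (hVK : V ⊆ K)
    {f : X → ℂ} (hf : ∀ x ∈ K, f ∈ H.O x) : ∃ g : Hinf H V, ∀ x ∈ V, Hinf.ev V x g = f x := by
  obtain ⟨C, hC⟩ := hK.exists_bound_of_continuousOn
    (f := f) fun x hx => (H.cont (hf x hx)).continuousWithinAt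
  exact ⟨_, fun x hx => Hinf.ev_mk hV f (fun x hx => hf x (hVK hx)) C
    (fun x hx => hC x (hVK hx)) hx⟩

/-- Restriction. -/
def Hinf.res {U V : Set X} (hV : IsOpen V) (h : V ⊆ U) : Hinf H U →L[ℂ] Hinf H V :=
  LinearMap.mkContinuous
    { toFun := fun f => Hinf.mk hV (fun z => Hinf.ev U z f) (fun _ hx => Hinf.ev_mem f (h hx)) ‖f‖
        fun x _ => Hinf.norm_ev_le f x
      map_add' := fun _ _ => Hinf.ext_on fun x hx => by simp only [map_add, Hinf.ev_mk _ _ _ _ _ hx]
      map_smul' := fun _ _ => Hinf.ext_on fun x hx => by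
        simp only [map_smul, Hinf.ev_mk _ _ _ _ _ hx, RingHom.id_apply] } 1
    fun f => Hinf.norm_le _ (by positivity) fun x hx => by
      rw [one_mul]
      exact (congrArg norm (Hinf.ev_mk hV _ (fun _ hx => Hinf.ev_mem f (h hx)) ‖f‖
        (fun x _ => Hinf.norm_ev_le f x) hx)).trans_le (Hinf.norm_ev_le f x)

theorem Hinf.ev_res {U V : Set X} (hV : IsOpen V) (h : V ⊆ U) (f : Hinf H U) {x : X}
    (hx : x ∈ V) : Hinf.ev V x (Hinf.res hV h f) = Hinf.ev U x f :=
  Hinf.ev_mk hV _ (fun _ hx => Hinf.ev_mem f (h hx)) ‖f‖ (fun x _ => Hinf.norm_ev_le f x) hx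

theorem Hinf.isCompactOperator_res (hM : H.Montel) {U V K : Set X} (hU : IsOpen U)
    (hV : IsOpen V) (hK : IsCompact K) (hVK : V ⊆ K) (hKU : K ⊆ U) :
    IsCompactOperator (Hinf.res (H := H) hV (hVK.trans hKU)) := by
  have := Hinf.completeSpace hM hV
  set ρ := Hinf.res (H := H) hV (hVK.trans hKU)
  refine (isCompactOperator_iff_isCompact_closure_image_closedBall (ρ : Hinf H U →ₗ[ℂ] Hinf H V)
    one_pos).2 ?_
  refine (TotallyBounded.closure ?_).isCompact_of_isClosed isClosed_closure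
  refine Metric.totallyBounded_iff.2 fun ε hε => ?_
  obtain ⟨t, ht, hcov⟩ := hK.elim_nhds_subcover _
    fun x hx => hM.2 U hU x (hKU hx) (ε / 4) (by positivity)
  let φ : Hinf H U → t → ℂ := fun f x => Hinf.ev U x f
  have h1 : TotallyBounded (φ '' Metric.closedBall 0 1) := by
    refine (isCompact_closedBall (0 : t → ℂ) 1).totallyBounded.subset ?_
    rintro _ ⟨f, hf, rfl⟩
    rw [mem_closedBall_zero_iff] at hf ⊢
    exact (pi_norm_le_iff_of_nonneg zero_le_one).2 fun x => (Hinf.norm_ev_le f x).trans hf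
  obtain ⟨s, hs1, hs2, hs3⟩ := Metric.finite_approx_of_totallyBounded h1 (ε / 4) (by positivity)
  choose! g hg1 hg2 using fun v (hv : v ∈ s) => hs1 hv
  refine ⟨(fun v => ρ (g v)) '' s, hs2.image _, ?_⟩
  rintro _ ⟨f, hf, rfl⟩
  obtain ⟨v, hv, h2⟩ := mem_iUnion₂.1 (hs3 ⟨f, hf, rfl⟩)
  refine mem_iUnion₂.2 ⟨_, ⟨v, hv, rfl⟩, mem_ball_iff_norm.2 ?_⟩
  refine (Hinf.norm_le _ (C := 3 * ε / 4) (by positivity) fun y hy => ?_).trans_lt (by linarith)
  obtain ⟨x, hx, h3⟩ := mem_iUnion₂.1 (hcov (hVK hy))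
  have hb : ∀ f : Hinf H U, f ∈ Metric.closedBall 0 1 →
      ‖Hinf.ev U y f - Hinf.ev U x f‖ < ε / 4 := fun f hf =>
    h3 _ (fun z hz => Hinf.ev_mem f hz) fun z _ => (Hinf.norm_ev_le f z).trans (mem_closedBall_zero_iff.1 hf)
  have h4 : ‖Hinf.ev U x f - Hinf.ev U x (g v)‖ < ε / 4 := by
    rw [← hg2 v hv, mem_ball_iff_norm] at h2
    exact (norm_le_pi_norm (φ f - φ (g v)) ⟨x, hx⟩).trans_lt h2
  have h5 : Hinf.ev V y ((ρ : Hinf H U →ₗ[ℂ] Hinf H V) f - ρ (g v)) =
      (Hinf.ev U y f - Hinf.ev U x f) + (Hinf.ev U x f - Hinf.ev U x (g v)) -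
        (Hinf.ev U y (g v) - Hinf.ev U x (g v)) := by
    rw [map_sub, ContinuousLinearMap.coe_coe, Hinf.ev_res _ _ _ hy, Hinf.ev_res _ _ _ hy]; ring
  refine (congrArg norm h5).trans_le ?_
  have h6 := hb f hf
  have h7 := hb _ (hg1 v hv)
  refine (norm_sub_le _ _).trans ((add_le_add (norm_add_le _ _) le_rfl).trans ?_)
  linarith

theorem Hinf.exists_res (hM : H.Montel) {U V K : Set X} (hU : IsOpen U) (hV : IsOpen V)
    (hK : IsCompact K) (hVK : V ⊆ K) (hKU : K ⊆ U) :
    ∃ ρ : Hinf H U →L[ℂ] Hinf H V, IsCompactOperator ρ ∧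
      ∀ f, ∀ x ∈ V, Hinf.ev V x (ρ f) = Hinf.ev U x f :=
  ⟨_, Hinf.isCompactOperator_res hM hU hV hK hVK hKU, fun f _ hx => Hinf.ev_res _ _ f hx⟩

theorem isCompactOperator_pi {α : Type} [Fintype α] {W : Type} [NormedAddCommGroup W]
    [NormedSpace ℂ W] {Z : α → Type} [∀ a, NormedAddCommGroup (Z a)] [∀ a, NormedSpace ℂ (Z a)]
    (κ : ∀ a, W →L[ℂ] Z a) (h : ∀ a, IsCompactOperator (κ a)) :
    IsCompactOperator (ContinuousLinearMap.pi κ) := by
  choose K hK hK' using h
  refine ⟨univ.pi K, isCompact_univ_pi hK, ?_⟩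
  filter_upwards [eventually_all.2 hK'] with w hw a _ using hw a

theorem isCompactOperator_prod {W Z Z' : Type} [NormedAddCommGroup W] [NormedSpace ℂ W]
    [NormedAddCommGroup Z] [NormedSpace ℂ Z] [NormedAddCommGroup Z'] [NormedSpace ℂ Z']
    (κ : W →L[ℂ] Z) (κ' : W →L[ℂ] Z') (h : IsCompactOperator κ) (h' : IsCompactOperator κ') :
    IsCompactOperator (κ.prod κ') := by
  obtain ⟨K, hK, h1⟩ := h
  obtain ⟨K', hK', h2⟩ := h'
  refine ⟨K ×ˢ K', hK.prod hK', ?_⟩
  filter_upwards [h1, h2] with w a b using ⟨a, b⟩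

end Pool.Agent.QMax
end
end

-- part Pool.Agent.Lib.MP_ec9812_ag.FiniteA
section

/-! Banach spaces of cochains of bounded holomorphic functions. -/

open Set Filter Topology

set_option linter.unusedSectionVars false

noncomputable section

namespace Pool.Agent.QMax.Fini

variable {X ι : Type} [TopologicalSpace X] {H : HS X}

theorem continuous_dl {M : Type} [AddCommGroup M] [TopologicalSpace M] [IsTopologicalAddGroup M]
    (J : List ι) {Y : Type} [TopologicalSpace Y] {c : Y → List ι → M} (hc : Continuous c) :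
    Continuous fun y => dl (c y) J := by
  induction J generalizing c with
  | nil => exact continuous_const
  | cons i J ih =>
    exact ((continuous_apply J).comp hc).sub
      (ih (continuous_pi fun K => (continuous_apply (i :: K)).comp hc))

/-- The coboundary as a continuous linear map. -/
def dlC {M : Type} [AddCommGroup M] [Module ℂ M] [TopologicalSpace M] [IsTopologicalAddGroup M] :
    (List ι → M) →L[ℂ] (List ι → M) where
  toFun := dl
  map_add' := dl_add
  map_smul' := dl_smul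
  cont := continuous_pi fun J => continuous_dl J continuous_id

theorem eventually_sublist {x : X} {J : List ι} {p : List ι → X → Prop}
    (h : ∀ K : List ι, K.Sublist J → ∀ᶠ y in 𝓝 x, p K y) :
    ∀ᶠ y in 𝓝 x, ∀ K : List ι, K.Sublist J → p K y := by
  have : {K : List ι | K.Sublist J}.Finite :=
    (List.finite_toSet J.sublists).subset fun K hK => List.mem_sublists.2 hK
  exact (eventually_all_finite this).2 h

theorem dl_congr_apply {M : X → Type} [∀ x, AddCommGroup (M x)] {c c' : List ι → ∀ x, M x}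
    {J : List ι} {x : X}
    (h : ∀ K : List ι, K.Sublist J → K.length + 1 = J.length → c K x = c' K x) :
    dl c J x = dl c' J x := dl_congr (Pi.evalAddMonoidHom M x) h

theorem holV_dl {κ : Type} [Fintype κ] {c : List ι → X → κ → ℂ} {J : List ι} {x : X}
    (h : ∀ K : List ι, K.Sublist J → K.length + 1 = J.length → H.HolV (c K) x) :
    H.HolV (dl c J) x := dl_mem ((MSh.free H κ).A x) h

theorem lc_dl {G : MSh H} {κ : Type} [Fintype κ] (s : κ → G.T) {c : List ι → X → κ → ℂ}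
    {J : List ι} {x : X}
    (h : ∀ K : List ι, K.Sublist J → K.length + 1 = J.length → H.HolV (c K) x) :
    G.lc (dl c J) s x = dl (fun K => G.lc (c K) s) J x := by
  induction J generalizing c with
  | nil => rw [dl_nil, MSh.lc_zero]; rfl
  | cons i J ih =>
    have h1 : ∀ K : List ι, K.Sublist J → K.length + 1 = J.length → H.HolV (c (i :: K)) x :=
      fun K hK hl => h _ (hK.cons_cons i) (by simp [hl])
    rw [dl_cons, dl_cons, MSh.lc_sub s (h J (List.sublist_cons_self i J) rfl) (holV_dl h1), ih h1]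
    rfl

variable (H) in
/-- The Banach space `Hinf H U` as a type. -/
def HB (U : Set X) : Type := Hinf H U

instance (U : Set X) : NormedAddCommGroup (HB H U) :=
  inferInstanceAs (NormedAddCommGroup (Hinf H U))

instance (U : Set X) : NormedSpace ℂ (HB H U) := inferInstanceAs (NormedSpace ℂ (Hinf H U))

/-- Evaluation. -/
def evB (U : Set X) (x : X) : HB H U →L[ℂ] ℂ := Hinf.ev U x

theorem evB_mem {U : Set X} (f : HB H U) {x : X} (hx : x ∈ U) :
    (fun z => evB U z f) ∈ H.O x := Hinf.ev_mem f hx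

theorem completeSpace_HB (hM : H.Montel) {U : Set X} (hU : IsOpen U) : CompleteSpace (HB H U) :=
  Hinf.completeSpace hM hU

theorem HB.exists_of_compact {K V : Set X} (hK : IsCompact K) (hV : IsOpen V) (hVK : V ⊆ K)
    {f : X → ℂ} (hf : ∀ x ∈ K, f ∈ H.O x) : ∃ g : HB H V, ∀ x ∈ V, evB V x g = f x :=
  Hinf.exists_of_compact hK hV hVK hf

theorem HB.exists_res (hM : H.Montel) {U V K : Set X} (hU : IsOpen U) (hV : IsOpen V)
    (hK : IsCompact K) (hVK : V ⊆ K) (hKU : K ⊆ U) :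
    ∃ ρ : HB H U →L[ℂ] HB H V, IsCompactOperator ρ ∧
      ∀ f, ∀ x ∈ V, evB V x (ρ f) = evB U x f := Hinf.exists_res hM hU hV hK hVK hKU

variable (H) in
/-- Cochains of bounded holomorphic vector functions on lists of length `m`. -/
abbrev Cb (U : ι → Set X) (m : ℕ) (α : List ι → Type) : Type :=
  (J : List.Vector ι m) → α J.1 → HB H (capL U J.1)

variable [Fintype ι] {α : List ι → Type} [∀ J, Fintype (α J)]

/-- The underlying functions of a cochain. -/
def toF {U : ι → Set X} {m : ℕ} : Cb H U m α →L[ℂ] ((J : List ι) → X → α J → ℂ) where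
  toFun b J z k := if h : J.length = m then evB _ z (b ⟨J, h⟩ k) else 0
  map_add' b b' := by
    funext J z k
    by_cases h : J.length = m <;> simp [h]
  map_smul' c b := by
    funext J z k
    by_cases h : J.length = m <;> simp [h]
  cont := by
    refine continuous_pi fun J => continuous_pi fun z => continuous_pi fun k => ?_
    by_cases h : J.length = m
    · simp only [dif_pos h]
      exact (evB _ z).continuous.comp ((continuous_apply k).comp (continuous_apply _))
    · simp only [dif_neg h]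
      exact continuous_const

theorem toF_apply {U : ι → Set X} {m : ℕ} (b : Cb H U m α) {J : List ι} (h : J.length = m)
    (z : X) (k : α J) : toF b J z k = evB _ z (b ⟨J, h⟩ k) := dif_pos h

theorem holV_toF {U : ι → Set X} {m : ℕ} (b : Cb H U m α) {J : List ι} (h : J.length = m)
    {x : X} (hx : x ∈ capL U J) : H.HolV (toF b J) x := fun k => by
  simp only [toF_apply b h]
  exact evB_mem _ hx

variable {R : ℝ} {U K : ℝ → ι → Set X}

theorem ne_nil_of_length {m : ℕ} (hm : 1 ≤ m) {J : List ι} (h : J.length = m) : J ≠ [] := by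
  rintro rfl
  simp at h
  omega

theorem completeSpace_Cb (hM : H.Montel) {U : ι → Set X} (hU : ∀ i, IsOpen (U i)) (m : ℕ) :
    CompleteSpace (Cb H U m α) := by
  have := fun J => completeSpace_HB hM (isOpen_capL hU J)
  infer_instance

theorem exists_toF (hL : Levels R U K) {r : ℝ} (hr : r ≤ R) {m : ℕ} (hm : 1 ≤ m)
    {f : (J : List ι) → X → α J → ℂ}
    (hf : ∀ J : List ι, J.length = m → ∀ x ∈ capL (K r) J, H.HolV (f J) x) :
    ∃ b : Cb H (U r) m α, ∀ J : List ι, J.length = m → ∀ x ∈ capL (U r) J, toF b J x = f J x := by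
  have := fun (J : List.Vector ι m) (k : α J.1) =>
    HB.exists_of_compact (H := H) (hL.isCompact r hr J.1 (ne_nil_of_length hm J.2))
      (isOpen_capL (hL.isOpen r hr) J.1) (capL_mono (hL.sub r hr) J.1)
      (f := fun z => f J.1 z k) fun x hx => hf J.1 J.2 x hx k
  choose b hb using this
  exact ⟨b, fun J hJ x hx => funext fun k => (toF_apply b hJ x k).trans (hb ⟨J, hJ⟩ k x hx)⟩

theorem exists_resC (hM : H.Montel) (hL : Levels R U K) {r r' : ℝ} (h : r < r') (hr : r' ≤ R)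
    {m : ℕ} (hm : 1 ≤ m) :
    ∃ ρ : Cb H (U r') m α →L[ℂ] Cb H (U r) m α, IsCompactOperator ρ ∧
      ∀ b, ∀ J : List ι, J.length = m → ∀ x ∈ capL (U r) J, toF (ρ b) J x = toF b J x := by
  have hr0 := h.le.trans hr
  have := fun J : List.Vector ι m =>
    HB.exists_res hM (isOpen_capL (hL.isOpen r' hr) J.1) (isOpen_capL (hL.isOpen r hr0) J.1)
      (hL.isCompact r hr0 J.1 (ne_nil_of_length hm J.2)) (capL_mono (hL.sub r hr0) J.1)
      (capL_mono (hL.sub' r r' h hr) J.1)
  choose ρ h1 h2 using this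
  let pr : ∀ (J : List.Vector ι m) (_ : α J.1), Cb H (U r') m α →L[ℂ] HB H (capL (U r') J.1) :=
    fun J k =>
      { toFun := fun b => b J k
        map_add' := fun _ _ => rfl
        map_smul' := fun _ _ => rfl
        cont := (continuous_apply k).comp (continuous_apply J) }
  refine ⟨ContinuousLinearMap.pi fun J => ContinuousLinearMap.pi fun k => (ρ J).comp (pr J k),
    isCompactOperator_pi _ fun J => isCompactOperator_pi _ fun k => (h1 J).comp_clm (pr J k),
    fun b J hJ x hx => funext fun k => ?_⟩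
  rw [toF_apply _ hJ, toF_apply _ hJ]
  exact h2 ⟨J, hJ⟩ _ x hx

/-- Cochains of functions that vanish on the cover. -/
def Nul (κ : Type) (U : ι → Set X) (m : ℕ) : Submodule ℂ (List ι → X → κ → ℂ) where
  carrier := {c | ∀ J : List ι, J.length = m → ∀ x ∈ capL U J, c J x = 0}
  add_mem' ha hb J hJ x hx := by simp [ha J hJ x hx, hb J hJ x hx]
  zero_mem' _ _ _ _ := rfl
  smul_mem' c _ ha J hJ x hx := by simp [ha J hJ x hx]

theorem isClosed_Nul (κ : Type) (U : ι → Set X) (m : ℕ) :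
    IsClosed (Nul κ U m : Set (List ι → X → κ → ℂ)) := by
  have : (Nul κ U m : Set (List ι → X → κ → ℂ)) =
      ⋂ J : List ι, ⋂ _ : J.length = m, ⋂ x ∈ capL U J, {c | c J x = 0} := by
    ext c; simp [Nul]
  rw [this]
  exact isClosed_iInter fun J => isClosed_iInter fun _ => isClosed_biInter fun x _ =>
    isClosed_eq ((continuous_apply x).comp (continuous_apply J)) continuous_const

open Classical in
/-- Keep only the components whose index lies in the list. -/
def maskC {κ : Type} (idx : κ → ι) : (List ι → X → κ → ℂ) →L[ℂ] (List ι → X → κ → ℂ) where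
  toFun f J z k := if idx k ∈ J then f J z k else 0
  map_add' b b' := by
    funext J z k
    by_cases h : idx k ∈ J <;> simp [h]
  map_smul' c b := by
    funext J z k
    by_cases h : idx k ∈ J <;> simp [h]
  cont := by
    refine continuous_pi fun J => continuous_pi fun z => continuous_pi fun k => ?_
    by_cases h : idx k ∈ J
    · simp only [if_pos h]; fun_prop
    · simp only [if_neg h]; fun_prop

/-- Combination of the relation generators. -/
def tauC {κ : Type} (τ : (J : List ι) → α J → X → κ → ℂ) :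
    ((J : List ι) → X → α J → ℂ) →L[ℂ] (List ι → X → κ → ℂ) where
  toFun k J z := ∑ l, k J z l • τ J l z
  map_add' b b' := by
    funext J z
    simp [add_smul, Finset.sum_add_distrib]
  map_smul' c b := by
    funext J z
    simp [Finset.smul_sum, mul_smul]
  cont := by
    refine continuous_pi fun J => continuous_pi fun z => ?_
    fun_prop

end Pool.Agent.QMax.Fini
end
end

-- part Pool.Agent.Lib.MP_ec9812_ag.Act
section

/-!
The action of `ℤ[√3] ⋊ ⟨2 + √3⟩` on `ℂ^(h+2)`, and the interface `Model` of the quotient manifold.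
Coordinate `0` is expanded, all others are contracted; coordinates `0` and `1` are translated.
-/

open Set Filter Topology
open scoped Manifold ContDiff

noncomputable section

namespace Pool.Agent.QMax.Geo

/-- The unit `2 + √3`. -/
def lam : ℝ := 2 + √3

/-- First real embedding of `ℤ[√3]`. -/
def sp (a : ℤ × ℤ) : ℝ := a.1 + a.2 * √3

/-- Second real embedding of `ℤ[√3]`. -/
def sm (a : ℤ × ℤ) : ℝ := a.1 - a.2 * √3

/-- The model space. -/
abbrev EE (h : ℕ) : Type := Fin (h + 2) → ℂ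

variable {h : ℕ}

/-- Scaling factor of coordinate `i`. -/
def sc (k : ℤ) (i : Fin (h + 2)) : ℝ := if i = 0 then lam ^ k else lam ^ (-k)

/-- Translation of coordinate `i`. -/
def sh (a : ℤ × ℤ) (i : Fin (h + 2)) : ℝ := if i = 0 then sp a else if i = 1 then sm a else 0

/-- The action of the group element `(k, a)`. -/
def act (k : ℤ) (a : ℤ × ℤ) (y : EE h) : EE h := fun i => (sc k i : ℂ) * y i + (sh a i : ℂ)

/-- Fibre coordinates: all real coordinates except `Re y 0`, `Im y 0`, `Re y 1`. -/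
def IsFib (c : Fin (h + 2) × Bool) : Prop := c.1 ≠ 0 ∧ c ≠ (1, true)

instance (c : Fin (h + 2) × Bool) : Decidable (IsFib c) :=
  inferInstanceAs (Decidable (c.1 ≠ 0 ∧ c ≠ (1, true)))

/-- The vector of fibre coordinates. -/
def fv (y : EE h) : Fin (h + 2) × Bool → ℝ := fun c => if IsFib c then rc y c else 0

/-- Sup norm of the fibre coordinates. -/
def nv (y : EE h) : ℝ := ‖fv y‖

/-- The domain of the action. -/
def Om (h : ℕ) : Set (EE h) := {y | nv y ≠ 0}

/-- The invariant exhaustion function. -/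
def psi (y : EE h) : ℝ := nv y * |(y 0).im|

theorem sqrt3_gt : 1.7 < √3 := Real.lt_sqrt_of_sq_lt (by norm_num)

theorem sqrt3_lt : √3 < 1.8 := (Real.sqrt_lt' (by norm_num)).2 (by norm_num)

theorem sqrt3_sq : √3 * √3 = 3 := Real.mul_self_sqrt (by norm_num)

theorem three_lt_lam : 3 < lam := by unfold lam; linarith [sqrt3_gt]

theorem lam_lt_four : lam < 4 := by unfold lam; linarith [sqrt3_lt]

theorem one_lt_lam : 1 < lam := by linarith [three_lt_lam]

theorem lam_pos : 0 < lam := by linarith [three_lt_lam]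

theorem lam_inv : lam⁻¹ = 2 - √3 :=
  inv_eq_of_mul_eq_one_right (by unfold lam; linear_combination -sqrt3_sq)

theorem sc_pos (k : ℤ) (i : Fin (h + 2)) : 0 < sc k i := by
  unfold sc; split_ifs <;> exact zpow_pos lam_pos _

theorem sp_add (a b : ℤ × ℤ) : sp (a + b) = sp a + sp b := by simp [sp]; ring

theorem sm_add (a b : ℤ × ℤ) : sm (a + b) = sm a + sm b := by simp [sm]; ring

theorem sp_neg (a : ℤ × ℤ) : sp (-a) = -sp a := by simp [sp]; ring

theorem sm_neg (a : ℤ × ℤ) : sm (-a) = -sm a := by simp [sm]; ring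

@[simp] theorem sp_zero : sp 0 = 0 := by simp [sp]

@[simp] theorem sm_zero : sm 0 = 0 := by simp [sm]

theorem abs_fst_le {a : ℤ × ℤ} {R : ℝ} (h1 : |sp a| ≤ R) (h2 : |sm a| ≤ R) : |(a.1 : ℝ)| ≤ R := by
  rw [abs_le] at *; unfold sp at h1; unfold sm at h2; constructor <;> linarith

theorem abs_snd_le {a : ℤ × ℤ} {R : ℝ} (h1 : |sp a| ≤ R) (h2 : |sm a| ≤ R) : |(a.2 : ℝ)| ≤ R := by
  have h3 : |(a.2 : ℝ) * √3| ≤ R := by
    rw [abs_le] at *; unfold sp at h1; unfold sm at h2; constructor <;> linarith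
  rw [abs_mul, abs_of_pos (by positivity : (0 : ℝ) < √3)] at h3
  nlinarith [abs_nonneg (a.2 : ℝ), sqrt3_gt]

theorem eq_zero_of_small {a : ℤ × ℤ} (h1 : |sp a| < 1) (h2 : |sm a| < 1) : a = 0 := by
  have h3 := (abs_fst_le (le_max_left _ _) (le_max_right |sp a| |sm a|)).trans_lt (max_lt h1 h2)
  have h4 := (abs_snd_le (le_max_left _ _) (le_max_right |sp a| |sm a|)).trans_lt (max_lt h1 h2)
  rw [← Int.cast_abs, ← Int.cast_one, Int.cast_lt, Int.abs_lt_one_iff] at h3 h4
  exact Prod.ext h3 h4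

theorem sp_sm_inj {a b : ℤ × ℤ} (h1 : sp a = sp b) (h2 : sm a = sm b) : a = b := by
  rw [← sub_eq_zero]
  refine eq_zero_of_small ?_ ?_
  · rw [sub_eq_add_neg, sp_add, sp_neg, h1]; simp
  · rw [sub_eq_add_neg, sm_add, sm_neg, h2]; simp

theorem exists_mul (k : ℤ) (a : ℤ × ℤ) :
    ∃ a', sp a' = lam ^ k * sp a ∧ sm a' = lam ^ (-k) * sm a := by
  induction k using Int.induction_on with
  | zero => exact ⟨a, by simp⟩
  | succ k ih =>
    obtain ⟨b, h1, h2⟩ := ih
    refine ⟨(2 * b.1 + 3 * b.2, b.1 + 2 * b.2), ?_, ?_⟩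
    · rw [zpow_add_one₀ lam_pos.ne', mul_right_comm, ← h1]
      simp only [sp, lam]; push_cast; linear_combination -(b.2 : ℝ) * sqrt3_sq
    · rw [neg_add, ← sub_eq_add_neg, zpow_sub_one₀ lam_pos.ne', mul_right_comm, ← h2, lam_inv]
      simp only [sm]; push_cast; linear_combination -(b.2 : ℝ) * sqrt3_sq
  | pred k ih =>
    obtain ⟨b, h1, h2⟩ := ih
    refine ⟨(2 * b.1 - 3 * b.2, -b.1 + 2 * b.2), ?_, ?_⟩
    · rw [zpow_sub_one₀ lam_pos.ne', mul_right_comm, ← h1, lam_inv]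
      simp only [sp]; push_cast; linear_combination (b.2 : ℝ) * sqrt3_sq
    · rw [neg_sub', sub_neg_eq_add, zpow_add_one₀ lam_pos.ne', mul_right_comm, ← h2]
      simp only [sm, lam]; push_cast; linear_combination (b.2 : ℝ) * sqrt3_sq

@[simp] theorem act_zero (y : EE h) : act 0 0 y = y := by
  funext i; simp [act, sc, sh]

theorem act_act (k k' : ℤ) (a a' : ℤ × ℤ) :
    ∃ b, ∀ y : EE h, act k a (act k' a' y) = act (k + k') b y := by
  obtain ⟨b, h1, h2⟩ := exists_mul k a'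
  refine ⟨b + a, fun y => funext fun i => ?_⟩
  simp only [act, sc, sh, sp_add, sm_add, h1, h2, neg_add, zpow_add₀ lam_pos.ne']
  split_ifs <;> push_cast <;> ring

theorem act_inv (k : ℤ) (a : ℤ × ℤ) :
    ∃ b, ∀ y : EE h, act (-k) b (act k a y) = y ∧ act k a (act (-k) b y) = y := by
  obtain ⟨b, h1, h2⟩ := exists_mul (-k) a
  have h3 : ((lam : ℂ)) ^ k ≠ 0 := zpow_ne_zero _ (by exact_mod_cast lam_pos.ne')
  refine ⟨-b, fun y => ⟨funext fun i => ?_, funext fun i => ?_⟩⟩ <;>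
    simp only [act, sc, sh, sp_neg, sm_neg, h1, h2, neg_neg, zpow_neg] <;>
    split_ifs <;> push_cast <;> field_simp <;> ring

theorem rc_act (k : ℤ) (a : ℤ × ℤ) (y : EE h) (c : Fin (h + 2) × Bool) :
    rc (act k a y) c = sc k c.1 * rc y c + if c.2 then sh a c.1 else 0 := by
  obtain ⟨i, b⟩ := c
  cases b <;> simp [act]

theorem rc_act_fib (k : ℤ) (a : ℤ × ℤ) (y : EE h) {c : Fin (h + 2) × Bool} (hc : IsFib c) :
    rc (act k a y) c = lam ^ (-k) * rc y c := by
  obtain ⟨i, b⟩ := c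
  have h0 : i ≠ 0 := hc.1
  rw [rc_act]
  cases b
  · simp [sc, h0]
  · have h1 : i ≠ 1 := fun h => hc.2 (by rw [h])
    simp [sc, sh, h0, h1]

theorem act_apply_zero (k : ℤ) (a : ℤ × ℤ) (y : EE h) :
    act k a y 0 = (lam ^ k : ℝ) * y 0 + (sp a : ℂ) := by simp [act, sc, sh]

theorem act_apply_one (k : ℤ) (a : ℤ × ℤ) (y : EE h) :
    act k a y 1 = (lam ^ (-k) : ℝ) * y 1 + (sm a : ℂ) := by simp [act, sc, sh]

theorem act_apply_succ_succ (k : ℤ) (a : ℤ × ℤ) (y : EE h) (i : Fin h) :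
    act k a y i.succ.succ = (lam ^ (-k) : ℝ) * y i.succ.succ := by
  have h1 : i.succ.succ ≠ 1 := fun h => Fin.succ_ne_zero i (Fin.succ_injective _ h)
  simp [act, sc, sh, h1]

theorem nv_nonneg (y : EE h) : 0 ≤ nv y := norm_nonneg _

theorem nv_act (k : ℤ) (a : ℤ × ℤ) (y : EE h) : nv (act k a y) = lam ^ (-k) * nv y := by
  have : fv (act k a y) = lam ^ (-k) • fv y := by
    funext c
    simp only [fv, Pi.smul_apply, smul_eq_mul]
    split_ifs with hc
    · exact rc_act_fib k a y hc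
    · simp
  rw [nv, this, norm_smul, Real.norm_of_nonneg (zpow_pos lam_pos _).le, nv]

theorem im_act_zero (k : ℤ) (a : ℤ × ℤ) (y : EE h) : (act k a y 0).im = lam ^ k * (y 0).im := by
  rw [act_apply_zero, Complex.add_im, Complex.ofReal_im, add_zero, Complex.im_ofReal_mul]

theorem psi_act (k : ℤ) (a : ℤ × ℤ) (y : EE h) : psi (act k a y) = psi y := by
  have := (zpow_pos lam_pos k)
  rw [psi, nv_act, im_act_zero, abs_mul, abs_of_pos this, zpow_neg, psi]
  field_simp

theorem psi_nonneg (y : EE h) : 0 ≤ psi y := mul_nonneg (nv_nonneg y) (abs_nonneg _)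

theorem mem_Om {y : EE h} : y ∈ Om h ↔ 0 < nv y :=
  ⟨fun hy => (nv_nonneg y).lt_of_ne' hy, fun hy => hy.ne'⟩

theorem act_mem_Om (k : ℤ) (a : ℤ × ℤ) {y : EE h} : act k a y ∈ Om h ↔ y ∈ Om h := by
  simp only [mem_Om, nv_act]
  exact mul_pos_iff_of_pos_left (zpow_pos lam_pos _)

theorem abs_rc_le_nv (y : EE h) {c : Fin (h + 2) × Bool} (hc : IsFib c) : |rc y c| ≤ nv y := by
  have := norm_le_pi_norm (fv y) c
  rwa [fv, if_pos hc] at this

theorem nv_lt_iff {y : EE h} {ρ : ℝ} (hρ : 0 < ρ) :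
    nv y < ρ ↔ ∀ c, IsFib c → |rc y c| < ρ := by
  refine ⟨fun h c hc => (abs_rc_le_nv y hc).trans_lt h, fun h => (pi_norm_lt_iff hρ).2 fun c => ?_⟩
  unfold fv
  split_ifs with hc
  · exact h c hc
  · simpa using hρ

theorem nv_le_iff {y : EE h} {ρ : ℝ} (hρ : 0 ≤ ρ) :
    nv y ≤ ρ ↔ ∀ c, IsFib c → |rc y c| ≤ ρ := by
  refine ⟨fun h c hc => (abs_rc_le_nv y hc).trans h,
    fun h => (pi_norm_le_iff_of_nonneg hρ).2 fun c => ?_⟩
  unfold fv
  split_ifs with hc
  · exact h c hc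
  · simpa using hρ

theorem mem_Om_of_rc_ne {y : EE h} {c : Fin (h + 2) × Bool} (hc : IsFib c) (h0 : rc y c ≠ 0) :
    y ∈ Om h := mem_Om.2 ((abs_pos.2 h0).trans_le (abs_rc_le_nv y hc))

theorem continuous_nv : Continuous (nv : EE h → ℝ) := by
  refine continuous_norm.comp (continuous_pi fun c => ?_)
  unfold fv
  split_ifs
  · exact continuous_rc_apply c
  · exact continuous_const

theorem continuous_psi : Continuous (psi : EE h → ℝ) :=
  continuous_nv.mul (Complex.continuous_im.comp (continuous_apply 0)).abs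

theorem isOpen_Om : IsOpen (Om h) := isOpen_ne_fun continuous_nv continuous_const

theorem contDiff_act (k : ℤ) (a : ℤ × ℤ) : ContDiff ℂ ω (act k a : EE h → EE h) := by
  unfold act; fun_prop

theorem continuous_act (k : ℤ) (a : ℤ × ℤ) : Continuous (act k a : EE h → EE h) :=
  (contDiff_act k a).continuous

theorem act_inj {k k' : ℤ} {a a' : ℤ × ℤ} {y : EE h} (hy : y ∈ Om h)
    (he : act k a y = act k' a' y) : k = k' ∧ a = a' := by
  have h1 := congrArg nv he
  rw [nv_act, nv_act, mul_left_inj' hy] at h1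
  obtain rfl : k = k' := neg_injective (zpow_right_injective₀ lam_pos one_lt_lam.ne' h1)
  have h2 := congrFun he 0
  have h3 := congrFun he 1
  rw [act_apply_zero, act_apply_zero, add_right_inj, Complex.ofReal_inj] at h2
  rw [act_apply_one, act_apply_one, add_right_inj, Complex.ofReal_inj] at h3
  exact ⟨rfl, sp_sm_inj h2 h3⟩

theorem finite_int_abs_le (R : ℝ) : {m : ℤ | |(m : ℝ)| ≤ R}.Finite := by
  refine (finite_Icc (-⌈R⌉) ⌈R⌉).subset fun m hm => abs_le.1 ?_
  have : ((|m| : ℤ) : ℝ) ≤ (⌈R⌉ : ℤ) := by rw [Int.cast_abs]; exact le_trans hm (Int.le_ceil R)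
  exact_mod_cast this

theorem finite_a (R : ℝ) : {a : ℤ × ℤ | |sp a| ≤ R ∧ |sm a| ≤ R}.Finite :=
  ((finite_int_abs_le R).prod (finite_int_abs_le R)).subset
    fun _ ha => ⟨abs_fst_le ha.1 ha.2, abs_snd_le ha.1 ha.2⟩

theorem finite_k (R : ℝ) : {k : ℤ | lam ^ k ≤ R ∧ lam ^ (-k) ≤ R}.Finite := by
  obtain ⟨N, hN⟩ := pow_unbounded_of_one_lt R one_lt_lam
  refine (finite_Icc (-(N : ℤ)) N).subset fun k hk => ⟨?_, ?_⟩
  · have := hk.2.trans_lt hN
    rw [← zpow_natCast, zpow_lt_zpow_iff_right₀ one_lt_lam] at this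
    omega
  · have := hk.1.trans_lt hN
    rw [← zpow_natCast, zpow_lt_zpow_iff_right₀ one_lt_lam] at this
    omega

theorem exists_shift (u s : ℝ) : ∃ a, |u + sp a| ≤ 2 ∧ |s + sm a| ≤ 2 := by
  have h3 : (0 : ℝ) < √3 := by positivity
  have h1 := abs_le.1 (abs_sub_round ((u + s) / 2))
  have h2 := abs_le.1 (abs_sub_round ((u - s) / (2 * √3)))
  set x := round ((u + s) / 2)
  set y := round ((u - s) / (2 * √3))
  set t := (u - s) / (2 * √3) with ht
  have h4 : u - s = t * (2 * √3) := by rw [ht]; field_simp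
  have h5 : |(t - y) * √3| ≤ 1 := by
    rw [abs_le]; constructor <;> nlinarith [sqrt3_lt]
  rw [abs_le] at h5
  refine ⟨(-x, -y), ?_, ?_⟩ <;> simp only [sp, sm] <;> push_cast <;> rw [abs_le] <;>
    constructor <;> nlinarith

theorem exists_scale {t : ℝ} (ht : 0 < t) : ∃ k : ℤ, 1 ≤ lam ^ k * t ∧ lam ^ k * t < lam := by
  obtain ⟨k, h1, h2⟩ := exists_mem_Ico_zpow ht one_lt_lam
  have h3 := zpow_pos lam_pos k
  refine ⟨-k, ?_, ?_⟩
  · rw [zpow_neg, le_inv_mul_iff₀ h3, mul_one]; exact h1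
  · rw [zpow_neg, inv_mul_lt_iff₀ h3, ← zpow_add_one₀ lam_pos.ne']; exact h2

/-- Proper discontinuity. -/
theorem finite_meet {C C' : Set (EE h)} (hC : IsCompact C) (hC' : IsCompact C') (h1 : C ⊆ Om h)
    (h2 : C' ⊆ Om h) : {g : ℤ × ℤ × ℤ | ∃ y ∈ C, act g.1 g.2 y ∈ C'}.Finite := by
  have hK := hC.union hC'
  rcases (C ∪ C').eq_empty_or_nonempty with he | hne
  · refine finite_empty.subset ?_
    rintro g ⟨y, hy, -⟩
    exact he.subset (Or.inl hy)
  obtain ⟨y₀, hy₀, hmin⟩ := hK.exists_isMinOn hne continuous_nv.continuousOn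
  obtain ⟨y₁, -, hmax⟩ := hK.exists_isMaxOn hne continuous_nv.continuousOn
  obtain ⟨B, hB⟩ := hK.isBounded.exists_norm_le
  have hp : 0 < nv y₀ := mem_Om.1 (union_subset h1 h2 hy₀)
  set R := nv y₁ / nv y₀
  refine ((finite_k R).prod (finite_a (B + R * B))).subset ?_
  rintro ⟨k, a⟩ ⟨y, hy, hy'⟩
  have a1 : nv y₀ ≤ nv y := hmin (Or.inl hy)
  have a2 : nv y ≤ nv y₁ := hmax (Or.inl hy)
  have a3 : nv y₀ ≤ nv (act k a y) := hmin (Or.inr hy')
  have a4 : nv (act k a y) ≤ nv y₁ := hmax (Or.inr hy')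
  rw [nv_act] at a3 a4
  have p1 := zpow_pos lam_pos k
  have p2 := zpow_pos lam_pos (-k)
  have b1 : lam ^ k ≤ R := by
    rw [le_div_iff₀ hp]
    rw [zpow_neg, le_inv_mul_iff₀ p1] at a3
    linarith
  have b2 : lam ^ (-k) ≤ R := by
    rw [le_div_iff₀ hp]
    nlinarith
  have key : ∀ (i : Fin (h + 2)) (t s : ℝ), 0 < t → t ≤ R → act k a y i = t * y i + s →
      |s| ≤ B + R * B := by
    intro i t s ht htR he
    have c1 := (norm_le_pi_norm _ i).trans (hB _ (Or.inl hy))
    have c2 := (norm_le_pi_norm _ i).trans (hB _ (Or.inr hy'))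
    have c3 : (s : ℂ) = act k a y i - t * y i := by rw [he]; ring
    rw [← Real.norm_eq_abs, ← Complex.norm_real, c3]
    refine (norm_sub_le _ _).trans (add_le_add c2 ?_)
    rw [norm_mul, Complex.norm_real, Real.norm_of_nonneg ht.le]
    exact mul_le_mul htR c1 (norm_nonneg _) (ht.le.trans htR)
  exact ⟨⟨b1, b2⟩, key 0 _ _ p1 b1 (act_apply_zero k a y), key 1 _ _ p2 b2 (act_apply_one k a y)⟩

/-- The quotient manifold `Om h / Γ`, through the properties that are used. -/
structure Model (h : ℕ) where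
  X : Type
  [top : TopologicalSpace X]
  [chs : ChartedSpace (EE h) X]
  π : EE h → X
  ψ : X → ℝ
  manifold : IsManifold 𝓘(ℂ, EE h) ω X
  t2 : T2Space X
  sigma : SigmaCompactSpace X
  conn : ConnectedSpace X
  noncompact : NoncompactSpace X
  eq_iff : ∀ y ∈ Om h, ∀ y' ∈ Om h, π y = π y' ↔ ∃ k a, y' = act k a y
  surj : ∀ x, ∃ y ∈ Om h, π y = x
  cont : ContinuousOn π (Om h)
  open_image : ∀ W, IsOpen W → W ⊆ Om h → IsOpen (π '' W)
  locInj : ∀ y ∈ Om h, ∃ W, IsOpen W ∧ y ∈ W ∧ W ⊆ Om h ∧ InjOn π W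
  chart : ∀ W, IsOpen W → W ⊆ Om h → InjOn π W →
    ∃ e : OpenPartialHomeomorph X (EE h), e ∈ atlas (EE h) X ∧ e.target = W ∧ ⇑e.symm = π
  psi_pi : ∀ y ∈ Om h, ψ (π y) = psi y
  psi_cont : Continuous ψ
  psi_compact : ∀ c, IsCompact {x | ψ x ≤ c}

attribute [instance] Model.top Model.chs

end Pool.Agent.QMax.Geo
end
end

-- part Pool.Agent.Lib.MP_ec9812_ag.Geo1
section

/-! Construction of the quotient manifold. -/

open Set Filter Topology
open scoped Manifold ContDiff

noncomputable section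

namespace Pool.Agent.QMax.Geo

namespace Geo1

variable {h : ℕ}

/-- The orbit relation. -/
def st (h : ℕ) : Setoid (Om h) where
  r y y' := ∃ k a, y'.1 = act k a y.1
  iseqv :=
    { refl := fun y => ⟨0, 0, (act_zero _).symm⟩
      symm := fun {y _} ⟨k, a, e⟩ => (act_inv (h := h) k a).elim fun b hb =>
        ⟨-k, b, by rw [e, (hb y.1).1]⟩
      trans := fun {y _ _} ⟨k, a, e⟩ ⟨k', a', e'⟩ => (act_act (h := h) k' k a' a).elim fun b hb =>
        ⟨k' + k, b, by rw [e', e, hb]⟩ }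

/-- The orbit space. -/
def XX (h : ℕ) : Type := Quotient (st h)

instance : TopologicalSpace (XX h) := inferInstanceAs (TopologicalSpace (Quotient (st h)))

theorem isFib_one : IsFib ((1 : Fin (h + 2)), false) := ⟨Fin.zero_ne_one.symm, by simp⟩

theorem pt_mem : (fun _ => Complex.I : EE h) ∈ Om h := mem_Om_of_rc_ne isFib_one (by simp)

open Classical in
/-- The projection. -/
def pr (y : EE h) : XX h :=
  if hy : y ∈ Om h then Quotient.mk (st h) ⟨y, hy⟩ else Quotient.mk (st h) ⟨_, pt_mem⟩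

theorem pr_coe (y : Om h) : pr y.1 = Quotient.mk (st h) y := dif_pos y.2

theorem pr_eq_iff {y y' : EE h} (hy : y ∈ Om h) (hy' : y' ∈ Om h) :
    pr y = pr y' ↔ ∃ k a, y' = act k a y := by
  rw [pr_coe ⟨y, hy⟩, pr_coe ⟨y', hy'⟩]
  exact Quotient.eq

theorem pr_act (k : ℤ) (a : ℤ × ℤ) {y : EE h} (hy : y ∈ Om h) : pr (act k a y) = pr y :=
  ((pr_eq_iff hy ((act_mem_Om k a).2 hy)).2 ⟨k, a, rfl⟩).symm

theorem pr_surj (x : XX h) : ∃ y ∈ Om h, pr y = x :=
  Quotient.inductionOn x fun y => ⟨y.1, y.2, pr_coe y⟩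

theorem pr_cont : ContinuousOn pr (Om h) :=
  continuousOn_iff_continuous_domRestrict.2
    ((continuous_quotient_mk' (s := st h)).congr fun y => (pr_coe y).symm)

theorem pr_open {W : Set (EE h)} (h1 : IsOpen W) (h2 : W ⊆ Om h) : IsOpen (pr '' W) := by
  refine (isQuotientMap_quotient_mk' (s := st h)).isOpen_preimage.1 ?_
  have : Quotient.mk' (s := st h) ⁻¹' (pr '' W) =
      Subtype.val ⁻¹' ⋃ (k : ℤ) (a : ℤ × ℤ), act k a ⁻¹' W := by
    ext y
    simp only [mem_preimage, mem_iUnion]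
    constructor
    · rintro ⟨z, hz, e⟩
      obtain ⟨k, a, rfl⟩ := (pr_eq_iff y.2 (h2 hz)).1 ((pr_coe y).trans e.symm)
      exact ⟨k, a, hz⟩
    · rintro ⟨k, a, hz⟩
      exact ⟨_, hz, (pr_act k a y.2).trans (pr_coe y)⟩
  exact this.symm ▸ (isOpen_iUnion fun k => isOpen_iUnion fun a =>
    h1.preimage (continuous_act k a)).preimage continuous_subtype_val

theorem local_sep {y y' : EE h} (hy : y ∈ Om h) (hy' : y' ∈ Om h) :
    ∃ U V, IsOpen U ∧ IsOpen V ∧ y ∈ U ∧ y' ∈ V ∧ U ⊆ Om h ∧ V ⊆ Om h ∧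
      ∀ z ∈ U, ∀ z' ∈ V, ∀ k a, z' = act k a z → y' = act k a y := by
  obtain ⟨C, h1, h2, h3⟩ := local_compact_nhds (isOpen_Om.mem_nhds hy)
  obtain ⟨C', h1', h2', h3'⟩ := local_compact_nhds (isOpen_Om.mem_nhds hy')
  have h4 : ∀ᶠ p : EE h × EE h in 𝓝 (y, y'), ∀ g ∈ {g : ℤ × ℤ × ℤ | ∃ y ∈ C, act g.1 g.2 y ∈ C'},
      p.2 = act g.1 g.2 p.1 → y' = act g.1 g.2 y := by
    refine (eventually_all_finite (finite_meet h3 h3' h2 h2')).2 fun g _ => ?_
    by_cases e : y' = act g.1 g.2 y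
    · exact Eventually.of_forall fun _ _ => e
    · exact ((isOpen_ne_fun continuous_snd ((continuous_act g.1 g.2).comp
        continuous_fst)).eventually_mem (x := (y, y')) e).mono fun p hp h => absurd h hp
  obtain ⟨U, V, a1, a2, a3, a4, a5⟩ := mem_nhds_prod_iff'.1 (inter_mem h4 (prod_mem_nhds h1 h1'))
  refine ⟨U, V, a1, a3, a2, a4, fun z hz => h2 (a5 (mk_mem_prod hz a4)).2.1,
    fun z hz => h2' (a5 (mk_mem_prod a2 hz)).2.2, fun z hz z' hz' k a e => ?_⟩
  have := a5 (mk_mem_prod hz hz')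
  exact this.1 (k, a) ⟨z, this.2.1, e ▸ this.2.2⟩ e

theorem loc_inj {y : EE h} (hy : y ∈ Om h) : ∃ W, IsOpen W ∧ y ∈ W ∧ W ⊆ Om h ∧ InjOn pr W := by
  obtain ⟨U, V, h1, h2, h3, h4, h5, h6, h7⟩ := local_sep hy hy
  refine ⟨U ∩ V, h1.inter h2, ⟨h3, h4⟩, fun z hz => h5 hz.1, fun z hz z' hz' e => ?_⟩
  obtain ⟨k, a, h8⟩ := (pr_eq_iff (h5 hz.1) (h5 hz'.1)).1 e
  obtain ⟨rfl, rfl⟩ := act_inj hy ((act_zero y).trans (h7 z hz.1 z' hz'.2 k a h8))
  rw [h8, act_zero]

instance : T2Space (XX h) where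
  t2 x x' hx := by
    obtain ⟨y, hy, rfl⟩ := pr_surj x
    obtain ⟨y', hy', rfl⟩ := pr_surj x'
    obtain ⟨U, V, h1, h2, h3, h4, h5, h6, h7⟩ := local_sep hy hy'
    refine ⟨_, _, pr_open h1 h5, pr_open h2 h6, mem_image_of_mem _ h3, mem_image_of_mem _ h4,
      Set.disjoint_left.2 ?_⟩
    rintro _ ⟨z, hz, rfl⟩ ⟨z', hz', e⟩
    obtain ⟨k, a, h8⟩ := (pr_eq_iff (h5 hz) (h6 hz')).1 e.symm
    exact hx ((pr_eq_iff hy hy').2 ⟨k, a, h7 z hz z' hz' k a h8⟩)

theorem exists_chart {W : Set (EE h)} (h1 : IsOpen W) (h2 : W ⊆ Om h) (h3 : InjOn pr W) :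
    ∃ e : OpenPartialHomeomorph (XX h) (EE h), e.target = W ∧ ⇑e.symm = pr := by
  refine ⟨(OpenPartialHomeomorph.ofContinuousOpenRestrict (h3.toPartialEquiv pr W)
    (pr_cont.mono h2) (fun U hU => ?_) h1).symm, rfl, rfl⟩
  have := pr_open (h1.isOpenMap_subtype_val U hU) fun _ ⟨z, _, e⟩ => e ▸ h2 z.2
  rwa [image_image] at this

theorem exists_chartAt (x : XX h) : ∃ e : OpenPartialHomeomorph (XX h) (EE h),
    (e.target ⊆ Om h ∧ ⇑e.symm = pr) ∧ x ∈ e.source := by
  obtain ⟨y, hy, rfl⟩ := pr_surj x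
  obtain ⟨W, h1, h2, h3, h4⟩ := loc_inj hy
  obtain ⟨e, h5, h6⟩ := exists_chart h1 h3 h4
  exact ⟨e, ⟨h5 ▸ h3, h6⟩, h6 ▸ e.map_target (h5 ▸ h2)⟩

instance : ChartedSpace (EE h) (XX h) where
  atlas := {e | e.target ⊆ Om h ∧ ⇑e.symm = pr}
  chartAt x := (exists_chartAt x).choose
  mem_chart_source x := (exists_chartAt x).choose_spec.2
  chart_mem_atlas x := (exists_chartAt x).choose_spec.1

theorem manifold : IsManifold 𝓘(ℂ, EE h) ω (XX h) := by
  refine isManifold_of_contDiffOn _ _ _ fun e e' he he' y hy => ?_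
  have h1 : y ∈ e.target ∧ pr y ∈ e'.source := by simpa [he.2] using hy
  have h2 := e'.map_source h1.2
  obtain ⟨k, a, h3⟩ := (pr_eq_iff (he.1 h1.1) (he'.1 h2)).1
    ((e'.left_inv h1.2).symm.trans (congrFun he'.2 _))
  refine ((contDiff_act k a).contDiffAt.congr_of_eventuallyEq ?_).contDiffWithinAt
  filter_upwards [isOpen_Om.mem_nhds (he.1 h1.1), (continuous_act k a).continuousAt.preimage_mem_nhds
    (e'.open_target.mem_nhds (h3 ▸ h2))] with z h4 h5
  have h6 := e'.right_inv h5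
  rw [he'.2, pr_act k a h4] at h6
  simpa [he.2] using h6

/-- The exhaustion function. -/
def ps : XX h → ℝ := Quotient.lift (fun y : Om h => psi y.1) fun y _ ⟨k, a, e⟩ => by
  simp only [e, psi_act]

theorem ps_pr {y : EE h} (hy : y ∈ Om h) : ps (pr y) = psi y := by
  rw [pr_coe ⟨y, hy⟩]; rfl

theorem ps_cont : Continuous (ps : XX h → ℝ) :=
  (continuous_psi.comp continuous_subtype_val).quotient_lift _

theorem ps_compact (c : ℝ) : IsCompact {x : XX h | ps x ≤ c} := by
  let D : Set (EE h) := Box (fun _ => -(|c| + 4)) (fun _ => |c| + 4) ∩ {y | 1 ≤ nv y ∧ psi y ≤ c}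
  have h1 : D ⊆ Om h := fun y hy => mem_Om.2 (one_pos.trans_le hy.2.1)
  have h2 : IsCompact D := (isCompact_Box _ _).inter_right
    ((isClosed_le continuous_const continuous_nv).inter (isClosed_le continuous_psi continuous_const))
  suffices e : {x : XX h | ps x ≤ c} = pr '' D from e ▸ h2.image_of_continuousOn (pr_cont.mono h1)
  refine Subset.antisymm (fun x hx => ?_) ?_
  swap
  · rintro _ ⟨y, hy, rfl⟩
    exact (ps_pr (h1 hy)).trans_le hy.2.2
  obtain ⟨y, hy, rfl⟩ := pr_surj x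
  obtain ⟨k, h3, h4⟩ := exists_scale (mem_Om.1 hy)
  obtain ⟨a, h5, h6⟩ := exists_shift (act (-k) 0 y 0).re (act (-k) 0 y 1).re
  set z := act 0 a (act (-k) 0 y) with hz
  have h7 : nv z = lam ^ k * nv y := by simp [hz, nv_act]
  have h8 : psi z ≤ c := by rw [hz, psi_act, psi_act, ← ps_pr hy]; exact hx
  have h9 := abs_nonneg c
  refine ⟨z, ⟨fun i => abs_le.1 ?_, h7 ▸ h3, h8⟩, by
    rw [hz, pr_act _ _ ((act_mem_Om _ _).2 hy), pr_act _ _ hy]⟩
  by_cases hi : IsFib i
  · linarith [abs_rc_le_nv z hi, lam_lt_four]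
  obtain ⟨i, b⟩ := i
  by_cases h0 : i = 0
  · subst h0
    cases b
    · have : psi z = nv z * |(z 0).im| := rfl
      have := le_abs_self c
      rw [rc_false]
      nlinarith [abs_nonneg (z 0).im]
    · have : (z 0).re = (act (-k) 0 y 0).re + sp a := by rw [hz, act_apply_zero]; simp
      rw [rc_true, this]; linarith
  · have : (i, b) = (1, true) := by_contra fun e => hi ⟨h0, e⟩
    rw [this]
    have : (z 1).re = (act (-k) 0 y 1).re + sm a := by rw [hz, act_apply_one]; simp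
    rw [rc_true, this]; linarith

theorem sigma : SigmaCompactSpace (XX h) :=
  ⟨⟨fun n : ℕ => {x | ps x ≤ n}, fun _ => ps_compact _,
    eq_univ_of_forall fun x => mem_iUnion.2 (exists_nat_ge (ps x))⟩⟩

theorem noncompact : NoncompactSpace (XX h) := by
  refine ⟨fun hc => ?_⟩
  obtain ⟨B, hB⟩ := (hc.image ps_cont).bddAbove
  let y : EE h := fun _ => (|B| + 1 : ℝ) * Complex.I
  have h1 : |B| + 1 ≤ nv y := (le_abs_self _).trans' (by simp [y]) |>.trans
    (abs_rc_le_nv y isFib_one)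
  have h2 := abs_nonneg B
  have h3 : psi y ≤ B := (ps_pr (mem_Om.2 (by linarith))).symm.trans_le (hB ⟨_, trivial, rfl⟩)
  have h4 : |(y 0).im| = |B| + 1 := by
    rw [show (y 0).im = |B| + 1 by simp [y]]; exact abs_of_pos (by linarith)
  rw [psi, h4] at h3
  nlinarith [le_abs_self B]

theorem Om_conn (hh : 1 ≤ h) : IsPathConnected (Om h) := by
  let E : Submodule ℝ (EE h) :=
    { carrier := {y | ∀ c, IsFib c → rc y c = 0}
      add_mem' := fun {a b} ha hb ⟨i, s⟩ hc => by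
        have h1 := ha _ hc
        have h2 := hb _ hc
        cases s <;> simp_all
      zero_mem' := fun ⟨i, s⟩ _ => by cases s <;> simp
      smul_mem' := fun t a ha ⟨i, s⟩ hc => by
        have h1 := ha _ hc
        cases s <;> simp_all }
  have h1 : Om h = (E : Set (EE h))ᶜ := by
    ext y
    rw [mem_Om, ← not_le, nv_le_iff le_rfl]
    simp only [abs_nonpos_iff]
    rfl
  let i : Fin (h + 2) := (⟨0, hh⟩ : Fin h).succ.succ
  have h2 : ∀ s, IsFib (i, s) := fun s => ⟨Fin.succ_ne_zero (⟨0, hh⟩ : Fin h).succ, fun e =>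
    Fin.succ_ne_zero (⟨0, hh⟩ : Fin h) (Fin.succ_injective _ (congrArg Prod.fst e))⟩
  rw [h1]
  refine isPathConnected_compl_of_one_lt_codim (lt_of_lt_of_le ?_
    (LinearMap.rank_le_of_surjective (E.liftQ (LinearMap.proj i) fun y hy =>
      Complex.ext (hy _ (h2 true)) (hy _ (h2 false))) fun z => ⟨E.mkQ fun _ => z, rfl⟩))
  rw [Complex.rank_real_complex]
  exact Cardinal.one_lt_two

theorem conn (hh : 1 ≤ h) : ConnectedSpace (XX h) := by
  have := (Om_conn hh).isConnected.image _ pr_cont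
  rw [eq_univ_of_forall (s := pr '' Om h) pr_surj] at this
  exact connectedSpace_iff_univ.2 this

end Geo1

open Geo1 in
theorem exists_model {h : ℕ} (hh : 1 ≤ h) : Nonempty (Model h) :=
  ⟨{  X := XX h
      π := pr
      ψ := ps
      manifold := manifold
      t2 := inferInstance
      sigma := sigma
      conn := conn hh
      noncompact := noncompact
      eq_iff := fun _ hy _ hy' => pr_eq_iff hy hy'
      surj := pr_surj
      cont := pr_cont
      open_image := fun _ => pr_open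
      locInj := fun _ => loc_inj
      chart := fun _ h1 h2 h3 => (exists_chart h1 h2 h3).elim fun e he =>
        ⟨e, ⟨he.1 ▸ h2, he.2⟩, he⟩
      psi_pi := fun _ => ps_pr
      psi_cont := ps_cont
      psi_compact := ps_compact }⟩

end Pool.Agent.QMax.Geo
end
end
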