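import Pool.Agent.Lib.MP_ec9812_ag.Geo3
import Pool.Agent.Lib.MP_ec9812_ag.ExtLink
import Pool.Agent.Lib.MP_ec9812_ag.Bridge
import Pool.Agent.Lib.MP_ec9812_ag.Geo1

-- part Pool.Agent.Lib.MP_ec9812_ag.Geo4
section

/-! There is no `h`-maximal compact analytic subvariety. -/

open Set Filter Topology
open scoped Manifold ContDiff

noncomputable section

namespace Pool.Agent.QMax.Geo4

open Pool.Agent.QMax.Geo

variable {h : ℕ} (Mo : Model h)

theorem isClosed_of_analytic {A : Set Mo.X} (hA : IsAnalyticSet (h + 2) A) : IsClosed A := by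
  rw [← isOpen_compl_iff, isOpen_iff_mem_nhds]
  intro x hx
  obtain ⟨U, p, f, hU, hxU, hf, hAU⟩ := hA x
  have h1 : ¬ ∀ i, f i x = 0 := fun h => hx ((hAU x hxU).2 h)
  obtain ⟨i, hi⟩ := not_forall.1 h1
  have h2 : ContinuousAt (f i) x := ((hf i).continuousOn).continuousAt (hU.mem_nhds hxU)
  filter_upwards [hU.mem_nhds hxU, h2.eventually_ne hi] with z hz hz' hzA
  exact hz' ((hAU z hz).1 hzA i)

theorem eventually_of_frequently {A : Set Mo.X} (hA : IsAnalyticSet (h + 2) A) {γ : ℂ → EE h}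
    (hγ : Differentiable ℂ γ) {t : ℂ} (ht : γ t ∈ Om h)
    (hfr : ∃ᶠ s in 𝓝[≠] t, Mo.π (γ s) ∈ A) : ∀ᶠ s in 𝓝 t, Mo.π (γ s) ∈ A := by
  obtain ⟨U, p, f, hU, hxU, hf, hAU⟩ := hA (Mo.π (γ t))
  have hc : ContinuousAt (fun s => Mo.π (γ s)) t :=
    (Mo.cont.continuousAt (isOpen_Om.mem_nhds ht)).comp hγ.continuous.continuousAt
  have hev : ∀ᶠ s in 𝓝 t, Mo.π (γ s) ∈ U := hc (hU.mem_nhds hxU)
  have han : ∀ i, AnalyticAt ℂ (fun s => f i (Mo.π (γ s))) t := by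
    intro i
    have h1 : f i ∈ (hsM (h + 2) Mo.X).O (Mo.π (γ t)) := by
      rw [mem_hsM]
      filter_upwards [hU.mem_nhds hxU] with z hz
      exact (hf i z hz).mdifferentiableAt (hU.mem_nhds hz)
    rw [Mo.mem_O_iff ht, mem_hsE] at h1
    rw [Complex.analyticAt_iff_eventually_differentiableAt]
    filter_upwards [hγ.continuous.continuousAt.eventually h1] with s hs
    exact hs.comp s (hγ s)
  have hz : ∀ i, ∀ᶠ s in 𝓝 t, f i (Mo.π (γ s)) = 0 := by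
    intro i
    rw [← (han i).frequently_zero_iff_eventually_zero]
    refine (hfr.and_eventually (hev.filter_mono nhdsWithin_le_nhds)).mono ?_
    rintro s ⟨h1, h2⟩
    exact (hAU _ h2).1 h1 i
  filter_upwards [hev, eventually_all.2 hz] with s h1 h2
  exact (hAU _ h1).2 h2

theorem curve {A : Set Mo.X} (hA : IsAnalyticSet (h + 2) A) {γ : ℂ → EE h}
    (hγ : Differentiable ℂ γ) {T : Set ℂ} (hT : IsPreconnected T) (hTO : ∀ t ∈ T, γ t ∈ Om h)
    {t₀ : ℂ} (ht₀ : t₀ ∈ T) (hfr : ∃ᶠ s in 𝓝[≠] t₀, Mo.π (γ s) ∈ A) :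
    ∀ t ∈ T, Mo.π (γ t) ∈ A := by
  have key : T ⊆ {t | ∀ᶠ s in 𝓝 t, Mo.π (γ s) ∈ A} := by
    refine hT.subset_of_closure_inter_subset isOpen_setOfPred_eventually_nhds
      ⟨t₀, ht₀, eventually_of_frequently Mo hA hγ (hTO _ ht₀) hfr⟩ ?_
    rintro t ⟨h1, h2⟩
    by_contra h3
    refine h3 (eventually_of_frequently Mo hA hγ (hTO _ h2) ?_)
    rw [mem_closure_iff_frequently] at h1
    rw [frequently_nhdsWithin_iff]
    refine h1.mono fun s hs => ⟨hs.self_of_nhds, ?_⟩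
    rintro rfl
    exact h3 hs
  exact fun t ht => (key ht).self_of_nhds

/-- The orbit of `(t, t)` in the first two coordinates. -/
def Orb (t : ℝ) (p q : ℂ) : Prop :=
  ∃ (k : ℤ) (a : ℤ × ℤ), p = (lam ^ k * t + sp a : ℝ) ∧ q = (lam ^ (-k) * t + sm a : ℝ)

/-- The punctured fibre. -/
def LL (h : ℕ) (t : ℝ) : Set (EE h) := {y | y ∈ Om h ∧ y 0 = t ∧ y 1 = t}

theorem pi_mem_iff (t : ℝ) {y : EE h} (hy : y ∈ Om h) :
    Mo.π y ∈ Mo.π '' LL h t ↔ Orb t (y 0) (y 1) := by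
  constructor
  · rintro ⟨z, ⟨hz, h0, h1⟩, he⟩
    obtain ⟨k, a, rfl⟩ := (Mo.eq_iff z hz y hy).1 he
    refine ⟨k, a, ?_, ?_⟩
    · rw [act_apply_zero, h0]; push_cast; rfl
    · rw [act_apply_one, h1]; push_cast; rfl
  · rintro ⟨k, a, h0, h1⟩
    obtain ⟨b, hb⟩ := act_inv (h := h) k a
    have h2 := (hb y).2
    have hz : act (-k) b y ∈ Om h := (act_mem_Om _ _).2 hy
    refine ⟨act (-k) b y, ⟨hz, ?_, ?_⟩, Mo.pi_act _ _ hy⟩
    · have h3 := act_apply_zero k a (act (-k) b y)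
      rw [h2, h0, Complex.ofReal_add, Complex.ofReal_mul, add_left_inj] at h3
      exact (mul_left_cancel₀ (by exact_mod_cast (zpow_pos lam_pos k).ne') h3).symm
    · have h3 := act_apply_one k a (act (-k) b y)
      rw [h2, h1, Complex.ofReal_add, Complex.ofReal_mul, add_left_inj] at h3
      exact (mul_left_cancel₀ (by exact_mod_cast (zpow_pos lam_pos (-k)).ne') h3).symm

theorem Orb.lattice {N : ℕ} (hN : 0 < N) {p q : ℂ} (H : Orb (1 / N) p q) :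
    ∃ a, p = (sp a / N : ℝ) ∧ q = (sm a / N : ℝ) := by
  obtain ⟨k, a, h0, h1⟩ := H
  obtain ⟨u, hu0, hu1⟩ := exists_mul k (1, 0)
  have hN' : (N : ℝ) ≠ 0 := by positivity
  have e1 : sp (1, 0) = 1 := by simp [sp]
  have e2 : sm (1, 0) = 1 := by simp [sm]
  rw [e1, mul_one] at hu0
  rw [e2, mul_one] at hu1
  refine ⟨u + (N * a.1, N * a.2), ?_, ?_⟩
  · rw [h0, sp_add, hu0]
    congr 1
    simp only [sp]
    push_cast
    field_simp
  · rw [h1, sm_add, hu1]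
    congr 1
    simp only [sm]
    push_cast
    field_simp

theorem Orb.eq_of_close {N : ℕ} (hN : 0 < N) {p q p' q' : ℂ} (H : Orb (1 / N) p q)
    (H' : Orb (1 / N) p' q') (h0 : ‖p - p'‖ < 1 / N) (h1 : ‖q - q'‖ < 1 / N) :
    p = p' ∧ q = q' := by
  obtain ⟨a, rfl, rfl⟩ := H.lattice hN
  obtain ⟨b, rfl, rfl⟩ := H'.lattice hN
  have hN' : (0 : ℝ) < N := by positivity
  rw [← Complex.ofReal_sub, Complex.norm_real, Real.norm_eq_abs, ← sub_div, abs_div,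
    abs_of_pos hN', div_lt_div_iff_of_pos_right hN'] at h0 h1
  have : a + -b = 0 := eq_zero_of_small (by rwa [sp_add, sp_neg, ← sub_eq_add_neg])
    (by rwa [sm_add, sm_neg, ← sub_eq_add_neg])
  obtain rfl : a = b := by rwa [← sub_eq_add_neg, sub_eq_zero] at this
  exact ⟨rfl, rfl⟩

theorem orb_isolated {N : ℕ} (hN : 0 < N) (w : ℂ × ℂ) :
    ∀ᶠ z in 𝓝 w, Orb (1 / N) z.1 z.2 → z = w := by
  have hN' : (0 : ℝ) < 1 / N / 2 := by positivity
  have hb := Metric.ball_mem_nhds w hN'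
  by_cases hex : ∃ z₀ ∈ Metric.ball w (1 / N / 2), Orb (1 / N) z₀.1 z₀.2 ∧ z₀ ≠ w
  · obtain ⟨z₀, h1, h2, h3⟩ := hex
    filter_upwards [hb, eventually_ne_nhds h3.symm] with z hz hz' hO
    have hd : dist z z₀ < 1 / N := by
      have := dist_triangle_right z z₀ w
      rw [Metric.mem_ball] at hz h1
      linarith
    rw [Prod.dist_eq, max_lt_iff, dist_eq_norm, dist_eq_norm] at hd
    exact (hz' (Prod.ext (hO.eq_of_close hN h2 hd.1 hd.2).1
      (hO.eq_of_close hN h2 hd.1 hd.2).2)).elim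
  · filter_upwards [hb] with z hz hO
    by_contra hne
    exact hex ⟨z, hz, hO, hne⟩

theorem exists_chart {N : ℕ} (hN : 0 < N) {y : EE h} (hy : y ∈ Om h) :
    ∃ e : OpenPartialHomeomorph Mo.X (EE h), e ∈ atlas (EE h) Mo.X ∧ Mo.π y ∈ e.source ∧
      ∀ x ∈ e.source, x ∈ Mo.π '' LL h (1 / N) ↔
        Orb (1 / N) (y 0) (y 1) ∧ e x 0 = y 0 ∧ e x 1 = y 1 := by
  obtain ⟨W, h1, h2, h3, h4⟩ := Mo.locInj y hy
  have hc : ContinuousAt (fun z : EE h => (z 0, z 1)) y := by fun_prop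
  obtain ⟨V, hV, hVo, hyV⟩ := eventually_nhds_iff.1 (hc.eventually (orb_isolated hN (y 0, y 1)))
  obtain ⟨e, he, h5, h6⟩ := Mo.chart (W ∩ V) (h1.inter hVo) (inter_subset_left.trans h3)
    (h4.mono inter_subset_left)
  refine ⟨e, he, h6 ▸ e.map_target (h5 ▸ ⟨h2, hyV⟩), fun x hx => ?_⟩
  have h7 : e x ∈ W ∩ V := h5 ▸ e.map_source hx
  have h8 : Mo.π (e x) = x := h6 ▸ e.left_inv hx
  have h9 := pi_mem_iff Mo (1 / N) (h3 h7.1)
  rw [h8] at h9
  rw [h9]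
  constructor
  · intro hO
    have := hV _ h7.2 hO
    rw [Prod.mk.injEq] at this
    exact ⟨this.1 ▸ this.2 ▸ hO, this⟩
  · rintro ⟨hO, h0, h1⟩
    rwa [h0, h1]

theorem holOn_chart {e : OpenPartialHomeomorph Mo.X (EE h)} (he : e ∈ atlas (EE h) Mo.X)
    {F : Type} [NormedAddCommGroup F] [NormedSpace ℂ F] (Λ : EE h →L[ℂ] F) (c : F) :
    HolOn (h + 2) (fun x => Λ (e x) - c) e.source := by
  have := Mo.manifold
  have h1 : MDifferentiable 𝓘(ℂ, EE h) 𝓘(ℂ, F) (fun v : EE h => Λ v - c) :=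
    (Λ.differentiable.sub_const c).mdifferentiable
  exact h1.comp_mdifferentiableOn (mdifferentiableOn_atlas he)

theorem analytic_B {N : ℕ} (hN : 0 < N) : IsAnalyticSet (h + 2) (Mo.π '' LL h (1 / N)) := by
  intro x
  obtain ⟨y, hy, rfl⟩ := Mo.surj x
  obtain ⟨e, he, h1, h2⟩ := exists_chart Mo hN hy
  by_cases hO : Orb (1 / N) (y 0) (y 1)
  · refine ⟨e.source, 2, ![fun x => e x 0 - y 0, fun x => e x 1 - y 1], e.open_source, h1, ?_,
      fun x hx => ?_⟩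
    · rw [Fin.forall_fin_two]
      exact ⟨holOn_chart Mo he (ContinuousLinearMap.proj 0) (y 0),
        holOn_chart Mo he (ContinuousLinearMap.proj 1) (y 1)⟩
    · rw [h2 x hx, Fin.forall_fin_two]
      simp [-one_div, hO, sub_eq_zero]
  · refine ⟨e.source, 1, fun _ _ => 1, e.open_source, h1, fun _ => mdifferentiableOn_const,
      fun x hx => ?_⟩
    rw [h2 x hx]
    simp [-one_div, hO]

theorem regular_B {N : ℕ} (hN : 0 < N) {y : EE h} (hy : y ∈ LL h (1 / N)) :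
    IsRegularPt (h + 2) (Mo.π '' LL h (1 / N)) (Mo.π y) h := by
  have := Mo.manifold
  obtain ⟨e, he, h1, h2⟩ := exists_chart Mo hN hy.1
  have hO := (pi_mem_iff Mo _ hy.1).1 ⟨y, hy, rfl⟩
  let Λ : EE h →L[ℂ] (Fin (h + 2 - h) → ℂ) :=
    ContinuousLinearMap.pi fun j => ContinuousLinearMap.proj (Fin.castLE (Nat.sub_le _ _) j)
  have hΛ : Function.Surjective Λ :=
    (Fin.castLE_injective (Nat.sub_le (h + 2) h)).surjective_comp_right
  refine ⟨⟨y, hy, rfl⟩, by omega, e.source, fun x => Λ (e x) - Λ y, e.open_source, h1,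
    holOn_chart Mo he Λ _, fun x hx => ?_, fun x hx => ?_⟩
  · have h3 : HasMFDerivAt 𝓘(ℂ, EE h) 𝓘(ℂ, Fin (h + 2 - h) → ℂ) (fun v : EE h => Λ v - Λ y)
        (e x) Λ := (Λ.hasFDerivAt.sub_const _).hasMFDerivAt
    have h4 := h3.comp x (mdifferentiableAt_atlas he hx).hasMFDerivAt
    unfold SubmersionAt
    rw [show (fun x => Λ (e x) - Λ y) = (fun v : EE h => Λ v - Λ y) ∘ e from rfl, h4.mfderiv,
      LinearMap.range_eq_top]
    exact hΛ.comp ((mdifferentiable_of_mem_atlas he).mfderiv_surjective hx)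
  · rw [h2 x hx, sub_eq_zero, funext_iff]
    simp only [hO, true_and]
    constructor
    · rintro ⟨h3, h4⟩ ⟨j, hj⟩
      have hj' : j = 0 ∨ j = 1 := by omega
      rcases hj' with rfl | rfl
      · exact h3
      · exact h4
    · intro H
      exact ⟨H ⟨0, by omega⟩, H ⟨1, by omega⟩⟩

theorem compact_B {N : ℕ} (hN : 0 < N) : IsCompact (Mo.π '' LL h (1 / N)) := by
  refine (Mo.psi_compact 0).of_isClosed_subset (isClosed_of_analytic Mo (analytic_B Mo hN)) ?_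
  rintro _ ⟨y, hy, rfl⟩
  change Mo.ψ (Mo.π y) ≤ 0
  rw [Mo.psi_pi y hy.1, psi, hy.2.1, Complex.ofReal_im, abs_zero, mul_zero]

theorem not_mem_Om_iff {y : EE h} (h1 : (y 1).im = 0) :
    y ∉ Om h ↔ ∀ i, i ≠ 0 → i ≠ 1 → y i = 0 := by
  constructor
  · intro hy i hi0 hi1
    by_contra hne
    refine hne (Complex.ext ?_ ?_)
    · by_contra h2
      exact hy (mem_Om_of_rc_ne (c := (i, true)) ⟨hi0, fun h => hi1 (congrArg Prod.fst h)⟩ h2)
    · by_contra h2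
      exact hy (mem_Om_of_rc_ne (c := (i, false)) ⟨hi0, fun h => hi1 (congrArg Prod.fst h)⟩ h2)
  · intro H hy
    refine absurd ((nv_le_iff le_rfl).2 ?_) (not_le.2 (mem_Om.1 hy))
    rintro ⟨i, b⟩ ⟨hc0, hc1⟩
    by_cases hi : i = 1
    · subst hi
      cases b
      · simp [h1]
      · exact (hc1 rfl).elim
    · cases b <;> simp [H i hc0 hi]

theorem irreducible_B {N : ℕ} (hN : 0 < N) (hne : (LL h (1 / N)).Nonempty) :
    IsIrreducibleAnalytic (h + 2) (Mo.π '' LL h (1 / N)) := by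
  refine ⟨analytic_B Mo hN, hne.image _, fun A₁ A₂ hA₁ hA₂ hU => ?_⟩
  by_contra hcon
  rw [not_or] at hcon
  have e1 : ¬ Mo.π '' LL h (1 / N) ⊆ A₁ := fun H =>
    hcon.1 (H.antisymm (hU ▸ subset_union_left))
  have e2 : ¬ Mo.π '' LL h (1 / N) ⊆ A₂ := fun H =>
    hcon.2 (H.antisymm (hU ▸ subset_union_right))
  obtain ⟨_, ⟨y₁, hy₁, rfl⟩, hx₁⟩ := not_subset.1 e1
  obtain ⟨_, ⟨y₂, hy₂, rfl⟩, hx₂⟩ := not_subset.1 e2
  let γ : ℂ → EE h := fun s => y₁ + s • (y₂ - y₁)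
  have hγ : Differentiable ℂ γ := by fun_prop
  have g0 : ∀ s, γ s 0 = ((1 / N : ℝ) : ℂ) := fun s => by
    simp only [γ, Pi.add_apply, Pi.smul_apply, Pi.sub_apply, hy₁.2.1, hy₂.2.1, sub_self,
      smul_zero, add_zero]
  have g1 : ∀ s, γ s 1 = ((1 / N : ℝ) : ℂ) := fun s => by
    simp only [γ, Pi.add_apply, Pi.smul_apply, Pi.sub_apply, hy₁.2.2, hy₂.2.2, sub_self,
      smul_zero, add_zero]
  have γ0 : γ 0 = y₁ := by simp [γ]
  have γ1 : γ 1 = y₂ := by simp [γ]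
  have him : ∀ s, (γ s 1).im = 0 := fun s => by rw [g1, Complex.ofReal_im]
  have hsub : ({s | γ s ∈ Om h}ᶜ : Set ℂ).Subsingleton := by
    intro s hs s' hs'
    by_contra hss
    have k1 := (not_mem_Om_iff (him s)).1 hs
    have k2 := (not_mem_Om_iff (him s')).1 hs'
    refine (not_mem_Om_iff (γ0 ▸ him 0)).2 (fun i hi0 hi1 => ?_) hy₁.1
    have k3 := k1 i hi0 hi1
    have k4 := k2 i hi0 hi1
    simp only [γ, Pi.add_apply, Pi.smul_apply, smul_eq_mul] at k3 k4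
    have k5 : (s - s') * (y₂ - y₁) i = 0 := by linear_combination k3 - k4
    rw [(mul_eq_zero.1 k5).resolve_left (sub_ne_zero.2 hss)] at k3
    simpa using k3
  have hT : IsPreconnected {s | γ s ∈ Om h} := by
    have := hsub.finite.countable.isConnected_compl_of_one_lt_rank
      (by rw [Complex.rank_real_complex]; norm_num)
    rw [compl_compl] at this
    exact this.isPreconnected
  have h0 : (0 : ℂ) ∈ {s | γ s ∈ Om h} := by change γ 0 ∈ Om h; rw [γ0]; exact hy₁.1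
  have h1 : (1 : ℂ) ∈ {s | γ s ∈ Om h} := by change γ 1 ∈ Om h; rw [γ1]; exact hy₂.1
  have hev : ∀ᶠ s in 𝓝[≠] (0 : ℂ), Mo.π (γ s) ∈ A₁ ∨ Mo.π (γ s) ∈ A₂ := by
    have : ∀ᶠ s in 𝓝 (0 : ℂ), γ s ∈ Om h := (isOpen_Om.preimage hγ.continuous).mem_nhds h0
    filter_upwards [this.filter_mono nhdsWithin_le_nhds] with s hs
    exact hU.subset ⟨γ s, ⟨hs, g0 s, g1 s⟩, rfl⟩
  rcases frequently_or_distrib.1 hev.frequently with hf | hf
  · exact hx₁ (γ0 ▸ curve Mo hA₁ hγ hT (fun _ ht => ht) h0 hf 0 h0)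
  · exact hx₂ (γ1 ▸ curve Mo hA₂ hγ hT (fun _ ht => ht) h0 hf 1 h1)

/-- The curve `(t, t, 1, ..., 1)`. -/
def gam (h : ℕ) (t : ℂ) : EE h := fun i => if i = 0 ∨ i = 1 then t else 1

theorem differentiable_gam : Differentiable ℂ (gam h) := by
  refine differentiable_pi.2 fun i => ?_
  unfold gam
  split_ifs <;> fun_prop

theorem one_le_nv_gam (hh : 1 ≤ h) (t : ℂ) : 1 ≤ nv (gam h t) := by
  have h0 : (⟨2, by omega⟩ : Fin (h + 2)) ≠ 0 := by simp [Fin.ext_iff]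
  have h1 : (⟨2, by omega⟩ : Fin (h + 2)) ≠ 1 := by simp [Fin.ext_iff]
  have := abs_rc_le_nv (gam h t) (c := (⟨2, by omega⟩, true))
    ⟨h0, fun h => h1 (congrArg Prod.fst h)⟩
  simpa [gam, h0, h1] using this

theorem gam_mem_Om (hh : 1 ≤ h) (t : ℂ) : gam h t ∈ Om h :=
  mem_Om.2 (one_pos.trans_le (one_le_nv_gam hh t))

end Pool.Agent.QMax.Geo4

namespace Pool.Agent.QMax.Geo

open Pool.Agent.QMax.Geo4

theorem not_qmaximal {h : ℕ} (hh : 1 ≤ h) (Mo : Model h) :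
    ¬ ∃ S : Set Mo.X, IsQMaximal (h + 2) h S := by
  rintro ⟨S, hS, hSA, hmax, -⟩
  have hL : ∀ t : ℝ, gam h t ∈ LL h t := fun t => ⟨gam_mem_Om hh t, by simp [gam], by simp [gam]⟩
  have h1 : ∀ n : ℕ, Mo.π (gam h ((1 / ((n + 1 : ℕ) : ℝ) : ℝ) : ℂ)) ∈ S := fun n =>
    hmax _ (compact_B Mo n.succ_pos) (irreducible_B Mo n.succ_pos ⟨_, hL _⟩)
      ⟨_, h, le_rfl, regular_B Mo n.succ_pos (hL _)⟩ ⟨_, hL _, rfl⟩
  have h2 : Tendsto (fun n : ℕ => ((1 / ((n + 1 : ℕ) : ℝ) : ℝ) : ℂ)) atTop (𝓝[≠] 0) := by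
    refine tendsto_nhdsWithin_iff.2 ⟨?_, Eventually.of_forall fun n => ?_⟩
    · have := (Complex.continuous_ofReal.tendsto 0).comp tendsto_one_div_add_atTop_nhds_zero_nat
      rw [Complex.ofReal_zero] at this
      refine this.congr fun n => ?_
      simp
    · exact Complex.ofReal_ne_zero.2 (by positivity)
  have h3 := curve Mo hSA differentiable_gam isPreconnected_univ (fun t _ => gam_mem_Om hh t)
    (mem_univ 0) (h2.frequently (Frequently.of_forall h1))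
  obtain ⟨M, hM⟩ := hS.bddAbove_image Mo.psi_cont.continuousOn
  have h4 := hM ⟨_, h3 (((|M| + 1 : ℝ) : ℂ) * Complex.I) (mem_univ _), rfl⟩
  rw [Mo.psi_pi _ (gam_mem_Om hh _), psi] at h4
  have h5 : |(gam h (((|M| + 1 : ℝ) : ℂ) * Complex.I) 0).im| = |M| + 1 := by
    simp only [gam, true_or, if_true, Complex.mul_I_im, Complex.ofReal_re]
    exact abs_of_pos (by positivity)
  rw [h5] at h4
  nlinarith [one_le_nv_gam hh (((|M| + 1 : ℝ) : ℂ) * Complex.I), le_abs_self M, abs_nonneg M]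

end Pool.Agent.QMax.Geo
end
end

-- part Pool.Agent.Lib.MP_ec9812_ag.Final
section

/-! Assembly. -/

open Set Filter Topology
open scoped Manifold ContDiff

noncomputable section

namespace Pool.Agent.QMax

open Geo

theorem exists_cohConvex :
    ∃ M : ℕ, ∀ (h : ℕ) (Mo : Model h), CohConvex (h + 2) Mo.X (M + 2) := by
  obtain ⟨M, hM⟩ := exists_bumps
  refine ⟨M, fun h Mo F hF ν hν => ?_⟩
  have := Mo.manifold
  obtain ⟨j, rfl⟩ : ∃ j, ν = j + 1 := ⟨ν - 1, by omega⟩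
  obtain ⟨G, hG, hrep⟩ := bridge F hF
  refine finSpanH_of_fd j _ _ _ hrep ?_
  obtain ⟨D₁, C₁, -, hC₁, -, hDC₁, hb₁⟩ := hM h Mo ∅ isCompact_empty
  obtain ⟨D₂, C₂, hD₂, hC₂, hCD, hDC₂, hb₂⟩ := hM h Mo C₁ hC₁
  obtain ⟨ι, _, U, K, hL, hbox, hc₁, hc₂, hc₃⟩ := exists_levels Mo hC₁ hD₂ hCD hC₂
  have hAB := fun r hr J hJ => (hbox r hr J hJ).ab
  have hv : ∀ r ≤ 6, ∀ J : List ι, J ≠ [] → ∀ l, (FSh.iter l G.toFSh).Van (capL (K r) J) :=
    fun r hr J hJ => ((hAB r hr J hJ).2 G fun x _ => hG x).2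
  have hmon : (hsM (h + 2) Mo.X).Montel := montel_of_charts _ fun x =>
    ⟨chartAt _ x, good_of_mem_atlas (chart_mem_atlas _ x), mem_chart_source _ x⟩
  have h1 := FSh.csur_of_rsur (r₀ := 1) (r₂ := 5) hL hv hc₂ (hDC₂.trans hc₃)
    (ri_of_bumps hG (by omega : M + 1 ≤ j) hb₂).2.2 (by norm_num) (by norm_num) (by norm_num)
    (by norm_num)
  have h2 := cfin_of_csur (r₀ := 0) (r₁' := 4) hmon hG hL hAB (by omega) (by norm_num)
    (by norm_num) (by norm_num) (by norm_num) (by norm_num) (by norm_num) h1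
  exact FSh.fd_of_cfin hL hv (hDC₁.trans hc₁) (ri_of_bumps hG (by omega : M + 1 ≤ j) hb₁).2.1
    (by norm_num) (by norm_num) h2

theorem main : ∃ (n q : ℕ), 1 < q ∧ q < n ∧
    ∃ (X : Type) (_ : TopologicalSpace X) (_ : ChartedSpace (Fin n → ℂ) X),
      IsManifold 𝓘(ℂ, Fin n → ℂ) ω X ∧ T2Space X ∧ SigmaCompactSpace X ∧ ConnectedSpace X ∧
      NoncompactSpace X ∧ CohConvex n X q ∧ ¬ ∃ S : Set X, IsQMaximal n q S := by
  obtain ⟨M, hM⟩ := exists_cohConvex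
  obtain ⟨Mo⟩ := exists_model (h := M + 2) (by omega)
  exact ⟨M + 2 + 2, M + 2, by omega, by omega, Mo.X, _, _, Mo.manifold, Mo.t2, Mo.sigma, Mo.conn,
    Mo.noncompact, hM _ Mo, not_qmaximal (by omega) Mo⟩

end Pool.Agent.QMax
end
end
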