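import Pool.Agent.Lib.MP_ec9812_ag.BoxModel
import Pool.Agent.Lib.MP_ec9812_ag.Bridge
import Pool.Agent.Lib.MP_ec9812_ag.Cousin
import Pool.Agent.Lib.MP_ec9812_ag.Geo1

-- part Pool.Agent.Lib.MP_ec9812_ag.BoxAB
section

/-! Theorems A and B on compact boxes; vanishing on open boxes; the bump method. -/

open Set Filter Topology

noncomputable section

namespace Pool.Agent.QMax

variable {n : ℕ} {X : Type} [TopologicalSpace X] {H : HS X}

namespace BoxAB

theorem box_update_subset {a b : Fin n × Bool → ℝ} {c : Fin n × Bool} {s t : ℝ} (hs : a c ≤ s)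
    (ht : t ≤ b c) : Box (Function.update a c s) (Function.update b c t) ⊆ Box a b := by
  intro y hy c'
  have := hy c'
  by_cases h : c' = c
  · subst h
    simp only [Function.update_self] at this
    exact ⟨hs.trans this.1, this.2.trans ht⟩
  · simpa only [Function.update_of_ne h] using this

theorem slab_eq {e : OpenPartialHomeomorph X (Fin n → ℂ)} {a b : Fin n × Bool → ℝ}
    (hab : Box a b ⊆ e.target) {c : Fin n × Bool} {s t : ℝ} (hs : a c ≤ s) (ht : t ≤ b c) :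
    e.symm '' Box a b ∩ (fun x => rc (e x) c) ⁻¹' Icc s t =
      e.symm '' Box (Function.update a c s) (Function.update b c t) := by
  ext x
  constructor
  · rintro ⟨⟨y, hy, rfl⟩, h⟩
    refine ⟨y, fun c' => ?_, rfl⟩
    by_cases hc : c' = c
    · subst hc
      simpa only [Function.update_self, mem_preimage, e.right_inv (hab hy)] using h
    · simpa only [Function.update_of_ne hc] using hy c'
  · rintro ⟨y, hy, rfl⟩
    have hy' := box_update_subset hs ht hy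
    refine ⟨⟨y, hy', rfl⟩, ?_⟩
    simpa only [Function.update_self, mem_preimage, e.right_inv (hab hy')] using hy c

theorem box_subsingleton {a b : Fin n × Bool → ℝ} (h : ∀ c, b c ≤ a c) :
    (Box a b).Subsingleton := by
  intro y hy y' hy'
  have : rc y = rc y' := funext fun c =>
    le_antisymm ((hy c).2.trans ((h c).trans (hy' c).1)) ((hy' c).2.trans ((h c).trans (hy c).1))
  rw [← ofRc_rc y, this, ofRc_rc]

theorem isCompact_image {e : OpenPartialHomeomorph X (Fin n → ℂ)} {a b : Fin n × Bool → ℝ}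
    (hab : Box a b ⊆ e.target) : IsCompact (e.symm '' Box a b) :=
  (isCompact_Box a b).image_of_continuousOn (e.continuousOn_symm.mono hab)

theorem ab_aux {e : OpenPartialHomeomorph X (Fin n → ℂ)} (he : Good H (hsE _) e) (N : ℕ) :
    ∀ a b : Fin n × Bool → ℝ, (Finset.univ.filter fun c => a c < b c).card ≤ N →
      Box a b ⊆ e.target → H.AB (e.symm '' Box a b) := by
  classical
  have base : ∀ a b : Fin n × Bool → ℝ, (∀ c, b c ≤ a c) → Box a b ⊆ e.target →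
      H.AB (e.symm '' Box a b) := by
    intro a b h hab
    refine ab_subsingleton ((box_subsingleton h).image _) ?_
    rintro _ ⟨y, hy, rfl⟩
    exact he.okaAt (e.map_target (hab hy)) (oka _ _)
  induction N with
  | zero =>
    intro a b hN hab
    refine base a b (fun c => not_lt.1 fun h => ?_) hab
    have : c ∈ Finset.univ.filter fun c => a c < b c := by simpa using h
    rw [Finset.card_eq_zero.1 (Nat.le_zero.1 hN)] at this
    simp at this
  | succ N ih =>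
    intro a b hN hab
    by_cases h : ∀ c, b c ≤ a c
    · exact base a b h hab
    obtain ⟨c, hc⟩ := not_forall.1 h
    have hc : a c < b c := not_le.1 hc
    refine ab_slice (κ := fun x => rc (e x) c) (a := a c) (b := b c) (isCompact_image hab)
      ?_ ?_ ?_ ?_
    · rintro _ ⟨y, hy, rfl⟩
      exact (continuous_rc_apply c).continuousAt.comp (e.continuousAt (e.map_target (hab hy)))
    · rintro _ ⟨y, hy, rfl⟩
      simpa only [e.right_inv (hab hy)] using hy c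
    · intro t ht
      rw [← Icc_self, slab_eq hab ht.1 ht.2]
      refine ih _ _ ?_ ((box_update_subset ht.1 ht.2).trans hab)
      have hsub : (Finset.univ.filter fun c' => Function.update a c t c' < Function.update b c t c')
          ⊆ (Finset.univ.filter fun c => a c < b c).erase c := by
        intro c' hc'
        have hc' := (Finset.mem_filter.1 hc').2
        by_cases h' : c' = c
        · subst h'
          simp at hc'
        · simpa [h'] using hc'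
      have h1 := Finset.card_le_card hsub
      rw [Finset.card_erase_of_mem (by simpa using hc)] at h1
      omega
    · intro s t u h1 h2 h3 h4
      have hm := stripModel_box (Function.update a c s) (Function.update b c u) c (t := t)
        (by simpa using ⟨h2, h3⟩)
      simp only [Function.update_idem] at hm
      rw [← Icc_self t, slab_eq hab h1 (h3.trans h4), slab_eq hab (h1.trans h2) h4,
        slab_eq hab (h1.trans h2) (h3.trans h4)]
      have s1 := (box_update_subset h1 (h3.trans h4)).trans hab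
      have s2 := (box_update_subset (h1.trans h2) h4).trans hab
      have s3 := (box_update_subset (h1.trans h2) (h3.trans h4)).trans hab
      exact ⟨he.cousinP s1 s2 s3 hm.1.cousinP, he.cartanP s1 s2 s3 hm.1.cartanP,
        he.cartanP s2 s1 s3 hm.2.cartanP⟩

/-- Exhaustion of an open interval by compact intervals. -/
theorem exists_exh {I : Set ℝ} (ho : IsOpen I) (hc : I.OrdConnected) :
    ∃ a b : ℕ → ℝ, Antitone a ∧ Monotone b ∧ (∀ k, Icc (a k) (b k) ⊆ I) ∧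
      ∀ x ∈ I, ∀ᶠ k in atTop, a k < x ∧ x < b k := by
  rcases I.eq_empty_or_nonempty with rfl | hne
  · exact ⟨fun _ => 1, fun _ => 0, antitone_const, monotone_const, fun _ => by simp,
      fun _ h => h.elim⟩
  have hrat : ∀ x ∈ I, (∃ r : ℚ, (r : ℝ) ∈ I ∧ (r : ℝ) < x) ∧ ∃ r : ℚ, (r : ℝ) ∈ I ∧ x < r := by
    intro x hx
    obtain ⟨l, u, hxl, hsub⟩ := mem_nhds_iff_exists_Ioo_subset.1 (ho.mem_nhds hx)
    obtain ⟨r, h1, h2⟩ := exists_rat_btwn hxl.1
    obtain ⟨r', h3, h4⟩ := exists_rat_btwn hxl.2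
    exact ⟨⟨r, hsub ⟨h1, h2.trans hxl.2⟩, h2⟩, ⟨r', hsub ⟨hxl.1.trans h3, h4⟩, h3⟩⟩
  obtain ⟨q, hq⟩ := ((countable_range ((↑) : ℚ → ℝ)).mono
    (inter_subset_right (s := I))).exists_eq_range (by
      obtain ⟨x, hx⟩ := hne
      obtain ⟨r, h1, -⟩ := (hrat x hx).1
      exact ⟨r, h1, r, rfl⟩)
  have hqI : ∀ i, q i ∈ I := fun i => (hq.symm ▸ mem_range_self i : q i ∈ I ∩ range _).1
  have hA : Antitone fun k => (Finset.range (k + 1)).inf' Finset.nonempty_range_add_one q :=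
    fun k k' h => Finset.inf'_mono _ (Finset.range_mono (Nat.succ_le_succ h)) _
  have hB : Monotone fun k => (Finset.range (k + 1)).sup' Finset.nonempty_range_add_one q :=
    fun k k' h => Finset.sup'_mono _ (Finset.range_mono (Nat.succ_le_succ h)) _
  refine ⟨_, _, hA, hB, fun k => ?_, fun x hx => ?_⟩
  · obtain ⟨i, -, hi⟩ := Finset.exists_mem_eq_inf' (Finset.nonempty_range_add_one (n := k)) q
    obtain ⟨j, -, hj⟩ := Finset.exists_mem_eq_sup' (Finset.nonempty_range_add_one (n := k)) q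
    rw [hi, hj]
    exact hc.out (hqI i) (hqI j)
  · obtain ⟨⟨r, h1, h2⟩, r', h3, h4⟩ := hrat x hx
    obtain ⟨i, hi⟩ : (r : ℝ) ∈ range q := hq ▸ ⟨h1, r, rfl⟩
    obtain ⟨j, hj⟩ : (r' : ℝ) ∈ range q := hq ▸ ⟨h3, r', rfl⟩
    filter_upwards [eventually_ge_atTop i, eventually_ge_atTop j] with k hik hjk
    exact ⟨(Finset.inf'_le q (Finset.mem_range.2 (Nat.lt_succ_of_le hik))).trans_lt (hi ▸ h2),
      (hj ▸ h4 : x < q j).trans_le (Finset.le_sup' q (Finset.mem_range.2 (Nat.lt_succ_of_le hjk)))⟩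

end BoxAB

theorem IsCBox.isCompact {K : Set X} (h : IsCBox n H K) : IsCompact K := by
  obtain ⟨e, -, a, b, hab, rfl⟩ := h
  exact BoxAB.isCompact_image hab

theorem IsCBox.ab {K : Set X} (h : IsCBox n H K) : H.AB K := by
  obtain ⟨e, he, a, b, hab, rfl⟩ := h
  exact BoxAB.ab_aux he _ a b le_rfl hab

theorem van_obox {e : OpenPartialHomeomorph X (Fin n → ℂ)} (he : Good H (hsE _) e)
    {I : Fin n × Bool → Set ℝ} (hI : IsOI I) (hIe : OBox I ⊆ e.target) {G : MSh H}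
    (hG : ∀ x, G.CohAt x) {j : ℕ} (hj : 1 ≤ j) :
    (FSh.iter j G.toFSh).Van (e.symm '' OBox I) := by
  choose a b ha hb hsub hev using fun c => BoxAB.exists_exh (hI c).1 (hI c).2
  obtain ⟨j, rfl⟩ : ∃ j', j = j' + 1 := ⟨j - 1, by omega⟩
  have hK : ∀ k, Box (fun c => a c k) (fun c => b c k) ⊆ OBox I :=
    fun k y hy c => hsub c k (hy c)
  have hAB : ∀ k i, (FSh.iter i G.toFSh).Van (e.symm '' Box (fun c => a c k) (fun c => b c k)) :=
    fun k => ((IsCBox.ab ⟨e, he, _, _, (hK k).trans hIe, rfl⟩).2 G fun x _ => hG x).2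
  refine FSh.van_of_exhaustion (K := fun k => e.symm '' Box (fun c => a c k) (fun c => b c k))
    (fun k k' h => image_mono fun y hy c => ⟨(ha c h).trans (hy c).1, (hy c).2.trans (hb c h)⟩)
    (fun k => image_mono (hK k)) ?_ (fun k => hAB k j) (fun k => hAB k (j + 1))
  rintro _ ⟨y, hy, rfl⟩
  obtain ⟨k, hk⟩ := (eventually_all.2 fun c => hev c _ (hy c)).exists
  refine ⟨k, e.symm.image_mem_nhds (hIe hy) ?_⟩
  have : ∀ᶠ z in 𝓝 y, ∀ c, rc z c ∈ Icc (a c k) (b c k) := eventually_all.2 fun c =>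
    (continuous_rc_apply c).continuousAt.eventually (Icc_mem_nhds (hk c).1 (hk c).2)
  exact this

theorem ri_of_bumps {G : MSh H} (hG : ∀ x, G.CohAt x) {M j : ℕ} (hj : M + 1 ≤ j) {V W : Set X}
    (h : Relation.ReflTransGen (BumpStep n H M) V W) :
    V ⊆ W ∧ (FSh.iter j G.toFSh).RInj V W ∧ (FSh.iter j G.toFSh).RSur V W := by
  induction h with
  | refl => exact ⟨Subset.rfl, FSh.rinj_refl V, FSh.rsur_refl V⟩
  | @tail W Z _ hWZ ih =>
    obtain ⟨hW, e, he, I, hI, hIe, rfl, L, hL, hLI, hcap⟩ := hWZ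
    have hop : ∀ I, IsOI I → OBox I ⊆ e.target → IsOpen (e.symm '' OBox I) := fun I h1 h2 =>
      e.symm.isOpen_image_of_subset_source h1.isOpen h2
    have hvan : ∀ i, M ≤ i → (FSh.iter i G.toFSh).Van (W ∩ e.symm '' OBox I) := by
      intro i hi
      have e1 : W ∩ e.symm '' OBox I = ⋃ B ∈ L.map fun I' => e.symm '' OBox I', B := by
        rw [hcap]
        ext x
        simp only [mem_iUnion, List.mem_map, exists_prop]
        constructor
        · rintro ⟨I', h1, h2⟩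
          exact ⟨_, ⟨I', h1, rfl⟩, h2⟩
        · rintro ⟨_, ⟨I', h1, rfl⟩, h2⟩
          exact ⟨I', h1, h2⟩
      rw [e1]
      refine FSh.van_biUnion_list
        (𝓑 := {B | ∃ I, IsOI I ∧ OBox I ⊆ e.target ∧ B = e.symm '' OBox I}) ?_ ?_ ?_ _ ?_ i
        (by rw [List.length_map]; omega)
      · rintro _ ⟨I, h1, h2, rfl⟩
        exact hop I h1 h2
      · rintro _ ⟨I₁, h1, h2, rfl⟩ _ ⟨I₂, h3, h4, rfl⟩
        refine ⟨_, h1.inter h3, ?_, ?_⟩
        · rw [OBox_inter]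
          exact inter_subset_left.trans h2
        · rw [OBox_inter, e.symm.injOn.image_inter h2 h4]
      · rintro _ ⟨I, h1, h2, rfl⟩ j hj
        exact van_obox he h1 h2 hG hj
      · intro B hB
        obtain ⟨I', h1, rfl⟩ := List.mem_map.1 hB
        exact ⟨I', (hLI I' h1).1, (hLI I' h1).2, rfl⟩
    obtain ⟨j, rfl⟩ : ∃ j', j = j' + 1 := ⟨j - 1, by omega⟩
    refine ⟨ih.1.trans subset_union_left, ih.2.1.trans ?_ subset_union_left,
      ih.2.2.trans (FSh.rsur_bump hW (hop I hI hIe) (hvan _ (by omega))) ih.1⟩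
    exact FSh.rinj_bump hW (hop I hI hIe) (van_obox he hI hIe hG (j := j + 1) (by omega))
      (hvan j (by omega))

end Pool.Agent.QMax
end
end

-- part Pool.Agent.Lib.MP_ec9812_ag.Finite
section

/-! The finiteness theorem for Cech cohomology. -/

open Set Filter Topology

set_option linter.unusedSectionVars false

noncomputable section

namespace Pool.Agent.QMax

namespace Fini

variable {X ι : Type} [TopologicalSpace X] [Fintype ι] {H : HS X} {G : MSh H}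
  {κ : Type} [Fintype κ]

open Classical in
/-- The generators whose index lies in the list. -/
def sJ (idx : κ → ι) (s : κ → G.T) (J : List ι) : κ → G.T := fun k => if idx k ∈ J then s k else 0

theorem lc_maskC (idx : κ → ι) (s : κ → G.T) (f : List ι → X → κ → ℂ) (J : List ι) :
    G.lc (maskC idx f J) s = G.lc (f J) (sJ idx s J) := by
  funext y
  refine Finset.sum_congr rfl fun k _ => ?_
  by_cases h : idx k ∈ J
  · simp [maskC, sJ, h]
  · simp [maskC, sJ, h, MSh.act_zero]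

theorem holV_maskC (idx : κ → ι) {f : List ι → X → κ → ℂ} {J : List ι} {x : X}
    (h : H.HolV (f J) x) : H.HolV (maskC idx f J) x := fun k => by
  by_cases hk : idx k ∈ J
  · simpa [maskC, hk] using h k
  · simpa [maskC, hk] using HS.const_mem 0 x

theorem maskC_congr (idx : κ → ι) {f g : List ι → X → κ → ℂ} {J : List ι} {x : X}
    (h : f J x = g J x) : maskC idx f J x = maskC idx g J x := by
  funext k
  simp [maskC, h]

/-- Functions supported in `J`. -/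
def Supp (idx : κ → ι) (J : List ι) : Submodule ℂ (X → κ → ℂ) where
  carrier := {f | ∀ z k, idx k ∉ J → f z k = 0}
  add_mem' ha hb z k hk := by simp [ha z k hk, hb z k hk]
  zero_mem' _ _ _ := rfl
  smul_mem' c _ ha z k hk := by simp [ha z k hk]

theorem maskC_mem (idx : κ → ι) (f : List ι → X → κ → ℂ) {J J' : List ι} (h : J'.Sublist J) :
    maskC idx f J' ∈ Supp idx J := fun z k hk => by
  have : idx k ∉ J' := fun h' => hk (h.subset h')
  simp [maskC, this]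

theorem dl_maskC_mem (idx : κ → ι) (f : List ι → X → κ → ℂ) (J : List ι) :
    dl (maskC idx f) J ∈ Supp idx J := dl_mem _ fun _ hK _ => maskC_mem idx f hK

theorem lc_of_supp {idx : κ → ι} (s : κ → G.T) {J : List ι} {f : X → κ → ℂ}
    (h : f ∈ Supp idx J) : G.lc f (sJ idx s J) = G.lc f s := by
  rw [← lc_maskC idx s (fun _ => f) J]
  congr 1
  funext z k
  by_cases hk : idx k ∈ J
  · simp [maskC, hk]
  · simp [maskC, hk, h z k hk]

/-- The cochain of sections with given coefficients. -/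
def sig (idx : κ → ι) (s : κ → G.T) (f : List ι → X → κ → ℂ) : List ι → G.T :=
  fun J => G.lc (maskC idx f J) s

theorem dl_sig (idx : κ → ι) (s : κ → G.T) {f : List ι → X → κ → ℂ} {J : List ι} {x : X}
    (h : ∀ K : List ι, K.Sublist J → K.length + 1 = J.length → H.HolV (f K) x) :
    dl (sig idx s f) J x = G.lc (dl (maskC idx f) J) s x :=
  (lc_dl s fun K h1 h2 => holV_maskC idx (h K h1 h2)).symm

/-- Generators, generators of relations, and Theorem B in the form that is used. -/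
structure Data (G : MSh H) (R : ℝ) (K : ℝ → ι → Set X) (idx : κ → ι) (s : κ → G.T)
    {α : List ι → Type} [∀ J, Fintype (α J)] (τ : (J : List ι) → α J → X → κ → ℂ) : Prop where
  sec : ∀ J k, G.IsSec (capL (K R) J) (sJ idx s J k)
  rep : ∀ r ≤ R, ∀ J : List ι, J ≠ [] → ∀ a, G.IsSec (capL (K r) J) a →
    ∃ f : X → κ → ℂ, ∀ x ∈ capL (K r) J, H.HolV f x ∧ ∀ᶠ y in 𝓝 x, a y = G.lc f (sJ idx s J) y
  tau : ∀ J : List ι, J ≠ [] → ∀ l, ∀ x ∈ capL (K R) J, τ J l ∈ (G.Rel (sJ idx s J)).A x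
  rel : ∀ r ≤ R, ∀ J : List ι, J ≠ [] → ∀ f : X → κ → ℂ,
    (∀ x ∈ capL (K r) J, f ∈ (G.Rel (sJ idx s J)).A x) →
    ∃ k : X → α J → ℂ, ∀ x ∈ capL (K r) J, H.HolV k x ∧ f x = ∑ l, k x l • τ J l x

variable {R : ℝ} {U K : ℝ → ι → Set X}

theorem exists_data (hG : ∀ x, G.CohAt x) (hL : Levels R U K)
    (hAB : ∀ r ≤ R, ∀ J : List ι, J ≠ [] → H.AB (capL (K r) J)) :
    ∃ (κ : Type) (_ : Fintype κ) (idx : κ → ι) (s : κ → G.T) (α : List ι → Type)
      (_ : ∀ J, Fintype (α J)) (τ : (J : List ι) → α J → X → κ → ℂ), Data G R K idx s τ := by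
  classical
  choose ρ hρ s hs using fun i => ((hAB R le_rfl [i] (by simp)).2 G fun x _ => hG x).1
  let idx : (Σ i, ρ i) → ι := fun k => k.1
  let s' : (Σ i, ρ i) → G.T := fun k => s k.1 k.2
  have hsec : ∀ J k, G.IsSec (capL (K R) J) (sJ idx s' J k) := fun J k x hx => by
    unfold sJ
    split_ifs with h
    · exact (hs k.1 x fun i hi => by rw [List.mem_singleton.1 hi]; exact hx _ h).1 k.2
    · exact zero_mem _
  have hgen : ∀ r ≤ R, ∀ J : List ι, J ≠ [] → G.GenOn (sJ idx s' J) (capL (K r) J) := by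
    intro r hr J hJ x hx
    have hx' := capL_mono (hL.monoK hr le_rfl) J hx
    refine ⟨fun k => hsec J k x hx', fun a ha => ?_⟩
    obtain ⟨i, hi⟩ := List.exists_mem_of_ne_nil J hJ
    obtain ⟨f, hf, he⟩ := (hs i x fun j hj => by
      rw [List.mem_singleton.1 hj]; exact hx' _ hi).2 a ha
    refine ⟨fun z k => if h : k.1 = i then f z (h ▸ k.2) else 0, fun k => ?_, ?_⟩
    · by_cases h : k.1 = i
      · simpa [h] using hf _
      · simpa [h] using HS.const_mem 0 x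
    · filter_upwards [he] with y hy
      rw [hy, MSh.lc, MSh.lc, Fintype.sum_sigma, Finset.sum_eq_single i]
      · simp [sJ, idx, s', hi]
      · intro j _ hj
        simp [hj, MSh.act_zero]
      · simp
  have hcoh : ∀ r ≤ R, ∀ J : List ι, J ≠ [] → ∀ x ∈ capL (K r) J,
      (G.Rel (sJ idx s' J)).CohAt x := fun r hr J hJ x hx =>
    (hG x).rel ((hAB r hr J hJ).1 x hx) (hgen r hr J hJ x hx).1
  have : ∀ J : List ι, ∃ (α : Type) (_ : Fintype α) (τ : α → X → (Σ i, ρ i) → ℂ),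
      J ≠ [] → (G.Rel (sJ idx s' J)).GenOn τ (capL (K R) J) := fun J => by
    by_cases hJ : J = []
    · exact ⟨Empty, inferInstance, fun e => e.elim, fun h => (h hJ).elim⟩
    · obtain ⟨α, _, τ, h⟩ := ((hAB R le_rfl J hJ).2 _ (hcoh R le_rfl J hJ)).1
      exact ⟨α, _, τ, fun _ => h⟩
  choose α hα τ hτ using this
  refine ⟨_, inferInstance, idx, s', α, hα, τ, hsec, fun r hr J hJ a ha => ?_,
    fun J hJ l x hx => (hτ J hJ x hx).1 l, fun r hr J hJ f hf => ?_⟩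
  · obtain ⟨f, h1, h2⟩ := (hAB r hr J hJ).exists_lc (fun x _ => hG x) (hgen r hr J hJ) ha
    exact ⟨f, fun x hx => ⟨h1 x hx, h2 x hx⟩⟩
  · obtain ⟨k, h1, h2⟩ := (hAB r hr J hJ).exists_lc (hcoh r hr J hJ)
      (fun x hx => hτ J hJ x (capL_mono (hL.monoK hr le_rfl) J hx)) hf
    exact ⟨k, fun x hx => ⟨h1 x hx, (h2 x hx).self_of_nhds⟩⟩

variable {idx : κ → ι} {s : κ → G.T} {α : List ι → Type} [∀ J, Fintype (α J)]
  {τ : (J : List ι) → α J → X → κ → ℂ}

theorem Data.coch (hD : Data G R K idx s τ) (hL : Levels R U K) {r : ℝ} (hr : r ≤ R) {m : ℕ}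
    (b : Cb H (U r) m fun _ => κ) : G.Coch (U r) m (sig idx s (toF b)) := fun J hJ x hx => by
  rw [sig, lc_maskC]
  exact MSh.lc_mem (holV_toF b hJ hx) fun k =>
    hD.sec J k x (capL_mono (fun i => (hL.sub r hr i).trans (hL.monoK hr le_rfl i)) J hx)

/-- A supported function that is a combination of relation generators is a relation. -/
theorem Data.lc_eq_zero (hD : Data G R K idx s τ) (hL : Levels R U K) {r : ℝ} (hr : r ≤ R)
    {m : ℕ} (hm : 1 ≤ m) (k : Cb H (U r) m α) {J : List ι} (hJ : J.length = m) {f : X → κ → ℂ}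
    (h1 : f ∈ Supp idx J) (h2 : ∀ x ∈ capL (U r) J, f x = tauC τ (toF k) J x) {x : X}
    (hx : x ∈ capL (U r) J) : G.lc f s x = 0 := by
  have h3 : (G.Rel (sJ idx s J)).lc (toF k J) (τ J) ∈ (G.Rel (sJ idx s J)).A x :=
    MSh.lc_mem (holV_toF k hJ hx) fun l => hD.tau J (ne_nil_of_length hm hJ) l x
      (capL_mono (fun i => (hL.sub r hr i).trans (hL.monoK hr le_rfl i)) J hx)
  rw [← lc_of_supp s h1, ← (MSh.mem_Rel.1 h3).2.self_of_nhds]
  exact MSh.lc_congr (mem_of_superset ((isOpen_capL (hL.isOpen r hr) J).mem_nhds hx) h2)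

theorem Data.exists_sig (hD : Data G R K idx s τ) (hL : Levels R U K) {r r' : ℝ} (h : r < r')
    (hr : r' ≤ R) {m : ℕ} (hm : 1 ≤ m) {c : List ι → G.T} (hc : G.Coch (U r') m c) :
    ∃ f : List ι → X → κ → ℂ, ∀ J : List ι, J.length = m → ∀ x ∈ capL (K r) J,
      H.HolV (f J) x ∧ ∀ᶠ y in 𝓝 x, c J y = sig idx s f J y := by
  have : ∀ J : List ι, ∃ f : X → κ → ℂ, J.length = m → ∀ x ∈ capL (K r) J,
      H.HolV f x ∧ ∀ᶠ y in 𝓝 x, c J y = G.lc f (sJ idx s J) y := fun J => by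
    by_cases hJ : J.length = m
    · obtain ⟨f, hf⟩ := hD.rep r (h.le.trans hr) J (ne_nil_of_length hm hJ) _
        ((hc J hJ).mono (capL_mono (hL.sub' r r' h hr) J))
      exact ⟨f, fun _ => hf⟩
    · exact ⟨0, fun h => (hJ h).elim⟩
  choose f hf using this
  exact ⟨f, fun J hJ x hx => by simpa only [sig, lc_maskC] using hf J hJ x hx⟩

theorem Data.exists_tau (hD : Data G R K idx s τ) (hL : Levels R U K) {r : ℝ} (hr : r ≤ R)
    {m : ℕ} (hm : 1 ≤ m) {g : List ι → X → κ → ℂ} (h1 : ∀ J, g J ∈ Supp idx J)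
    (h2 : ∀ J : List ι, J.length = m → ∀ x ∈ capL (K r) J,
      H.HolV (g J) x ∧ ∀ᶠ y in 𝓝 x, G.lc (g J) s y = 0) :
    ∃ k : Cb H (U r) m α, ∀ J : List ι, J.length = m → ∀ x ∈ capL (U r) J,
      g J x = tauC τ (toF k) J x := by
  have : ∀ J : List ι, ∃ k : X → α J → ℂ, J.length = m → ∀ x ∈ capL (K r) J,
      H.HolV k x ∧ g J x = ∑ l, k x l • τ J l x := fun J => by
    by_cases hJ : J.length = m
    · obtain ⟨k, hk⟩ := hD.rel r hr J (ne_nil_of_length hm hJ) (g J) fun x hx =>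
        MSh.mem_Rel.2 (by rw [lc_of_supp s (h1 J)]; exact h2 J hJ x hx)
      exact ⟨k, fun _ => hk⟩
    · exact ⟨0, fun h => (hJ h).elim⟩
  choose k hk using this
  obtain ⟨b, hb⟩ := exists_toF hL hr hm fun J hJ x hx => (hk J hJ x hx).1
  refine ⟨b, fun J hJ x hx => ?_⟩
  rw [(hk J hJ x (capL_mono (hL.sub r hr) J hx)).2, ← hb J hJ x hx]
  rfl

variable (H idx τ) in
/-- The defect of the cocycle relations. -/
def Zmap (U : ι → Set X) (m : ℕ) :
    (Cb H U m (fun _ => κ) × Cb H U (m + 1) α) →L[ℂ] (List ι → X → κ → ℂ) :=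
  dlC ∘L maskC idx ∘L toF ∘L ContinuousLinearMap.fst ℂ _ _ -
    tauC τ ∘L toF ∘L ContinuousLinearMap.snd ℂ _ _

variable (H idx τ) in
/-- Cocycles together with the coefficients of the cocycle relations. -/
def Zs (U : ι → Set X) (m : ℕ) : Submodule ℂ (Cb H U m (fun _ => κ) × Cb H U (m + 1) α) :=
  (Nul κ U (m + 1)).comap (Zmap H idx τ U m).toLinearMap

theorem mem_Zs {U : ι → Set X} {m : ℕ} {p : Cb H U m (fun _ => κ) × Cb H U (m + 1) α} :
    p ∈ Zs H idx τ U m ↔ ∀ J : List ι, J.length = m + 1 → ∀ x ∈ capL U J,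
      dl (maskC idx (toF p.1)) J x = tauC τ (toF p.2) J x :=
  forall₄_congr fun _ _ _ _ => sub_eq_zero

theorem isClosed_Zs (U : ι → Set X) (m : ℕ) :
    IsClosed (Zs H idx τ U m : Set (Cb H U m (fun _ => κ) × Cb H U (m + 1) α)) :=
  (isClosed_Nul κ U (m + 1)).preimage (Zmap H idx τ U m).continuous

theorem Data.cocy (hD : Data G R K idx s τ) (hL : Levels R U K) {r : ℝ} (hr : r ≤ R) {m : ℕ}
    {p : Cb H (U r) m (fun _ => κ) × Cb H (U r) (m + 1) α} (hp : p ∈ Zs H idx τ (U r) m) :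
    G.Cocy (U r) m (sig idx s (toF p.1)) := by
  refine ⟨hD.coch hL hr _, fun J hJ x hx => ?_⟩
  rw [dl_sig idx s fun K h1 h2 => holV_toF p.1 (by omega) (capL_sublist _ h1 hx)]
  exact hD.lc_eq_zero hL hr (by omega) p.2 hJ (dl_maskC_mem idx _ J) (mem_Zs.1 hp J hJ) hx

theorem sig_congr {V : Set X} (hV : IsOpen V) {f g : List ι → X → κ → ℂ} {J : List ι}
    (h : ∀ x ∈ V, f J x = g J x) {x : X} (hx : x ∈ V) : sig idx s f J x = sig idx s g J x :=
  MSh.lc_congr (mem_of_superset (hV.mem_nhds hx) fun y hy => maskC_congr idx (h y hy))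

theorem Data.exists_Zs (hD : Data G R K idx s τ) (hL : Levels R U K) {r r' : ℝ} (h : r < r')
    (hr : r' ≤ R) {m : ℕ} (hm : 1 ≤ m) {w : List ι → G.T} (hw : G.Cocy (U r') m w) :
    ∃ p ∈ Zs H idx τ (U r) m, ∀ J : List ι, J.length = m → ∀ x ∈ capL (U r) J,
      w J x = sig idx s (toF p.1) J x := by
  have hr0 := h.le.trans hr
  obtain ⟨f, hf⟩ := hD.exists_sig hL h hr hm hw.1
  obtain ⟨b, hb⟩ := exists_toF hL hr0 hm fun J hJ x hx => (hf J hJ x hx).1
  obtain ⟨k, hk⟩ := hD.exists_tau hL hr0 (m := m + 1) (by omega) (dl_maskC_mem idx f)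
    fun J hJ x hx => ⟨holV_dl fun K h1 h2 =>
      holV_maskC idx (hf K (by omega) x (capL_sublist _ h1 hx)).1, by
      have h3 : ∀ᶠ y in 𝓝 x, ∀ K : List ι, K.Sublist J → K.length = m →
          H.HolV (f K) y ∧ w K y = sig idx s f K y := eventually_sublist fun K h1 => by
        by_cases h2 : K.length = m
        · have := hf K h2 x (capL_sublist _ h1 hx)
          exact (this.1.nhds.and this.2).mono fun y hy _ => hy
        · exact Eventually.of_forall fun _ h => (h2 h).elim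
      filter_upwards [h3, (isOpen_capL (hL.isOpen r' hr) J).mem_nhds
        (capL_mono (hL.sub' r r' h hr) J hx)] with y h4 h5
      rw [← dl_sig idx s fun K h1 h2 => (h4 K h1 (by omega)).1, ← hw.2 J hJ y h5]
      exact dl_congr_apply fun K h1 h2 => (h4 K h1 (by omega)).2.symm⟩
  refine ⟨(b, k), mem_Zs.2 fun J hJ x hx => ?_, fun J hJ x hx => ?_⟩
  · rw [← hk J hJ x hx]
    exact dl_congr_apply fun K h1 h2 =>
      maskC_congr idx (hb K (by omega) x (capL_sublist _ h1 hx))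
  · rw [sig_congr (isOpen_capL (hL.isOpen r hr0) J) (hb J hJ) hx]
    exact (hf J hJ x (capL_mono (hL.sub r hr0) J hx)).2.self_of_nhds

variable (idx s) in
/-- Evaluation of the cochain of sections, as a linear map. -/
def sigL {U : ι → Set X} {m : ℕ} {J : List ι} (hJ : J.length = m) {x : X} (hx : x ∈ capL U J) :
    Cb H U m (fun _ => κ) →ₗ[ℂ] G.E x where
  toFun b := sig idx s (toF b) J x
  map_add' b b' := by
    rw [sig, map_add, map_add]
    exact MSh.lc_add s (holV_maskC idx (holV_toF b hJ hx)) (holV_maskC idx (holV_toF b' hJ hx))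
  map_smul' c b := by
    rw [sig, map_smul, map_smul]
    exact MSh.lc_smul c s (holV_maskC idx (holV_toF b hJ hx))

variable (H idx τ) in
/-- The Banach space of cocycles, as a type. -/
def ZB (U : ι → Set X) (m : ℕ) : Type := Zs H idx τ U m

instance (U : ι → Set X) (m : ℕ) : NormedAddCommGroup (ZB H idx τ U m) :=
  inferInstanceAs (NormedAddCommGroup (Zs H idx τ U m))

instance (U : ι → Set X) (m : ℕ) : NormedSpace ℂ (ZB H idx τ U m) :=
  inferInstanceAs (NormedSpace ℂ (Zs H idx τ U m))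

theorem completeSpace_ZB (hM : H.Montel) {U : ι → Set X} (hU : ∀ i, IsOpen (U i)) (m : ℕ) :
    CompleteSpace (ZB H idx τ U m) := by
  have := completeSpace_Cb (α := fun _ => κ) hM hU m
  have := completeSpace_Cb (α := α) hM hU (m + 1)
  exact (isClosed_Zs U m).completeSpace_coe

/-- The coefficients of a cocycle. -/
def ZB.co {U : ι → Set X} {m : ℕ} : ZB H idx τ U m →L[ℂ] Cb H U m fun _ => κ :=
  ContinuousLinearMap.fst ℂ _ _ ∘L (Zs H idx τ U m).subtypeL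

theorem exists_resZ (hM : H.Montel) (hL : Levels R U K) {r r' : ℝ} (h : r < r') (hr : r' ≤ R)
    {m : ℕ} (hm : 1 ≤ m) :
    ∃ ρ : ZB H idx τ (U r') m →L[ℂ] ZB H idx τ (U r) m, IsCompactOperator ρ ∧
      ∀ p, ∀ J : List ι, J.length = m → ∀ x ∈ capL (U r) J,
        toF (ZB.co (ρ p)) J x = toF (ZB.co p) J x := by
  obtain ⟨ρ₁, h1, h2⟩ := exists_resC (α := fun _ => κ) hM hL h hr hm
  obtain ⟨ρ₂, h3, h4⟩ := exists_resC (α := α) (m := m + 1) hM hL h hr (by omega)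
  let φ := (ρ₁ ∘L ContinuousLinearMap.fst ℂ _ _ ∘L (Zs H idx τ (U r') m).subtypeL).prod
    (ρ₂ ∘L ContinuousLinearMap.snd ℂ _ _ ∘L (Zs H idx τ (U r') m).subtypeL)
  have hφ : ∀ p, φ p ∈ Zs H idx τ (U r) m := fun p => mem_Zs.2 fun J hJ x hx => by
    have := mem_Zs.1 p.2 J hJ x (capL_mono (hL.mono h.le hr) J hx)
    refine (dl_congr_apply fun K a b => maskC_congr idx
      (h2 p.1.1 K (by omega) x (capL_sublist _ a hx))).trans (this.trans ?_)
    exact congrArg (fun v : α J → ℂ => ∑ l, v l • τ J l x) (h4 p.1.2 J hJ x hx).symm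
  exact ⟨φ.codRestrict _ hφ, (isCompactOperator_prod _ _ (h1.comp_clm _)
    (h3.comp_clm _)).codRestrict hφ (isClosed_Zs _ _), fun p => h2 p.1.1⟩

theorem Data.cfin (hD : Data G R K idx s τ) (hM : H.Montel) (hL : Levels R U K) {m : ℕ}
    (hm : 1 ≤ m) {r₀ r₀' r₁ r₁' r₂' : ℝ} (h₀ : r₀ < r₀') (h₁ : r₀' ≤ r₁) (h₂ : r₁ < r₁')
    (h₃ : r₁' ≤ R) (h₄ : r₁ < r₂') (h₅ : r₂' ≤ R) (h : G.toFSh.CSur m (U r₀') (U r₁) (U r₂')) :
    G.toFSh.CFin m (U r₀) (U r₁') := by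
  obtain ⟨r₂, h₆, h₇⟩ := exists_between h₄
  have e₁ : r₁ ≤ R := by linarith
  have e₀ : r₀ ≤ R := by linarith
  have e₀' : r₀' ≤ R := by linarith
  have e₂ : r₂ ≤ R := by linarith
  have := completeSpace_ZB (idx := idx) (τ := τ) hM (hL.isOpen r₁ e₁) (m + 1)
  have := completeSpace_ZB (idx := idx) (τ := τ) hM (hL.isOpen r₂ e₂) (m + 1)
  have := completeSpace_Cb (α := fun _ => κ) hM (hL.isOpen r₀ e₀) m
  have := completeSpace_Cb (α := α) hM (hL.isOpen r₀ e₀) (m + 1)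
  let V := (ZB H idx τ (U r₁) (m + 1) × ZB H idx τ (U r₂) (m + 1)) ×
    (Cb H (U r₀) m (fun _ => κ) × Cb H (U r₀) (m + 1) α)
  let p₁ : V →L[ℂ] ZB H idx τ (U r₁) (m + 1) :=
    ContinuousLinearMap.fst ℂ _ _ ∘L ContinuousLinearMap.fst ℂ _ _
  let p₂ : V →L[ℂ] ZB H idx τ (U r₂) (m + 1) :=
    ContinuousLinearMap.snd ℂ _ _ ∘L ContinuousLinearMap.fst ℂ _ _
  let p₃ : V →L[ℂ] Cb H (U r₀) m (fun _ => κ) :=
    ContinuousLinearMap.fst ℂ _ _ ∘L ContinuousLinearMap.snd ℂ _ _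
  let p₄ : V →L[ℂ] Cb H (U r₀) (m + 1) α :=
    ContinuousLinearMap.snd ℂ _ _ ∘L ContinuousLinearMap.snd ℂ _ _
  let Ψ : V →L[ℂ] (List ι → X → κ → ℂ) :=
    maskC idx ∘L toF ∘L ZB.co ∘L p₁ - maskC idx ∘L toF ∘L ZB.co ∘L p₂ -
      dlC ∘L maskC idx ∘L toF ∘L p₃ - tauC τ ∘L toF ∘L p₄
  let W : Submodule ℂ V := (Nul κ (U r₀) (m + 1)).comap (Ψ : V →ₗ[ℂ] (List ι → X → κ → ℂ))
  have hW : ∀ v : V, v ∈ W ↔ ∀ J : List ι, J.length = m + 1 → ∀ x ∈ capL (U r₀) J,
      (maskC idx (toF (ZB.co v.1.1)) J - maskC idx (toF (ZB.co v.1.2)) J -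
        dl (maskC idx (toF v.2.1)) J) x = tauC τ (toF v.2.2) J x :=
    fun v => forall₄_congr fun _ _ _ _ => sub_eq_zero
  have : CompleteSpace W :=
    IsClosed.completeSpace_coe (hs := (isClosed_Nul κ (U r₀) (m + 1)).preimage Ψ.continuous)
  obtain ⟨ρ, hρ, hρ'⟩ := exists_resZ (idx := idx) (τ := τ) (m := m + 1) hM hL h₆ e₂ (by omega)
  have hsupp : ∀ (f₁ f₂ f₀ : List ι → X → κ → ℂ) (J : List ι),
      maskC idx f₁ J - maskC idx f₂ J - dl (maskC idx f₀) J ∈ Supp idx J := fun f₁ f₂ f₀ J =>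
    sub_mem (sub_mem (maskC_mem idx _ (List.Sublist.refl J)) (maskC_mem idx _ (List.Sublist.refl J)))
      (dl_maskC_mem idx _ J)
  have hlc : ∀ (b₁ : Cb H (U r₁) (m + 1) fun _ => κ) (b₂ : Cb H (U r₂) (m + 1) fun _ => κ)
      (f₀ : List ι → X → κ → ℂ) (J : List ι) (hJ : J.length = m + 1) (x : X),
      x ∈ capL (U r₀') J →  (∀ K : List ι, K.Sublist J → K.length = m → H.HolV (f₀ K) x) →
      H.HolV (maskC idx (toF b₁) J - maskC idx (toF b₂) J - dl (maskC idx f₀) J) x ∧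
      G.lc (maskC idx (toF b₁) J - maskC idx (toF b₂) J - dl (maskC idx f₀) J) s x =
        sig idx s (toF b₁) J x - sig idx s (toF b₂) J x - dl (sig idx s f₀) J x := by
    intro b₁ b₂ f₀ J hJ x hx hf
    have a1 := holV_maskC idx (holV_toF b₁ hJ (capL_mono (hL.mono h₁ e₁) J hx))
    have a2 := holV_maskC idx (holV_toF b₂ hJ (capL_mono (hL.mono (by linarith) e₂) J hx))
    have a3 : H.HolV (dl (maskC idx f₀) J) x :=
      holV_dl fun K h1 h2 => holV_maskC idx (hf K h1 (by omega))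
    have a4 : H.HolV (maskC idx (toF b₁) J - maskC idx (toF b₂) J) x :=
      fun k => sub_mem (a1 k) (a2 k)
    refine ⟨fun k => sub_mem (a4 k) (a3 k), ?_⟩
    rw [MSh.lc_sub s a4 a3, MSh.lc_sub s a1 a2, dl_sig idx s fun K h1 h2 => hf K h1 (by omega)]
    rfl
  obtain ⟨N, z, hz⟩ := schwartz (p₁ ∘L W.subtypeL) (ρ ∘L p₂ ∘L W.subtypeL) (fun q => by
    obtain ⟨z', hz', c, hc, he⟩ := h _ (hD.cocy hL e₁ q.2)
    obtain ⟨q₂, hq₂, he₂⟩ := hD.exists_Zs hL h₇ h₅ (by omega) hz'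
    obtain ⟨f₀, hf₀⟩ := hD.exists_sig hL h₀ e₀' hm hc
    obtain ⟨b₀, hb₀⟩ := exists_toF hL e₀ hm fun J hJ x hx => (hf₀ J hJ x hx).1
    obtain ⟨k₀, hk₀⟩ := hD.exists_tau hL e₀ (m := m + 1) (by omega)
      (hsupp (toF q.1.1) (toF q₂.1) f₀) fun J hJ x hx => by
      have hx' := capL_mono (hL.sub' r₀ r₀' h₀ e₀') J hx
      refine ⟨(hlc _ _ _ J hJ x hx' fun K h1 h2 => (hf₀ K h2 x (capL_sublist _ h1 hx)).1).1, ?_⟩
      have h3 : ∀ᶠ y in 𝓝 x, ∀ K : List ι, K.Sublist J → K.length = m →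
          H.HolV (f₀ K) y ∧ c K y = sig idx s f₀ K y := eventually_sublist fun K h1 => by
        by_cases h2 : K.length = m
        · have := hf₀ K h2 x (capL_sublist _ h1 hx)
          exact (this.1.nhds.and this.2).mono fun y hy _ => hy
        · exact Eventually.of_forall fun _ h => (h2 h).elim
      filter_upwards [h3, (isOpen_capL (hL.isOpen r₀' e₀') J).mem_nhds hx'] with y h4 h5
      rw [(hlc _ _ _ J hJ y h5 fun K h1 h2 => (h4 K h1 h2).1).2,
        ← he₂ J hJ y (capL_mono (hL.mono (by linarith) e₂) J h5), sub_eq_zero]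
      exact (he J hJ y h5).trans (dl_congr_apply fun K h1 h2 => (h4 K h1 (by omega)).2)
    refine ⟨⟨((q, ⟨q₂, hq₂⟩), (b₀, k₀)), (hW _).2 fun J hJ x hx => ?_⟩, rfl⟩
    rw [← hk₀ J hJ x hx]
    exact congrArg (fun v => maskC idx (toF q.1.1) J x - maskC idx (toF q₂.1) J x - v)
      (dl_congr_apply fun K h1 h2 =>
        maskC_congr idx (hb₀ K (by omega) x (capL_sublist _ h1 hx)))) (hρ.comp_clm _)
  have hmono := capL_mono (hL.mono (by linarith : r₀ ≤ r₁) e₁)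
  refine ⟨N, fun i => sig idx s (toF (ZB.co (z i))), fun i => ?_, fun w hw => ?_⟩
  · have := hD.cocy hL e₁ (z i).2
    exact ⟨fun J hJ => (this.1 J hJ).mono (hmono J), fun J hJ x hx => this.2 J hJ x (hmono J hx)⟩
  obtain ⟨q, hq, he⟩ := hD.exists_Zs hL h₂ h₃ (by omega) hw
  obtain ⟨c, v, hv⟩ := hz ⟨q, hq⟩
  refine ⟨c, sig idx s (toF v.1.2.1), hD.coch hL e₀ _, fun J hJ x hx => ?_⟩
  have a1 := congrArg (fun q => sigL idx s hJ (hmono J hx) (ZB.co q)) hv
  simp only [map_add, map_sum, map_smul, map_sub] at a1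
  have a2 := (hlc (ZB.co v.1.1.1) (ZB.co v.1.1.2) (toF v.1.2.1) J hJ x
    (capL_mono (hL.mono h₀.le e₀') J hx) fun K h1 h2 => holV_toF _ h2 (capL_sublist _ h1 hx)).2
  rw [hD.lc_eq_zero hL e₀ (by omega) v.1.2.2 hJ (hsupp _ _ _ J) ((hW _).1 v.2 J hJ) hx,
    eq_comm, sub_eq_zero,
    ← sig_congr (isOpen_capL (hL.isOpen r₁ e₁) J) (hρ' v.1.1.2 J hJ) (hmono J hx)] at a2
  rw [← a2]
  simp only [Pi.sub_apply, Finset.sum_apply, Pi.smul_apply]
  rw [he J hJ x (hmono J hx), sub_eq_iff_eq_add']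
  exact a1

end Fini

theorem cfin_of_csur {X ι : Type} [TopologicalSpace X] [Fintype ι] {H : HS X} (hM : H.Montel)
    {G : MSh H} (hG : ∀ x, G.CohAt x) {R : ℝ} {U K : ℝ → ι → Set X} (hL : Levels R U K)
    (hAB : ∀ r ≤ R, ∀ J : List ι, J ≠ [] → H.AB (capL (K r) J)) {m : ℕ} (hm : 1 ≤ m)
    {r₀ r₀' r₁ r₁' r₂' : ℝ} (h₀ : r₀ < r₀') (h₁ : r₀' ≤ r₁) (h₂ : r₁ < r₁') (h₃ : r₁' ≤ R)
    (h₄ : r₁ < r₂') (h₅ : r₂' ≤ R) (h : G.toFSh.CSur m (U r₀') (U r₁) (U r₂')) :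
    G.toFSh.CFin m (U r₀) (U r₁') := by
  obtain ⟨κ, _, idx, s, α, _, τ, hD⟩ := Fini.exists_data hG hL hAB
  exact hD.cfin hM hL hm h₀ h₁ h₂ h₃ h₄ h₅ h

end Pool.Agent.QMax
end
end

-- part Pool.Agent.Lib.MP_ec9812_ag.GeoBase
section

/-! Good charts of the quotient manifold. -/

open Set Filter Topology
open scoped Manifold ContDiff

noncomputable section

namespace Pool.Agent.QMax.Geo

variable {h : ℕ} (Mo : Model h)

theorem Model.good_chart {W : Set (EE h)} (h₁ : IsOpen W) (h₂ : W ⊆ Om h) (h₃ : InjOn Mo.π W) :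
    ∃ e : OpenPartialHomeomorph Mo.X (EE h), Good (hsM (h + 2) Mo.X) (hsE _) e ∧
      e.target = W ∧ ⇑e.symm = Mo.π := by
  obtain ⟨e, he, h4⟩ := Mo.chart W h₁ h₂ h₃
  have := Mo.manifold
  exact ⟨e, good_of_mem_atlas he, h4⟩

theorem Model.pi_act (k : ℤ) (a : ℤ × ℤ) {y : EE h} (hy : y ∈ Om h) :
    Mo.π (act k a y) = Mo.π y :=
  ((Mo.eq_iff y hy _ ((act_mem_Om k a).2 hy)).2 ⟨k, a, rfl⟩).symm

theorem Model.mem_O_iff {y : EE h} (hy : y ∈ Om h) (f : Mo.X → ℂ) :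
    f ∈ (hsM (h + 2) Mo.X).O (Mo.π y) ↔ f ∘ Mo.π ∈ (hsE (EE h)).O y := by
  obtain ⟨W, h1, h2, h3, h4⟩ := Mo.locInj y hy
  obtain ⟨e, he, h5, h6⟩ := Mo.good_chart h1 h3 h4
  have h7 : y ∈ e.target := h5 ▸ h2
  have := he f _ (e.map_target h7)
  rwa [e.right_inv h7, h6] at this

end Pool.Agent.QMax.Geo
end
end

-- part Pool.Agent.Lib.MP_ec9812_ag.Geo2
section

/-! The manifold is obtained from large relatively compact open sets by bumps. -/

open Set Filter Topology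

noncomputable section

namespace Pool.Agent.QMax.Geo

namespace Geo2

section Boxes

variable {n : ℕ}

/-- `S` is an open box. -/
def IsOB (S : Set (Fin n → ℂ)) : Prop := ∃ I, IsOI I ∧ S = OBox I

theorem IsOB.isOpen {S : Set (Fin n → ℂ)} (h : IsOB S) : IsOpen S := by
  obtain ⟨I, hI, rfl⟩ := h
  exact hI.isOpen

theorem IsOB.inter {S S' : Set (Fin n → ℂ)} (h : IsOB S) (h' : IsOB S') : IsOB (S ∩ S') := by
  obtain ⟨I, hI, rfl⟩ := h
  obtain ⟨I', hI', rfl⟩ := h'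
  exact ⟨_, hI.inter hI', (OBox_inter I I').symm⟩

theorem isOB_univ : IsOB (univ : Set (Fin n → ℂ)) :=
  ⟨fun _ => univ, fun _ => ⟨isOpen_univ, ordConnected_univ⟩, by ext; simp [OBox]⟩

theorem isOB_coord (c : Fin n × Bool) {J : Set ℝ} (h1 : IsOpen J) (h2 : J.OrdConnected) :
    IsOB {y : Fin n → ℂ | rc y c ∈ J} := by
  refine ⟨fun c' => if c' = c then J else univ, fun c' => ?_, ?_⟩
  · dsimp only
    split_ifs
    · exact ⟨h1, h2⟩
    · exact ⟨isOpen_univ, ordConnected_univ⟩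
  · ext y
    refine ⟨fun hy c' => ?_, fun hy => ?_⟩
    · dsimp only
      split_ifs with hc
      · rw [hc]; exact hy
      · exact mem_univ _
    · have := hy c
      dsimp only at this
      rwa [if_pos rfl] at this

theorem isOB_forall {ι : Type} [Finite ι] {p : ι → (Fin n → ℂ) → Prop}
    (h : ∀ i, IsOB {y | p i y}) : IsOB {y | ∀ i, p i y} := by
  choose I hI hp using h
  refine ⟨fun c => ⋂ i, I i c, fun c => ⟨isOpen_iInter_of_finite fun i => (hI i c).1,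
    ordConnected_iInter fun i => (hI i c).2⟩, ?_⟩
  ext y
  have h1 : ∀ i, p i y ↔ ∀ c, rc y c ∈ I i c := fun i => Set.ext_iff.1 (hp i) y
  simp only [mem_ofPred_eq, h1, OBox, mem_iInter]
  exact forall_comm

theorem isOB_imp (q : Prop) {p : (Fin n → ℂ) → Prop} (h : IsOB {y | p y}) :
    IsOB {y | q → p y} := by
  by_cases hq : q
  · simpa [hq] using h
  · simpa [hq] using isOB_univ

theorem isOB_abs (c : Fin n × Bool) (m r : ℝ) : IsOB {y : Fin n → ℂ | |rc y c - m| < r} := by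
  have : {y : Fin n → ℂ | |rc y c - m| < r} = {y | rc y c ∈ Ioo (m - r) (m + r)} := by
    ext y
    simp only [mem_ofPred_eq, abs_lt, mem_Ioo]
    constructor <;> rintro ⟨h1, h2⟩ <;> constructor <;> linarith
  rw [this]
  exact isOB_coord c isOpen_Ioo ordConnected_Ioo

/-- The sign attached to a Boolean. -/
def sg (s : Bool) : ℝ := if s then 1 else -1

theorem isOB_lt (c : Fin n × Bool) (s : Bool) (r : ℝ) :
    IsOB {y : Fin n → ℂ | sg s * rc y c < r} := by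
  cases s
  · have : {y : Fin n → ℂ | sg false * rc y c < r} = {y | rc y c ∈ Ioi (-r)} := by
      ext y
      simp only [sg, mem_ofPred_eq, mem_Ioi, Bool.false_eq_true, if_false]
      constructor <;> intro h <;> linarith
    rw [this]
    exact isOB_coord c isOpen_Ioi ordConnected_Ioi
  · have : {y : Fin n → ℂ | sg true * rc y c < r} = {y | rc y c ∈ Iio r} := by
      ext y
      simp [sg]
    rw [this]
    exact isOB_coord c isOpen_Iio ordConnected_Iio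

theorem isOB_gt (c : Fin n × Bool) (s : Bool) (r : ℝ) :
    IsOB {y : Fin n → ℂ | r < sg s * rc y c} := by
  have : {y : Fin n → ℂ | r < sg s * rc y c} = {y | sg (!s) * rc y c < -r} := by
    ext y
    cases s <;> simp only [sg, mem_ofPred_eq, Bool.not_false, Bool.not_true, Bool.false_eq_true,
      if_false, if_true] <;> constructor <;> intro h <;> linarith
  rw [this]
  exact isOB_lt c _ _

theorem sg_mul_le_abs (s : Bool) (t : ℝ) : sg s * t ≤ |t| := by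
  cases s
  · simpa [sg] using neg_le_abs t
  · simpa [sg] using le_abs_self t

theorem abs_lt_of_sg {t r : ℝ} (h : ∀ s, sg s * t < r) : |t| < r := by
  have h1 := h true
  have h2 := h false
  simp only [sg, Bool.false_eq_true, if_false, if_true] at h1 h2
  rw [abs_lt]
  constructor <;> linarith

end Boxes

variable {h : ℕ}

theorem IsOB.preimage_act {S : Set (EE h)} (hS : IsOB S) (k : ℤ) (a : ℤ × ℤ) :
    IsOB (act k a ⁻¹' S) := by
  obtain ⟨I, hI, rfl⟩ := hS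
  refine ⟨fun c => (fun t => sc k c.1 * t + if c.2 then sh a c.1 else 0) ⁻¹' I c, fun c => ⟨?_, ?_⟩,
    ?_⟩
  · exact (hI c).1.preimage (by fun_prop)
  · refine (hI c).2.preimage_mono fun t u htu => ?_
    have := mul_le_mul_of_nonneg_left htu (sc_pos k c.1).le
    linarith
  · ext y
    simp only [mem_preimage, OBox, mem_ofPred_eq, rc_act]

/-- The base coordinates of `y` lie in the cube with index `β`. -/
def InP (β : ℤ × ℤ × ℤ) (y : EE h) : Prop :=
  |(y 0).re - β.1 / 4| < 1 / 4 ∧ |(y 0).im - β.2.1 / 4| < 1 / 4 ∧ |(y 1).re - β.2.2 / 4| < 1 / 4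

/-- Admissible indices. -/
def Adm (β : ℤ × ℤ × ℤ) : Prop := |β.1| ≤ 8 ∧ 4 ≤ |β.2.1| ∧ |β.2.1| ≤ 16 ∧ |β.2.2| ≤ 8

theorem finite_adm : {β | Adm β}.Finite := by
  refine ((finite_Icc (-8 : ℤ) 8).prod ((finite_Icc (-16 : ℤ) 16).prod
    (finite_Icc (-8 : ℤ) 8))).subset fun β hβ => ?_
  exact ⟨abs_le.1 hβ.1, abs_le.1 hβ.2.2.1, abs_le.1 hβ.2.2.2⟩

theorem isOB_InP (β : ℤ × ℤ × ℤ) : IsOB {y : EE h | InP β y} :=
  (isOB_abs (0, true) _ _).inter ((isOB_abs (0, false) _ _).inter (isOB_abs (1, true) _ _))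

theorem abs_le_of_near {x : ℝ} {m : ℤ} {N : ℕ} (h1 : |x - m / 4| < 1 / 4) (h2 : |m| ≤ N) :
    |x| < (N + 1) / 4 := by
  have h3 : |(m : ℝ)| ≤ N := by exact_mod_cast h2
  rw [abs_lt] at *
  rw [abs_le] at h3
  constructor <;> linarith

theorem le_abs_of_near {x : ℝ} {m : ℤ} (h1 : |x - m / 4| < 1 / 4) (h2 : 4 ≤ |m|) :
    3 / 4 < |x| := by
  have h3 : (4 : ℝ) ≤ |(m : ℝ)| := by exact_mod_cast h2
  rw [abs_lt] at h1
  rw [lt_abs]
  rcases le_abs.1 h3 with h4 | h4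
  · left; linarith
  · right; linarith

theorem InP.bounds {β : ℤ × ℤ × ℤ} {y : EE h} (hβ : Adm β) (hy : InP β y) :
    |(y 0).re| < 9 / 4 ∧ 3 / 4 < |(y 0).im| ∧ |(y 0).im| < 17 / 4 ∧ |(y 1).re| < 9 / 4 := by
  refine ⟨?_, le_abs_of_near hy.2.1 hβ.2.1, ?_, ?_⟩
  · have := abs_le_of_near (N := 8) hy.1 hβ.1
    norm_num at this ⊢; exact this
  · have := abs_le_of_near (N := 16) hy.2.1 hβ.2.2.1
    norm_num at this ⊢; exact this
  · have := abs_le_of_near (N := 8) hy.2.2 hβ.2.2.2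
    norm_num at this ⊢; exact this

theorem re_act_zero (k : ℤ) (a : ℤ × ℤ) (y : EE h) :
    (act k a y 0).re = lam ^ k * (y 0).re + sp a := by
  rw [act_apply_zero, Complex.add_re, Complex.ofReal_re, Complex.re_ofReal_mul]

theorem re_act_one (k : ℤ) (a : ℤ × ℤ) (y : EE h) :
    (act k a y 1).re = lam ^ (-k) * (y 1).re + sm a := by
  rw [act_apply_one, Complex.add_re, Complex.ofReal_re, Complex.re_ofReal_mul]

/-- The relevant group elements. -/
def Rel (g : ℤ × ℤ × ℤ) : Prop :=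
  (lam ^ g.1 ≤ 30 ∧ lam ^ (-g.1) ≤ 30) ∧ |sp g.2| ≤ 30 ∧ |sm g.2| ≤ 30

theorem finite_rel : {g | Rel g}.Finite := ((finite_k 30).prod (finite_a 30)).subset fun _ hg => hg

theorem rel_of_InP {β β' : ℤ × ℤ × ℤ} (hβ : Adm β) (hβ' : Adm β') {k : ℤ} {a : ℤ × ℤ} {y : EE h}
    (hy : InP β y) (hy' : InP β' (act k a y)) : Rel (k, a) := by
  obtain ⟨a1, a2, a3, a4⟩ := hy.bounds hβ
  obtain ⟨b1, b2, b3, b4⟩ := hy'.bounds hβ'
  have p1 := zpow_pos lam_pos k
  have p2 := zpow_pos lam_pos (-k)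
  have p3 : lam ^ k * lam ^ (-k) = 1 := by rw [zpow_neg, mul_inv_cancel₀ p1.ne']
  rw [im_act_zero, abs_mul, abs_of_pos p1] at b2 b3
  rw [re_act_zero] at b1
  rw [re_act_one] at b4
  have c1 : lam ^ k ≤ 6 := by nlinarith
  have c2 : lam ^ (-k) ≤ 6 := by
    have : lam ^ (-k) * (3 / 4) < lam ^ (-k) * (lam ^ k * |(y 0).im|) := by gcongr
    rw [← mul_assoc, mul_comm (lam ^ (-k)) (lam ^ k), p3] at this
    linarith
  have key : ∀ t x s : ℝ, 0 < t → t ≤ 6 → |x| < 9 / 4 → |t * x + s| < 9 / 4 → |s| ≤ 30 := by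
    intro t x s h1 h2 h3 h4
    have h5 : |t * x| ≤ 6 * (9 / 4) := by
      rw [abs_mul, abs_of_pos h1]
      exact mul_le_mul h2 h3.le (abs_nonneg _) (by norm_num)
    rw [abs_le] at h5 ⊢
    rw [abs_lt] at h4
    constructor <;> linarith
  exact ⟨⟨by dsimp only; linarith, by dsimp only; linarith⟩, key _ _ _ p1 c1 a1 b1,
    key _ _ _ p2 c2 a4 b4⟩

theorem eq_of_InP {β : ℤ × ℤ × ℤ} (hβ : Adm β) {k : ℤ} {a : ℤ × ℤ} {y : EE h}
    (hy : InP β y) (hy' : InP β (act k a y)) : act k a y = y := by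
  obtain ⟨-, a2, -, -⟩ := hy.bounds hβ
  obtain ⟨-, b2, -, -⟩ := hy'.bounds hβ
  have p1 := zpow_pos lam_pos k
  have d : |(act k a y 0).im - (y 0).im| < 1 / 2 := by
    have h1 := hy.2.1
    have h2 := hy'.2.1
    rw [abs_lt] at *
    constructor <;> linarith
  have d' := abs_lt.1 ((abs_abs_sub_abs_le_abs_sub _ _).trans_lt d)
  rw [im_act_zero, abs_mul, abs_of_pos p1] at b2 d'
  have hk : k = 0 := by
    rcases lt_trichotomy k 0 with hk | hk | hk
    · exfalso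
      have h1 : lam ^ (k + 1) ≤ 1 := zpow_le_one_of_nonpos₀ one_lt_lam.le (by omega)
      rw [zpow_add_one₀ lam_pos.ne'] at h1
      have h2 : lam ^ k * 3 ≤ 1 := by nlinarith [three_lt_lam]
      nlinarith [abs_nonneg (y 0).im]
    · exact hk
    · exfalso
      have h1 : lam ^ (1 : ℤ) ≤ lam ^ k := zpow_le_zpow_right₀ one_lt_lam.le (by omega)
      rw [zpow_one] at h1
      nlinarith [three_lt_lam]
  subst hk
  have ha : a = 0 := by
    have h1 := hy.1
    have h2 := hy'.1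
    have h3 := hy.2.2
    have h4 := hy'.2.2
    rw [re_act_zero] at h2
    rw [re_act_one] at h4
    simp only [zpow_zero, neg_zero, one_mul] at h2 h4
    refine eq_zero_of_small ?_ ?_ <;> rw [abs_lt] at * <;> constructor <;> linarith
  rw [ha, act_zero]

theorem near_round (x : ℝ) : |x - (round (4 * x) : ℤ) / 4| < 1 / 4 := by
  have := abs_le.1 (abs_sub_round (4 * x))
  rw [abs_lt]
  constructor <;> linarith

theorem abs_round_le {x : ℝ} {N : ℕ} (hx : |4 * x| ≤ N) : |round (4 * x)| ≤ N := by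
  have h1 := abs_le.1 (abs_sub_round (4 * x))
  have h2 := abs_le.1 hx
  have h3 : |((round (4 * x) : ℤ) : ℝ)| < N + 1 := by
    rw [abs_lt]; constructor <;> linarith
  have h4 : |round (4 * x)| < N + 1 := by exact_mod_cast h3
  omega

theorem le_abs_round {x : ℝ} (hx : 1 ≤ |x|) : 4 ≤ |round (4 * x)| := by
  have h1 := abs_le.1 (abs_sub_round (4 * x))
  have h3 : (3 : ℝ) < |((round (4 * x) : ℤ) : ℝ)| := by
    rw [lt_abs]
    rcases le_abs.1 hx with h | h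
    · left; linarith
    · right; linarith
  have h4 : 3 < |round (4 * x)| := by exact_mod_cast h3
  omega

theorem exists_normal {y : EE h} (hy : (y 0).im ≠ 0) :
    ∃ k a β, Adm β ∧ InP β (act k a y) ∧ 1 ≤ |(act k a y 0).im| := by
  obtain ⟨k, h1, h2⟩ := exists_scale (abs_pos.2 hy)
  obtain ⟨a, h3, h4⟩ := exists_shift (lam ^ k * (y 0).re) (lam ^ (-k) * (y 1).re)
  rw [← re_act_zero] at h3
  rw [← re_act_one] at h4
  have h5 : |(act k a y 0).im| = lam ^ k * |(y 0).im| := by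
    rw [im_act_zero, abs_mul, abs_of_pos (zpow_pos lam_pos k)]
  rw [← h5] at h1 h2
  refine ⟨k, a, (round (4 * (act k a y 0).re), round (4 * (act k a y 0).im),
    round (4 * (act k a y 1).re)), ⟨abs_round_le (N := 8) ?_, le_abs_round h1,
      abs_round_le (N := 16) ?_, abs_round_le (N := 8) ?_⟩,
    ⟨near_round _, near_round _, near_round _⟩, h1⟩
  · rw [abs_mul]; norm_num; linarith
  · rw [abs_mul]; norm_num; linarith [lam_lt_four]
  · rw [abs_mul]; norm_num; linarith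

/-- Labels of the half sides that can be opened up. -/
abbrev Lab (h : ℕ) : Type := (ℤ × ℤ × ℤ) × (Fin (h + 2) × Bool) × Bool

/-- The box over the cube `β`, unbounded in the directions listed in `T`. -/
def Wb (ρ : ℝ) (T : Finset (Lab h)) (β : ℤ × ℤ × ℤ) : Set (EE h) :=
  {y | InP β y} ∩ {y | ∀ c s, IsFib c → (β, c, s) ∉ T → sg s * rc y c < ρ}

theorem isOB_Wb (ρ : ℝ) (T : Finset (Lab h)) (β : ℤ × ℤ × ℤ) : IsOB (Wb ρ T β) :=
  (isOB_InP β).inter (isOB_forall fun c => isOB_forall fun s => isOB_imp _ (isOB_imp _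
    (isOB_lt c s ρ)))

theorem Wb_mono (ρ : ℝ) {T T' : Finset (Lab h)} (hT : T ⊆ T') (β : ℤ × ℤ × ℤ) :
    Wb ρ T β ⊆ Wb ρ T' β := fun _ hy => ⟨hy.1, fun c s hc hs => hy.2 c s hc fun h' => hs (hT h')⟩

theorem mem_Wb_of_insert {ρ : ℝ} {T : Finset (Lab h)} {α β : ℤ × ℤ × ℤ}
    {c : Fin (h + 2) × Bool} {s : Bool} {y : EE h} (hy : y ∈ Wb ρ (insert (α, c, s) T) β)
    (h' : β = α → IsFib c → sg s * rc y c < ρ) : y ∈ Wb ρ T β := by
  refine ⟨hy.1, fun c' s' hc' hs' => ?_⟩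
  by_cases he : (β, c', s') = (α, c, s)
  · obtain ⟨rfl, rfl, rfl⟩ : β = α ∧ c' = c ∧ s' = s := by simpa using he
    exact h' rfl hc'
  · exact hy.2 c' s' hc' fun hm => (Finset.mem_insert.1 hm).elim he hs'

variable (Mo : Model h)

/-- The increasing family of open sets. -/
def DD (ρ : ℝ) (T : Finset (Lab h)) : Set Mo.X :=
  {x | Mo.ψ x < 1} ∪ ⋃ β ∈ {β | Adm β}, Mo.π '' (Wb ρ T β ∩ Om h)

theorem mem_DD {ρ : ℝ} {T : Finset (Lab h)} {x : Mo.X} :
    x ∈ DD Mo ρ T ↔ Mo.ψ x < 1 ∨ ∃ β, Adm β ∧ ∃ y, (y ∈ Wb ρ T β ∧ y ∈ Om h) ∧ Mo.π y = x := by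
  simp only [DD, mem_union, mem_ofPred_eq, mem_iUnion, mem_image, mem_inter_iff, exists_prop]

theorem isOpen_DD (ρ : ℝ) (T : Finset (Lab h)) : IsOpen (DD Mo ρ T) :=
  (isOpen_lt Mo.psi_cont continuous_const).union (isOpen_biUnion fun β _ =>
    Mo.open_image _ ((isOB_Wb ρ T β).isOpen.inter isOpen_Om) inter_subset_right)

theorem DD_mono (ρ : ℝ) {T T' : Finset (Lab h)} (hT : T ⊆ T') : DD Mo ρ T ⊆ DD Mo ρ T' := by
  intro x hx
  rw [mem_DD] at *
  rcases hx with hx | ⟨β, hβ, y, hy, rfl⟩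
  · exact Or.inl hx
  · exact Or.inr ⟨β, hβ, y, ⟨Wb_mono ρ hT β hy.1, hy.2⟩, rfl⟩

theorem DD_insert_of_not {ρ : ℝ} {T : Finset (Lab h)} {α : ℤ × ℤ × ℤ}
    {c : Fin (h + 2) × Bool} {s : Bool} (hn : ¬(Adm α ∧ IsFib c)) :
    DD Mo ρ (insert (α, c, s) T) = DD Mo ρ T := by
  refine Subset.antisymm (fun x hx => ?_) (DD_mono Mo ρ (Finset.subset_insert _ _))
  rw [mem_DD] at *
  rcases hx with hx | ⟨β, hβ, y, hy, rfl⟩
  · exact Or.inl hx
  · exact Or.inr ⟨β, hβ, y, ⟨mem_Wb_of_insert hy.1 fun h1 h2 => (hn ⟨h1 ▸ hβ, h2⟩).elim, hy.2⟩,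
      rfl⟩

theorem bump_insert {ρ : ℝ} (hρ : 3 ≤ ρ) (T : Finset (Lab h)) {α : ℤ × ℤ × ℤ}
    {c : Fin (h + 2) × Bool} (s : Bool) (hα : Adm α) (hc : IsFib c) :
    BumpStep (h + 2) (hsM (h + 2) Mo.X) (finite_adm.prod finite_rel).toFinset.card
      (DD Mo ρ T) (DD Mo ρ (insert (α, c, s) T)) := by
  set B : Set (EE h) := Wb ρ (insert (α, c, s) T) α ∩ {y | ρ / 2 < sg s * rc y c} with hB
  have hBO : IsOB B := (isOB_Wb _ _ _).inter (isOB_gt c s _)
  have hnv : ∀ y ∈ B, ρ / 2 < nv y := fun y hy =>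
    (lt_of_lt_of_le hy.2 (sg_mul_le_abs s _)).trans_le (abs_rc_le_nv y hc)
  have hBm : B ⊆ Om h := fun y hy => mem_Om.2 (by linarith [hnv y hy])
  have hinj : InjOn Mo.π B := by
    intro y hy y' hy' he
    obtain ⟨k, a, rfl⟩ := (Mo.eq_iff y (hBm hy) y' (hBm hy')).1 he
    exact (eq_of_InP hα hy.1.1 hy'.1.1).symm
  obtain ⟨e, he, ht, hs⟩ := Mo.good_chart hBO.isOpen hBm hinj
  obtain ⟨I, hI, hIB⟩ := hBO
  have hJ : ∀ p : (ℤ × ℤ × ℤ) × ℤ × ℤ × ℤ, IsOB (B ∩ act p.2.1 p.2.2 ⁻¹' Wb ρ T p.1) := fun p =>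
    IsOB.inter ⟨I, hI, hIB⟩ ((isOB_Wb ρ T p.1).preimage_act _ _)
  choose J hJ1 hJ2 using hJ
  refine ⟨isOpen_DD Mo ρ T, e, he, I, hI, by rw [ht, hIB], ?_,
    (finite_adm.prod finite_rel).toFinset.toList.map J, by simp, ?_, ?_⟩
  · rw [hs, ← hIB]
    refine Subset.antisymm (fun x hx => ?_)
      (union_subset (DD_mono Mo ρ (Finset.subset_insert _ _)) ?_)
    · rcases (mem_DD Mo).1 hx with hx | ⟨β, hβ, y, hy, rfl⟩
      · exact Or.inl ((mem_DD Mo).2 (Or.inl hx))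
      · by_cases h1 : β = α ∧ ρ / 2 < sg s * rc y c
        · obtain ⟨rfl, h1⟩ := h1
          exact Or.inr ⟨y, ⟨hy.1, h1⟩, rfl⟩
        · refine Or.inl ((mem_DD Mo).2 (Or.inr ⟨β, hβ, y, ⟨mem_Wb_of_insert hy.1 fun h2 _ => ?_,
            hy.2⟩, rfl⟩))
          have h3 : sg s * rc y c ≤ ρ / 2 := not_lt.1 fun h3 => h1 ⟨h2, h3⟩
          linarith
    · rintro _ ⟨y, hy, rfl⟩
      exact (mem_DD Mo).2 (Or.inr ⟨α, hα, y, ⟨hy.1, hBm hy⟩, rfl⟩)
  · intro I' hI'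
    obtain ⟨p, -, rfl⟩ := List.mem_map.1 hI'
    exact ⟨hJ1 p, by rw [ht, ← hJ2]; exact inter_subset_left⟩
  · rw [hs, ← hIB]
    ext x
    simp only [mem_iUnion, List.mem_map, Finset.mem_toList, Finite.mem_toFinset, exists_prop]
    constructor
    · rintro ⟨hx, y, hy, rfl⟩
      rcases (mem_DD Mo).1 hx with hx | ⟨β, hβ, y', hy', he'⟩
      · exfalso
        rw [Mo.psi_pi y (hBm hy), psi] at hx
        have h1 := hnv y hy
        have h2 := (hy.1.1.bounds hα).2.1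
        nlinarith
      · obtain ⟨k, a, rfl⟩ := (Mo.eq_iff y (hBm hy) y' hy'.2).1 he'.symm
        refine ⟨J (β, k, a), ⟨(β, k, a), ⟨hβ, rel_of_InP hα hβ hy.1.1 hy'.1.1⟩, rfl⟩, y, ?_, rfl⟩
        rw [← hJ2]
        exact ⟨hy, hy'.1⟩
    · rintro ⟨_, ⟨p, hp, rfl⟩, y, hy, rfl⟩
      rw [← hJ2] at hy
      refine ⟨(mem_DD Mo).2 (Or.inr ⟨p.1, hp.1, act p.2.1 p.2.2 y,
        ⟨hy.2, (act_mem_Om _ _).2 (hBm hy.1)⟩, Mo.pi_act _ _ (hBm hy.1)⟩), y, hy.1, rfl⟩

theorem reach {ρ : ℝ} (hρ : 3 ≤ ρ) (T : Finset (Lab h)) :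
    Relation.ReflTransGen
      (BumpStep (h + 2) (hsM (h + 2) Mo.X) (finite_adm.prod finite_rel).toFinset.card)
      (DD Mo ρ ∅) (DD Mo ρ T) := by
  induction T using Finset.induction_on with
  | empty => exact Relation.ReflTransGen.refl
  | insert p T _ ih =>
    obtain ⟨α, c, s⟩ := p
    by_cases hp : Adm α ∧ IsFib c
    · exact ih.tail (bump_insert Mo hρ T s hp.1 hp.2)
    · rw [DD_insert_of_not Mo hp]
      exact ih

theorem mem_DD_of {ρ : ℝ} {T : Finset (Lab h)} {x : Mo.X}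
    (hx : Mo.ψ x < ρ ∨ ∀ β c s, Adm β → (β, c, s) ∈ T) : x ∈ DD Mo ρ T := by
  rw [mem_DD]
  by_cases h1 : Mo.ψ x < 1
  · exact Or.inl h1
  obtain ⟨y, hy, rfl⟩ := Mo.surj x
  rw [Mo.psi_pi y hy] at h1 hx
  have h2 : (y 0).im ≠ 0 := fun h2 => h1 (by rw [psi, h2]; simp)
  obtain ⟨k, a, β, hβ, h3, h4⟩ := exists_normal h2
  refine Or.inr ⟨β, hβ, act k a y, ⟨⟨h3, fun c s hc hs => ?_⟩, (act_mem_Om _ _).2 hy⟩,
    Mo.pi_act _ _ hy⟩
  rcases hx with hx | hx
  · rw [← psi_act k a, psi] at hx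
    have h5 := (sg_mul_le_abs s _).trans (abs_rc_le_nv (act k a y) hc)
    nlinarith [nv_nonneg (act k a y)]
  · exact (hs (hx β c s hβ)).elim

theorem DD_empty_subset {ρ : ℝ} (hρ : 3 ≤ ρ) : DD Mo ρ ∅ ⊆ {x | Mo.ψ x ≤ 5 * ρ} := by
  intro x hx
  rcases (mem_DD Mo).1 hx with hx | ⟨β, hβ, y, hy, rfl⟩
  · change Mo.ψ x ≤ 5 * ρ
    linarith
  · change Mo.ψ (Mo.π y) ≤ 5 * ρ
    rw [Mo.psi_pi y hy.2, psi]
    have h1 : nv y < ρ := (nv_lt_iff (by linarith)).2 fun c hc =>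
      abs_lt_of_sg fun s => hy.1.2 c s hc (Finset.notMem_empty _)
    have h2 := (hy.1.1.bounds hβ).2.2.1
    nlinarith [nv_nonneg y, abs_nonneg (y 0).im]

end Geo2

open Geo2 in
theorem exists_bumps : ∃ M : ℕ, ∀ (h : ℕ) (Mo : Model h) (C : Set Mo.X), IsCompact C →
    ∃ D C' : Set Mo.X, IsOpen D ∧ IsCompact C' ∧ C ⊆ D ∧ D ⊆ C' ∧
      Relation.ReflTransGen (BumpStep (h + 2) (hsM (h + 2) Mo.X) M) D univ := by
  refine ⟨(finite_adm.prod finite_rel).toFinset.card, fun h Mo C hC => ?_⟩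
  obtain ⟨b, hb⟩ := hC.bddAbove_image Mo.psi_cont.continuousOn
  have hρ : 3 ≤ max 3 (b + 1) := le_max_left _ _
  refine ⟨DD Mo (max 3 (b + 1)) ∅, _, isOpen_DD Mo _ _, Mo.psi_compact _, fun x hx => ?_,
    DD_empty_subset Mo hρ, ?_⟩
  · refine mem_DD_of Mo (Or.inl ?_)
    have h1 : Mo.ψ x ≤ b := hb ⟨x, hx, rfl⟩
    linarith [le_max_right 3 (b + 1)]
  · have h1 : DD Mo (max 3 (b + 1)) (finite_adm.toFinset ×ˢ Finset.univ) = univ :=
      eq_univ_of_forall fun x => mem_DD_of Mo (Or.inr fun β c s hβ =>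
        Finset.mem_product.2 ⟨finite_adm.mem_toFinset.2 hβ, Finset.mem_univ _⟩)
    rw [← h1]
    exact reach Mo hρ _

end Pool.Agent.QMax.Geo
end
end

-- part Pool.Agent.Lib.MP_ec9812_ag.Geo3
section

/-! Finite covers by small boxes all of whose intersections are boxes. -/

open Set Filter Topology

noncomputable section

namespace Pool.Agent.QMax.Geo3

open Pool.Agent.QMax.Geo

variable {h : ℕ}

/-- Closed cube of radius `ρ`. -/
def Qb (y : EE h) (ρ : ℝ) : Set (EE h) := Box (fun c => rc y c - ρ) (fun c => rc y c + ρ)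

/-- Open cube of radius `ρ`. -/
def Pb (y : EE h) (ρ : ℝ) : Set (EE h) := OBox fun c => Ioo (rc y c - ρ) (rc y c + ρ)

theorem isOpen_Pb (y : EE h) (ρ : ℝ) : IsOpen (Pb y ρ) :=
  IsOI.isOpen fun _ => ⟨isOpen_Ioo, ordConnected_Ioo⟩

theorem Pb_subset_Qb (y : EE h) (ρ : ℝ) : Pb y ρ ⊆ Qb y ρ :=
  fun _ hz c => Ioo_subset_Icc_self (hz c)

theorem Qb_subset_Pb (y : EE h) {ρ ρ' : ℝ} (hρ : ρ < ρ') : Qb y ρ ⊆ Pb y ρ' :=
  fun _ hz c => ⟨by linarith [(hz c).1], by linarith [(hz c).2]⟩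

theorem mem_Pb (y : EE h) {ρ : ℝ} (hρ : 0 < ρ) : y ∈ Pb y ρ :=
  fun _ => ⟨by linarith, by linarith⟩

theorem Qb_subset_ball (y : EE h) {ρ δ : ℝ} (hδ : 0 < δ) (hρ : 2 * ρ < δ) :
    Qb y ρ ⊆ Metric.ball y δ := by
  intro z hz
  rw [Metric.mem_ball, dist_pi_lt_iff hδ]
  intro i
  have h1 := hz (i, true)
  have h2 := hz (i, false)
  simp only [rc_true, rc_false, mem_Icc] at h1 h2
  rw [dist_eq_norm]
  refine (Complex.norm_le_abs_re_add_abs_im _).trans_lt ?_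
  have h3 : |(z i - y i).re| ≤ ρ := by
    rw [Complex.sub_re, abs_le]; constructor <;> linarith [h1.1, h1.2]
  have h4 : |(z i - y i).im| ≤ ρ := by
    rw [Complex.sub_im, abs_le]; constructor <;> linarith [h2.1, h2.2]
  linarith

theorem preimage_act_Box (k : ℤ) (a : ℤ × ℤ) (u v : Fin (h + 2) × Bool → ℝ) :
    ∃ u' v', act k a ⁻¹' Box u v = Box u' v' := by
  refine ⟨fun c => (u c - if c.2 then sh a c.1 else 0) / sc k c.1,
    fun c => (v c - if c.2 then sh a c.1 else 0) / sc k c.1, ?_⟩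
  ext y
  simp only [Box, mem_preimage, mem_ofPred_eq, mem_Icc, rc_act]
  refine forall_congr' fun c => ?_
  rw [div_le_iff₀ (sc_pos k c.1), le_div_iff₀ (sc_pos k c.1)]
  constructor <;> rintro ⟨h1, h2⟩ <;> constructor <;> linarith

variable (Mo : Model h)

theorem exists_lift {C : Set Mo.X} (hC : IsCompact C) :
    ∃ C' : Set (EE h), IsCompact C' ∧ C' ⊆ Om h ∧ C ⊆ Mo.π '' C' := by
  refine hC.induction_on (p := fun s => ∃ C' : Set (EE h), IsCompact C' ∧ C' ⊆ Om h ∧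
    s ⊆ Mo.π '' C') ⟨∅, isCompact_empty, empty_subset _, empty_subset _⟩ ?_ ?_ ?_
  · rintro s t hst ⟨C', h1, h2, h3⟩
    exact ⟨C', h1, h2, hst.trans h3⟩
  · rintro s t ⟨C', h1, h2, h3⟩ ⟨C'', h4, h5, h6⟩
    exact ⟨C' ∪ C'', h1.union h4, union_subset h2 h5, by
      rw [image_union]; exact union_subset_union h3 h6⟩
  · intro x _
    obtain ⟨y, hy, rfl⟩ := Mo.surj x
    obtain ⟨K, hK, hyK, hKO⟩ := exists_compact_subset isOpen_Om hy
    refine ⟨Mo.π '' interior K, mem_nhdsWithin_of_mem_nhds ?_, K, hK, hKO,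
      image_mono interior_subset⟩
    exact (Mo.open_image _ isOpen_interior (interior_subset.trans hKO)).mem_nhds ⟨y, hyK, rfl⟩

/-- One group element relates `V` and `V'`. -/
def Rel1 (V V' : Set (EE h)) : Prop :=
  V ⊆ Om h ∧ ∃ k a, ∀ z ∈ V, ∀ z' ∈ V', Mo.π z = Mo.π z' → z' = act k a z

theorem exists_rel1 {y y' : EE h} (hy : y ∈ Om h) (hy' : y' ∈ Om h) :
    ∃ V V', IsOpen V ∧ IsOpen V' ∧ y ∈ V ∧ y' ∈ V' ∧ Rel1 Mo V V' := by
  have := Mo.t2
  by_cases he : Mo.π y = Mo.π y'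
  · obtain ⟨k, a, rfl⟩ := (Mo.eq_iff y hy y' hy').1 he
    obtain ⟨W, h1, h2, h3, h4⟩ := Mo.locInj _ hy'
    refine ⟨act k a ⁻¹' W, W, h1.preimage (continuous_act k a), h1, h2, h2,
      fun z hz => (act_mem_Om k a).1 (h3 hz), k, a, fun z hz z' hz' hzz => ?_⟩
    refine h4 hz' hz ?_
    rw [Mo.pi_act k a ((act_mem_Om k a).1 (h3 hz)), hzz]
  · obtain ⟨A, A', h1, h2, h3, h4, h5⟩ := t2_separation he
    refine ⟨Om h ∩ Mo.π ⁻¹' A, Om h ∩ Mo.π ⁻¹' A', Mo.cont.isOpen_inter_preimage isOpen_Om h1,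
      Mo.cont.isOpen_inter_preimage isOpen_Om h2, ⟨hy, h3⟩, ⟨hy', h4⟩, inter_subset_left, 0, 0,
      fun z hz z' hz' hzz => ?_⟩
    exact (Set.disjoint_left.1 h5 hz.2 (by rw [hzz]; exact hz'.2)).elim

theorem exists_delta {C' : Set (EE h)} (hC : IsCompact C') (hO : C' ⊆ Om h) :
    ∃ δ > 0, ∀ y ∈ C', ∀ y' ∈ C', Rel1 Mo (Metric.ball y δ) (Metric.ball y' δ) := by
  obtain ⟨δ, hδ, H⟩ := lebesgue_number_lemma_of_metric (s := C' ×ˢ C')
    (c := fun p : {p : Set (EE h) × Set (EE h) // IsOpen p.1 ∧ IsOpen p.2 ∧ Rel1 Mo p.1 p.2} =>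
      p.1.1 ×ˢ p.1.2) (hC.prod hC) (fun p => p.2.1.prod p.2.2.1) (by
      rintro ⟨y, y'⟩ ⟨hy, hy'⟩
      obtain ⟨V, V', h1, h2, h3, h4, h5⟩ := exists_rel1 Mo (hO hy) (hO hy')
      exact mem_iUnion.2 ⟨⟨(V, V'), h1, h2, h5⟩, h3, h4⟩)
  refine ⟨δ, hδ, fun y hy y' hy' => ?_⟩
  obtain ⟨⟨⟨V, V'⟩, hV, hV', h1, k, a, h2⟩, hp⟩ := H (y, y') ⟨hy, hy'⟩
  rw [← ball_prod_same] at hp
  have h3 : ∀ z ∈ Metric.ball y δ, ∀ z' ∈ Metric.ball y' δ, z ∈ V ∧ z' ∈ V' :=
    fun z hz z' hz' => hp (mk_mem_prod hz hz')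
  exact ⟨fun z hz => h1 (h3 z hz y' (Metric.mem_ball_self hδ)).1, k, a,
    fun z hz z' hz' hzz => h2 z (h3 z hz z' hz').1 z' (h3 z hz z' hz').2 hzz⟩

theorem Rel1.injOn {V : Set (EE h)} (hV : Rel1 Mo V V) : InjOn Mo.π V := by
  obtain ⟨-, k, a, H⟩ := hV
  intro z hz z' hz' hzz
  rw [H z hz z' hz' hzz, ← H z hz z hz rfl]

theorem capL_box {ι : Type} {V : ι → Set (EE h)} (hV : ∀ i j, Rel1 Mo (V i) (V j))
    {u v : ι → Fin (h + 2) × Bool → ℝ} (hsub : ∀ i, Box (u i) (v i) ⊆ V i) (i : ι) (J : List ι) :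
    ∃ a b, Box a b ⊆ V i ∧
      capL (fun j => Mo.π '' Box (u j) (v j)) (i :: J) = Mo.π '' Box a b := by
  induction J with
  | nil => exact ⟨u i, v i, hsub i, by ext x; simp [capL]⟩
  | cons j J ih =>
    obtain ⟨a, b, h1, h2⟩ := ih
    obtain ⟨hO, k, g, H⟩ := hV i j
    obtain ⟨a', b', h3⟩ := preimage_act_Box k g (u j) (v j)
    refine ⟨a ⊔ a', b ⊓ b', ?_, ?_⟩
    · rw [← Box_inter]; exact inter_subset_left.trans h1
    · rw [← Box_inter, ← h3]
      ext x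
      have h4 : x ∈ capL (fun j => Mo.π '' Box (u j) (v j)) (i :: j :: J) ↔
          x ∈ Mo.π '' Box a b ∧ x ∈ Mo.π '' Box (u j) (v j) := by
        rw [← h2]
        simp only [mem_capL_cons]
        tauto
      rw [h4]
      constructor
      · rintro ⟨⟨z, hz, rfl⟩, z', hz', hzz⟩
        refine ⟨z, ⟨hz, ?_⟩, rfl⟩
        rw [mem_preimage, ← H z (h1 hz) z' (hsub j hz') hzz.symm]
        exact hz'
      · rintro ⟨z, ⟨hz, hz'⟩, rfl⟩
        exact ⟨⟨z, hz, rfl⟩, act k g z, hz', Mo.pi_act k g (hO (h1 hz))⟩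

theorem levels_of {ι : Type} {y : ι → EE h} {δ : ℝ} (hδ : 0 < δ)
    (hV : ∀ i j, Rel1 Mo (Metric.ball (y i) δ) (Metric.ball (y j) δ)) {ρ : ι → ℝ → ℝ}
    (hρ : ∀ i, StrictMono (ρ i)) (h6 : ∀ i, 2 * ρ i 6 < δ) :
    Levels 6 (fun r i => Mo.π '' Pb (y i) (ρ i r)) (fun r i => Mo.π '' Qb (y i) (ρ i r)) ∧
      ∀ r ≤ 6, ∀ J : List ι, J ≠ [] →
        IsCBox (h + 2) (hsM (h + 2) Mo.X) (capL (fun i => Mo.π '' Qb (y i) (ρ i r)) J) := by
  have hsub : ∀ r ≤ 6, ∀ i, Qb (y i) (ρ i r) ⊆ Metric.ball (y i) δ := fun r hr i =>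
    Qb_subset_ball _ hδ (by linarith [(hρ i).monotone hr, h6 i])
  have key : ∀ r ≤ 6, ∀ (i : ι) (J : List ι), ∃ a b, Box a b ⊆ Metric.ball (y i) δ ∧
      capL (fun i => Mo.π '' Qb (y i) (ρ i r)) (i :: J) = Mo.π '' Box a b :=
    fun r hr i J => capL_box Mo hV (hsub r hr) i J
  refine ⟨⟨fun r hr i => Mo.open_image _ (isOpen_Pb _ _)
    ((Pb_subset_Qb _ _).trans ((hsub r hr i).trans (hV i i).1)), fun r hr J hJ => ?_,
    fun r _ i => image_mono (Pb_subset_Qb _ _),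
    fun r r' hrr _ i => image_mono (Qb_subset_Pb _ (hρ i hrr))⟩, fun r hr J hJ => ?_⟩
  · obtain ⟨i, J, rfl⟩ := List.exists_cons_of_ne_nil hJ
    obtain ⟨a, b, h1, h2⟩ := key r hr i J
    rw [h2]
    exact (isCompact_Box a b).image_of_continuousOn (Mo.cont.mono (h1.trans (hV i i).1))
  · obtain ⟨i, J, rfl⟩ := List.exists_cons_of_ne_nil hJ
    obtain ⟨a, b, h1, h2⟩ := key r hr i J
    obtain ⟨e, he, h3, h4⟩ := Mo.good_chart Metric.isOpen_ball (hV i i).1 (Rel1.injOn Mo (hV i i))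
    exact ⟨e, he, a, b, h3 ▸ h1, by rw [h2, h4]⟩

theorem exists_cover {C : Set Mo.X} (hC : IsCompact C) {S : Set (EE h)} (hS : C ⊆ Mo.π '' S)
    {ρ : S → ℝ} (hρ : ∀ y, 0 < ρ y) (hO : ∀ y : S, Pb y.1 (ρ y) ⊆ Om h) :
    ∃ t : Finset S, C ⊆ ⋃ y : t, Mo.π '' Pb y.1.1 (ρ y.1) := by
  obtain ⟨t, ht⟩ := hC.elim_finite_subcover (fun y : S => Mo.π '' Pb y.1 (ρ y))
    (fun y => Mo.open_image _ (isOpen_Pb _ _) (hO y)) (fun x hx => by
      obtain ⟨y, hy, rfl⟩ := hS hx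
      exact mem_iUnion.2 ⟨⟨y, hy⟩, y, mem_Pb _ (hρ _), rfl⟩)
  refine ⟨t, fun x hx => ?_⟩
  obtain ⟨y, hy, hx⟩ := mem_iUnion₂.1 (ht hx)
  exact mem_iUnion.2 ⟨⟨y, hy⟩, hx⟩

end Pool.Agent.QMax.Geo3

namespace Pool.Agent.QMax.Geo

open Pool.Agent.QMax.Geo3

theorem exists_levels {h : ℕ} (Mo : Model h) {C₁ D C₂ : Set Mo.X} (h₁ : IsCompact C₁)
    (hD : IsOpen D) (h₁D : C₁ ⊆ D) (h₂ : IsCompact C₂) :
    ∃ (ι : Type) (_ : Fintype ι) (U K : ℝ → ι → Set Mo.X), Levels 6 U K ∧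
      (∀ r ≤ 6, ∀ J : List ι, J ≠ [] → IsCBox (h + 2) (hsM (h + 2) Mo.X) (capL (K r) J)) ∧
      C₁ ⊆ ⋃ i, U 0 i ∧ ⋃ i, U 2 i ⊆ D ∧ C₂ ⊆ ⋃ i, U 3 i := by
  obtain ⟨C', hC', hO, hsub⟩ := exists_lift Mo (h₁.union h₂)
  obtain ⟨δ, hδ, hV⟩ := exists_delta Mo hC' hO
  -- inner cubes
  have hin : ∀ y : (C' ∩ Mo.π ⁻¹' C₁ : Set (EE h)), ∃ ε > 0, ε ≤ δ ∧
      Metric.ball y.1 ε ⊆ Mo.π ⁻¹' D := by
    rintro ⟨y, hy, hy1⟩
    obtain ⟨ε, hε, h3⟩ := Metric.isOpen_iff.1 (Mo.cont.isOpen_inter_preimage isOpen_Om hD) y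
      ⟨hO hy, h₁D hy1⟩
    exact ⟨min ε δ, lt_min hε hδ, min_le_right _ _,
      (Metric.ball_subset_ball (min_le_left _ _)).trans (h3.trans inter_subset_right)⟩
  choose ε hε hεδ hεD using hin
  have hPO : ∀ y ∈ C', ∀ ρ, 2 * ρ < δ → Pb y ρ ⊆ Om h := fun y hy ρ hρ =>
    (Pb_subset_Qb _ _).trans ((Qb_subset_ball _ hδ hρ).trans (hV y hy y hy).1)
  obtain ⟨t₁, ht₁⟩ := exists_cover Mo h₁ (S := C' ∩ Mo.π ⁻¹' C₁) (fun x hx => by
      obtain ⟨y, hy, rfl⟩ := hsub (Or.inl hx)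
      exact ⟨y, ⟨hy, hx⟩, rfl⟩) (ρ := fun y => ε y * (0 + 1) / 20)
    (fun y => by linarith [hε y]) (fun y => hPO _ y.2.1 _ (by linarith [hε y, hεδ y]))
  obtain ⟨t₂, ht₂⟩ := exists_cover Mo h₂ (S := C') (subset_union_right.trans hsub)
    (ρ := fun _ => δ * (3 - 2) / 20) (fun y => by linarith)
    (fun y => hPO _ y.2 _ (by linarith))
  obtain ⟨hL, hB⟩ := levels_of Mo (ι := t₁ ⊕ t₂)
    (y := Sum.elim (fun y => y.1.1) (fun y => y.1.1)) hδ
    (fun i j => hV _ (by rcases i with i | i; exacts [i.1.2.1, i.1.2]) _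
      (by rcases j with j | j; exacts [j.1.2.1, j.1.2]))
    (ρ := Sum.elim (fun y r => ε y.1 * (r + 1) / 20) (fun _ r => δ * (r - 2) / 20))
    (by
      rintro (i | i) r r' hr
      · have := hε i.1
        simp only [Sum.elim_inl]
        nlinarith
      · simp only [Sum.elim_inr]
        nlinarith)
    (by
      rintro (i | i)
      · have := hεδ i.1
        simp only [Sum.elim_inl]
        linarith
      · simp only [Sum.elim_inr]
        linarith)
  refine ⟨t₁ ⊕ t₂, inferInstance, _, _, hL, hB, ?_, ?_, ?_⟩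
  · exact ht₁.trans (iUnion_subset fun i => subset_iUnion_of_subset (Sum.inl i) Subset.rfl)
  · refine iUnion_subset ?_
    rintro (i | i) x ⟨z, hz, rfl⟩
    · refine hεD i.1 (Qb_subset_ball _ (hε _) ?_ (Pb_subset_Qb _ _ hz))
      have := hε i.1
      simp only [Sum.elim_inl]
      linarith
    · have := hz (0, true)
      simp only [Sum.elim_inr, mem_Ioo] at this
      exfalso
      linarith [this.1, this.2]
  · exact ht₂.trans (iUnion_subset fun i => subset_iUnion_of_subset (Sum.inr i) Subset.rfl)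

end Pool.Agent.QMax.Geo
end
end
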